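import Mathlib

/-!
# Linear systems with real polynomial coefficients (helper50)

`A` a matrix, `b` a vector of real polynomials.  `M = Aᵀ A` (square).  If `det M = 0` there is `v ≠ 0` with
`M v = 0` (`Matrix.exists_mulVec_eq_zero_iff`, `ℝ[X]` is a domain); then `∑_r (A v)_r² = v · (M v) = 0`, and a
sum of squares of real polynomials is zero only if all are zero (evaluate at every real number), so
`A v = 0`.  If `Δ = det M ≠ 0`: `N = adj(M) Aᵀ b`; if `A(y) x = b(y)` then
`Δ(y) x = adj(M)(y) M(y) x = adj(M)(y) Aᵀ(y) A(y) x = N(y)` (`Matrix.adjugate_mul`; evaluation at `y` is the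
ring homomorphism `Polynomial.evalRingHom y`).
-/

namespace Pool.Agent.QnS

open scoped BigOperators
open Polynomial

private theorem cramer_aux {κ : Type*} [Fintype κ] [DecidableEq κ] (M : Matrix κ κ ℝ[X]) (c : κ → ℝ[X])
    (y : ℝ) (x : κ → ℝ) (h : Matrix.mulVec (M.map (evalRingHom y)) x = fun j => (c j).eval y) (j : κ) :
    M.det.eval y * x j = ((M.adjugate.mulVec c) j).eval y := by
  have e1 : ((M.adjugate.mulVec c) j).eval y =
      (Matrix.mulVec (M.adjugate.map (evalRingHom y)) (evalRingHom y ∘ c)) j :=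
    RingHom.map_mulVec (evalRingHom y) M.adjugate c j
  have e2 : (evalRingHom y ∘ c) = Matrix.mulVec (M.map (evalRingHom y)) x := h.symm
  have e3 : M.adjugate.map (evalRingHom y) = (M.map (evalRingHom y)).adjugate :=
    RingHom.map_adjugate (evalRingHom y) M
  have e4 : M.det.eval y = (M.map (evalRingHom y)).det := RingHom.map_det (evalRingHom y) M
  rw [e1, e2, e3, Matrix.mulVec_mulVec, Matrix.adjugate_mul, Matrix.smul_mulVec, Matrix.one_mulVec,
    Pi.smul_apply, smul_eq_mul, e4]

theorem dich {R κ : Type*} [Fintype R] [Fintype κ] [DecidableEq κ] (A : R → κ → ℝ[X]) (b : R → ℝ[X]) :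
    (∃ v : κ → ℝ[X], (∃ i, v i ≠ 0) ∧ ∀ r, ∑ j, A r j * v j = 0) ∨
    ∃ Δ : ℝ[X], Δ ≠ 0 ∧ ∃ N : κ → ℝ[X], ∀ (y : ℝ) (x : κ → ℝ),
      (∀ r, ∑ j, (A r j).eval y * x j = (b r).eval y) → ∀ j, Δ.eval y * x j = (N j).eval y := by
  obtain ⟨B, hB⟩ : ∃ B : Matrix R κ ℝ[X], ∀ r j, B r j = A r j := ⟨Matrix.of A, fun _ _ => rfl⟩
  by_cases hdet : (B.transpose * B).det = 0
  · left
    obtain ⟨v, hv0, hv⟩ := Matrix.exists_mulVec_eq_zero_iff.2 hdet
    refine ⟨v, Function.ne_iff.1 hv0, ?_⟩
    have h1 : dotProduct (B.mulVec v) (B.mulVec v) = 0 := by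
      rw [Matrix.dotProduct_mulVec, ← Matrix.mulVec_transpose, Matrix.mulVec_mulVec, hv,
        zero_dotProduct]
    have h2 : ∀ r, (B.mulVec v) r = 0 := by
      intro r
      apply Polynomial.funext
      intro y
      have h3 := congrArg (Polynomial.eval y) h1
      unfold dotProduct at h3
      rw [Polynomial.eval_finsetSum, Polynomial.eval_zero] at h3
      have h4 : ∀ i ∈ Finset.univ, 0 ≤ Polynomial.eval y ((B.mulVec v) i * (B.mulVec v) i) := by
        intro i _
        rw [Polynomial.eval_mul]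
        exact mul_self_nonneg _
      have h5 := (Finset.sum_eq_zero_iff_of_nonneg h4).1 h3 r (Finset.mem_univ r)
      rw [Polynomial.eval_mul] at h5
      rw [Polynomial.eval_zero]
      exact mul_self_eq_zero.1 h5
    intro r
    rw [← h2 r]
    unfold Matrix.mulVec dotProduct
    refine Finset.sum_congr rfl fun j _ => ?_
    show A r j * v j = B r j * v j
    rw [hB]
  · right
    refine ⟨(B.transpose * B).det, hdet, (B.transpose * B).adjugate.mulVec (B.transpose.mulVec b), ?_⟩
    intro y x h j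
    apply cramer_aux
    have h1 : Matrix.mulVec (B.map (evalRingHom y)) x = evalRingHom y ∘ b := by
      funext r
      unfold Matrix.mulVec dotProduct
      rw [Function.comp_apply]
      show _ = (b r).eval y
      rw [← h r]
      refine Finset.sum_congr rfl fun j _ => ?_
      show (evalRingHom y) (B r j) * x j = (A r j).eval y * x j
      rw [hB]
      rfl
    have h2 : (B.transpose * B).map (evalRingHom y) =
        (B.map (evalRingHom y)).transpose * B.map (evalRingHom y) := by
      rw [Matrix.map_mul, Matrix.transpose_map]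
    rw [h2, ← Matrix.mulVec_mulVec, h1]
    funext j
    have h3 := RingHom.map_mulVec (evalRingHom y) B.transpose b j
    rw [Matrix.transpose_map] at h3
    exact h3.symm

/-- square systems: a nonzero left null vector, or Cramer's rule. -/
theorem dich_sq {κ : Type*} [Fintype κ] [DecidableEq κ] (A : κ → κ → ℝ[X]) (b : κ → ℝ[X]) :
    (∃ v : κ → ℝ[X], (∃ i, v i ≠ 0) ∧ ∀ j, ∑ r, v r * A r j = 0) ∨
    ∃ Δ : ℝ[X], Δ ≠ 0 ∧ ∃ N : κ → ℝ[X], ∀ (y : ℝ) (x : κ → ℝ),
      (∀ r, ∑ j, (A r j).eval y * x j = (b r).eval y) → ∀ j, Δ.eval y * x j = (N j).eval y := by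
  obtain ⟨B, hB⟩ : ∃ B : Matrix κ κ ℝ[X], ∀ r j, B r j = A r j := ⟨Matrix.of A, fun _ _ => rfl⟩
  by_cases hdet : B.det = 0
  · left
    obtain ⟨v, hv0, hv⟩ := Matrix.exists_vecMul_eq_zero_iff.2 hdet
    refine ⟨v, Function.ne_iff.1 hv0, fun j => ?_⟩
    have h1 := congrFun hv j
    unfold Matrix.vecMul dotProduct at h1
    rw [Pi.zero_apply] at h1
    rw [← h1]
    refine Finset.sum_congr rfl fun r _ => ?_
    show v r * A r j = v r * B r j
    rw [hB]
  · right
    refine ⟨B.det, hdet, B.adjugate.mulVec b, ?_⟩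
    intro y x h j
    apply cramer_aux
    funext r
    unfold Matrix.mulVec dotProduct
    rw [← h r]
    refine Finset.sum_congr rfl fun j _ => ?_
    show (evalRingHom y) (B r j) * x j = (A r j).eval y * x j
    rw [hB]
    rfl

end Pool.Agent.QnS
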