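import Pool.Agent.QnS.Def

/-!
# Algebra of the Cauchy matrix `1/(λ_i - λ_j)` (helper50)

`GG lam c i = ∑_j c_j/(λ_i - λ_j)` (the term `j = i` is `c_i/0 = 0`).  Partial fractions, for different
`i, l, m`: `1/((λ_i-λ_l)(λ_i-λ_m)) = (1/(λ_l-λ_m)) (1/(λ_i-λ_l) - 1/(λ_i-λ_m))`.
* `sq_two`: `0 = (GG c i)² = ∑_l c_l²/(λ_i-λ_l)² + ∑_{l ≠ m} c_l c_m/((λ_i-λ_l)(λ_i-λ_m))`, and the second sum
  is `2 ∑_l (c_l/(λ_i-λ_l)) ∑_{m ≠ l, i} c_m/(λ_l-λ_m) = 2 ∑_l (c_l/(λ_i-λ_l)) (GG c l - c_i/(λ_l-λ_i))
  = 2 c_i ∑_l c_l/(λ_i-λ_l)²` (`GG c l = 0` where `c_l ≠ 0`).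
* `sq_three`: the same with `0 = GG c i * ∑_m c_m/(λ_i-λ_m)²`, using
  `1/((λ_i-λ_l)(λ_i-λ_m)²) = (1/(λ_l-λ_m)²) (1/(λ_i-λ_l) - 1/(λ_i-λ_m)) - 1/((λ_l-λ_m)(λ_i-λ_m)²)`; the first
  part is antisymmetric in `l, m`, the second gives `∑_m (c_m/(λ_i-λ_m)²) (GG c m - c_i/(λ_m-λ_i))
  = c_i ∑_m c_m/(λ_i-λ_m)³`.
* `zero_of_mult`: `sq_two` at `i` with `c_i = 0`: a sum of squares vanishes.
* `LK_sq`: `c_i KK c i = c_i² ∑ 1/(λ_i-λ_l)³ + c_i ∑ c_l/(λ_i-λ_l)³ = LK (c²) i` by `sq_three`, for `m = 1`.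
* `no_alt`: by `LK_sq` and `hw` all `c_i²` are equal, to `v > 0`.  Let `λ_i` be the largest eigenvalue.
  `c_i KK c i = ∑_l (v + c_i c_l)/(λ_i-λ_l)³ = 0`, all terms are nonnegative (`c_i c_l ≥ -v`), so
  `c_i c_l = -v` for `l ≠ i`; then `0 = c_i GG c i = -v ∑_{l ≠ i} 1/(λ_i-λ_l) < 0`.
-/

namespace Pool.Agent.QnS

open scoped BigOperators

variable {κ : Type*} [Fintype κ] [DecidableEq κ] {lam : κ → ℝ} {c : κ → ℝ}

private theorem abs_two (D : κ → κ → ℝ) (hanti : ∀ l m, D l m = -D m l)
    (hpf : ∀ i l m, i ≠ l → i ≠ m → l ≠ m → D i l * D i m = D l m * (D i l - D i m))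
    (c : κ → ℝ) (i : κ) (hi : ∑ j, c j * D i j = 0) (hl : ∀ l, c l * ∑ j, c j * D l j = 0) :
    ∑ l, c l ^ 2 * D i l ^ 2 = -2 * c i * ∑ l, c l * D i l ^ 2 := by
  have hself : ∀ l, D l l = 0 := fun l => by have := hanti l l; linarith
  have key : ∀ l m, c l * D i l * (c m * D i m) =
      (c l * D i l * (c m * D l m) + c m * D i m * (c l * D m l)) +
      ((if l = m then c m ^ 2 * D i m ^ 2 else 0) +
      ((if l = i then c i * (c m * D i m ^ 2) else 0) +
        (if m = i then c i * (c l * D i l ^ 2) else 0))) := by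
    intro l m
    by_cases hlm : l = m
    · subst hlm
      by_cases hli : l = i
      · subst hli
        simp [hself]
      · simp [hself, hli]
        ring
    · by_cases hli : l = i
      · subst hli
        have hmi : ¬ m = l := fun h => hlm h.symm
        have h1 := hanti m l
        simp only [hself, hlm, hmi, if_true, if_false]
        rw [h1]
        ring
      · by_cases hmi : m = i
        · subst hmi
          have h1 := hanti l m
          simp only [hself, hlm, if_true, if_false]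
          rw [h1]
          ring
        · have h1 := hpf i l m (Ne.symm hli) (Ne.symm hmi) hlm
          have h2 := hanti m l
          simp only [hlm, hli, hmi, if_false]
          rw [h2]
          linear_combination c l * c m * h1
  have h0 : ∑ l, ∑ m, c l * D i l * (c m * D i m) = 0 := by
    rw [← Finset.sum_mul_sum, hi, zero_mul]
  have h1 : ∑ l, ∑ m, c l * D i l * (c m * D l m) = 0 := by
    refine Finset.sum_eq_zero fun l _ => ?_
    rw [← Finset.mul_sum]
    linear_combination D i l * hl l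
  have h2 : ∑ l, ∑ m, c m * D i m * (c l * D m l) = 0 := by
    rw [Finset.sum_comm]
    exact h1
  have h3 : ∑ l, ∑ m, (if l = m then c m ^ 2 * D i m ^ 2 else 0) =
      ∑ l, c l ^ 2 * D i l ^ 2 := by
    refine Finset.sum_congr rfl fun l _ => ?_
    rw [Finset.sum_ite_eq, if_pos (Finset.mem_univ l)]
  have h4 : ∑ l, ∑ m, (if l = i then c i * (c m * D i m ^ 2) else 0) =
      c i * ∑ l, c l * D i l ^ 2 := by
    rw [Finset.sum_comm, Finset.mul_sum]
    refine Finset.sum_congr rfl fun m _ => ?_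
    rw [Finset.sum_ite_eq', if_pos (Finset.mem_univ i)]
  have h5 : ∑ l, ∑ m, (if m = i then c i * (c l * D i l ^ 2) else 0) =
      c i * ∑ l, c l * D i l ^ 2 := by
    rw [Finset.mul_sum]
    refine Finset.sum_congr rfl fun m _ => ?_
    rw [Finset.sum_ite_eq', if_pos (Finset.mem_univ i)]
  have h6 := h0
  simp only [key, Finset.sum_add_distrib] at h6
  rw [h1, h2, h3, h4, h5] at h6
  linarith

private theorem abs_three (D : κ → κ → ℝ) (hanti : ∀ l m, D l m = -D m l)
    (hpf : ∀ i l m, i ≠ l → i ≠ m → l ≠ m → D i l * D i m = D l m * (D i l - D i m))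
    (c : κ → ℝ) (i : κ) (hi : ∑ j, c j * D i j = 0) (hl : ∀ l, c l * ∑ j, c j * D l j = 0) :
    ∑ l, c l ^ 2 * D i l ^ 3 = -c i * ∑ l, c l * D i l ^ 3 := by
  have hself : ∀ l, D l l = 0 := fun l => by have := hanti l l; linarith
  have key : ∀ l m, c l * D i l * (c m * D i m ^ 2) =
      (c l * c m * D l m ^ 2 * D i l - c l * c m * D l m ^ 2 * D i m) +
      (c m * D i m ^ 2 * (c l * D m l) +
      ((if l = m then c m ^ 2 * D i m ^ 3 else 0) +
      (((if l = i then c i * (c m * D i m ^ 3) else 0) +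
        (if l = i then c i * (c m * D i m ^ 3) else 0)) -
        (if m = i then c i * (c l * D i l ^ 3) else 0)))) := by
    intro l m
    by_cases hlm : l = m
    · subst hlm
      by_cases hli : l = i
      · subst hli
        simp [hself]
      · simp [hself, hli]
        ring
    · by_cases hli : l = i
      · subst hli
        have hmi : ¬ m = l := fun h => hlm h.symm
        have h1 := hanti m l
        simp only [hself, hlm, hmi, if_true, if_false]
        rw [h1]
        ring
      · by_cases hmi : m = i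
        · subst hmi
          have h1 := hanti l m
          simp only [hself, hlm, if_true, if_false]
          rw [h1]
          ring
        · have h1 := hpf i l m (Ne.symm hli) (Ne.symm hmi) hlm
          have h2 := hanti m l
          simp only [hlm, hli, hmi, if_false]
          rw [h2]
          linear_combination (c l * c m * D i m + c l * c m * D l m) * h1
  have h0 : ∑ l, ∑ m, c l * D i l * (c m * D i m ^ 2) = 0 := by
    rw [← Finset.sum_mul_sum, hi, zero_mul]
  have h1 : ∑ l, ∑ m, c m * D i m ^ 2 * (c l * D m l) = 0 := by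
    rw [Finset.sum_comm]
    refine Finset.sum_eq_zero fun l _ => ?_
    rw [← Finset.mul_sum]
    linear_combination D i l ^ 2 * hl l
  have h2 : ∑ l, ∑ m, c l * c m * D l m ^ 2 * D i m =
      ∑ l, ∑ m, c l * c m * D l m ^ 2 * D i l := by
    rw [Finset.sum_comm]
    refine Finset.sum_congr rfl fun l _ => Finset.sum_congr rfl fun m _ => ?_
    rw [hanti m l]
    ring
  have h3 : ∑ l, ∑ m, (if l = m then c m ^ 2 * D i m ^ 3 else 0) =
      ∑ l, c l ^ 2 * D i l ^ 3 := by
    refine Finset.sum_congr rfl fun l _ => ?_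
    rw [Finset.sum_ite_eq, if_pos (Finset.mem_univ l)]
  have h4 : ∑ l, ∑ m, (if l = i then c i * (c m * D i m ^ 3) else 0) =
      c i * ∑ l, c l * D i l ^ 3 := by
    rw [Finset.sum_comm, Finset.mul_sum]
    refine Finset.sum_congr rfl fun m _ => ?_
    rw [Finset.sum_ite_eq', if_pos (Finset.mem_univ i)]
  have h5 : ∑ l, ∑ m, (if m = i then c i * (c l * D i l ^ 3) else 0) =
      c i * ∑ l, c l * D i l ^ 3 := by
    rw [Finset.mul_sum]
    refine Finset.sum_congr rfl fun m _ => ?_
    rw [Finset.sum_ite_eq', if_pos (Finset.mem_univ i)]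
  have h6 := h0
  simp only [key, Finset.sum_add_distrib, Finset.sum_sub_distrib] at h6
  rw [h1, h2, h3, h4, h5] at h6
  linarith

omit [Fintype κ] [DecidableEq κ] in
private theorem D_anti (lam : κ → ℝ) (l m : κ) :
    (lam l - lam m)⁻¹ = -(lam m - lam l)⁻¹ := by
  rw [← inv_neg, neg_sub]

omit [Fintype κ] [DecidableEq κ] in
private theorem D_pf (hinj : Function.Injective lam) (i l m : κ) (h1 : i ≠ l) (h2 : i ≠ m)
    (h3 : l ≠ m) :
    (lam i - lam l)⁻¹ * (lam i - lam m)⁻¹ =
      (lam l - lam m)⁻¹ * ((lam i - lam l)⁻¹ - (lam i - lam m)⁻¹) := by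
  have e1 : lam i - lam l ≠ 0 := sub_ne_zero.2 (hinj.ne h1)
  have e2 : lam i - lam m ≠ 0 := sub_ne_zero.2 (hinj.ne h2)
  have e3 : lam l - lam m ≠ 0 := sub_ne_zero.2 (hinj.ne h3)
  field_simp
  ring

omit [DecidableEq κ] in
private theorem GG_eq (lam c : κ → ℝ) (i : κ) :
    ∑ j, c j * (lam i - lam j)⁻¹ = GG lam c i := by
  unfold GG
  exact Finset.sum_congr rfl fun j _ => (div_eq_mul_inv _ _).symm

theorem sq_two (hinj : Function.Injective lam) (i : κ) (hi : GG lam c i = 0)
    (hl : ∀ l, c l ≠ 0 → GG lam c l = 0) :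
    ∑ l, c l ^ 2 / (lam i - lam l) ^ 2 = -2 * c i * ∑ l, c l / (lam i - lam l) ^ 2 := by
  have h := abs_two (fun i l => (lam i - lam l)⁻¹) (D_anti lam) (D_pf hinj) c i
    (by rw [GG_eq]; exact hi) (fun l => by
      rw [GG_eq]
      by_cases h : c l = 0
      · rw [h, zero_mul]
      · rw [hl l h, mul_zero])
  simpa only [inv_pow, ← div_eq_mul_inv] using h

theorem sq_three (hinj : Function.Injective lam) (i : κ) (hi : GG lam c i = 0)
    (hl : ∀ l, c l ≠ 0 → GG lam c l = 0) :
    ∑ l, c l ^ 2 / (lam i - lam l) ^ 3 = -c i * ∑ l, c l / (lam i - lam l) ^ 3 := by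
  have h := abs_three (fun i l => (lam i - lam l)⁻¹) (D_anti lam) (D_pf hinj) c i
    (by rw [GG_eq]; exact hi) (fun l => by
      rw [GG_eq]
      by_cases h : c l = 0
      · rw [h, zero_mul]
      · rw [hl l h, mul_zero])
  simpa only [inv_pow, ← div_eq_mul_inv] using h

theorem zero_of_mult (hinj : Function.Injective lam) (i : κ) (hci : c i = 0)
    (hG : ∀ l, GG lam c l = 0) : ∀ l, c l = 0 := by
  intro l
  by_cases hli : l = i
  · rw [hli, hci]
  have h := sq_two hinj i (hG i) (fun l _ => hG l)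
  rw [hci, mul_zero, zero_mul] at h
  have h2 := (Finset.sum_eq_zero_iff_of_nonneg (fun l _ => by positivity)).1 h l
    (Finset.mem_univ l)
  have h3 : lam i - lam l ≠ 0 := sub_ne_zero.2 (hinj.ne (Ne.symm hli))
  rcases div_eq_zero_iff.1 h2 with h4 | h4
  · exact pow_eq_zero_iff two_ne_zero |>.1 h4
  · exact absurd (pow_eq_zero_iff two_ne_zero |>.1 h4) h3

/-- `c_i K(c)_i` is the image of the square. -/
private theorem mul_KK (hinj : Function.Injective lam) {m : κ → ℕ} (hm : ∀ i, m i = 1)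
    (hG : ∀ l, GG lam c l = 0) (i : κ) :
    c i * KK lam m c i = LK lam m (fun l => c l ^ 2) i := by
  have h := sq_three hinj i (hG i) (fun l _ => hG l)
  have h2 : c i * KK lam m c i - LK lam m (fun l => c l ^ 2) i =
      c i * ∑ l, c l / (lam i - lam l) ^ 3 + ∑ l, c l ^ 2 / (lam i - lam l) ^ 3 := by
    unfold KK LK
    rw [Finset.mul_sum, Finset.mul_sum, ← Finset.sum_sub_distrib, ← Finset.sum_add_distrib]
    refine Finset.sum_congr rfl fun l _ => ?_
    rw [hm l]
    push_cast
    ring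
  rw [h] at h2
  linarith

theorem LK_sq (hinj : Function.Injective lam) {m : κ → ℕ} (hm : ∀ i, m i = 1)
    (hG : ∀ l, GG lam c l = 0) (hK : ∀ l, KK lam m c l = 0) (i : κ) :
    LK lam m (fun l => c l ^ 2) i = 0 := by
  rw [← mul_KK hinj hm hG i, hK i, mul_zero]

theorem no_alt (hinj : Function.Injective lam) {m : κ → ℕ} (hm : ∀ i, m i = 1) [Nontrivial κ]
    (hw : ∀ w : κ → ℝ, (∀ i, LK lam m w i = 0) → ∀ i j, w i = w j)
    (hG : ∀ l, GG lam c l = 0) (hK : ∀ l, KK lam m c l = 0) : ∀ l, c l = 0 := by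
  have hsq := hw _ (LK_sq hinj hm hG hK)
  obtain ⟨i, _, hi⟩ := Finset.exists_max_image Finset.univ lam Finset.univ_nonempty
  have hpos : ∀ l, l ≠ i → 0 < lam i - lam l := by
    intro l hl
    exact sub_pos.2 (lt_of_le_of_ne (hi l (Finset.mem_univ l)) (hinj.ne hl))
  obtain ⟨l0, hl0⟩ := exists_ne i
  have hci : c i = 0 := by
    by_contra hc
    have hv : 0 < c i ^ 2 := by positivity
    -- the sum of the terms `(v + c_i c_l)/(λ_i - λ_l)³`
    have h1 : ∑ l, (c i ^ 2 + c i * c l) / (lam i - lam l) ^ 3 = 0 := by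
      have h2 : c i * KK lam m c i = 0 := by rw [hK i, mul_zero]
      unfold KK at h2
      rw [Finset.mul_sum] at h2
      rw [← h2]
      refine Finset.sum_congr rfl fun l _ => ?_
      rw [hm l]
      push_cast
      ring
    have hnn : ∀ l, 0 ≤ c i ^ 2 + c i * c l := by
      intro l
      have e : c l ^ 2 = c i ^ 2 := hsq l i
      nlinarith [sq_nonneg (c i + c l)]
    have hterm : ∀ l ∈ Finset.univ, 0 ≤ (c i ^ 2 + c i * c l) / (lam i - lam l) ^ 3 := by
      intro l _
      by_cases hl : l = i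
      · subst hl
        simp
      · have := hpos l hl
        exact div_nonneg (hnn l) (by positivity)
    have h3 : ∀ l, l ≠ i → c i * c l = -c i ^ 2 := by
      intro l hl
      have h4 := (Finset.sum_eq_zero_iff_of_nonneg hterm).1 h1 l (Finset.mem_univ l)
      have h5 := hpos l hl
      rcases div_eq_zero_iff.1 h4 with h6 | h6
      · linarith
      · exact absurd h6 (by positivity)
    have h7 : c i * GG lam c i = 0 := by rw [hG i, mul_zero]
    unfold GG at h7
    rw [Finset.mul_sum] at h7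
    have h8 : ∀ l ∈ Finset.univ, 0 ≤ -(c i * (c l / (lam i - lam l))) := by
      intro l _
      by_cases hl : l = i
      · subst hl
        simp
      · have h9 := hpos l hl
        have e : -(c i * (c l / (lam i - lam l))) = c i ^ 2 / (lam i - lam l) := by
          rw [← mul_div_assoc, h3 l hl]
          ring
        rw [e]
        positivity
    have h10 : ∑ l, -(c i * (c l / (lam i - lam l))) = 0 := by
      rw [Finset.sum_neg_distrib, h7, neg_zero]
    have h11 := (Finset.sum_eq_zero_iff_of_nonneg h8).1 h10 l0 (Finset.mem_univ l0)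
    have h12 := hpos l0 hl0
    have e : -(c i * (c l0 / (lam i - lam l0))) = c i ^ 2 / (lam i - lam l0) := by
      rw [← mul_div_assoc, h3 l0 hl0]
      ring
    rw [e] at h11
    have h13 : 0 < c i ^ 2 / (lam i - lam l0) := div_pos hv h12
    linarith
  exact zero_of_mult hinj i hci hG

end Pool.Agent.QnS
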