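import Pool.Agent.QnS.Def

/-!
# Top coefficients (helper50)

`N_j`, `Δ ≠ 0` real polynomials.  Let `d = max_j natDegree N_j`, `c_j = (N_j).coeff d`, `D = natDegree Δ`.
`∑ N_j = (1 - Y) Δ` has degree `D + 1`, so `d ≥ D + 1`, and `c ≠ 0` by the choice of `d` (`d ≥ 1`).
* `hC`: compare the coefficients of `Y^(d+1)`: the part with `Δ` has degree at most `D + 1 ≤ d`, the part with
  `N_i, N_j` without factor `Y` has degree at most `d`; what is left is `2 k² ∑ m_j (c_i + c_j)/(λ_i-λ_j)³ = 0`.
* `hD`: coefficient of `Y^(D + d)`: `λ_i Δ²` has degree `2 D < D + d`, `λ_i (Δ' N_i - Δ N_i')` has degree at most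
  `D + d - 1`; what is left is `k (leading coefficient of Δ) ∑ c_j/(λ_i-λ_j) = 0`.
* `hG`: coefficient of `Y^d` (`D < d`).
-/

namespace Pool.Agent.QnS

open scoped BigOperators
open Polynomial

variable {κ : Type*} [Fintype κ] [DecidableEq κ]

theorem top {lam : κ → ℝ} {m : κ → ℕ} {k : ℝ} (hk : k ≠ 0) (N : κ → ℝ[X]) (Δ : ℝ[X]) (hΔ : Δ ≠ 0)
    (hS : ∑ i, N i = (1 - X) * Δ)
    (hZ : ∀ i, 2 ≤ m i → N i = 0)
    (hC : ∀ i, ∑ j, C ((m j : ℝ) / (lam i - lam j)) * (C (lam i * lam j + k) * Δ + C k * X * Δ -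
        C (k * (2 * lam i - lam j) / (lam i - lam j)) * N i +
        C (k * (2 * lam j - lam i) / (lam i - lam j)) * N j +
        C (2 * k ^ 2 / (lam i - lam j) ^ 2) * X * (N i + N j)) = 0)
    (hG : ∀ i, 2 ≤ m i → C (lam i) * Δ + C k * ∑ j, C (1 / (lam i - lam j)) * N j = 0)
    (hD : ∀ i, m i = 1 → Δ * (C (lam i) * Δ + C k * ∑ j, C (1 / (lam i - lam j)) * N j) -
        C (lam i) * derivative Δ * N i + C (lam i) * Δ * derivative (N i) = 0)
    (hm : ∀ i, 1 ≤ m i) :
    ∃ c : κ → ℝ, (∃ i, c i ≠ 0) ∧ (∀ i, 2 ≤ m i → c i = 0) ∧ (∀ i, KK lam m c i = 0) ∧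
      ∀ i, GG lam c i = 0 := by
  classical
  have hδ : Δ.coeff Δ.natDegree ≠ 0 := by
    rw [coeff_natDegree]
    exact leadingCoeff_ne_zero.2 hΔ
  have h1 : ((1 - X) * Δ).coeff (Δ.natDegree + 1) = - Δ.coeff Δ.natDegree := by
    rw [sub_mul, one_mul, coeff_sub, coeff_X_mul,
      coeff_eq_zero_of_natDegree_lt (Nat.lt_succ_self _)]
    ring
  have h2 : ∃ i, (N i).coeff (Δ.natDegree + 1) ≠ 0 := by
    by_contra hcon
    push Not at hcon
    have h3 : (∑ i, N i).coeff (Δ.natDegree + 1) = 0 := by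
      rw [finset_sum_coeff]
      exact Finset.sum_eq_zero (fun i _ => hcon i)
    rw [hS, h1] at h3
    exact hδ (neg_eq_zero.1 h3)
  obtain ⟨i0, hi0⟩ := h2
  obtain ⟨j0, -, hj0⟩ := Finset.exists_mem_eq_sup (Finset.univ : Finset κ)
    ⟨i0, Finset.mem_univ _⟩ (fun j => (N j).natDegree)
  have hNd0 : ∀ j, (N j).natDegree ≤ (Finset.univ : Finset κ).sup (fun j => (N j).natDegree) :=
    fun j => Finset.le_sup (f := fun j => (N j).natDegree) (Finset.mem_univ j)
  rw [hj0] at hNd0
  obtain ⟨d, hd⟩ : ∃ d, d = (N j0).natDegree := ⟨_, rfl⟩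
  have hNd : ∀ j, (N j).natDegree ≤ d := fun j => by rw [hd]; exact hNd0 j
  have hDd : Δ.natDegree + 1 ≤ d := (le_natDegree_of_ne_zero hi0).trans (hNd i0)
  have hNj0 : N j0 ≠ 0 := by
    intro h0
    rw [h0, natDegree_zero] at hd
    omega
  have a1 : Δ.coeff (d + 1) = 0 := coeff_eq_zero_of_natDegree_lt (by omega)
  have a2 : Δ.coeff d = 0 := coeff_eq_zero_of_natDegree_lt (by omega)
  have a3 : ∀ j, (N j).coeff (d + 1) = 0 := fun j =>
    coeff_eq_zero_of_natDegree_lt (by have := hNd j; omega)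
  have hGsum : ∀ i, (∑ j, C (1 / (lam i - lam j)) * N j).coeff d =
      GG lam (fun j => (N j).coeff d) i := by
    intro i
    rw [finset_sum_coeff]
    unfold GG
    refine Finset.sum_congr rfl (fun j _ => ?_)
    rw [coeff_C_mul]
    ring
  refine ⟨fun j => (N j).coeff d, ⟨j0, ?_⟩, ?_, ?_, ?_⟩
  · simp only
    rw [hd, coeff_natDegree]
    exact leadingCoeff_ne_zero.2 hNj0
  · intro i hi
    simp only
    rw [hZ i hi, coeff_zero]
  · intro i
    have h := congrArg (fun P : ℝ[X] => P.coeff (d + 1)) (hC i)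
    simp only [finset_sum_coeff, coeff_zero] at h
    have h3 : ∀ j, (C ((m j : ℝ) / (lam i - lam j)) * (C (lam i * lam j + k) * Δ + C k * X * Δ -
        C (k * (2 * lam i - lam j) / (lam i - lam j)) * N i +
        C (k * (2 * lam j - lam i) / (lam i - lam j)) * N j +
        C (2 * k ^ 2 / (lam i - lam j) ^ 2) * X * (N i + N j))).coeff (d + 1) =
        2 * k ^ 2 * ((m j : ℝ) * ((N i).coeff d + (N j).coeff d) / (lam i - lam j) ^ 3) := by
      intro j
      rw [coeff_C_mul, coeff_add, coeff_add, coeff_sub, coeff_add, coeff_C_mul, coeff_C_mul,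
        coeff_C_mul, mul_assoc (C k), coeff_C_mul, coeff_X_mul,
        mul_assoc (C (2 * k ^ 2 / (lam i - lam j) ^ 2)), coeff_C_mul, coeff_X_mul, coeff_add,
        a1, a2, a3, a3]
      generalize lam i - lam j = x
      by_cases hx : x = 0
      · subst hx
        simp
      · field_simp
        ring
    simp only [h3] at h
    rw [← Finset.mul_sum] at h
    have hk2 : (2 * k ^ 2 : ℝ) ≠ 0 := by positivity
    exact (mul_eq_zero.1 h).resolve_left hk2
  · intro i
    rcases (hm i).eq_or_lt with h1i | h2i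
    · have h := congrArg (fun P : ℝ[X] => P.coeff (Δ.natDegree + d)) (hD i h1i.symm)
      simp only [coeff_zero] at h
      rw [coeff_add, coeff_sub, mul_add, coeff_add] at h
      have b1 : (Δ * (C (lam i) * Δ)).coeff (Δ.natDegree + d) = 0 := by
        apply coeff_eq_zero_of_natDegree_lt
        have e1 := natDegree_mul_le (p := Δ) (q := C (lam i) * Δ)
        have e2 := natDegree_C_mul_le (lam i) Δ
        omega
      have b2 : (Δ * (C k * ∑ j, C (1 / (lam i - lam j)) * N j)).coeff (Δ.natDegree + d) =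
          Δ.coeff Δ.natDegree * (k * GG lam (fun j => (N j).coeff d) i) := by
        rw [coeff_mul_add_eq_of_natDegree_le le_rfl, coeff_C_mul, hGsum]
        refine (natDegree_C_mul_le _ _).trans ?_
        apply natDegree_sum_le_of_forall_le
        intro j _
        exact (natDegree_C_mul_le _ _).trans (hNd j)
      have b3 : (C (lam i) * derivative Δ * N i).coeff (Δ.natDegree + d) = 0 := by
        rcases Nat.eq_zero_or_pos Δ.natDegree with h0 | h0
        · have : derivative Δ = 0 := derivative_of_natDegree_zero h0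
          rw [this, mul_zero, zero_mul, coeff_zero]
        · apply coeff_eq_zero_of_natDegree_lt
          have e1 := natDegree_mul_le (p := C (lam i) * derivative Δ) (q := N i)
          have e2 := natDegree_C_mul_le (lam i) (derivative Δ)
          have e3 := natDegree_derivative_lt h0.ne'
          have e4 := hNd i
          omega
      have b4 : (C (lam i) * Δ * derivative (N i)).coeff (Δ.natDegree + d) = 0 := by
        apply coeff_eq_zero_of_natDegree_lt
        have e1 := natDegree_mul_le (p := C (lam i) * Δ) (q := derivative (N i))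
        have e2 := natDegree_C_mul_le (lam i) Δ
        have e3 := natDegree_derivative_le (N i)
        have e4 := hNd i
        omega
      rw [b1, b2, b3, b4, zero_add, sub_zero, add_zero] at h
      exact (mul_eq_zero.1 ((mul_eq_zero.1 h).resolve_left hδ)).resolve_left hk
    · have h := congrArg (fun P : ℝ[X] => P.coeff d) (hG i h2i)
      simp only [coeff_zero] at h
      rw [coeff_add, coeff_C_mul, coeff_C_mul, a2, hGsum, mul_zero, zero_add] at h
      exact (mul_eq_zero.1 h).resolve_left hk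

end Pool.Agent.QnS
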