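import Pool.Agent.QnR.Def

/-!
# Hypersurfaces of `Q × ℝ`, second part: definitions (helper50)

`Geo2`: the intrinsic data `Geo` of a hypersurface of `Q × ℝ` (metric `g`, shape operator `S`, tangent part
`T` of the unit field of the line, `ν`, Christoffel operator `Γ`) together with smoothness of `Γ` and the
Gauss equation.  `Fr`: a smooth orthonormal frame of eigenvectors of `S` on an open set `V`.
Division by zero gives zero, so in the sums below the terms with equal eigenvalues vanish.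
-/

namespace Pool.Agent.QnS

open scoped BigOperators ContDiff
open Pool.Agent.QnR

section geo

variable {E : Type*} [NormedAddCommGroup E] [NormedSpace ℝ E]

/-- intrinsic data of a hypersurface of `Q × ℝ`, with the Gauss equation. -/
structure Geo2 (U : Set E) (k : ℝ) (g : E → E →L[ℝ] E →L[ℝ] ℝ) (S : E → E →L[ℝ] E) (T : E → E)
    (ν : E → ℝ) (Γ : E → E →L[ℝ] E →L[ℝ] E) : Prop extends Geo U k g S T ν Γ where
  smΓ : ContDiffOn ℝ ∞ Γ U
  gauss : ∀ u ∈ U, ∀ v w z t,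
    g u (fderiv ℝ Γ u v w z - fderiv ℝ Γ u w v z + Γ u v (Γ u w z) - Γ u w (Γ u v z)) t =
      g u (S u w) z * g u (S u v) t - g u (S u v) z * g u (S u w) t +
      k * ((g u w z - g u (T u) w * g u (T u) z) * (g u v t - g u (T u) v * g u (T u) t) -
        (g u v z - g u (T u) v * g u (T u) z) * (g u w t - g u (T u) w * g u (T u) t))

/-- covariant derivative of the vector field `Y` at `u` in the direction `v`. -/
noncomputable def nab (Γ : E → E →L[ℝ] E →L[ℝ] E) (Y : E → E) (u v : E) : E :=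
  fderiv ℝ Y u v + Γ u v (Y u)

variable {J : Type*} [Fintype J] [DecidableEq J]

/-- a smooth orthonormal frame of eigenvectors of `S` on `V`. -/
structure Fr (V : Set E) (g : E → E →L[ℝ] E →L[ℝ] ℝ) (S : E → E →L[ℝ] E) (lam : J → ℝ)
    (e : J → E → E) : Prop where
  op : IsOpen V
  sm : ∀ j, ContDiffOn ℝ ∞ (e j) V
  on : ∀ u ∈ V, ∀ i j, g u (e i u) (e j u) = if i = j then 1 else 0
  eig : ∀ u ∈ V, ∀ j, S u (e j u) = lam j • e j u
  span : ∀ u ∈ V, ∀ x, ∑ j, g u x (e j u) • e j u = x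

omit [Fintype J] [DecidableEq J] in
/-- connection coefficients `g(∇_{e_i} e_j, e_l)`. -/
noncomputable def om (g : E → E →L[ℝ] E →L[ℝ] ℝ) (Γ : E → E →L[ℝ] E →L[ℝ] E) (e : J → E → E)
    (i j l : J) (u : E) : ℝ := g u (nab Γ (e j) u (e i u)) (e l u)

omit [Fintype J] [DecidableEq J] in
/-- components of `T`. -/
noncomputable def tt (g : E → E →L[ℝ] E →L[ℝ] ℝ) (T : E → E) (e : J → E → E) (j : J) (u : E) : ℝ :=
  g u (T u) (e j u)

end geo

/-- `Q_ab` of the Cartan type identity (`xa`, `xb` are the squares of the components of `T`). -/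
noncomputable def QQ (k y a b xa xb : ℝ) : ℝ :=
  a * b + k * (1 + y) - k * ((2 * a - b) * xa - (2 * b - a) * xb) / (a - b) +
    2 * k ^ 2 * y * (xa + xb) / (a - b) ^ 2

section alg

variable {κ : Type*} [Fintype κ]

/-- `∑ m_j (c_i + c_j) / (λ_i - λ_j)³` -/
noncomputable def KK (lam : κ → ℝ) (m : κ → ℕ) (c : κ → ℝ) (i : κ) : ℝ :=
  ∑ j, (m j : ℝ) * (c i + c j) / (lam i - lam j) ^ 3

/-- `∑ c_j / (λ_i - λ_j)` -/
noncomputable def GG (lam : κ → ℝ) (c : κ → ℝ) (i : κ) : ℝ := ∑ j, c j / (lam i - lam j)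

/-- `∑ m_j (w_i - w_j) / (λ_i - λ_j)³` -/
noncomputable def LK (lam : κ → ℝ) (m : κ → ℕ) (w : κ → ℝ) (i : κ) : ℝ :=
  ∑ j, (m j : ℝ) * (w i - w j) / (lam i - lam j) ^ 3

/-- the condition on the eigenvalues `λ_i` with multiplicities `m_i`. -/
def NonDeg (lam : κ → ℝ) (m : κ → ℕ) : Prop :=
  ((∀ i, m i = 1) ∧ ∀ w : κ → ℝ, (∀ i, LK lam m w i = 0) → ∀ i j, w i = w j) ∨
  ((∃ i, 2 ≤ m i) ∧ ∀ c : κ → ℝ, (∀ i, 2 ≤ m i → c i = 0) → (∀ i, KK lam m c i = 0) →
    (∀ i, 2 ≤ m i → GG lam c i = 0) → ∑ i, c i = 0 → ∀ i, c i = 0)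

end alg

open Classical in
/-- the set of the eigenvalues. -/
noncomputable def evs {n : ℕ} (lam : Fin n → ℝ) : Finset ℝ := Finset.univ.image lam

open Classical in
/-- the multiplicity of `a`. -/
noncomputable def mul {n : ℕ} (lam : Fin n → ℝ) (a : ℝ) : ℕ :=
  (Finset.univ.filter (fun j => lam j = a)).card

/-- the condition `NonDeg` for a multiset `R` (the principal curvatures with their multiplicities);
terms with `b = a` vanish (division by zero). -/
def NonDegR (R : Multiset ℝ) : Prop :=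
  (R.Nodup ∧ ∀ w : ℝ → ℝ, (∀ a ∈ R, (R.map fun b => (w a - w b) / (a - b) ^ 3).sum = 0) →
    ∀ a ∈ R, ∀ b ∈ R, w a = w b) ∨
  (¬R.Nodup ∧ ∀ c : ℝ → ℝ, (∀ a ∈ R, 2 ≤ R.count a → c a = 0) →
    (∀ a ∈ R, (R.map fun b => (c a + c b) / (a - b) ^ 3).sum = 0) →
    (∀ a ∈ R, 2 ≤ R.count a → (R.map fun b => c b / (a - b)).sum = 0) →
    (R.map c).sum = 0 → ∀ a ∈ R, c a = 0)

end Pool.Agent.QnS
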