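import Pool.Agent.QnS.AlgDich
import Pool.Agent.QnS.Def

/-!
# Solving for the squares of the components of `T` (helper50)

Given: for infinitely many `y` a vector `x` with
`(C) ∑_j m_j Q(λ_i, λ_j)/(λ_i - λ_j) = 0`, `(G) λ_i + k ∑ x_j/(λ_i-λ_j) = 0` if `m_i ≥ 2`, `(Z) x_i = 0` if
`m_i ≥ 2`, `(S) ∑ x_j = 1 - y`.  Claim: there are polynomials `Δ ≠ 0`, `N_j` with `Δ(y) x_j = N_j(y)` for all
these solutions.  In matrix form (C) reads `∑_j M_ij x_j = r_i` with
`M_ij = m_j [k (2λ_j - λ_i)/(λ_i-λ_j)² + 2k² y/(λ_i-λ_j)³]` for `j ≠ i`,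
`M_ii = ∑_j m_j [-k (2λ_i - λ_j)/(λ_i-λ_j)² + 2k² y/(λ_i-λ_j)³]`, `r_i = -∑_j m_j (λ_iλ_j + k(1+y))/(λ_i-λ_j)`.
* `solve_mult` (some `m_i ≥ 2`, the second alternative of `NonDeg`): `dich` with rows (C), (G), (Z), (S)
  (for `m_i = 1` the rows (G), (Z) are `0 = 0`).  If there is a null vector `v ≠ 0`: let
  `d = max natDegree v_j`, `c_j = coeff v_j d`, `c ≠ 0`.  Rows (Z), (S), (G): `c_i = 0` if `m_i ≥ 2`, `∑ c = 0`,
  `GG c i = 0` if `m_i ≥ 2`; row (C), coefficient of `Y^(d+1)`: `2k² KK c i = 0`.  So `c = 0`, contradiction.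
* `solve_simple` (all `m_i = 1`, the first alternative): fix `i₀` (if `κ` is empty `N` is empty, `Δ = 1`).
  `dich_sq` with rows: (C) for `i ≠ i₀`, (S) for `i₀`.  If there is a left null vector `v ≠ 0`: put `w_i = v_i` for
  `i ≠ i₀`, `w_{i₀} = 0`, `μ = -v_{i₀}`, so `∑_i w_i M_ij = μ` for all `j`; here
  `∑_i w_i M_ij = ∑_i (w_j - w_i) [2k² y/(λ_j-λ_i)³ - k (2λ_j-λ_i)/(λ_j-λ_i)²]`.
  Evaluate at the infinitely many `y` with a solution `x`: `∑_i w_i r_i = μ (1 - y)`, so this holds as
  polynomials.  `w ≠ 0` (else `μ = 0` and `v = 0`; `κ` nonempty).  `d = max natDegree w_i`,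
  `ω_i = coeff w_i d`, `ω ≠ 0`, `ω_{i₀} = 0`.  Coefficient of `Y^(d+2)` in `∑ w_i r_i = μ (1 - Y)`: the left side has
  degree at most `d+1`, and `μ` degree at most `d+1`, so `coeff μ (d+1) = 0`.  Coefficient of `Y^(d+1)` in
  `∑_i w_i M_ij = μ`: `2k² LK ω j = 0`.  So `ω` is constant, `= ω_{i₀} = 0`, contradiction.
-/

namespace Pool.Agent.QnS

open scoped BigOperators
open Polynomial

variable {κ : Type*} [Fintype κ] [DecidableEq κ]

/-- the four linear conditions. -/
def Sol (lam : κ → ℝ) (m : κ → ℕ) (k y : ℝ) (x : κ → ℝ) : Prop :=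
  (∀ i, ∑ j, (m j : ℝ) * QQ k y (lam i) (lam j) (x i) (x j) / (lam i - lam j) = 0) ∧
  (∀ i, 2 ≤ m i → lam i + k * GG lam x i = 0) ∧ (∀ i, 2 ≤ m i → x i = 0) ∧ ∑ i, x i = 1 - y


/-- coefficients without `y` at `x_j`. -/
private noncomputable def atA1 (lam : κ → ℝ) (k : ℝ) (i j : κ) : ℝ :=
  k * (2 * lam j - lam i) / (lam i - lam j) ^ 2

/-- coefficients without `y` at `x_i`. -/
private noncomputable def atA2 (lam : κ → ℝ) (k : ℝ) (i j : κ) : ℝ :=
  -(k * (2 * lam i - lam j) / (lam i - lam j) ^ 2)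

/-- coefficients of `y`. -/
private noncomputable def atB (lam : κ → ℝ) (k : ℝ) (i j : κ) : ℝ :=
  2 * k ^ 2 / (lam i - lam j) ^ 3

/-- the constant part of the matrix. -/
private noncomputable def atAl (lam : κ → ℝ) (m : κ → ℕ) (k : ℝ) (i j : κ) : ℝ :=
  (m j : ℝ) * atA1 lam k i j + if j = i then ∑ l, (m l : ℝ) * atA2 lam k i l else 0

/-- the linear part of the matrix. -/
private noncomputable def atBe (lam : κ → ℝ) (m : κ → ℕ) (k : ℝ) (i j : κ) : ℝ :=
  (m j : ℝ) * atB lam k i j + if j = i then ∑ l, (m l : ℝ) * atB lam k i l else 0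

/-- the matrix. -/
private noncomputable def atM (lam : κ → ℝ) (m : κ → ℕ) (k : ℝ) (i j : κ) : ℝ[X] :=
  C (atAl lam m k i j) + C (atBe lam m k i j) * X

/-- right side, constant part. -/
private noncomputable def atR0 (lam : κ → ℝ) (m : κ → ℕ) (k : ℝ) (i : κ) : ℝ :=
  -∑ j, (m j : ℝ) * ((lam i * lam j + k) / (lam i - lam j))

/-- right side, linear part. -/
private noncomputable def atR1 (lam : κ → ℝ) (m : κ → ℕ) (k : ℝ) (i : κ) : ℝ :=
  -∑ j, (m j : ℝ) * (k / (lam i - lam j))

/-- right side. -/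
private noncomputable def atR (lam : κ → ℝ) (m : κ → ℕ) (k : ℝ) (i : κ) : ℝ[X] :=
  C (atR0 lam m k i) + C (atR1 lam m k i) * X

private theorem at_sum (m : κ → ℕ) (f g : κ → ℝ) (x : κ → ℝ) (i : κ) :
    ∑ j, ((m j : ℝ) * f j + if j = i then ∑ l, (m l : ℝ) * g l else 0) * x j =
      ∑ j, (m j : ℝ) * (f j * x j + g j * x i) := by
  have h1 : ∀ j, ((m j : ℝ) * f j + if j = i then ∑ l, (m l : ℝ) * g l else 0) * x j =
      (m j : ℝ) * f j * x j + if j = i then (∑ l, (m l : ℝ) * g l) * x j else 0 := by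
    intro j
    split_ifs <;> ring
  rw [Finset.sum_congr rfl fun j _ => h1 j, Finset.sum_add_distrib, Finset.sum_ite_eq',
    if_pos (Finset.mem_univ i), Finset.sum_mul, ← Finset.sum_add_distrib]
  refine Finset.sum_congr rfl fun j _ => ?_
  ring

omit [Fintype κ] [DecidableEq κ] in
private theorem at_term {lam : κ → ℝ} (k y : ℝ) (x : κ → ℝ) (mj : ℝ) (i j : κ) :
    mj * QQ k y (lam i) (lam j) (x i) (x j) / (lam i - lam j) =
      mj * ((lam i * lam j + k) / (lam i - lam j)) + mj * (k / (lam i - lam j)) * y +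
      mj * (atA1 lam k i j * x j + atA2 lam k i j * x i) +
      mj * (atB lam k i j * x j + atB lam k i j * x i) * y := by
  unfold QQ atA1 atA2 atB
  rcases eq_or_ne (lam i - lam j) 0 with h | h
  · simp [h]
  · field_simp
    ring

private theorem at_C (lam : κ → ℝ) (m : κ → ℕ) (k y : ℝ) (x : κ → ℝ) (i : κ)
    (h : ∑ j, (m j : ℝ) * QQ k y (lam i) (lam j) (x i) (x j) / (lam i - lam j) = 0) :
    ∑ j, (atM lam m k i j).eval y * x j = (atR lam m k i).eval y := by
  have h1 : ∑ j, (atM lam m k i j).eval y * x j =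
      ∑ j, atAl lam m k i j * x j + (∑ j, atBe lam m k i j * x j) * y := by
    rw [Finset.sum_mul, ← Finset.sum_add_distrib]
    refine Finset.sum_congr rfl fun j _ => ?_
    simp only [atM, eval_add, eval_mul, eval_C, eval_X]
    ring
  have h2 : (atR lam m k i).eval y = atR0 lam m k i + atR1 lam m k i * y := by
    simp only [atR, eval_add, eval_mul, eval_C, eval_X]
  rw [h1, h2]
  rw [Finset.sum_congr rfl fun j _ => at_term k y x (m j : ℝ) i j] at h
  simp only [Finset.sum_add_distrib, ← Finset.sum_mul] at h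
  unfold atAl atBe
  rw [at_sum, at_sum]
  unfold atR0 atR1
  linarith

omit [DecidableEq κ] in
private theorem at_max {v : κ → ℝ[X]} (hv : ∃ i, v i ≠ 0) :
    ∃ (d : ℕ), (∀ i, (v i).natDegree ≤ d) ∧ ∃ i, (v i).coeff d ≠ 0 := by
  classical
  obtain ⟨i, hi⟩ := hv
  obtain ⟨j, hj, hmax⟩ := Finset.exists_max_image (Finset.univ.filter fun j => v j ≠ 0)
    (fun j => (v j).natDegree) ⟨i, Finset.mem_filter.2 ⟨Finset.mem_univ _, hi⟩⟩
  have hj0 : v j ≠ 0 := (Finset.mem_filter.1 hj).2
  refine ⟨(v j).natDegree, fun l => ?_, j, ?_⟩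
  · rcases eq_or_ne (v l) 0 with h | h
    · rw [h, natDegree_zero]
      exact Nat.zero_le _
    · exact hmax l (Finset.mem_filter.2 ⟨Finset.mem_univ _, h⟩)
  · rw [coeff_natDegree]
    exact leadingCoeff_ne_zero.2 hj0

private theorem at_coeff (a b : ℝ) (p : ℝ[X]) (d : ℕ) (hp : p.natDegree ≤ d) :
    ((C a + C b * X) * p).coeff (d + 1) = b * p.coeff d := by
  have h0 : p.coeff (d + 1) = 0 := coeff_eq_zero_of_natDegree_lt (by omega)
  rw [add_mul, coeff_add, coeff_C_mul, h0, mul_zero, zero_add, mul_assoc, coeff_C_mul,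
    coeff_X_mul]

private theorem at_coeff2 (a b : ℝ) (p : ℝ[X]) (d : ℕ) (hp : p.natDegree ≤ d) :
    ((C a + C b * X) * p).coeff (d + 2) = 0 := by
  have h0 : p.coeff (d + 1) = 0 := coeff_eq_zero_of_natDegree_lt (by omega)
  have h1 : p.coeff (d + 2) = 0 := coeff_eq_zero_of_natDegree_lt (by omega)
  rw [add_mul, coeff_add, coeff_C_mul, h1, mul_zero, zero_add, mul_assoc, coeff_C_mul,
    show d + 2 = (d + 1) + 1 by ring, coeff_X_mul, h0, mul_zero]

theorem solve_mult {lam : κ → ℝ} (hinj : Function.Injective lam) {m : κ → ℕ} {k : ℝ} (hk : k ≠ 0)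
    (hc : ∀ c : κ → ℝ, (∀ i, 2 ≤ m i → c i = 0) → (∀ i, KK lam m c i = 0) →
      (∀ i, 2 ≤ m i → GG lam c i = 0) → ∑ i, c i = 0 → ∀ i, c i = 0) :
    ∃ Δ : ℝ[X], Δ ≠ 0 ∧ ∃ N : κ → ℝ[X], ∀ (y : ℝ) (x : κ → ℝ), Sol lam m k y x →
      ∀ j, Δ.eval y * x j = (N j).eval y := by
  classical
  rcases dich (R := (κ ⊕ κ) ⊕ (κ ⊕ Unit))
      (fun r j => Sum.elim
        (Sum.elim (fun i => atM lam m k i j)
          (fun i => if 2 ≤ m i then C (k / (lam i - lam j)) else 0))
        (Sum.elim (fun i => if 2 ≤ m i ∧ j = i then 1 else 0) (fun _ => 1)) r)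
      (fun r => Sum.elim
        (Sum.elim (fun i => atR lam m k i) (fun i => if 2 ≤ m i then C (-lam i) else 0))
        (Sum.elim (fun _ => 0) (fun _ => 1 - X)) r) with h | h
  · exfalso
    obtain ⟨v, hv, hA⟩ := h
    obtain ⟨d, hd, i₁, hi₁⟩ := at_max hv
    apply hi₁
    refine hc (fun i => (v i).coeff d) ?_ ?_ ?_ ?_ i₁
    · intro i hi
      have h1 := hA (Sum.inr (Sum.inl i))
      simp only [Sum.elim_inr, Sum.elim_inl, hi, true_and, ite_mul, one_mul, zero_mul,
        Finset.sum_ite_eq', Finset.mem_univ, if_true] at h1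
      simp only [h1, coeff_zero]
    · intro i
      have h1 := hA (Sum.inl (Sum.inl i))
      simp only [Sum.elim_inl] at h1
      have h2 := congrArg (fun p : ℝ[X] => p.coeff (d + 1)) h1
      simp only [finsetSum_coeff, coeff_zero, atM] at h2
      rw [Finset.sum_congr rfl fun j _ => at_coeff _ _ (v j) d (hd j)] at h2
      unfold atBe at h2
      rw [at_sum m _ _ (fun j => (v j).coeff d) i] at h2
      have h3 : ∑ j, (m j : ℝ) * (atB lam k i j * (v j).coeff d + atB lam k i j * (v i).coeff d)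
          = 2 * k ^ 2 * KK lam m (fun i => (v i).coeff d) i := by
        unfold KK atB
        rw [Finset.mul_sum]
        refine Finset.sum_congr rfl fun j _ => ?_
        ring
      rw [h3] at h2
      rcases mul_eq_zero.1 h2 with h4 | h4
      · exact absurd h4 (by positivity)
      · exact h4
    · intro i hi
      have h1 := hA (Sum.inl (Sum.inr i))
      simp only [Sum.elim_inr, Sum.elim_inl, hi, if_true] at h1
      have h2 := congrArg (fun p : ℝ[X] => p.coeff d) h1
      simp only [finsetSum_coeff, coeff_zero, coeff_C_mul] at h2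
      have h3 : ∑ j, k / (lam i - lam j) * (v j).coeff d =
          k * GG lam (fun i => (v i).coeff d) i := by
        unfold GG
        rw [Finset.mul_sum]
        refine Finset.sum_congr rfl fun j _ => ?_
        ring
      rw [h3] at h2
      exact (mul_eq_zero.1 h2).resolve_left hk
    · have h1 := hA (Sum.inr (Sum.inr ()))
      simp only [Sum.elim_inr, one_mul] at h1
      have h2 := congrArg (fun p : ℝ[X] => p.coeff d) h1
      simp only [finsetSum_coeff, coeff_zero] at h2
      exact h2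
  · obtain ⟨Δ, hΔ, N, hN⟩ := h
    refine ⟨Δ, hΔ, N, fun y x hs => hN y x ?_⟩
    obtain ⟨hC, hG, hZ, hS⟩ := hs
    rintro ((i | i) | (i | i))
    · simp only [Sum.elim_inl]
      exact at_C lam m k y x i (hC i)
    · simp only [Sum.elim_inl, Sum.elim_inr]
      by_cases hi : 2 ≤ m i
      · simp only [hi, if_true, eval_C]
        have h1 := hG i hi
        have h3 : ∑ j, k / (lam i - lam j) * x j = k * GG lam x i := by
          unfold GG
          rw [Finset.mul_sum]
          refine Finset.sum_congr rfl fun j _ => ?_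
          ring
        rw [h3]
        linarith
      · simp [hi]
    · simp only [Sum.elim_inl, Sum.elim_inr]
      by_cases hi : 2 ≤ m i
      · have h1 := hZ i hi
        have h2 : ∀ j, eval y (if 2 ≤ m i ∧ j = i then (1 : ℝ[X]) else 0) * x j =
            if j = i then x j else 0 := by
          intro j
          by_cases hj : j = i
          · simp [hi, hj]
          · simp [hj]
        rw [Finset.sum_congr rfl fun j _ => h2 j, Finset.sum_ite_eq', if_pos (Finset.mem_univ i),
          h1, eval_zero]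
      · simp [hi]
    · simp only [Sum.elim_inr, eval_one, one_mul, eval_sub, eval_X]
      exact hS

theorem solve_simple {lam : κ → ℝ} (hinj : Function.Injective lam) {m : κ → ℕ} {k : ℝ} (hk : k ≠ 0)
    (hm : ∀ i, m i = 1)
    (hw : ∀ w : κ → ℝ, (∀ i, LK lam m w i = 0) → ∀ i j, w i = w j)
    (hinf : {y : ℝ | ∃ x, Sol lam m k y x}.Infinite) :
    ∃ Δ : ℝ[X], Δ ≠ 0 ∧ ∃ N : κ → ℝ[X], ∀ (y : ℝ) (x : κ → ℝ), Sol lam m k y x →
      ∀ j, Δ.eval y * x j = (N j).eval y := by
  classical
  rcases isEmpty_or_nonempty κ with he | ⟨⟨i₀⟩⟩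
  · exact ⟨1, one_ne_zero, fun _ => 0, fun y x _ j => (he.false j).elim⟩
  rcases dich_sq (fun r j => if r = i₀ then 1 else atM lam m k r j)
      (fun r => if r = i₀ then 1 - X else atR lam m k r) with h | h
  · exfalso
    obtain ⟨v, hv, hA⟩ := h
    set w : κ → ℝ[X] := fun i => if i = i₀ then 0 else v i with hwdef
    have hw0 : w i₀ = 0 := by simp [hwdef]
    have hwM : ∀ j, ∑ i, w i * atM lam m k i j = -v i₀ := by
      intro j
      have h1 := hA j
      have h2 : ∀ r, v r * (if r = i₀ then 1 else atM lam m k r j) =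
          w r * atM lam m k r j + if r = i₀ then v r else 0 := by
        intro r
        by_cases hr : r = i₀
        · simp [hwdef, hr]
        · simp [hwdef, hr]
      rw [Finset.sum_congr rfl fun r _ => h2 r, Finset.sum_add_distrib, Finset.sum_ite_eq',
        if_pos (Finset.mem_univ i₀)] at h1
      linear_combination h1
    have hwne : ∃ i, w i ≠ 0 := by
      by_contra hcon
      push Not at hcon
      obtain ⟨i, hi⟩ := hv
      by_cases hii : i = i₀
      · have h1 := hwM i₀
        rw [Finset.sum_congr rfl fun i _ => by rw [hcon i, zero_mul]] at h1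
        rw [Finset.sum_const_zero] at h1
        apply hi
        rw [hii]
        linear_combination h1
      · have h1 := hcon i
        simp only [hwdef, hii, if_false] at h1
        exact hi h1
    have hpoly : ∑ i, atR lam m k i * w i = -v i₀ * (1 - X) := by
      refine eq_of_infinite_eval_eq _ _ (hinf.mono ?_)
      rintro y ⟨x, hC, hG, hZ, hS⟩
      show eval y (∑ i, atR lam m k i * w i) = eval y (-v i₀ * (1 - X))
      rw [eval_finsetSum, eval_mul, eval_sub, eval_one, eval_X, ← hS]
      rw [Finset.mul_sum]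
      have h1 : ∀ i, eval y (atR lam m k i * w i) =
          ∑ j, eval y (w i * atM lam m k i j) * x j := by
        intro i
        rw [eval_mul, ← at_C lam m k y x i (hC i), Finset.sum_mul]
        refine Finset.sum_congr rfl fun j _ => ?_
        rw [eval_mul]
        ring
      rw [Finset.sum_congr rfl fun i _ => h1 i, Finset.sum_comm]
      refine Finset.sum_congr rfl fun j _ => ?_
      rw [← Finset.sum_mul, ← eval_finsetSum, hwM j]
    obtain ⟨d, hd, i₁, hi₁⟩ := at_max hwne
    have hμ2 : (v i₀).coeff (d + 2) = 0 := by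
      have h1 := congrArg (fun p : ℝ[X] => p.coeff (d + 2)) (hwM i₀)
      simp only [finsetSum_coeff, coeff_neg] at h1
      rw [Finset.sum_eq_zero] at h1
      · linarith
      · intro i _
        rw [mul_comm]
        exact at_coeff2 _ _ (w i) d (hd i)
    have hμ1 : (v i₀).coeff (d + 1) = 0 := by
      have h1 := congrArg (fun p : ℝ[X] => p.coeff (d + 2)) hpoly
      simp only [finsetSum_coeff] at h1
      rw [Finset.sum_eq_zero] at h1
      · rw [mul_sub, mul_one, coeff_sub, show d + 2 = (d + 1) + 1 by ring, coeff_mul_X,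
          coeff_neg, coeff_neg, show d + 1 + 1 = d + 2 by ring, hμ2] at h1
        linarith
      · intro i _
        exact at_coeff2 _ _ (w i) d (hd i)
    have hLK : ∀ j, LK lam m (fun i => (w i).coeff d) j = 0 := by
      intro j
      have h1 := congrArg (fun p : ℝ[X] => p.coeff (d + 1)) (hwM j)
      simp only [finsetSum_coeff, coeff_neg, hμ1, neg_zero] at h1
      have h2 : ∀ i, (w i * atM lam m k i j).coeff (d + 1) =
          atBe lam m k i j * (w i).coeff d := by
        intro i
        rw [mul_comm]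
        exact at_coeff _ _ (w i) d (hd i)
      rw [Finset.sum_congr rfl fun i _ => h2 i] at h1
      have h3 : ∀ i, atBe lam m k i j * (w i).coeff d = atB lam k i j * (w i).coeff d +
          if j = i then (∑ l, atB lam k i l) * (w i).coeff d else 0 := by
        intro i
        unfold atBe
        simp only [hm, Nat.cast_one, one_mul]
        split_ifs <;> ring
      rw [Finset.sum_congr rfl fun i _ => h3 i, Finset.sum_add_distrib, Finset.sum_ite_eq,
        if_pos (Finset.mem_univ j), Finset.sum_mul, ← Finset.sum_add_distrib] at h1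
      have h4 : ∑ i, (atB lam k i j * (w i).coeff d + atB lam k j i * (w j).coeff d) =
          2 * k ^ 2 * LK lam m (fun i => (w i).coeff d) j := by
        unfold LK atB
        rw [Finset.mul_sum]
        refine Finset.sum_congr rfl fun i _ => ?_
        have h5 : (lam i - lam j) ^ 3 = -(lam j - lam i) ^ 3 := by ring
        rw [hm i, Nat.cast_one, h5, div_neg]
        ring
      rw [h4] at h1
      rcases mul_eq_zero.1 h1 with h5 | h5
      · exact absurd h5 (by positivity)
      · exact h5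
    have h6 := hw _ hLK i₁ i₀
    simp only [hw0, coeff_zero] at h6
    exact hi₁ h6
  · obtain ⟨Δ, hΔ, N, hN⟩ := h
    refine ⟨Δ, hΔ, N, fun y x hs => hN y x ?_⟩
    obtain ⟨hC, hG, hZ, hS⟩ := hs
    intro r
    by_cases hr : r = i₀
    · simp only [hr, if_true, eval_one, one_mul, eval_sub, eval_X]
      exact hS
    · simp only [hr, if_false]
      exact at_C lam m k y x r (hC r)

end Pool.Agent.QnS
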