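import Mathlib

/-!
# A block of three points (helper50)

Positions `p o < c < d < e` (`o` in a finite set `O` of outside points, positions not necessarily different),
values `w o`, `wc`, `wd`, `we`; the outside value at `r` is zero, all outside values are at most `M > 0` in
absolute value.

Notation: `x = d - c`, `t = e - d`, `α = 1/(e-d)³ = 1/t³`, `β = 1/(e-c)³ = 1/(x+t)³`, `γ = 1/(d-c)³ = 1/x³`,
`a_o = 1/(e-p o)³ < b_o = 1/(d-p o)³ < c_o = 1/(c-p o)³`, `A = ∑ a_o > 0`, `B = ∑ b_o`, `C = ∑ c_o`,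
`Z = α + β + A`.
(1) from `he`: `Z we = α wd + β wc + ∑ a_o w_o`.
(2) from `hd`: `(γ + B - α) wd + α we - γ wc = ∑ b_o w_o`.
(3) from `hc`: `(C - γ - β) wc + γ wd + β we = ∑ c_o w_o`.
`Z (2)` with (1): `D wd = P wc + ∑ K_o w_o`, `P = Z γ - α β`, `K_o = Z b_o - α a_o`, `D = P + ∑ K_o`
(indeed `Z(γ+B-α) + α² = Zγ + ZB - α(β+A)`).
`Z (3)` with (1): `(ZC - βA - H) wc + H wd = ∑ G_o w_o`, `H = Zγ + αβ`, `G_o = Z c_o - β a_o`.
`D` times the last one, with the equation for `D wd`: `(∑ f_o) wc = ∑ f_o w_o`, `f_o = D G_o - H K_o`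
(check `∑ f_o = D(ZC - βA) - H(D - P) = D(ZC - βA - H) + HP`).
Positivity of the weights:
* `K_o > 0`, `P > 0` (`Z > α`, `γ > β`, `b_o > a_o`), so `D > 0`.
* `f_o > 0` (write `a,b,c` for `a_o,b_o,c_o`, `K' = ∑ K_o`, `D = P + K'`, `f = (P G - H K) + K' G`):
  `P G - H K = Z { Zγ(c-b) + a(αγ - βγ - αβ) - αβ(b + c - 2a) } - αβ a A` (ring, with `α+β = Z-A`).
  Here `αγ - βγ - αβ ≥ 0`, since `(x+t)³ ≥ x³ + t³`; by convexity of `1/r³` `(b-a) x ≤ (c-b) t`, so
  `b + c - 2a = (c-b) + 2(b-a) ≤ (c-b)(1 + 2t/x)`, and `(α+β)γ ≥ αβ(1+2t/x)`, since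
  `(x+t)³ + t³ ≥ x³ + 2x²t`.  So the brace is `≥ 0` and `P G - H K ≥ -αβ a A`.
  `K' = ZB - αA ≥ (Z-α)A = (β+A)A`, `G ≥ (Z-β)a = (α+A)a`, so `K' G ≥ (β+A)(α+A) A a > αβ A a`.
Then `|wc| < M` (weighted mean with positive weights of values `≤ M` in absolute value, one of them zero),
then `|wd| < M` (mean of `wc` and the `w o`), `|we| < M` (mean of `wd`, `wc`, `w o`).
-/

namespace Pool.Agent.QnS

open scoped BigOperators

private theorem b3_h1 {x t : ℝ} (hx : 0 < x) (ht : 0 < t) :
    0 ≤ 1 / t ^ 3 * (1 / x ^ 3) - 1 / (x + t) ^ 3 * (1 / x ^ 3) - 1 / t ^ 3 * (1 / (x + t) ^ 3) := by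
  have hxt : 0 < x + t := by linarith
  have h1 : 1 / t ^ 3 * (1 / x ^ 3) - 1 / (x + t) ^ 3 * (1 / x ^ 3) - 1 / t ^ 3 * (1 / (x + t) ^ 3) =
      ((x + t) ^ 3 - t ^ 3 - x ^ 3) / (t ^ 3 * x ^ 3 * (x + t) ^ 3) := by
    field_simp
  rw [h1]
  refine div_nonneg ?_ (by positivity)
  have h2 : (x + t) ^ 3 - t ^ 3 - x ^ 3 = 3 * x ^ 2 * t + 3 * x * t ^ 2 := by ring
  rw [h2]
  positivity

private theorem b3_h2 {x t : ℝ} (hx : 0 < x) (ht : 0 < t) :
    0 ≤ x * ((1 / t ^ 3 + 1 / (x + t) ^ 3) * (1 / x ^ 3)) -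
      1 / t ^ 3 * (1 / (x + t) ^ 3) * (x + 2 * t) := by
  have hxt : 0 < x + t := by linarith
  have h1 : x * ((1 / t ^ 3 + 1 / (x + t) ^ 3) * (1 / x ^ 3)) -
      1 / t ^ 3 * (1 / (x + t) ^ 3) * (x + 2 * t) =
      x * ((x + t) ^ 3 + t ^ 3 - x ^ 2 * (x + 2 * t)) / (t ^ 3 * x ^ 3 * (x + t) ^ 3) := by
    field_simp
  rw [h1]
  refine div_nonneg ?_ (by positivity)
  have h2 : (x + t) ^ 3 + t ^ 3 - x ^ 2 * (x + 2 * t) = x ^ 2 * t + 3 * x * t ^ 2 + 2 * t ^ 3 := by
    ring
  rw [h2]
  positivity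

private theorem b3_conv {u x t : ℝ} (hu : 0 < u) (hx : 0 < x) (ht : 0 < t) :
    (1 / (u + x) ^ 3 - 1 / (u + x + t) ^ 3) * x ≤ (1 / u ^ 3 - 1 / (u + x) ^ 3) * t := by
  have hV : 0 < u + x := by linarith
  have hW : 0 < u + x + t := by linarith
  have h1 : (1 / u ^ 3 - 1 / (u + x) ^ 3) * t - (1 / (u + x) ^ 3 - 1 / (u + x + t) ^ 3) * x =
      x * t * ((u + x) ^ 2 * ((u + x + t) ^ 3 - u ^ 3) +
        u * (u + x) * (u + x + t) * ((u + x + t) ^ 2 - u ^ 2) +
        u ^ 2 * (u + x + t) ^ 2 * (x + t)) / (u ^ 3 * (u + x) ^ 3 * (u + x + t) ^ 3) := by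
    field_simp
    ring
  have h2 : 0 ≤ (u + x + t) ^ 3 - u ^ 3 := by
    have : u ^ 3 ≤ (u + x + t) ^ 3 := pow_le_pow_left₀ hu.le (by linarith) 3
    linarith
  have h3 : 0 ≤ (u + x + t) ^ 2 - u ^ 2 := by
    have : u ^ 2 ≤ (u + x + t) ^ 2 := pow_le_pow_left₀ hu.le (by linarith) 2
    linarith
  have h4 : 0 ≤ (1 / u ^ 3 - 1 / (u + x) ^ 3) * t - (1 / (u + x) ^ 3 - 1 / (u + x + t) ^ 3) * x := by
    rw [h1]
    refine div_nonneg ?_ (by positivity)
    refine mul_nonneg (by positivity) ?_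
    have e1 := mul_nonneg (sq_nonneg (u + x)) h2
    have e2 := mul_nonneg (by positivity : 0 ≤ u * (u + x) * (u + x + t)) h3
    have e3 : 0 ≤ u ^ 2 * (u + x + t) ^ 2 * (x + t) := by positivity
    linarith
  linarith

/-- the algebraic part of the positivity of the weights -/
private theorem b3_f {x t al be ga a b c A B Z : ℝ} (hx : 0 < x)
    (hal : 0 < al) (hbe : 0 < be) (hga : 0 < ga)
    (h1 : 0 ≤ al * ga - be * ga - al * be) (h2 : 0 ≤ x * ((al + be) * ga) - al * be * (x + 2 * t))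
    (ha : 0 < a) (hac : a ≤ c) (hbc : b ≤ c) (hconv : (b - a) * x ≤ (c - b) * t)
    (hA : 0 < A) (hAB : A ≤ B) (hZ : Z = al + be + A) :
    0 < (Z * ga - al * be + (Z * B - al * A)) * (Z * c - be * a) -
      (Z * ga + al * be) * (Z * b - al * a) := by
  have hZ0 : 0 < Z := by rw [hZ]; positivity
  have hbrace : 0 ≤ Z * ga * (c - b) + a * (al * ga - be * ga - al * be) -
      al * be * (b + c - 2 * a) := by
    have e1 : 0 ≤ x * (Z * ga * (c - b) + a * (al * ga - be * ga - al * be) -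
        al * be * (b + c - 2 * a)) := by
      have g1 : x * (b + c - 2 * a) ≤ (x + 2 * t) * (c - b) := by nlinarith
      have g2 : al * be * (x * (b + c - 2 * a)) ≤ al * be * ((x + 2 * t) * (c - b)) :=
        mul_le_mul_of_nonneg_left g1 (by positivity)
      have g3 : 0 ≤ (x * ((al + be) * ga) - al * be * (x + 2 * t)) * (c - b) :=
        mul_nonneg h2 (by linarith)
      have g4 : 0 ≤ x * (a * (al * ga - be * ga - al * be)) := by positivity
      have g5 : 0 ≤ x * (A * ga * (c - b)) :=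
        mul_nonneg hx.le (mul_nonneg (by positivity) (by linarith))
      rw [hZ]
      nlinarith
    exact nonneg_of_mul_nonneg_right (by linarith [e1]) hx
  have hP : 0 ≤ Z * (Z * ga * (c - b) + a * (al * ga - be * ga - al * be) -
      al * be * (b + c - 2 * a)) := mul_nonneg hZ0.le hbrace
  have hK : (be + A) * A ≤ Z * B - al * A := by
    have e1 : Z * A ≤ Z * B := mul_le_mul_of_nonneg_left hAB hZ0.le
    have e2 : (be + A) * A = Z * A - al * A := by rw [hZ]; ring
    linarith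
  have hG : (al + A) * a ≤ Z * c - be * a := by
    have e1 : Z * a ≤ Z * c := mul_le_mul_of_nonneg_left hac hZ0.le
    have e2 : (al + A) * a = Z * a - be * a := by rw [hZ]; ring
    linarith
  have hKG : (be + A) * A * ((al + A) * a) ≤ (Z * B - al * A) * (Z * c - be * a) :=
    mul_le_mul hK hG (by positivity) (le_trans (by positivity) hK)
  have hlast : 0 < (be + A) * A * ((al + A) * a) - al * be * a * A := by
    have e1 : (be + A) * A * ((al + A) * a) - al * be * a * A = A * a * (A * (al + be + A)) := by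
      ring
    rw [e1]
    positivity
  have hid : (Z * ga - al * be + (Z * B - al * A)) * (Z * c - be * a) -
      (Z * ga + al * be) * (Z * b - al * a) =
      Z * (Z * ga * (c - b) + a * (al * ga - be * ga - al * be) - al * be * (b + c - 2 * a)) -
        al * be * a * A + (Z * B - al * A) * (Z * c - be * a) +
        al * be * a * (al + be + A - Z) := by
    ring
  rw [hid, ← hZ, sub_self, mul_zero, add_zero]
  linarith

private theorem b3_mean {O : Type*} [Fintype O] (f w : O → ℝ) (r : O) (hr : w r = 0)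
    {u M : ℝ} (hM : 0 < M) (hw : ∀ o, |w o| ≤ M) (hf : ∀ o, 0 < f o)
    (h : (∑ o, f o) * u = ∑ o, f o * w o) : |u| < M := by
  have hF : 0 < ∑ o, f o := Finset.sum_pos (fun o _ => hf o) ⟨r, Finset.mem_univ r⟩
  have h1 : |∑ o, f o * w o| < (∑ o, f o) * M := by
    refine (Finset.abs_sum_le_sum_abs _ _).trans_lt ?_
    rw [Finset.sum_mul]
    refine Finset.sum_lt_sum (fun o _ => ?_) ⟨r, Finset.mem_univ r, ?_⟩
    · rw [abs_mul, abs_of_pos (hf o)]
      exact mul_le_mul_of_nonneg_left (hw o) (hf o).le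
    · rw [hr, mul_zero, abs_zero]
      exact mul_pos (hf r) hM
  rw [← h, abs_mul, abs_of_pos hF] at h1
  exact lt_of_mul_lt_mul_left h1 hF.le

private theorem b3_mean2 {O : Type*} [Fintype O] (K w : O → ℝ)
    {D P u v M : ℝ} (hw : ∀ o, |w o| ≤ M) (hK : ∀ o, 0 ≤ K o) (hP : 0 < P)
    (hv : |v| < M) (hD : D = P + ∑ o, K o) (h : D * u = P * v + ∑ o, K o * w o) : |u| < M := by
  have hS : 0 ≤ ∑ o, K o := Finset.sum_nonneg fun o _ => hK o
  have hD0 : 0 < D := by rw [hD]; linarith
  have h1 : |∑ o, K o * w o| ≤ (∑ o, K o) * M := by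
    refine (Finset.abs_sum_le_sum_abs _ _).trans ?_
    rw [Finset.sum_mul]
    refine Finset.sum_le_sum fun o _ => ?_
    rw [abs_mul, abs_of_nonneg (hK o)]
    exact mul_le_mul_of_nonneg_left (hw o) (hK o)
  have h2 : |P * v| < P * M := by
    rw [abs_mul, abs_of_pos hP]
    exact mul_lt_mul_of_pos_left hv hP
  have h3 : |D * u| < D * M := by
    rw [h]
    refine (abs_add_le _ _).trans_lt ?_
    have e1 : D * M = P * M + (∑ o, K o) * M := by rw [hD]; ring
    rw [e1]
    exact add_lt_add_of_lt_of_le h2 h1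
  rw [abs_mul, abs_of_pos hD0] at h3
  exact lt_of_mul_lt_mul_left h3 hD0.le

theorem blk_three {O : Type*} [Fintype O] (p w : O → ℝ) (r : O) (hr : w r = 0)
    {c d e wc wd we M : ℝ} (hM : 0 < M) (hp : ∀ o, p o < c) (hcd : c < d) (hde : d < e)
    (hw : ∀ o, |w o| ≤ M)
    (he : (we - wc) / (e - c) ^ 3 + (we - wd) / (e - d) ^ 3 + ∑ o, (we - w o) / (e - p o) ^ 3 = 0)
    (hd : (wd - wc) / (d - c) ^ 3 + (wd - we) / (d - e) ^ 3 + ∑ o, (wd - w o) / (d - p o) ^ 3 = 0)
    (hc : (wc - wd) / (c - d) ^ 3 + (wc - we) / (c - e) ^ 3 + ∑ o, (wc - w o) / (c - p o) ^ 3 = 0) :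
    |wc| < M ∧ |wd| < M ∧ |we| < M := by
  obtain ⟨x, hx, rfl⟩ : ∃ x, 0 < x ∧ d = c + x := ⟨d - c, by linarith, by ring⟩
  obtain ⟨t, ht, rfl⟩ : ∃ t, 0 < t ∧ e = c + x + t := ⟨e - (c + x), by linarith, by ring⟩
  have hxt : 0 < x + t := by linarith
  set al : ℝ := 1 / t ^ 3 with hal
  set be : ℝ := 1 / (x + t) ^ 3 with hbe
  set ga : ℝ := 1 / x ^ 3 with hga
  set a : O → ℝ := fun o => 1 / (c + x + t - p o) ^ 3 with ha
  set b : O → ℝ := fun o => 1 / (c + x - p o) ^ 3 with hb
  set q : O → ℝ := fun o => 1 / (c - p o) ^ 3 with hq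
  have al0 : 0 < al := by rw [hal]; positivity
  have be0 : 0 < be := by rw [hbe]; positivity
  have ga0 : 0 < ga := by rw [hga]; positivity
  have hu : ∀ o, 0 < c - p o := fun o => by linarith [hp o]
  have a0 : ∀ o, 0 < a o := fun o => by
    simp only [ha]
    have := hu o
    have h2 : 0 < c + x + t - p o := by linarith
    positivity
  have hab : ∀ o, a o < b o := fun o => by
    simp only [ha, hb]
    have := hu o
    exact one_div_lt_one_div_of_lt (pow_pos (by linarith) 3)
      (pow_lt_pow_left₀ (by linarith) (by linarith) (by norm_num))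
  have hbq : ∀ o, b o < q o := fun o => by
    simp only [hb, hq]
    have := hu o
    exact one_div_lt_one_div_of_lt (pow_pos this 3)
      (pow_lt_pow_left₀ (by linarith) this.le (by norm_num))
  have hconv : ∀ o, (b o - a o) * x ≤ (q o - b o) * t := fun o => by
    have h1 := b3_conv (hu o) hx ht
    have e1 : c - p o + x = c + x - p o := by ring
    have e2 : c + x - p o + t = c + x + t - p o := by ring
    rw [e1, e2] at h1
    exact h1
  set A : ℝ := ∑ o, a o with hA
  set B : ℝ := ∑ o, b o with hB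
  set C : ℝ := ∑ o, q o with hC
  have A0 : 0 < A := Finset.sum_pos (fun o _ => a0 o) ⟨r, Finset.mem_univ r⟩
  have hAB : A ≤ B := Finset.sum_le_sum fun o _ => (hab o).le
  set Z : ℝ := al + be + A with hZ
  have Z0 : 0 < Z := by rw [hZ]; positivity
  -- the three equations
  have eq1 : Z * we = al * wd + be * wc + ∑ o, a o * w o := by
    have h1 : ∑ o, (we - w o) / (c + x + t - p o) ^ 3 = we * A - ∑ o, a o * w o := by
      rw [hA, Finset.mul_sum, ← Finset.sum_sub_distrib]
      refine Finset.sum_congr rfl fun o _ => ?_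
      simp only [ha]
      ring
    rw [h1] at he
    have e1 : c + x + t - c = x + t := by ring
    have e2 : c + x + t - (c + x) = t := by ring
    have e3 : (we - wc) / (c + x + t - c) ^ 3 = be * (we - wc) := by
      rw [e1, hbe]
      ring
    have e4 : (we - wd) / (c + x + t - (c + x)) ^ 3 = al * (we - wd) := by
      rw [e2, hal]
      ring
    rw [e3, e4] at he
    rw [hZ]
    linarith
  have eq2 : (ga + B - al) * wd + al * we - ga * wc = ∑ o, b o * w o := by
    have h1 : ∑ o, (wd - w o) / (c + x - p o) ^ 3 = wd * B - ∑ o, b o * w o := by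
      rw [hB, Finset.mul_sum, ← Finset.sum_sub_distrib]
      refine Finset.sum_congr rfl fun o _ => ?_
      simp only [hb]
      ring
    rw [h1] at hd
    have e1 : c + x - c = x := by ring
    have e2 : (c + x - (c + x + t)) ^ 3 = -t ^ 3 := by ring
    have e3 : (wd - wc) / (c + x - c) ^ 3 = ga * (wd - wc) := by
      rw [e1, hga]
      ring
    have e4 : (wd - we) / (c + x - (c + x + t)) ^ 3 = -(al * (wd - we)) := by
      rw [e2, hal, div_neg]
      ring
    rw [e3, e4] at hd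
    linarith
  have eq3 : (C - ga - be) * wc + ga * wd + be * we = ∑ o, q o * w o := by
    have h1 : ∑ o, (wc - w o) / (c - p o) ^ 3 = wc * C - ∑ o, q o * w o := by
      rw [hC, Finset.mul_sum, ← Finset.sum_sub_distrib]
      refine Finset.sum_congr rfl fun o _ => ?_
      simp only [hq]
      ring
    rw [h1] at hc
    have e1 : (c - (c + x)) ^ 3 = -x ^ 3 := by ring
    have e2 : (c - (c + x + t)) ^ 3 = -(x + t) ^ 3 := by ring
    have e3 : (wc - wd) / (c - (c + x)) ^ 3 = -(ga * (wc - wd)) := by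
      rw [e1, hga, div_neg]
      ring
    have e4 : (wc - we) / (c - (c + x + t)) ^ 3 = -(be * (wc - we)) := by
      rw [e2, hbe, div_neg]
      ring
    rw [e3, e4] at hc
    linarith
  set K : O → ℝ := fun o => Z * b o - al * a o with hK
  set G : O → ℝ := fun o => Z * q o - be * a o with hG
  set P : ℝ := Z * ga - al * be with hP
  set H : ℝ := Z * ga + al * be with hH
  set D : ℝ := P + (Z * B - al * A) with hD
  have sK : ∑ o, K o = Z * B - al * A := by
    rw [hA, hB, Finset.mul_sum, Finset.mul_sum, ← Finset.sum_sub_distrib]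
  have sKw : ∑ o, K o * w o = Z * ∑ o, b o * w o - al * ∑ o, a o * w o := by
    rw [Finset.mul_sum, Finset.mul_sum, ← Finset.sum_sub_distrib]
    refine Finset.sum_congr rfl fun o _ => ?_
    simp only [hK]
    ring
  have sG : ∑ o, G o = Z * C - be * A := by
    rw [hA, hC, Finset.mul_sum, Finset.mul_sum, ← Finset.sum_sub_distrib]
  have sGw : ∑ o, G o * w o = Z * ∑ o, q o * w o - be * ∑ o, a o * w o := by
    rw [Finset.mul_sum, Finset.mul_sum, ← Finset.sum_sub_distrib]
    refine Finset.sum_congr rfl fun o _ => ?_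
    simp only [hG]
    ring
  have hKpos : ∀ o, 0 < K o := fun o => by
    simp only [hK]
    have h1 : al * a o < al * b o := mul_lt_mul_of_pos_left (hab o) al0
    have h2 : al * b o ≤ Z * b o :=
      mul_le_mul_of_nonneg_right (by rw [hZ]; linarith) ((a0 o).trans (hab o)).le
    linarith
  have hgb : be < ga := by
    rw [hbe, hga]
    exact one_div_lt_one_div_of_lt (pow_pos hx 3)
      (pow_lt_pow_left₀ (by linarith) hx.le (by norm_num))
  have P0 : 0 < P := by
    rw [hP]
    have h1 : al * be < al * ga := mul_lt_mul_of_pos_left hgb al0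
    have h2 : al * ga ≤ Z * ga := mul_le_mul_of_nonneg_right (by rw [hZ]; linarith) ga0.le
    linarith
  have hDwd : D * wd = P * wc + ∑ o, K o * w o := by
    rw [sKw, ← eq2, hD, hP]
    have e1 : ∑ o, a o * w o = Z * we - al * wd - be * wc := by linarith
    rw [e1, hZ]
    ring
  have hlast : (Z * C - be * A - H) * wc + H * wd = ∑ o, G o * w o := by
    rw [sGw, ← eq3, hH]
    have e1 : ∑ o, a o * w o = Z * we - al * wd - be * wc := by linarith
    rw [e1, hZ]
    ring
  have hf : ∀ o, 0 < D * G o - H * K o := fun o => by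
    have h1 := b3_f (x := x) (t := t) (al := al) (be := be) (ga := ga) (a := a o) (b := b o)
      (c := q o) (A := A) (B := B) (Z := Z) hx al0 be0 ga0 (b3_h1 hx ht) (b3_h2 hx ht) (a0 o)
      ((hab o).trans (hbq o)).le (hbq o).le (hconv o) A0 hAB hZ
    exact h1
  have hwc : |wc| < M := by
    refine b3_mean (fun o => D * G o - H * K o) w r hr hM hw hf ?_
    have e1 : ∑ o, (D * G o - H * K o) = D * (Z * C - be * A) - H * (Z * B - al * A) := by
      rw [Finset.sum_sub_distrib, ← Finset.mul_sum, ← Finset.mul_sum, sG, sK]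
    have e2 : ∑ o, (D * G o - H * K o) * w o = D * ∑ o, G o * w o - H * ∑ o, K o * w o := by
      rw [Finset.mul_sum, Finset.mul_sum, ← Finset.sum_sub_distrib]
      refine Finset.sum_congr rfl fun o _ => ?_
      ring
    rw [e1, e2, ← hlast]
    have e3 : ∑ o, K o * w o = D * wd - P * wc := by linarith
    rw [e3]
    have e4 : Z * B - al * A = D - P := by rw [hD]; ring
    rw [e4]
    ring
  have hwd : |wd| < M := by
    refine b3_mean2 K w hw (fun o => (hKpos o).le) P0 hwc ?_ hDwd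
    rw [sK]
  have hwe : |we| < M := by
    have h1 : |∑ o, a o * w o| ≤ A * M := by
      refine (Finset.abs_sum_le_sum_abs _ _).trans ?_
      rw [hA, Finset.sum_mul]
      refine Finset.sum_le_sum fun o _ => ?_
      rw [abs_mul, abs_of_pos (a0 o)]
      exact mul_le_mul_of_nonneg_left (hw o) (a0 o).le
    have h2 : |Z * we| < Z * M := by
      rw [eq1]
      have g1 : |al * wd| < al * M := by
        rw [abs_mul, abs_of_pos al0]
        exact mul_lt_mul_of_pos_left hwd al0
      have g2 : |be * wc| < be * M := by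
        rw [abs_mul, abs_of_pos be0]
        exact mul_lt_mul_of_pos_left hwc be0
      have g3 := abs_add_le (al * wd + be * wc) (∑ o, a o * w o)
      have g4 := abs_add_le (al * wd) (be * wc)
      have g5 : Z * M = al * M + be * M + A * M := by rw [hZ]; ring
      linarith
    rw [abs_mul, abs_of_pos Z0] at h2
    exact lt_of_mul_lt_mul_left h2 Z0.le
  exact ⟨hwc, hwd, hwe⟩

end Pool.Agent.QnS
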