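import Pool.Agent.QnS.Curv

/-!
# The Cartan type identity (helper50)

`x_i = t_i²`, `y = ν²`, `λ_ij = λ_i - λ_j`, `σ_ijm = sig i j m u`.  Division by zero is zero.
* `phi`: `∑_l t_l ω_iil = ν k ∑_l x_l/λ_il`: `om_iij` for `λ_l ≠ λ_i`; for `λ_l = λ_i`, `l ≠ i`: `t_l = 0` (`t_zero`), the
  right term is `x_l/0 = 0`; for `l = i`: `ω_iii = 0` (`om_skew`).  With `dtt`: `∂_{e_i} t_i = ν φ_i`,
  `φ_i = λ_i + k ∑_l x_l/λ_il`.
* `gij` (`λ_i ≠ λ_j`): insert in `sect`: `ω_jji = k ν t_i/λ_ji` near `u`, so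
  `∂_{e_i} ω_jji = (k/λ_ji)(-λ_i x_i + y φ_i)` (`dnu`, `phi`), `∂_{e_j} ω_iji = -(k/λ_ij)(-λ_j x_j + y φ_j)`.  The sum
  over `m`:
  `m = i`: `ω_jji ω_iii - ω_iji ω_jii - (ω_iji - ω_jii) ω_iji = -ω_iji² = -k² y x_j/λ_ij²` (`ω_jii = ω_iii = 0`);
  `m = j`: `ω_jjj = 0`, `ω_ijj = 0`, `-(0 - ω_jij) ω_jji = -ω_jji² = -k² y x_i/λ_ij²`;
  `m ≠ i, j`, `λ_m` different from `λ_i, λ_j`: `ω_jjm ω_imi = -k² y x_m/(λ_im λ_jm)`, and with `ω_ijm = σ/λ_jm`,
  `ω_jmi = σ/λ_mi`, `ω_jim = σ/λ_im`, `ω_mji = σ/λ_ji` (`σ = σ_ijm`, totally symmetric):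
  `-ω_ijm ω_jmi = σ²/(λ_im λ_jm)`, `-(ω_ijm - ω_jim) ω_mji = σ²/(λ_im λ_jm)`;
  `m ≠ i, j`, `λ_m = λ_i` or `λ_m = λ_j`: `t_m = 0` and `σ = 0`, all products vanish: if `λ_m = λ_i`:
  `ω_jjm = k ν t_m/λ_jm = 0`, `ω_ijm = σ/λ_jm = 0`, `ω_mji = σ_mji/(λ_j - λ_i) = 0`; if `λ_m = λ_j`:
  `ω_imi = 0` (`om_iji`, `t_m = 0`), `ω_jmi = σ_jmi/(λ_m - λ_i) = 0`, `ω_mji = σ_mji/(λ_j - λ_i) = 0`.
  Result: `λ_iλ_j + k(1-x_i-x_j) = (k/λ_ij)[λ_i x_i - λ_j x_j - y(φ_i - φ_j)] - k² y ∑_m x_m/(λ_im λ_jm)
    - k² y (x_i+x_j)/λ_ij² + 2 ∑_m σ_ijm²/(λ_im λ_jm)`, and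
  `φ_i - φ_j = λ_ij + k (x_i+x_j)/λ_ij - k λ_ij ∑_m x_m/(λ_im λ_jm)` (`1/λ_im - 1/λ_jm = -λ_ij/(λ_im λ_jm)`; terms
  with `λ_m ∈ {λ_i, λ_j}`, `m ≠ i, j` have `x_m = 0`).  This is `gij`.
* `cartan`: for `j` with `λ_j ≠ λ_i` insert `gij`; `∑_j ∑_m σ_ijm²/(λ_im λ_jm λ_ij)` is antisymmetric under the exchange of
  `j` and `m` (`σ_ijm² = σ_imj²`; terms with `m ∈ {i, j}` or equal eigenvalues are zero by division by zero).
-/

namespace Pool.Agent.QnS

open scoped BigOperators ContDiff
open Pool.Agent.QnR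

variable {E : Type*} [NormedAddCommGroup E] [NormedSpace ℝ E] [FiniteDimensional ℝ E]
  {U V : Set E} {k : ℝ} {g : E → E →L[ℝ] E →L[ℝ] ℝ} {S : E → E →L[ℝ] E} {T : E → E}
  {ν : E → ℝ} {Γ : E → E →L[ℝ] E →L[ℝ] E} {J : Type*} [Fintype J] [DecidableEq J] {lam : J → ℝ}
  {e : J → E → E}

theorem phi (h : Geo2 U k g S T ν Γ) (hf : Fr V g S lam e) (hV : V ⊆ U) (hk : k ≠ 0) {u : E}
    (hu : u ∈ V) (hν : ν u ≠ 0) (i : J) :
    fderiv ℝ (tt g T e i) u (e i u) =
      ν u * (lam i + k * ∑ l, tt g T e l u ^ 2 / (lam i - lam l)) := by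
  rw [dtt h hf hV hu i i, if_pos rfl, mul_one, mul_add, Finset.mul_sum, Finset.mul_sum]
  congr 1
  refine Finset.sum_congr rfl fun l _ => ?_
  by_cases hl : lam i = lam l
  · rw [hl, sub_self, div_zero, mul_zero, mul_zero]
    by_cases hil : l = i
    · have h1 := om_skew h hf hV hu i i l
      rw [hil] at h1 ⊢
      have h2 : om g Γ e i i i u = 0 := by linarith
      rw [h2, mul_zero]
    · rw [t_zero h hf hV hu hk hν hil hl.symm, zero_mul]
  · rw [om_iij h hf hV hu hl]
    ring

private theorem om_same (h : Geo2 U k g S T ν Γ) (hf : Fr V g S lam e) (hV : V ⊆ U) {u : E}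
    (hu : u ∈ V) (i j : J) : om g Γ e i j j u = 0 := by
  have h1 := om_skew h hf hV hu i j j
  linarith

private theorem tdiff (h : Geo2 U k g S T ν Γ) (hf : Fr V g S lam e) (hV : V ⊆ U) {u : E}
    (hu : u ∈ V) (i : J) : DifferentiableAt ℝ (tt g T e i) u :=
  ((tt_sm h hf hV i).contDiffAt (hf.op.mem_nhds hu)).differentiableAt (by simp)

private theorem nudiff (h : Geo2 U k g S T ν Γ) (hV : V ⊆ U) {u : E}
    (hu : u ∈ V) : DifferentiableAt ℝ ν u :=
  (h.smν.contDiffAt (h.op.mem_nhds (hV hu))).differentiableAt (by simp)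

private theorem d_jji (h : Geo2 U k g S T ν Γ) (hf : Fr V g S lam e) (hV : V ⊆ U) (hk : k ≠ 0)
    {u : E} (hu : u ∈ V) (hν : ν u ≠ 0) {i j : J} (hl : lam i ≠ lam j) :
    fderiv ℝ (om g Γ e j j i) u (e i u) =
      k / (lam j - lam i) * (-(lam i * tt g T e i u ^ 2) +
        ν u ^ 2 * (lam i + k * ∑ l, tt g T e l u ^ 2 / (lam i - lam l))) := by
  have hc : om g Γ e j j i =ᶠ[nhds u] fun x => (k / (lam j - lam i)) * (ν x * tt g T e i x) := by
    filter_upwards [hf.op.mem_nhds hu] with x hx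
    rw [om_iij h hf hV hx hl.symm]
    ring
  have h1 := ((nudiff h hV hu).hasFDerivAt.mul (tdiff h hf hV hu i).hasFDerivAt).const_mul
    (k / (lam j - lam i))
  rw [hc.fderiv_eq]
  have h2 : fderiv ℝ (fun x => (k / (lam j - lam i)) * (ν x * tt g T e i x)) u = _ := h1.fderiv
  rw [h2]
  simp only [ContinuousLinearMap.smul_apply, ContinuousLinearMap.add_apply, smul_eq_mul]
  rw [phi h hf hV hk hu hν i, dnu h hf hV hu i]
  ring

private theorem d_iji (h : Geo2 U k g S T ν Γ) (hf : Fr V g S lam e) (hV : V ⊆ U) (hk : k ≠ 0)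
    {u : E} (hu : u ∈ V) (hν : ν u ≠ 0) {i j : J} (hl : lam i ≠ lam j) :
    fderiv ℝ (om g Γ e i j i) u (e j u) =
      -(k / (lam i - lam j) * (-(lam j * tt g T e j u ^ 2) +
        ν u ^ 2 * (lam j + k * ∑ l, tt g T e l u ^ 2 / (lam j - lam l)))) := by
  have hc : om g Γ e i j i =ᶠ[nhds u]
      fun x => (-(k / (lam i - lam j))) * (ν x * tt g T e j x) := by
    filter_upwards [hf.op.mem_nhds hu] with x hx
    rw [om_iji h hf hV hx hl]
    ring
  have h1 := ((nudiff h hV hu).hasFDerivAt.mul (tdiff h hf hV hu j).hasFDerivAt).const_mul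
    (-(k / (lam i - lam j)))
  rw [hc.fderiv_eq]
  have h2 : fderiv ℝ (fun x => (-(k / (lam i - lam j))) * (ν x * tt g T e j x)) u = _ := h1.fderiv
  rw [h2]
  simp only [ContinuousLinearMap.smul_apply, ContinuousLinearMap.add_apply, smul_eq_mul]
  rw [phi h hf hV hk hu hν j, dnu h hf hV hu j]
  ring

private theorem term (h : Geo2 U k g S T ν Γ) (hf : Fr V g S lam e) (hV : V ⊆ U) (hk : k ≠ 0)
    {u : E} (hu : u ∈ V) (hν : ν u ≠ 0) {i j : J} (hl : lam i ≠ lam j) (m : J) :
    om g Γ e j j m u * om g Γ e i m i u - om g Γ e i j m u * om g Γ e j m i u -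
        (om g Γ e i j m u - om g Γ e j i m u) * om g Γ e m j i u =
      -(k ^ 2 * ν u ^ 2) * (tt g T e m u ^ 2 / ((lam i - lam m) * (lam j - lam m))) +
      2 * (sig g Γ lam e i j m u ^ 2 / ((lam i - lam m) * (lam j - lam m))) -
      (if m = i then k ^ 2 * ν u ^ 2 * tt g T e j u ^ 2 / (lam i - lam j) ^ 2 else 0) -
      (if m = j then k ^ 2 * ν u ^ 2 * tt g T e i u ^ 2 / (lam i - lam j) ^ 2 else 0) := by
  have hij : i ≠ j := fun hc => hl (by rw [hc])
  have hd : lam i - lam j ≠ 0 := sub_ne_zero.2 hl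
  by_cases hmi : m = i
  · subst hmi
    rw [if_pos rfl, if_neg hij, om_same h hf hV hu j m, om_same h hf hV hu m m,
      om_iji h hf hV hu hl, sub_self, zero_mul, div_zero, div_zero]
    field_simp
    ring
  · by_cases hmj : m = j
    · subst hmj
      rw [if_neg hmi, if_pos rfl, om_same h hf hV hu m m, om_same h hf hV hu i m,
        om_iij h hf hV hu hl.symm, om_iji h hf hV hu hl.symm, sub_self, mul_zero, div_zero,
        div_zero]
      have hd' : lam m - lam i ≠ 0 := sub_ne_zero.2 hl.symm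
      have e1 : (lam i - lam m) ^ 2 = (lam m - lam i) ^ 2 := by ring
      rw [e1]
      field_simp
      ring
    · rw [if_neg hmi, if_neg hmj]
      have him : i ≠ m := fun hc => hmi hc.symm
      have hjm : j ≠ m := fun hc => hmj hc.symm
      have s1 : (lam j - lam m) * om g Γ e i j m u = sig g Γ lam e i j m u := rfl
      have s2 : (lam m - lam i) * om g Γ e j m i u = sig g Γ lam e i j m u := by
        have a1 := (sig_symm h hf hV hu hij him hjm).1
        have a2 := (sig_symm h hf hV hu hij.symm hjm him).2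
        rw [a1, a2]
        rfl
      have s3 : (lam i - lam m) * om g Γ e j i m u = sig g Γ lam e i j m u := by
        have a1 := (sig_symm h hf hV hu hij him hjm).1
        rw [a1]
        rfl
      have s4 : (lam j - lam i) * om g Γ e m j i u = sig g Γ lam e i j m u := by
        have a1 := (sig_symm h hf hV hu hij him hjm).1
        have a2 := (sig_symm h hf hV hu hij.symm hjm him).2
        have a3 := (sig_symm h hf hV hu hjm hij.symm him.symm).1
        rw [a1, a2, a3]
        rfl
      by_cases h1 : lam i = lam m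
      · have t0 : tt g T e m u = 0 := t_zero h hf hV hu hk hν hmi h1.symm
        have g0 : sig g Γ lam e i j m u = 0 := sig_zero h hf hV hu hij him hjm (Or.inr (Or.inl h1))
        have hne : lam j ≠ lam m := fun hc => hl (h1.trans hc.symm)
        have w1 : om g Γ e i j m u = 0 := by
          rw [g0] at s1
          exact (mul_eq_zero.1 s1).resolve_left (sub_ne_zero.2 hne)
        have w4 : om g Γ e m j i u = 0 := by
          rw [g0] at s4
          exact (mul_eq_zero.1 s4).resolve_left (sub_ne_zero.2 hl.symm)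
        have w5 : om g Γ e j j m u = 0 := by
          rw [om_iij h hf hV hu hne, t0]
          simp
        rw [w1, w4, w5, t0, g0]
        simp
      · by_cases h2 : lam j = lam m
        · have t0 : tt g T e m u = 0 := t_zero h hf hV hu hk hν hmj h2.symm
          have g0 : sig g Γ lam e i j m u = 0 :=
            sig_zero h hf hV hu hij him hjm (Or.inr (Or.inr h2))
          have w4 : om g Γ e m j i u = 0 := by
            rw [g0] at s4
            exact (mul_eq_zero.1 s4).resolve_left (sub_ne_zero.2 hl.symm)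
          have w2 : om g Γ e j m i u = 0 := by
            rw [g0] at s2
            exact (mul_eq_zero.1 s2).resolve_left (sub_ne_zero.2 (fun hc => h1 hc.symm))
          have w5 : om g Γ e i m i u = 0 := by
            rw [om_iji h hf hV hu h1, t0]
            simp
          rw [w2, w4, w5, t0, g0]
          simp
        · have d1 : lam i - lam m ≠ 0 := sub_ne_zero.2 h1
          have d2 : lam j - lam m ≠ 0 := sub_ne_zero.2 h2
          have w1 : om g Γ e i j m u = sig g Γ lam e i j m u / (lam j - lam m) := by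
            rw [eq_div_iff d2]
            linarith
          have w2 : om g Γ e j m i u = -(sig g Γ lam e i j m u / (lam i - lam m)) := by
            rw [eq_neg_iff_add_eq_zero, ← mul_right_inj' d1, mul_add, mul_zero,
              mul_div_cancel₀ _ d1]
            linarith
          have w3 : om g Γ e j i m u = sig g Γ lam e i j m u / (lam i - lam m) := by
            rw [eq_div_iff d1]
            linarith
          have w4 : om g Γ e m j i u = -(sig g Γ lam e i j m u / (lam i - lam j)) := by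
            rw [eq_neg_iff_add_eq_zero, ← mul_right_inj' hd, mul_add, mul_zero,
              mul_div_cancel₀ _ hd]
            linarith
          rw [w1, w2, w3, w4, om_iij h hf hV hu h2, om_iji h hf hV hu h1]
          generalize sig g Γ lam e i j m u = sg
          generalize tt g T e m u = tm
          field_simp
          ring

theorem gij (h : Geo2 U k g S T ν Γ) (hf : Fr V g S lam e) (hV : V ⊆ U) (hk : k ≠ 0)
    {u : E} (hu : u ∈ V) (hν : ν u ≠ 0) {i j : J} (hl : lam i ≠ lam j) :
    2 * ∑ m, sig g Γ lam e i j m u ^ 2 / ((lam i - lam m) * (lam j - lam m)) =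
      QQ k (ν u ^ 2) (lam i) (lam j) (tt g T e i u ^ 2) (tt g T e j u ^ 2) := by
  have hij : i ≠ j := fun hc => hl (by rw [hc])
  have hd : lam i - lam j ≠ 0 := sub_ne_zero.2 hl
  have hd' : lam j - lam i ≠ 0 := sub_ne_zero.2 hl.symm
  have h1 := sect h hf hV hu hij
  rw [d_jji h hf hV hk hu hν hl, d_iji h hf hV hk hu hν hl,
    Finset.sum_congr rfl (fun m _ => term h hf hV hk hu hν hl m), Finset.sum_sub_distrib,
    Finset.sum_sub_distrib, Finset.sum_add_distrib, ← Finset.mul_sum, ← Finset.mul_sum,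
    Finset.sum_ite_eq', Finset.sum_ite_eq', if_pos (Finset.mem_univ _),
    if_pos (Finset.mem_univ _)] at h1
  have h2 : ∑ l, tt g T e l u ^ 2 / (lam i - lam l) - ∑ l, tt g T e l u ^ 2 / (lam j - lam l) =
      -(lam i - lam j) * ∑ m, tt g T e m u ^ 2 / ((lam i - lam m) * (lam j - lam m)) +
        (tt g T e i u ^ 2 + tt g T e j u ^ 2) / (lam i - lam j) := by
    have h3 : ∀ m, tt g T e m u ^ 2 / (lam i - lam m) - tt g T e m u ^ 2 / (lam j - lam m) =
        -(lam i - lam j) * (tt g T e m u ^ 2 / ((lam i - lam m) * (lam j - lam m))) +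
          ((if m = i then tt g T e i u ^ 2 / (lam i - lam j) else 0) +
          (if m = j then tt g T e j u ^ 2 / (lam i - lam j) else 0)) := by
      intro m
      by_cases hmi : m = i
      · subst hmi
        rw [if_pos rfl, if_neg hij, sub_self, zero_mul, div_zero]
        have e1 : lam j - lam m = -(lam m - lam j) := by ring
        rw [e1, div_neg]
        ring
      · by_cases hmj : m = j
        · subst hmj
          rw [if_neg hmi, if_pos rfl, sub_self, mul_zero, div_zero]
          ring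
        · rw [if_neg hmi, if_neg hmj]
          by_cases h1 : lam i = lam m
          · rw [t_zero h hf hV hu hk hν hmi h1.symm]
            simp
          · by_cases h2 : lam j = lam m
            · rw [t_zero h hf hV hu hk hν hmj h2.symm]
              simp
            · have d1 : lam i - lam m ≠ 0 := sub_ne_zero.2 h1
              have d2 : lam j - lam m ≠ 0 := sub_ne_zero.2 h2
              field_simp
              ring
    rw [← Finset.sum_sub_distrib, Finset.sum_congr rfl (fun m _ => h3 m),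
      Finset.sum_add_distrib, ← Finset.mul_sum, Finset.sum_add_distrib,
      Finset.sum_ite_eq', Finset.sum_ite_eq', if_pos (Finset.mem_univ _),
      if_pos (Finset.mem_univ _)]
    ring
  unfold QQ
  revert h1 h2
  generalize ∑ m, sig g Γ lam e i j m u ^ 2 / ((lam i - lam m) * (lam j - lam m)) = Sg
  generalize ∑ m, tt g T e m u ^ 2 / ((lam i - lam m) * (lam j - lam m)) = P
  generalize ∑ l, tt g T e l u ^ 2 / (lam i - lam l) = A
  generalize ∑ l, tt g T e l u ^ 2 / (lam j - lam l) = B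
  generalize tt g T e i u ^ 2 = x
  generalize tt g T e j u ^ 2 = z
  generalize ν u ^ 2 = y
  generalize lam i = a at *
  generalize lam j = b at *
  intro h1 h2
  have h4 : A = B + (-(a - b) * P + (x + z) / (a - b)) := by linarith
  subst h4
  have e1 : b - a = -(a - b) := by ring
  rw [e1] at h1
  have h5 : (2 : ℝ) * Sg = a * b + k * (1 - x - z) -
      (k / -(a - b) * (-(a * x) + y * (a + k * (B + (-(a - b) * P + (x + z) / (a - b))))) -
      -(k / (a - b) * (-(b * z) + y * (b + k * B)))) + k ^ 2 * y * P + k ^ 2 * y * z / (a - b) ^ 2 +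
      k ^ 2 * y * x / (a - b) ^ 2 := by
    linarith
  rw [h5]
  field_simp
  ring

theorem cartan (h : Geo2 U k g S T ν Γ) (hf : Fr V g S lam e) (hV : V ⊆ U) (hk : k ≠ 0)
    {u : E} (hu : u ∈ V) (hν : ν u ≠ 0) (i : J) :
    ∑ j, QQ k (ν u ^ 2) (lam i) (lam j) (tt g T e i u ^ 2) (tt g T e j u ^ 2) / (lam i - lam j) = 0 := by
  set a : J → J → ℝ := fun j m =>
    2 * (sig g Γ lam e i j m u ^ 2 / ((lam i - lam m) * (lam j - lam m))) / (lam i - lam j) with ha
  have h1 : ∀ j, QQ k (ν u ^ 2) (lam i) (lam j) (tt g T e i u ^ 2) (tt g T e j u ^ 2) /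
      (lam i - lam j) = ∑ m, a j m := by
    intro j
    by_cases hl : lam i = lam j
    · rw [hl, sub_self, div_zero]
      symm
      refine Finset.sum_eq_zero fun m _ => ?_
      simp only [ha]
      rw [hl, sub_self, div_zero]
    · rw [← gij h hf hV hk hu hν hl, Finset.mul_sum, Finset.sum_div]
  have h2 : ∀ j m, a j m = -a m j := by
    intro j m
    simp only [ha]
    by_cases l1 : lam i = lam j
    · rw [l1, sub_self, div_zero, zero_mul, div_zero, mul_zero, zero_div, neg_zero]
    · by_cases l2 : lam i = lam m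
      · rw [l2, sub_self, zero_mul, div_zero, mul_zero, zero_div, div_zero, neg_zero]
      · by_cases l3 : lam j = lam m
        · rw [l3]
          simp
        · have hij : i ≠ j := fun hc => l1 (by rw [hc])
          have him : i ≠ m := fun hc => l2 (by rw [hc])
          have hjm : j ≠ m := fun hc => l3 (by rw [hc])
          rw [(sig_symm h hf hV hu hij him hjm).2]
          have d1 : lam i - lam j ≠ 0 := sub_ne_zero.2 l1
          have d2 : lam i - lam m ≠ 0 := sub_ne_zero.2 l2
          have d3 : lam j - lam m ≠ 0 := sub_ne_zero.2 l3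
          have e1 : lam m - lam j = -(lam j - lam m) := by ring
          rw [e1]
          field_simp
  rw [Finset.sum_congr rfl fun j _ => h1 j]
  have h3 : ∑ j, ∑ m, a j m = -∑ j, ∑ m, a j m := by
    conv_lhs => rw [Finset.sum_comm]
    rw [← Finset.sum_neg_distrib]
    refine Finset.sum_congr rfl fun j _ => ?_
    rw [← Finset.sum_neg_distrib]
    refine Finset.sum_congr rfl fun m _ => ?_
    exact h2 m j
  linarith

end Pool.Agent.QnS
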