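import Mathlib

/-!
# At most five eigenvalues (helper50)

`blk_one`, `blk_two`: positions `p o < c < d` (`o` in a finite set `O` of outside points), values `w o`, `wc`,
`wd`; one outside value is zero, all are at most `M > 0` in absolute value.
`blk_one`: `∑_o (wc - w o)/(c - p o)³ = 0`, so `wc` is a weighted mean of the `w o` with positive weights.
`blk_two`: let `α = 1/(d-c)³`, `a_o = 1/(d-p o)³ < b_o = 1/(c-p o)³`, `A = ∑ a_o`.  Equation at `d`:
`α (wd - wc) + ∑ a_o (wd - w o) = 0`, so `wd - wc = ∑ a_o (w o - wc)/(α + A)`; equation at `c`: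
`α (wd - wc) + ∑ b_o (wc - w o) = 0`, hence `∑_o (b_o - θ a_o) (wc - w o) = 0`, `θ = α/(α+A) ∈ (0,1)`: `wc` is a
weighted mean of the `w o` with positive weights, so `|wc| < M`; and `wd` is a weighted mean of `wc` and
the `w o` with positive weights.
`five`: `κ` has at most five elements.  Order the `λ_i`; choose a middle index `r` such that at most two
eigenvalues are on each side (card 1: nothing to do; 2: one on one side; 3: 1+1; 4: 1+2; 5: 2+2).  Subtract
`w_r` (the equations only contain differences): `w_r = 0`.  Let `M` be the maximum of `|w|` on the left side,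
`M'` on the right side.  If `M > 0` then `blk` for the right side (outside points: `r` and the left ones) gives
`M' < M`; if `M' > 0` then (reflection `λ → -λ`) `M < M'`.  If `M = 0 < M'` : `M < M'` holds but then the right
side has all outside values `0`; use `blk` with any small `M`.  So all `w` are zero.  (More simply: apply
`blk` with outside bound `max M ε` for every `ε > 0`: `M' ≤ M`, with strict inequality if `M > 0`.)
-/

namespace Pool.Agent.QnS

open scoped BigOperators

private theorem up_one {O : Type*} [Fintype O] (p w : O → ℝ) (r : O) (hr : w r = 0) {c wc M : ℝ}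
    (hM : 0 < M) (hp : ∀ o, p o < c) (hw : ∀ o, w o ≤ M)
    (hc : ∑ o, (wc - w o) / (c - p o) ^ 3 = 0) : wc < M := by
  by_contra hcon
  have h1 : M ≤ wc := not_lt.1 hcon
  have h2 : 0 < ∑ o, (wc - w o) / (c - p o) ^ 3 := by
    refine Finset.sum_pos' (fun o _ => ?_) ⟨r, Finset.mem_univ r, ?_⟩
    · have a1 : 0 < c - p o := sub_pos.2 (hp o)
      have a2 : 0 ≤ wc - w o := by have := hw o; linarith
      positivity
    · have a1 : 0 < c - p r := sub_pos.2 (hp r)
      have a2 : 0 < wc - w r := by rw [hr]; linarith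
      positivity
  linarith

private theorem sum_neg_eq {O : Type*} [Fintype O] (p w : O → ℝ) (c wc : ℝ) :
    ∑ o, (-wc - -w o) / (c - p o) ^ 3 = -∑ o, (wc - w o) / (c - p o) ^ 3 := by
  rw [← Finset.sum_neg_distrib]
  refine Finset.sum_congr rfl fun o _ => ?_
  rw [← neg_div]
  congr 1
  ring

theorem blk_one {O : Type*} [Fintype O] (p w : O → ℝ) (r : O) (hr : w r = 0) {c wc M : ℝ} (hM : 0 < M)
    (hp : ∀ o, p o < c) (hw : ∀ o, |w o| ≤ M) (hc : ∑ o, (wc - w o) / (c - p o) ^ 3 = 0) :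
    |wc| < M := by
  have h1 := up_one p w r hr hM hp (fun o => (abs_le.1 (hw o)).2) hc
  have h2 := up_one p (fun o => -w o) r (by rw [hr, neg_zero]) (wc := -wc) hM hp
    (fun o => by have := (abs_le.1 (hw o)).1; linarith)
    (by rw [sum_neg_eq, hc, neg_zero])
  exact abs_lt.2 ⟨by linarith, h1⟩

private theorem up_two {O : Type*} [Fintype O] (p w : O → ℝ) (r : O) (hr : w r = 0) {c d wc wd M : ℝ}
    (hM : 0 < M) (hp : ∀ o, p o < c) (hcd : c < d) (hw : ∀ o, w o ≤ M)
    (hd : (wd - wc) / (d - c) ^ 3 + ∑ o, (wd - w o) / (d - p o) ^ 3 = 0)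
    (hc : (wc - wd) / (c - d) ^ 3 + ∑ o, (wc - w o) / (c - p o) ^ 3 = 0) :
    wc < M ∧ wd < M := by
  have hdc : 0 < d - c := sub_pos.2 hcd
  have hc' : (wd - wc) / (d - c) ^ 3 + ∑ o, (wc - w o) / (c - p o) ^ 3 = 0 := by
    have e : (wc - wd) / (c - d) ^ 3 = (wd - wc) / (d - c) ^ 3 := by
      rw [show (c - d) ^ 3 = -(d - c) ^ 3 by ring, show wc - wd = -(wd - wc) by ring, neg_div_neg_eq]
    rwa [e] at hc
  have hcM : wc < M := by
    by_contra hcon
    have h1 : M ≤ wc := not_lt.1 hcon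
    have h2 : 0 < ∑ o, (wc - w o) / (c - p o) ^ 3 := by
      refine Finset.sum_pos' (fun o _ => ?_) ⟨r, Finset.mem_univ r, ?_⟩
      · have a1 : 0 < c - p o := sub_pos.2 (hp o)
        have a2 : 0 ≤ wc - w o := by have := hw o; linarith
        positivity
      · have a1 : 0 < c - p r := sub_pos.2 (hp r)
        have a2 : 0 < wc - w r := by rw [hr]; linarith
        positivity
    have h3 : (wd - wc) / (d - c) ^ 3 < 0 := by linarith
    have h4 : wd - wc < 0 := by
      by_contra hcon2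
      have : 0 ≤ (wd - wc) / (d - c) ^ 3 := div_nonneg (not_lt.1 hcon2) (by positivity)
      linarith
    have h5 : ∑ o, (wd - w o) / (d - p o) ^ 3 < ∑ o, (wc - w o) / (c - p o) ^ 3 := by
      refine Finset.sum_lt_sum (fun o _ => ?_) ⟨r, Finset.mem_univ r, ?_⟩
      · have a1 : 0 < c - p o := sub_pos.2 (hp o)
        have a2 : 0 ≤ wc - w o := by have := hw o; linarith
        have a3 : c - p o ≤ d - p o := by linarith
        calc (wd - w o) / (d - p o) ^ 3 ≤ (wc - w o) / (d - p o) ^ 3 := by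
              refine div_le_div_of_nonneg_right (by linarith) ?_
              have : 0 < d - p o := by linarith
              positivity
          _ ≤ (wc - w o) / (c - p o) ^ 3 := by
              refine div_le_div_of_nonneg_left a2 (by positivity) ?_
              exact pow_le_pow_left₀ a1.le a3 3
      · have a1 : 0 < c - p r := sub_pos.2 (hp r)
        have a2 : 0 ≤ wc - w r := by rw [hr]; linarith
        have a3 : c - p r ≤ d - p r := by linarith
        have a4 : 0 < d - p r := by linarith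
        calc (wd - w r) / (d - p r) ^ 3 < (wc - w r) / (d - p r) ^ 3 :=
              div_lt_div_of_pos_right (by linarith) (by positivity)
          _ ≤ (wc - w r) / (c - p r) ^ 3 := by
              refine div_le_div_of_nonneg_left a2 (by positivity) ?_
              exact pow_le_pow_left₀ a1.le a3 3
    linarith
  refine ⟨hcM, ?_⟩
  by_contra hcon
  have h1 : M ≤ wd := not_lt.1 hcon
  have h2 : 0 ≤ ∑ o, (wd - w o) / (d - p o) ^ 3 := by
    refine Finset.sum_nonneg fun o _ => ?_
    have a1 : 0 < d - p o := by have := hp o; linarith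
    have a2 : 0 ≤ wd - w o := by have := hw o; linarith
    positivity
  have h3 : 0 < (wd - wc) / (d - c) ^ 3 := div_pos (by linarith) (by positivity)
  linarith

theorem blk_two {O : Type*} [Fintype O] (p w : O → ℝ) (r : O) (hr : w r = 0) {c d wc wd M : ℝ}
    (hM : 0 < M) (hp : ∀ o, p o < c) (hcd : c < d) (hw : ∀ o, |w o| ≤ M)
    (hd : (wd - wc) / (d - c) ^ 3 + ∑ o, (wd - w o) / (d - p o) ^ 3 = 0)
    (hc : (wc - wd) / (c - d) ^ 3 + ∑ o, (wc - w o) / (c - p o) ^ 3 = 0) :
    |wc| < M ∧ |wd| < M := by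
  have h1 := up_two p w r hr hM hp hcd (fun o => (abs_le.1 (hw o)).2) hd hc
  have h2 := up_two p (fun o => -w o) r (by rw [hr, neg_zero]) (wc := -wc) (wd := -wd) hM hp hcd
    (fun o => by have := (abs_le.1 (hw o)).1; linarith)
    (by
      rw [sum_neg_eq, show -wd - -wc = -(wd - wc) by ring, neg_div]
      linarith)
    (by
      rw [sum_neg_eq, show -wc - -wd = -(wc - wd) by ring, neg_div]
      linarith)
  exact ⟨abs_lt.2 ⟨by linarith [h2.1], h1.1⟩, abs_lt.2 ⟨by linarith [h2.2], h1.2⟩⟩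

private theorem fin_arg {a b : ℝ} (ha : 0 ≤ a) (hb : 0 ≤ b) (h1 : ∀ M, 0 < M → a ≤ M → b < M)
    (h2 : ∀ M, 0 < M → b ≤ M → a < M) : a = 0 ∧ b = 0 := by
  have h3 : a = 0 := by
    by_contra hne
    have hpos : 0 < a := lt_of_le_of_ne ha (Ne.symm hne)
    have h4 := h1 a hpos le_rfl
    exact lt_irrefl _ (h2 a hpos h4.le)
  refine ⟨h3, ?_⟩
  by_contra hne
  have hpos : 0 < b := lt_of_le_of_ne hb (Ne.symm hne)
  exact lt_irrefl _ (h1 b hpos (by rw [h3]; exact hpos.le))

private theorem rfl_div (x a b : ℝ) : x / (-a - -b) ^ 3 = -(x / (a - b) ^ 3) := by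
  rw [show (-a - -b) ^ 3 = -(a - b) ^ 3 by ring, div_neg]

private theorem one_two {p0 p1 p2 v0 v2 M : ℝ} (h01 : p0 < p1) (h12 : p1 < p2) (hM : 0 < M)
    (hv0 : |v0| ≤ M) (e : (v2 - v0) / (p2 - p0) ^ 3 + (v2 - 0) / (p2 - p1) ^ 3 = 0) : |v2| < M := by
  refine blk_one ![p0, p1] ![v0, 0] 1 rfl (c := p2) hM ?_ ?_ ?_
  · intro o; fin_cases o
    · exact h01.trans h12
    · exact h12
  · intro o; fin_cases o
    · exact hv0
    · show |(0 : ℝ)| ≤ M
      rw [abs_zero]; exact hM.le
  · rw [Fin.sum_univ_two]; exact e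

private theorem one_three {p0 p1 p2 p3 v0 v1 v3 M : ℝ} (h01 : p0 < p1) (h12 : p1 < p2)
    (h23 : p2 < p3) (hM : 0 < M) (hv0 : |v0| ≤ M) (hv1 : |v1| ≤ M)
    (e : (v3 - v0) / (p3 - p0) ^ 3 + (v3 - v1) / (p3 - p1) ^ 3 + (v3 - 0) / (p3 - p2) ^ 3 = 0) :
    |v3| < M := by
  refine blk_one ![p0, p1, p2] ![v0, v1, 0] 2 rfl (c := p3) hM ?_ ?_ ?_
  · intro o; fin_cases o
    · exact (h01.trans h12).trans h23
    · exact h12.trans h23
    · exact h23
  · intro o; fin_cases o
    · exact hv0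
    · exact hv1
    · show |(0 : ℝ)| ≤ M
      rw [abs_zero]; exact hM.le
  · rw [Fin.sum_univ_three]; exact e

private theorem two_two {p0 p1 p2 p3 v0 v2 v3 M : ℝ} (h01 : p0 < p1) (h12 : p1 < p2)
    (h23 : p2 < p3) (hM : 0 < M) (hv0 : |v0| ≤ M)
    (e3 : (v3 - v0) / (p3 - p0) ^ 3 + (v3 - 0) / (p3 - p1) ^ 3 + (v3 - v2) / (p3 - p2) ^ 3 = 0)
    (e2 : (v2 - v0) / (p2 - p0) ^ 3 + (v2 - 0) / (p2 - p1) ^ 3 + (v2 - v3) / (p2 - p3) ^ 3 = 0) :
    |v2| < M ∧ |v3| < M := by
  refine blk_two ![p0, p1] ![v0, 0] 1 rfl (c := p2) (d := p3) hM ?_ h23 ?_ ?_ ?_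
  · intro o; fin_cases o
    · exact h01.trans h12
    · exact h12
  · intro o; fin_cases o
    · exact hv0
    · show |(0 : ℝ)| ≤ M
      rw [abs_zero]; exact hM.le
  · rw [Fin.sum_univ_two]
    show (v3 - v2) / (p3 - p2) ^ 3 + ((v3 - v0) / (p3 - p0) ^ 3 + (v3 - 0) / (p3 - p1) ^ 3) = 0
    linarith
  · rw [Fin.sum_univ_two]
    show (v2 - v3) / (p2 - p3) ^ 3 + ((v2 - v0) / (p2 - p0) ^ 3 + (v2 - 0) / (p2 - p1) ^ 3) = 0
    linarith

private theorem two_three {p0 p1 p2 p3 p4 v0 v1 v3 v4 M : ℝ} (h01 : p0 < p1) (h12 : p1 < p2)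
    (h23 : p2 < p3) (h34 : p3 < p4) (hM : 0 < M) (hv0 : |v0| ≤ M) (hv1 : |v1| ≤ M)
    (e4 : (v4 - v0) / (p4 - p0) ^ 3 + (v4 - v1) / (p4 - p1) ^ 3 + (v4 - 0) / (p4 - p2) ^ 3 +
      (v4 - v3) / (p4 - p3) ^ 3 = 0)
    (e3 : (v3 - v0) / (p3 - p0) ^ 3 + (v3 - v1) / (p3 - p1) ^ 3 + (v3 - 0) / (p3 - p2) ^ 3 +
      (v3 - v4) / (p3 - p4) ^ 3 = 0) :
    |v3| < M ∧ |v4| < M := by
  refine blk_two ![p0, p1, p2] ![v0, v1, 0] 2 rfl (c := p3) (d := p4) hM ?_ h34 ?_ ?_ ?_
  · intro o; fin_cases o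
    · exact (h01.trans h12).trans h23
    · exact h12.trans h23
    · exact h23
  · intro o; fin_cases o
    · exact hv0
    · exact hv1
    · show |(0 : ℝ)| ≤ M
      rw [abs_zero]; exact hM.le
  · rw [Fin.sum_univ_three]
    show (v4 - v3) / (p4 - p3) ^ 3 + ((v4 - v0) / (p4 - p0) ^ 3 + (v4 - v1) / (p4 - p1) ^ 3 +
      (v4 - 0) / (p4 - p2) ^ 3) = 0
    linarith
  · rw [Fin.sum_univ_three]
    show (v3 - v4) / (p3 - p4) ^ 3 + ((v3 - v0) / (p3 - p0) ^ 3 + (v3 - v1) / (p3 - p1) ^ 3 +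
      (v3 - 0) / (p3 - p2) ^ 3) = 0
    linarith

private theorem five_fin (n : ℕ) (hn : n ≤ 5) (p : Fin n → ℝ) (hp : StrictMono p) (w : Fin n → ℝ)
    (h : ∀ i, ∑ j, (w i - w j) / (p i - p j) ^ 3 = 0) : ∀ i j, w i = w j := by
  have hsub : ∀ (r : Fin n), (∀ i, w i - w r = 0) → ∀ i j, w i = w j := fun r hr i j => by
    have h1 := hr i
    have h2 := hr j
    linarith
  have hv : ∀ r i, ∑ j, ((w i - w r) - (w j - w r)) / (p i - p j) ^ 3 = 0 := fun r i => by
    rw [← h i]
    refine Finset.sum_congr rfl fun j _ => ?_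
    congr 1
    ring
  interval_cases n
  · exact fun i => i.elim0
  · intro i j; rw [Subsingleton.elim i j]
  · refine hsub 0 fun i => ?_
    have h01 : p 0 < p 1 := hp (by decide)
    have e1 := hv 0 1
    rw [Fin.sum_univ_two] at e1
    simp only [sub_self, sub_zero, zero_div, add_zero] at e1
    have h2 : w 1 - w 0 = 0 := by
      rcases div_eq_zero_iff.1 e1 with h3 | h3
      · exact h3
      · exact absurd h3 (pow_ne_zero 3 (sub_pos.2 h01).ne')
    fin_cases i
    · exact sub_self _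
    · exact h2
  · refine hsub 1 fun i => ?_
    have h01 : p 0 < p 1 := hp (by decide)
    have h12 : p 1 < p 2 := hp (by decide)
    have e0 := hv 1 0
    have e2 := hv 1 2
    rw [Fin.sum_univ_three] at e0 e2
    simp only [sub_self, zero_div, zero_add, add_zero] at e0 e2
    obtain ⟨h3, h4⟩ := fin_arg (abs_nonneg (w 0 - w 1)) (abs_nonneg (w 2 - w 1))
      (fun M hM hle => one_two h01 h12 hM hle e2)
      (fun M hM hle => one_two (neg_lt_neg h12) (neg_lt_neg h01) hM hle (by
        rw [rfl_div, rfl_div]; linarith))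
    rw [abs_eq_zero] at h3 h4
    fin_cases i
    · exact h3
    · exact sub_self _
    · exact h4
  · refine hsub 1 fun i => ?_
    have h01 : p 0 < p 1 := hp (by decide)
    have h12 : p 1 < p 2 := hp (by decide)
    have h23 : p 2 < p 3 := hp (by decide)
    have e0 := hv 1 0
    have e2 := hv 1 2
    have e3 := hv 1 3
    rw [Fin.sum_univ_four] at e0 e2 e3
    simp only [sub_self, zero_div, zero_add, add_zero] at e0 e2 e3
    obtain ⟨h3, h4⟩ := fin_arg (abs_nonneg (w 0 - w 1))
      (le_max_of_le_left (abs_nonneg (w 2 - w 1)) : 0 ≤ max |w 2 - w 1| |w 3 - w 1|)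
      (fun M hM hle => by
        obtain ⟨a1, a2⟩ := two_two h01 h12 h23 hM hle e3 e2
        exact max_lt a1 a2)
      (fun M hM hle => one_three (neg_lt_neg h23) (neg_lt_neg h12) (neg_lt_neg h01) hM
        ((le_max_right _ _).trans hle) ((le_max_left _ _).trans hle) (by
        rw [rfl_div, rfl_div, rfl_div]; linarith))
    have h5 : |w 2 - w 1| ≤ 0 := (le_max_left _ _).trans h4.le
    have h6 : |w 3 - w 1| ≤ 0 := (le_max_right _ _).trans h4.le
    rw [abs_eq_zero] at h3
    fin_cases i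
    · exact h3
    · exact sub_self _
    · exact abs_nonpos_iff.1 h5
    · exact abs_nonpos_iff.1 h6
  · refine hsub 2 fun i => ?_
    have h01 : p 0 < p 1 := hp (by decide)
    have h12 : p 1 < p 2 := hp (by decide)
    have h23 : p 2 < p 3 := hp (by decide)
    have h34 : p 3 < p 4 := hp (by decide)
    have e0 := hv 2 0
    have e1 := hv 2 1
    have e3 := hv 2 3
    have e4 := hv 2 4
    rw [Fin.sum_univ_five] at e0 e1 e3 e4
    simp only [sub_self, zero_div, zero_add, add_zero] at e0 e1 e3 e4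
    obtain ⟨h3, h4⟩ := fin_arg
      (le_max_of_le_left (abs_nonneg (w 0 - w 2)) : 0 ≤ max |w 0 - w 2| |w 1 - w 2|)
      (le_max_of_le_left (abs_nonneg (w 3 - w 2)) : 0 ≤ max |w 3 - w 2| |w 4 - w 2|)
      (fun M hM hle => by
        obtain ⟨a1, a2⟩ := two_three h01 h12 h23 h34 hM ((le_max_left _ _).trans hle)
          ((le_max_right _ _).trans hle) e4 e3
        exact max_lt a1 a2)
      (fun M hM hle => by
        obtain ⟨a1, a2⟩ := two_three (neg_lt_neg h34) (neg_lt_neg h23) (neg_lt_neg h12)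
          (neg_lt_neg h01) hM ((le_max_right _ _).trans hle) ((le_max_left _ _).trans hle)
          (v3 := w 1 - w 2) (v4 := w 0 - w 2)
          (by rw [rfl_div, rfl_div, rfl_div, rfl_div]; linarith)
          (by rw [rfl_div, rfl_div, rfl_div, rfl_div]; linarith)
        exact max_lt a2 a1)
    have h5 : |w 0 - w 2| ≤ 0 := (le_max_left _ _).trans h3.le
    have h6 : |w 1 - w 2| ≤ 0 := (le_max_right _ _).trans h3.le
    have h7 : |w 3 - w 2| ≤ 0 := (le_max_left _ _).trans h4.le
    have h8 : |w 4 - w 2| ≤ 0 := (le_max_right _ _).trans h4.le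
    fin_cases i
    · exact abs_nonpos_iff.1 h5
    · exact abs_nonpos_iff.1 h6
    · exact sub_self _
    · exact abs_nonpos_iff.1 h7
    · exact abs_nonpos_iff.1 h8

theorem five {κ : Type*} [Fintype κ] (lam : κ → ℝ) (hinj : Function.Injective lam)
    (hcard : Fintype.card κ ≤ 5) (w : κ → ℝ)
    (h : ∀ i, ∑ j, (w i - w j) / (lam i - lam j) ^ 3 = 0) : ∀ i j, w i = w j := by
  classical
  have e : κ ≃ Fin (Fintype.card κ) := Fintype.equivFin κ
  set f : Fin (Fintype.card κ) → ℝ := fun k => lam (e.symm k) with hf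
  have hfi : Function.Injective f := hinj.comp e.symm.injective
  let g : Fin (Fintype.card κ) ≃ κ := (Tuple.sort f).trans e.symm
  have hmono : StrictMono (fun k => lam (g k)) :=
    (Tuple.monotone_sort f).strictMono_of_injective (hinj.comp g.injective)
  have h1 := five_fin (Fintype.card κ) hcard (fun k => lam (g k)) hmono (fun k => w (g k)) (fun i => by
    rw [← h (g i)]
    exact Equiv.sum_comp g (fun j => (w (g i) - w j) / (lam (g i) - lam j) ^ 3))
  intro i j
  have h2 := h1 (g.symm i) (g.symm j)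
  simpa using h2

end Pool.Agent.QnS
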