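import Pool.Agent.QnS.Def
import Pool.Agent.QnS.Five

/-!
# Translation of the nondegeneracy condition (helper50)

`R = Multiset.map lam univ.val`; `R.count a = card {j | lam j = a}`; `a ∈ R ↔ a ∈ univ.image lam`;
`(R.map F).sum = ∑_j F (lam j) = ∑_{a : κ} m a * F a`.  `R.Nodup` iff all `m a = 1`.
* `nonDeg_of`: translate (`w : κ → ℝ` is extended to `ℝ → ℝ` by zero outside; `c` too).
* `nonDegR_five`: `R.Nodup`, `R.card ≤ 5`: `five` for `κ = {a // a ∈ R.toFinset}`.
* `few`: if `R.card ≤ 5`, not `Nodup`: at most three elements have multiplicity one, and not all.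
-/

namespace Pool.Agent.QnS

open scoped BigOperators

theorem mem_evs {n : ℕ} (lam : Fin n → ℝ) (a : ℝ) :
    a ∈ Multiset.map lam Finset.univ.val ↔ a ∈ evs lam := by
  classical
  unfold evs
  rw [Multiset.mem_map, Finset.mem_image]
  rfl

theorem count_evs {n : ℕ} (lam : Fin n → ℝ) (a : ℝ) :
    (Multiset.map lam Finset.univ.val).count a = mul lam a := by
  classical
  unfold mul
  rw [Multiset.count_map, Finset.card_def, Finset.filter_val]
  congr 2
  funext j
  simp only [eq_iff_iff]
  exact eq_comm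

theorem sum_evs {n : ℕ} (lam : Fin n → ℝ) (F : ℝ → ℝ) :
    ((Multiset.map lam Finset.univ.val).map F).sum =
      ∑ a : {a // a ∈ evs lam}, (mul lam a.1 : ℝ) * F a.1 := by
  classical
  have h1 : ((Multiset.map lam Finset.univ.val).map F).sum = ∑ j : Fin n, F (lam j) := by
    rw [Multiset.map_map]
    rfl
  rw [h1, Finset.sum_coe_sort (evs lam) (fun a => (mul lam a : ℝ) * F a), Finset.sum_comp F lam]
  unfold evs mul
  apply Finset.sum_congr
  · congr
  · intro a _
    rw [nsmul_eq_mul]

theorem mul_pos_of {n : ℕ} (lam : Fin n → ℝ) {a : ℝ} (h : a ∈ evs lam) : 1 ≤ mul lam a := by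
  classical
  rw [← count_evs]
  exact Multiset.one_le_count_iff_mem.2 ((mem_evs lam a).2 h)

theorem nodup_evs {n : ℕ} (lam : Fin n → ℝ) :
    (Multiset.map lam Finset.univ.val).Nodup ↔ ∀ a ∈ evs lam, mul lam a = 1 := by
  classical
  rw [Multiset.nodup_iff_count_le_one]
  constructor
  · intro h a ha
    have h1 := h a
    rw [count_evs] at h1
    have h2 := mul_pos_of lam ha
    omega
  · intro h a
    by_cases ha : a ∈ evs lam
    · rw [count_evs, h a ha]
    · rw [Multiset.count_eq_zero_of_notMem (fun h2 => ha ((mem_evs lam a).1 h2))]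
      omega

open Classical in
/-- extension by zero -/
noncomputable def ext0 {s : Finset ℝ} (w : {a // a ∈ s} → ℝ) (a : ℝ) : ℝ := if h : a ∈ s then w ⟨a, h⟩ else 0

theorem ext0_coe {s : Finset ℝ} (w : {a // a ∈ s} → ℝ) (a : {a // a ∈ s}) : ext0 w a.1 = w a := by
  unfold ext0
  rw [dif_pos a.2]

theorem nonDeg_of {n : ℕ} (lam : Fin n → ℝ) (h : NonDegR (Multiset.map lam Finset.univ.val)) :
    NonDeg (κ := {a // a ∈ evs lam}) (fun a => a.1) (fun a => mul lam a.1) := by
  rcases h with ⟨h1, h2⟩ | ⟨h1, h2⟩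
  · left
    refine ⟨fun i => (nodup_evs lam).1 h1 i.1 i.2, ?_⟩
    intro w hw i j
    have h3 := h2 (ext0 w) ?_ i.1 ((mem_evs lam _).2 i.2) j.1 ((mem_evs lam _).2 j.2)
    · rwa [ext0_coe, ext0_coe] at h3
    · intro a ha
      have ha' := (mem_evs lam a).1 ha
      rw [sum_evs]
      have h4 := hw ⟨a, ha'⟩
      unfold LK at h4
      rw [← h4]
      apply Finset.sum_congr rfl
      intro b _
      have e1 : ext0 w a = w ⟨a, ha'⟩ := ext0_coe w ⟨a, ha'⟩
      rw [e1, ext0_coe, mul_div_assoc]
  · right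
    have h3 : ∃ a ∈ evs lam, 2 ≤ mul lam a := by
      by_contra hcon
      push Not at hcon
      apply h1
      rw [nodup_evs]
      intro a ha
      have h4 := hcon a ha
      have h5 := mul_pos_of lam ha
      omega
    obtain ⟨a, ha, ha2⟩ := h3
    refine ⟨⟨⟨a, ha⟩, ha2⟩, ?_⟩
    intro c hc1 hc2 hc3 hc4 i
    have key : ∀ b : {a // a ∈ evs lam}, (mul lam b.1 : ℝ) * c b = c b := by
      intro b
      by_cases hb : 2 ≤ mul lam b.1
      · rw [hc1 b hb, mul_zero]
      · have h5 := mul_pos_of lam b.2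
        have h6 : mul lam b.1 = 1 := by omega
        rw [h6, Nat.cast_one, one_mul]
    have h3 := h2 (ext0 c) ?_ ?_ ?_ ?_ i.1 ((mem_evs lam _).2 i.2)
    · rwa [ext0_coe] at h3
    · intro b hb hb2
      have hb' := (mem_evs lam b).1 hb
      have e1 : ext0 c b = c ⟨b, hb'⟩ := ext0_coe c ⟨b, hb'⟩
      rw [e1]
      apply hc1
      rw [count_evs] at hb2
      exact hb2
    · intro b hb
      have hb' := (mem_evs lam b).1 hb
      rw [sum_evs]
      have h4 := hc2 ⟨b, hb'⟩
      unfold KK at h4
      rw [← h4]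
      apply Finset.sum_congr rfl
      intro d _
      have e1 : ext0 c b = c ⟨b, hb'⟩ := ext0_coe c ⟨b, hb'⟩
      rw [e1, ext0_coe, mul_div_assoc]
    · intro b hb hb2
      have hb' := (mem_evs lam b).1 hb
      rw [count_evs] at hb2
      rw [sum_evs]
      have h4 := hc3 ⟨b, hb'⟩ hb2
      unfold GG at h4
      rw [← h4]
      apply Finset.sum_congr rfl
      intro d _
      rw [ext0_coe, ← mul_div_assoc, key]
    · rw [sum_evs, ← hc4]
      apply Finset.sum_congr rfl
      intro d _
      rw [ext0_coe, key]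

theorem nonDegR_five (R : Multiset ℝ) (hR : R.Nodup) (hc : Multiset.card R ≤ 5) : NonDegR R := by
  classical
  left
  refine ⟨hR, ?_⟩
  intro w hw a ha b hb
  have hsum : ∀ F : ℝ → ℝ, ∑ j : {a // a ∈ R.toFinset}, F j.1 = (R.map F).sum := by
    intro F
    rw [Finset.sum_coe_sort R.toFinset F]
    change (Multiset.map F R.toFinset.val).sum = _
    rw [Multiset.toFinset_val, Multiset.dedup_eq_self.2 hR]
  have h := five (κ := {a // a ∈ R.toFinset}) (fun a => a.1) Subtype.val_injective ?_ (fun a => w a.1) ?_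
    ⟨a, Multiset.mem_toFinset.2 ha⟩ ⟨b, Multiset.mem_toFinset.2 hb⟩
  · exact h
  · rw [Fintype.card_coe]
    exact (Multiset.toFinset_card_le R).trans hc
  · intro i
    have h1 := hw i.1 (Multiset.mem_toFinset.1 i.2)
    rw [← hsum] at h1
    exact h1

open Classical in
theorem few (P : Polynomial ℝ) (hR : ¬P.roots.Nodup) (hc : Multiset.card P.roots ≤ 5) :
    (P.roots.toFinset.filter (fun a => P.rootMultiplicity a = 1)).card ≤ 3 ∧
      P.roots.toFinset.filter (fun a => P.rootMultiplicity a = 1) ≠ P.roots.toFinset := by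
  rw [Multiset.nodup_iff_count_le_one] at hR
  push Not at hR
  obtain ⟨a, ha⟩ := hR
  have ha1 : a ∈ P.roots := Multiset.count_pos.1 (by omega)
  have ha2 : 1 < P.rootMultiplicity a := by
    rw [← Polynomial.count_roots]
    exact ha
  have ha3 : a ∉ P.roots.toFinset.filter (fun a => P.rootMultiplicity a = 1) := by
    intro h
    have := (Finset.mem_filter.1 h).2
    omega
  constructor
  · have h1 : ∑ b ∈ insert a (P.roots.toFinset.filter (fun a => P.rootMultiplicity a = 1)),
        P.roots.count b ≤ ∑ b ∈ P.roots.toFinset, P.roots.count b := by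
      apply Finset.sum_le_sum_of_subset
      intro b hb
      rcases Finset.mem_insert.1 hb with rfl | hb
      · exact Multiset.mem_toFinset.2 ha1
      · exact (Finset.mem_filter.1 hb).1
    rw [Multiset.toFinset_sum_count_eq, Finset.sum_insert ha3] at h1
    have h2 : ∑ b ∈ P.roots.toFinset.filter (fun a => P.rootMultiplicity a = 1), P.roots.count b =
        (P.roots.toFinset.filter (fun a => P.rootMultiplicity a = 1)).card := by
      rw [Finset.card_eq_sum_ones]
      apply Finset.sum_congr rfl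
      intro b hb
      rw [Polynomial.count_roots]
      exact (Finset.mem_filter.1 hb).2
    rw [h2] at h1
    omega
  · intro h
    rw [h] at ha3
    exact ha3 (Multiset.mem_toFinset.2 ha1)

end Pool.Agent.QnS
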