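import Pool.Agent.QnS.Om

/-!
# Sectional curvature in an eigenframe (helper50)

* `nab_comm`: for smooth vector fields `A, B, Z` near `u` (`Y = ∇_B Z` the vector field
  `x ↦ nab Γ Z x (B x)`):
  `∇_A (∇_B Z) - ∇_B (∇_A Z) - ∇_{∇_A B - ∇_B A} Z = R(A, B) Z` at `u`.  Computation:
  `nab Γ Y u v = D²Z(v, B) + DZ(DB v) + (∂_v Γ)(B, Z) + Γ(DB v, Z) + Γ(B, DZ v) + Γ(v, DZ B + Γ(B, Z))`, and
  `∇_A B - ∇_B A = DB A - DA B` (`Γ` symmetric); `D²Z` is symmetric.
* `sect`: `A = e_i`, `B = Z = e_j`, product with `e_i`; Gauss equation (`gauss`) with `S e_i = λ_i e_i`: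
  the left side is `λ_i λ_j + k (1 - t_i² - t_j²)`.  And
  `g(∇_{e_i}(∇_{e_j} e_j), e_i) = ∂_{e_i} ω_jji - g(∇_{e_j} e_j, ∇_{e_i} e_i)` (`dg_nab`), which is
  `∂_{e_i} ω_jji - ∑_m ω_jjm ω_iim = ∂_{e_i} ω_jji + ∑_m ω_jjm ω_imi` (`nab_exp`, `om_skew`);
  `g(∇_{e_j}(∇_{e_i} e_j), e_i) = ∂_{e_j} ω_iji - ∑_m ω_ijm ω_jim = ∂_{e_j} ω_iji + ∑_m ω_ijm ω_jmi`;
  `∇_{e_i} e_j - ∇_{e_j} e_i = ∑_m (ω_ijm - ω_jim) e_m`, `g(∇_{e_m} e_j, e_i) = ω_mji`.
-/

namespace Pool.Agent.QnS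

open scoped BigOperators ContDiff
open Pool.Agent.QnR

variable {E : Type*} [NormedAddCommGroup E] [NormedSpace ℝ E] [FiniteDimensional ℝ E]
  {U V : Set E} {k : ℝ} {g : E → E →L[ℝ] E →L[ℝ] ℝ} {S : E → E →L[ℝ] E} {T : E → E}
  {ν : E → ℝ} {Γ : E → E →L[ℝ] E →L[ℝ] E} {J : Type*} [Fintype J] [DecidableEq J] {lam : J → ℝ}
  {e : J → E → E}

omit [FiniteDimensional ℝ E] in
private theorem nab_diff {u : E} {B Z : E → E} (hΓ : DifferentiableAt ℝ Γ u)
    (hB : DifferentiableAt ℝ B u) (hZ : ContDiffAt ℝ ∞ Z u) :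
    DifferentiableAt ℝ (fun x => nab Γ Z x (B x)) u ∧
    ∀ v, fderiv ℝ (fun x => nab Γ Z x (B x)) u v =
      fderiv ℝ (fderiv ℝ Z) u v (B u) + fderiv ℝ Z u (fderiv ℝ B u v) +
        (fderiv ℝ Γ u v (B u) (Z u) + Γ u (fderiv ℝ B u v) (Z u) +
          Γ u (B u) (fderiv ℝ Z u v)) := by
  have hZd : DifferentiableAt ℝ Z u := hZ.differentiableAt (by simp)
  have hZ1 : ContDiffAt ℝ 1 (fderiv ℝ Z) u :=
    (hZ.fderiv_right (m := ∞) (by simp)).of_le (by simp)
  have hDZ : DifferentiableAt ℝ (fderiv ℝ Z) u := hZ1.differentiableAt (by simp)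
  have h1 := (hDZ.hasFDerivAt).clm_apply hB.hasFDerivAt
  have h2 := (hΓ.hasFDerivAt.clm_apply hB.hasFDerivAt).clm_apply hZd.hasFDerivAt
  have h4 : HasFDerivAt (fun x => nab Γ Z x (B x)) _ u := h1.add h2
  refine ⟨h4.differentiableAt, fun v => ?_⟩
  rw [h4.fderiv]
  simp only [ContinuousLinearMap.add_apply, ContinuousLinearMap.coe_comp', Function.comp_apply,
    ContinuousLinearMap.flip_apply]
  abel

omit [FiniteDimensional ℝ E] in
private theorem snd_symm {u : E} {Z : E → E} (hZ : ContDiffAt ℝ ∞ Z u) (v w : E) :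
    fderiv ℝ (fderiv ℝ Z) u v w = fderiv ℝ (fderiv ℝ Z) u w v := by
  have h := hZ.isSymmSndFDerivAt (by
    rw [minSmoothness_of_isRCLikeNormedField]
    show ((2 : ℕ∞) : WithTop ℕ∞) ≤ _
    exact WithTop.coe_le_coe.2 le_top)
  exact h.eq v w

theorem nab_comm (h : Geo2 U k g S T ν Γ) {u : E} (hu : u ∈ U) {A B Z : E → E}
    (hA : ContDiffAt ℝ ∞ A u) (hB : ContDiffAt ℝ ∞ B u) (hZ : ContDiffAt ℝ ∞ Z u) :
    nab Γ (fun x => nab Γ Z x (B x)) u (A u) - nab Γ (fun x => nab Γ Z x (A x)) u (B u) -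
      nab Γ Z u (nab Γ B u (A u) - nab Γ A u (B u)) =
    fderiv ℝ Γ u (A u) (B u) (Z u) - fderiv ℝ Γ u (B u) (A u) (Z u) +
      Γ u (A u) (Γ u (B u) (Z u)) - Γ u (B u) (Γ u (A u) (Z u)) := by
  have hΓ : DifferentiableAt ℝ Γ u :=
    (h.smΓ.contDiffAt (h.op.mem_nhds hu)).differentiableAt (by simp)
  have hAd : DifferentiableAt ℝ A u := hA.differentiableAt (by simp)
  have hBd : DifferentiableAt ℝ B u := hB.differentiableAt (by simp)
  have h1 := (nab_diff hΓ hBd hZ).2 (A u)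
  have h2 := (nab_diff hΓ hAd hZ).2 (B u)
  have h3 := snd_symm hZ (A u) (B u)
  have h4 : nab Γ B u (A u) - nab Γ A u (B u) =
      fderiv ℝ B u (A u) - fderiv ℝ A u (B u) := by
    unfold nab
    rw [h.gam u hu (A u) (B u)]
    abel
  have e1 : nab Γ (fun x => nab Γ Z x (B x)) u (A u) =
      fderiv ℝ (fun x => nab Γ Z x (B x)) u (A u) + Γ u (A u) (nab Γ Z u (B u)) := rfl
  have e2 : nab Γ (fun x => nab Γ Z x (A x)) u (B u) =
      fderiv ℝ (fun x => nab Γ Z x (A x)) u (B u) + Γ u (B u) (nab Γ Z u (A u)) := rfl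
  rw [e1, e2, h1, h2, h3, h4]
  have e3 : ∀ v, nab Γ Z u v = fderiv ℝ Z u v + Γ u v (Z u) := fun v => rfl
  rw [e3, e3, e3]
  simp only [map_add, map_sub, ContinuousLinearMap.sub_apply]
  abel

omit [FiniteDimensional ℝ E] [DecidableEq J] in
private theorem g_sum_right {u : E} (X : E) (c : J → ℝ) (e : J → E) :
    g u X (∑ m, c m • e m) = ∑ m, c m * g u X (e m) := by
  rw [map_sum]
  refine Finset.sum_congr rfl fun m _ => ?_
  rw [map_smul, smul_eq_mul]

theorem sect (h : Geo2 U k g S T ν Γ) (hf : Fr V g S lam e) (hV : V ⊆ U) {u : E} (hu : u ∈ V)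
    {i j : J} (hij : i ≠ j) :
    lam i * lam j + k * (1 - tt g T e i u ^ 2 - tt g T e j u ^ 2) =
      fderiv ℝ (om g Γ e j j i) u (e i u) - fderiv ℝ (om g Γ e i j i) u (e j u) +
      ∑ m, (om g Γ e j j m u * om g Γ e i m i u - om g Γ e i j m u * om g Γ e j m i u -
        (om g Γ e i j m u - om g Γ e j i m u) * om g Γ e m j i u) := by
  have huU : u ∈ U := hV hu
  have hΓ : DifferentiableAt ℝ Γ u :=
    (h.smΓ.contDiffAt (h.op.mem_nhds huU)).differentiableAt (by simp)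
  have hsm : ∀ m, ContDiffAt ℝ ∞ (e m) u := fun m => (hf.sm m).contDiffAt (hf.op.mem_nhds hu)
  have hd : ∀ m, DifferentiableAt ℝ (e m) u := fun m => (hsm m).differentiableAt (by simp)
  have hc := nab_comm h huU (hsm i) (hsm j) (hsm j)
  -- the curvature side
  have hR := h.gauss u huU (e i u) (e j u) (e j u) (e i u)
  rw [← hc] at hR
  have hT : ∀ m, g u (T u) (e m u) = tt g T e m u := fun m => rfl
  have hii := hf.on u hu i i
  have hjj := hf.on u hu j j
  have hij' := hf.on u hu i j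
  have hji' := hf.on u hu j i
  rw [if_pos rfl] at hii hjj
  rw [if_neg hij] at hij'
  rw [if_neg (Ne.symm hij)] at hji'
  have hS1 : ∀ m l, g u (S u (e m u)) (e l u) = lam m * g u (e m u) (e l u) := by
    intro m l
    rw [hf.eig u hu m, map_smul, ContinuousLinearMap.smul_apply, smul_eq_mul]
  rw [hS1, hS1, hS1, hS1, hii, hjj, hij', hji', hT, hT] at hR
  -- first term
  have a1 := dg_nab h huU (nab_diff hΓ (hd j) (hsm j)).1 (hd i) (e i u)
  have a1' : fderiv ℝ (fun x => g x (nab Γ (e j) x (e j x)) (e i x)) u (e i u) =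
      fderiv ℝ (om g Γ e j j i) u (e i u) := rfl
  rw [a1'] at a1
  have b1 : g u (nab Γ (e j) u (e j u)) (nab Γ (e i) u (e i u)) =
      ∑ m, om g Γ e i i m u * om g Γ e j j m u := by
    rw [nab_exp h hf hV hu i i, g_sum_right]
    rfl
  rw [b1] at a1
  -- second term
  have a2 := dg_nab h huU (nab_diff hΓ (hd i) (hsm j)).1 (hd i) (e j u)
  have a2' : fderiv ℝ (fun x => g x (nab Γ (e j) x (e i x)) (e i x)) u (e j u) =
      fderiv ℝ (om g Γ e i j i) u (e j u) := rfl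
  rw [a2'] at a2
  have b2 : g u (nab Γ (e j) u (e i u)) (nab Γ (e i) u (e j u)) =
      ∑ m, om g Γ e j i m u * om g Γ e i j m u := by
    rw [nab_exp h hf hV hu j i, g_sum_right]
    rfl
  rw [b2] at a2
  -- third term
  have a3 : g u (nab Γ (e j) u (nab Γ (e j) u (e i u) - nab Γ (e i) u (e j u))) (e i u) =
      ∑ m, (om g Γ e i j m u - om g Γ e j i m u) * om g Γ e m j i u := by
    have c1 : nab Γ (e j) u (e i u) - nab Γ (e i) u (e j u) =
        ∑ m, (om g Γ e i j m u - om g Γ e j i m u) • e m u := by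
      rw [nab_exp h hf hV hu i j, nab_exp h hf hV hu j i, ← Finset.sum_sub_distrib]
      refine Finset.sum_congr rfl fun m _ => ?_
      rw [sub_smul]
    have c2 : ∀ v : E, nab Γ (e j) u v = (fderiv ℝ (e j) u + (Γ u).flip (e j u)) v := by
      intro v
      rfl
    rw [c1, c2, map_sum, map_sum, ContinuousLinearMap.sum_apply]
    refine Finset.sum_congr rfl fun m _ => ?_
    rw [map_smul, map_smul, ContinuousLinearMap.smul_apply, smul_eq_mul]
    rfl
  rw [map_sub, map_sub, ContinuousLinearMap.sub_apply, ContinuousLinearMap.sub_apply, a3] at hR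
  have s1 : ∑ m, om g Γ e i i m u * om g Γ e j j m u =
      -∑ m, om g Γ e j j m u * om g Γ e i m i u := by
    rw [← Finset.sum_neg_distrib]
    refine Finset.sum_congr rfl fun m _ => ?_
    rw [om_skew h hf hV hu i i m]
    ring
  have s2 : ∑ m, om g Γ e j i m u * om g Γ e i j m u =
      -∑ m, om g Γ e i j m u * om g Γ e j m i u := by
    rw [← Finset.sum_neg_distrib]
    refine Finset.sum_congr rfl fun m _ => ?_
    rw [om_skew h hf hV hu j i m]
    ring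
  rw [s1] at a1
  rw [s2] at a2
  rw [Finset.sum_sub_distrib, Finset.sum_sub_distrib]
  linarith

end Pool.Agent.QnS
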