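import Pool.Agent.CPC.Def

/-!
# Hypersurfaces whose angle function determines the position of `T` (helper50)
-/

namespace Pool.Agent.QnS

open Pool.Agent.CPC

variable {ι : Type*} [Fintype ι] {W : ι → Type*} [∀ i, NormedAddCommGroup (W i)]
  [∀ i, NormedSpace ℝ (W i)] {E : Type*} [NormedAddCommGroup E] [NormedSpace ℝ E]

open Classical in
/-- `dX v` is the tangential part of the vector with components `ξ_{i1}` (component `i1`) and `0`. -/
def IsT (F : ∀ i, SF (W i)) (i1 : ι) (X ξ : E → ∀ i, W i) (u v : E) : Prop :=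
  ∀ i, fderiv ℝ X u v i = (if i = i1 then ξ u i else 0) - ((F i1).B (ξ u i1) (ξ u i1)) • ξ u i

/-- On `V` the numbers `⟨S^q v, v⟩` (`v` as in `IsT`, `S` the shape operator, `q = 0, 1, 2, ...`) are functions
of the angle, i.e. of `|ξ_{i1}|²`. -/
def AngleDet (F : ∀ i, SF (W i)) (i1 : ι) (V : Set E) (X ξ : E → ∀ i, W i) : Prop :=
  ∀ u ∈ V, ∀ u' ∈ V, (F i1).B (ξ u i1) (ξ u i1) = (F i1).B (ξ u' i1) (ξ u' i1) →
    ∀ (S S' : E →ₗ[ℝ] E) (v v' : E), IsShape F X ξ u S → IsShape F X ξ u' S' →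
      IsT F i1 X ξ u v → IsT F i1 X ξ u' v' → ∀ q : ℕ,
      ip F (fderiv ℝ X u ((S ^ q) v)) (fderiv ℝ X u v) =
        ip F (fderiv ℝ X u' ((S' ^ q) v')) (fderiv ℝ X u' v')

/-- every nonempty open subset of `U` contains a nonempty open subset on which the angle is constant or
the numbers `⟨S^q v, v⟩` are functions of the angle. -/
def LocAngleDet (F : ∀ i, SF (W i)) (i1 : ι) (U : Set E) (X ξ : E → ∀ i, W i) : Prop :=
  ∀ V ⊆ U, IsOpen V → V.Nonempty → ∃ V' ⊆ V, IsOpen V' ∧ V'.Nonempty ∧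
    (ConstAngle F V' ξ ∨ AngleDet F i1 V' X ξ)

end Pool.Agent.QnS
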