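import Mathlib

/-!
# One multiple point and four simple points on one side of it (helper50)

The multiple point is `0`, the simple points are `0 < x1 < x2 < x3 < x4`.  Only the equations
`e0`, `e1`, `e3` (which come from the multiple point) and the equation `er` at the nearest point are used.

Put `v_j = x1/(x_j - x1)` (`j = 2,3,4`), so `v2 > v3 > v4 > 0`, `r_j = x1/x_j = v_j/(1+v_j) ∈ (0,1)`.
`e0`, `x1 e1`, `x1³ e3`, `x1³ er` read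
`c1 + c2 + c3 + c4 = 0`, `c1 + ∑ c_j r_j = 0`, `c1 + ∑ c_j r_j³ = 0`, `m c1 = ∑ (c1 + c_j) v_j³`
(as `(x1 - x_j)³ = -(x1/v_j)³`).
The combination of the first three with coefficients `r3 r4 (r3+r4)`, `-(r3²+r3 r4+r4²)`, `1` is
`c1 φ(1) + c2 φ(r2) = 0`, `φ(r) = (r-r3)(r-r4)(r+r3+r4)`, and with `σ = r2+r3+r4`, `1 - r = 1/(1+v)`,
`r2 - r3 = (v2-v3)/((1+v2)(1+v3))` this says
`c2 = -c1 ((1+v2)² + (1+v2)/σ)/((v2-v3)(v2-v4))`, and similarly (cyclically) for `c3`, `c4`.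
So `∑ c_j v_j³ = -c1 (∑_j v_j³(1+v_j)²/Π_{l≠j}(v_j-v_l) + (1/σ) ∑_j v_j³(1+v_j)/Π_{l≠j}(v_j-v_l))`
`= -c1 ((h1 + 2 h2 + h3) + (h1 + h2)/σ)`, where `h_n` is the complete homogeneous symmetric polynomial of
`v2,v3,v4` (`∑_j v_j^(n+2)/Π_{l≠j}(v_j-v_l) = h_n`), and the last equation becomes
`c1 (m - ∑ v_j³ + h1 + 2 h2 + h3 + (h1+h2)/σ) = 0`.  Since `h3 ≥ v2³+v3³+v4³` and everything else is
positive (`m ≥ 0`), `c1 = 0`.  Then `c2 φ(r2) = 0`, `φ(r2) ≠ 0`, so `c2 = 0`, similarly `c3 = c4 = 0`.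
-/

namespace Pool.Agent.QnS

/-- The combination of the first three equations that eliminates the last two points. -/
private lemma ext4_aux {c1 c2 c3 c4 v2 v3 v4 r2 r3 r4 : ℝ} (w2 : 0 < 1 + v2) (w3 : 0 < 1 + v3)
    (w4 : 0 < 1 + v4) (q2 : r2 = v2 / (1 + v2)) (q3 : r3 = v3 / (1 + v3)) (q4 : r4 = v4 / (1 + v4))
    (a0 : c1 + c2 + c3 + c4 = 0) (a1 : c1 + c2 * r2 + c3 * r3 + c4 * r4 = 0)
    (a3 : c1 + c2 * r2 ^ 3 + c3 * r3 ^ 3 + c4 * r4 ^ 3 = 0) :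
    c2 * ((v2 - v3) * (v2 - v4)) * (r2 + r3 + r4) =
      -c1 * ((1 + v2) ^ 2 * (r2 + r3 + r4) + (1 + v2)) := by
  have k : c1 * ((1 - r3) * (1 - r4) * (1 + r3 + r4)) +
      c2 * ((r2 - r3) * (r2 - r4) * (r2 + r3 + r4)) = 0 := by
    linear_combination (r3 * r4 * (r3 + r4)) * a0 - (r3 ^ 2 + r3 * r4 + r4 ^ 2) * a1 + a3
  have k3 : (1 + v3) * (1 - r3) = 1 := by rw [q3]; field_simp; ring
  have k4 : (1 + v4) * (1 - r4) = 1 := by rw [q4]; field_simp; ring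
  have k2 : (1 + v2) * (1 - r2) = 1 := by rw [q2]; field_simp; ring
  have k23 : (1 + v2) * (1 + v3) * (r2 - r3) = v2 - v3 := by
    linear_combination (1 + v2) * k3 - (1 + v3) * k2
  have k24 : (1 + v2) * (1 + v4) * (r2 - r4) = v2 - v4 := by
    linear_combination (1 + v2) * k4 - (1 + v4) * k2
  have kk : ((1 + v2) ^ 2 * (1 + v3) * (1 + v4)) * (c1 * ((1 - r3) * (1 - r4) * (1 + r3 + r4)) +
      c2 * ((r2 - r3) * (r2 - r4) * (r2 + r3 + r4))) = 0 := by rw [k, mul_zero]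
  have e : ((1 + v2) ^ 2 * (1 + v3) * (1 + v4)) * (c1 * ((1 - r3) * (1 - r4) * (1 + r3 + r4)) +
      c2 * ((r2 - r3) * (r2 - r4) * (r2 + r3 + r4))) =
      c1 * (1 + v2) ^ 2 * (((1 + v3) * (1 - r3)) * ((1 + v4) * (1 - r4))) * (1 + r3 + r4) +
      c2 * (((1 + v2) * (1 + v3) * (r2 - r3)) * ((1 + v2) * (1 + v4) * (r2 - r4))) *
        (r2 + r3 + r4) := by ring
  rw [e, k3, k4, k23, k24] at kk
  linear_combination kk - c1 * (1 + v2) * k2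

theorem ext4 {x1 x2 x3 x4 c1 c2 c3 c4 m : ℝ} (h1 : 0 < x1) (h2 : x1 < x2) (h3 : x2 < x3)
    (h4 : x3 < x4) (hm : 0 ≤ m) (e0 : c1 + c2 + c3 + c4 = 0)
    (e1 : c1 / x1 + c2 / x2 + c3 / x3 + c4 / x4 = 0)
    (e3 : c1 / x1 ^ 3 + c2 / x2 ^ 3 + c3 / x3 ^ 3 + c4 / x4 ^ 3 = 0)
    (er : m * c1 / x1 ^ 3 + (c1 + c2) / (x1 - x2) ^ 3 + (c1 + c3) / (x1 - x3) ^ 3 +
      (c1 + c4) / (x1 - x4) ^ 3 = 0) : c1 = 0 ∧ c2 = 0 ∧ c3 = 0 ∧ c4 = 0 := by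
  have p2 : 0 < x2 - x1 := by linarith
  have p3 : 0 < x3 - x1 := by linarith
  have p4 : 0 < x4 - x1 := by linarith
  have y2 : 0 < x2 := by linarith
  have y3 : 0 < x3 := by linarith
  have y4 : 0 < x4 := by linarith
  obtain ⟨v2, hv2⟩ : ∃ v, v = x1 / (x2 - x1) := ⟨_, rfl⟩
  obtain ⟨v3, hv3⟩ : ∃ v, v = x1 / (x3 - x1) := ⟨_, rfl⟩
  obtain ⟨v4, hv4⟩ : ∃ v, v = x1 / (x4 - x1) := ⟨_, rfl⟩
  have n2 : 0 < v2 := by rw [hv2]; positivity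
  have n3 : 0 < v3 := by rw [hv3]; positivity
  have n4 : 0 < v4 := by rw [hv4]; positivity
  have o23 : v3 < v2 := by
    rw [hv2, hv3]; exact div_lt_div_of_pos_left h1 p2 (by linarith)
  have o34 : v4 < v3 := by
    rw [hv3, hv4]; exact div_lt_div_of_pos_left h1 p3 (by linarith)
  have q : ∀ x v : ℝ, 0 < x - x1 → 0 < x → v = x1 / (x - x1) → x1 / x = v / (1 + v) := by
    intro x v hx hx' hv
    have hx0 : x - x1 ≠ 0 := hx.ne'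
    have hd : 1 + x1 / (x - x1) ≠ 0 := by positivity
    rw [hv, div_eq_div_iff hx'.ne' hd]
    field_simp
    ring
  have q2 := q x2 v2 p2 y2 hv2
  have q3 := q x3 v3 p3 y3 hv3
  have q4 := q x4 v4 p4 y4 hv4
  obtain ⟨r2, hr2⟩ : ∃ r, r = x1 / x2 := ⟨_, rfl⟩
  obtain ⟨r3, hr3⟩ : ∃ r, r = x1 / x3 := ⟨_, rfl⟩
  obtain ⟨r4, hr4⟩ : ∃ r, r = x1 / x4 := ⟨_, rfl⟩
  have g2 : 0 < r2 := by rw [hr2]; positivity
  have g3 : 0 < r3 := by rw [hr3]; positivity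
  have g4 : 0 < r4 := by rw [hr4]; positivity
  have a1 : c1 + c2 * r2 + c3 * r3 + c4 * r4 = 0 := by
    have : c1 + c2 * r2 + c3 * r3 + c4 * r4 = x1 * (c1 / x1 + c2 / x2 + c3 / x3 + c4 / x4) := by
      rw [hr2, hr3, hr4]; field_simp
    rw [this, e1, mul_zero]
  have a3 : c1 + c2 * r2 ^ 3 + c3 * r3 ^ 3 + c4 * r4 ^ 3 = 0 := by
    have : c1 + c2 * r2 ^ 3 + c3 * r3 ^ 3 + c4 * r4 ^ 3 =
        x1 ^ 3 * (c1 / x1 ^ 3 + c2 / x2 ^ 3 + c3 / x3 ^ 3 + c4 / x4 ^ 3) := by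
      rw [hr2, hr3, hr4]; field_simp
    rw [this, e3, mul_zero]
  have ar : m * c1 - (c1 + c2) * v2 ^ 3 - (c1 + c3) * v3 ^ 3 - (c1 + c4) * v4 ^ 3 = 0 := by
    have z : ∀ x v c : ℝ, 0 < x - x1 → v = x1 / (x - x1) →
        -(c * v ^ 3) = x1 ^ 3 * (c / (x1 - x) ^ 3) := by
      intro x v c hx hv
      have hx0 : x - x1 ≠ 0 := hx.ne'
      have : (x1 - x) ^ 3 = -(x - x1) ^ 3 := by ring
      rw [hv, this, div_neg, div_pow]
      field_simp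
    have z2 := z x2 v2 (c1 + c2) p2 hv2
    have z3 := z x3 v3 (c1 + c3) p3 hv3
    have z4 := z x4 v4 (c1 + c4) p4 hv4
    have z1 : m * c1 = x1 ^ 3 * (m * c1 / x1 ^ 3) := by field_simp
    linear_combination z1 + z2 + z3 + z4 + x1 ^ 3 * er
  rw [← hr2] at q2
  rw [← hr3] at q3
  rw [← hr4] at q4
  have w2 : 0 < 1 + v2 := by linarith
  have w3 : 0 < 1 + v3 := by linarith
  have w4 : 0 < 1 + v4 := by linarith
  have f2 := ext4_aux w2 w3 w4 q2 q3 q4 e0 a1 a3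
  have f3 := ext4_aux (c1 := c1) (c2 := c3) (c3 := c2) (c4 := c4) w3 w2 w4 q3 q2 q4 (by linarith)
    (by linarith) (by linarith)
  have f4 := ext4_aux (c1 := c1) (c2 := c4) (c3 := c2) (c4 := c3) w4 w2 w3 q4 q2 q3 (by linarith)
    (by linarith) (by linarith)
  obtain ⟨s, hs⟩ : ∃ s, s = r2 + r3 + r4 := ⟨_, rfl⟩
  have t3 : r3 + r2 + r4 = s := by rw [hs]; ring
  have t4 : r4 + r2 + r3 = s := by rw [hs]; ring
  rw [← hs] at f2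
  rw [t3] at f3
  rw [t4] at f4
  have sp : 0 < s := by rw [hs]; positivity
  have d23 : 0 < v2 - v3 := by linarith
  have d24 : 0 < v2 - v4 := by linarith
  have d34 : 0 < v3 - v4 := by linarith
  have key : c1 * (((v2 - v3) * (v2 - v4) * (v3 - v4)) *
      ((m + (v2 + v3 + v4) + 2 * (v2 ^ 2 + v3 ^ 2 + v4 ^ 2 + v2 * v3 + v2 * v4 + v3 * v4) +
        (v2 ^ 2 * v3 + v2 ^ 2 * v4 + v3 ^ 2 * v2 + v3 ^ 2 * v4 + v4 ^ 2 * v2 + v4 ^ 2 * v3 +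
          v2 * v3 * v4)) * s + ((v2 + v3 + v4) +
        (v2 ^ 2 + v3 ^ 2 + v4 ^ 2 + v2 * v3 + v2 * v4 + v3 * v4)))) = 0 := by
    linear_combination ((v2 - v3) * (v2 - v4) * (v3 - v4) * s) * ar +
      (v2 ^ 3 * (v3 - v4)) * f2 - (v3 ^ 3 * (v2 - v4)) * f3 + (v4 ^ 3 * (v2 - v3)) * f4
  have hc1 : c1 = 0 := by
    rcases mul_eq_zero.mp key with h | h
    · exact h
    · exfalso
      have : 0 < ((v2 - v3) * (v2 - v4) * (v3 - v4)) *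
      ((m + (v2 + v3 + v4) + 2 * (v2 ^ 2 + v3 ^ 2 + v4 ^ 2 + v2 * v3 + v2 * v4 + v3 * v4) +
        (v2 ^ 2 * v3 + v2 ^ 2 * v4 + v3 ^ 2 * v2 + v3 ^ 2 * v4 + v4 ^ 2 * v2 + v4 ^ 2 * v3 +
          v2 * v3 * v4)) * s + ((v2 + v3 + v4) +
        (v2 ^ 2 + v3 ^ 2 + v4 ^ 2 + v2 * v3 + v2 * v4 + v3 * v4))) := by positivity
      linarith
  have fin : ∀ c u t : ℝ, u ≠ 0 → c * u * s = -c1 * t → c = 0 := by
    intro c u t hu h
    rw [hc1, neg_zero, zero_mul] at h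
    rcases mul_eq_zero.mp h with h | h
    · rcases mul_eq_zero.mp h with h | h
      · exact h
      · exact absurd h hu
    · exact absurd h sp.ne'
  refine ⟨hc1, fin c2 _ _ ?_ f2, fin c3 _ _ ?_ f3, fin c4 _ _ ?_ f4⟩
  · exact mul_ne_zero d23.ne' d24.ne'
  · refine mul_ne_zero ?_ d34.ne'
    intro h; linarith
  · refine mul_ne_zero ?_ ?_
    · intro h; linarith
    · intro h; linarith

end Pool.Agent.QnS
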