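import Pool.Agent.QnS.Def
import Pool.Agent.QnS.Ext4

/-!
# Nondegenerate multisets: a multiple extreme element and four simple ones (helper50)

`R` is not `Nodup`: right alternative of `NonDegR`.  `R.toFinset.erase p` has four elements, all of count
one and all on the same side of `p`; write them as `p + x1, ..., p + x4` (or `p - x1, ..., p - x4`) with
`0 < x1 < x2 < x3 < x4` (sorting a finset of four elements, e.g. `Finset.orderEmbOfFin`).  Sums over `R`:
`(R.map f).sum = m f p + ∑_{j=1..4} f (p ± x_j)`, `m = R.count p` (`Finset.sum_multiset_map_count`).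
With `c p = 0`: `∑ c = 0` is `e0`; `∑ c_b/(p - b) = 0` is `e1` up to sign; the equation at `a = p`,
`∑_b (c p + c b)/(p - b)³ = 0`, is `e3` up to sign (`(p-p)³ = 0`, division by zero gives zero); the equation at
`a = p ± x1` is `er` up to sign.  `ext4` gives `c = 0`.
-/

namespace Pool.Agent.QnS

open scoped BigOperators

open Classical in
/-- the sum over `R` -/
theorem extNd_sum {R : Multiset ℝ} {p : ℝ} (hp : 2 ≤ R.count p)
    (hs : ∀ a ∈ R, a ≠ p → R.count a = 1)
    (h4 : (R.toFinset.erase p).card = 4) (f : ℝ → ℝ) :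
    (R.map f).sum = (R.count p : ℝ) * f p + (f ((R.toFinset.erase p).orderEmbOfFin h4 0) +
      f ((R.toFinset.erase p).orderEmbOfFin h4 1) + f ((R.toFinset.erase p).orderEmbOfFin h4 2) +
      f ((R.toFinset.erase p).orderEmbOfFin h4 3)) := by
  have hpR : p ∈ R := Multiset.count_pos.1 (by omega)
  rw [Finset.sum_multiset_map_count, ← Finset.add_sum_erase _ _ (Multiset.mem_toFinset.2 hpR)]
  congr 1
  · simp
  · have h1 : ∑ x ∈ R.toFinset.erase p, R.count x • f x = ∑ x ∈ R.toFinset.erase p, f x := by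
      refine Finset.sum_congr rfl fun x hx => ?_
      rw [Finset.mem_erase, Multiset.mem_toFinset] at hx
      rw [hs x hx.2 hx.1, one_smul]
    rw [h1]
    conv_lhs => rw [← Finset.map_orderEmbOfFin_univ (R.toFinset.erase p) h4]
    rw [Finset.sum_map]
    simp [Fin.sum_univ_four]

/-- the key step, for both signs -/
theorem extNd_aux {R : Multiset ℝ} {p ε y1 y2 y3 y4 m : ℝ} (hm : 0 ≤ m)
    (h1 : 0 < ε * (y1 - p)) (h2 : ε * (y1 - p) < ε * (y2 - p)) (h3 : ε * (y2 - p) < ε * (y3 - p))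
    (h4 : ε * (y3 - p) < ε * (y4 - p))
    (hsum : ∀ f : ℝ → ℝ, (R.map f).sum = m * f p + (f y1 + f y2 + f y3 + f y4))
    (hall : ∀ a ∈ R, a = p ∨ a = y1 ∨ a = y2 ∨ a = y3 ∨ a = y4)
    (c : ℝ → ℝ) (hcp : c p = 0)
    (hK : ∀ a, a = p ∨ a = y1 → (R.map fun b => (c a + c b) / (a - b) ^ 3).sum = 0)
    (hG : (R.map fun b => c b / (p - b)).sum = 0)
    (h0 : (R.map c).sum = 0) : ∀ a ∈ R, c a = 0 := by
  have d1 : ∀ t y : ℝ, t / (ε * (y - p)) = -ε⁻¹ * (t / (p - y)) := fun t y => by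
    rw [show ε * (y - p) = -(ε * (p - y)) by ring, div_neg, div_eq_mul_inv, mul_inv,
      div_eq_mul_inv]
    ring
  have d3 : ∀ t y : ℝ, t / (ε * (y - p)) ^ 3 = -(ε⁻¹) ^ 3 * (t / (p - y) ^ 3) := fun t y => by
    rw [show (ε * (y - p)) ^ 3 = -(ε ^ 3 * (p - y) ^ 3) by ring, div_neg, div_eq_mul_inv, mul_inv,
      div_eq_mul_inv, inv_pow]
    ring
  have hKp := hK p (Or.inl rfl)
  have hK1 := hK y1 (Or.inr rfl)
  rw [hsum] at hKp hK1 hG h0
  simp only [hcp, sub_self, mul_zero, zero_add, div_zero, add_zero, ne_eq, OfNat.ofNat_ne_zero,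
    not_false_eq_true, zero_pow] at hKp hK1 hG h0
  have key := ext4 (c1 := c y1) (c2 := c y2) (c3 := c y3) (c4 := c y4) (m := m) h1 h2 h3 h4 hm h0
    (by
      have e : c y1 / (ε * (y1 - p)) + c y2 / (ε * (y2 - p)) + c y3 / (ε * (y3 - p)) +
          c y4 / (ε * (y4 - p)) =
          -ε⁻¹ * (c y1 / (p - y1) + c y2 / (p - y2) + c y3 / (p - y3) + c y4 / (p - y4)) := by
        rw [d1, d1, d1, d1]
        ring
      rw [e, hG, mul_zero])
    (by
      have e : c y1 / (ε * (y1 - p)) ^ 3 + c y2 / (ε * (y2 - p)) ^ 3 + c y3 / (ε * (y3 - p)) ^ 3 +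
          c y4 / (ε * (y4 - p)) ^ 3 =
          -(ε⁻¹) ^ 3 * (c y1 / (p - y1) ^ 3 + c y2 / (p - y2) ^ 3 + c y3 / (p - y3) ^ 3 +
            c y4 / (p - y4) ^ 3) := by
        rw [d3, d3, d3, d3]
        ring
      rw [e, hKp, mul_zero])
    (by
      have e : m * c y1 / (ε * (y1 - p)) ^ 3 +
          (c y1 + c y2) / (ε * (y1 - p) - ε * (y2 - p)) ^ 3 +
          (c y1 + c y3) / (ε * (y1 - p) - ε * (y3 - p)) ^ 3 +
          (c y1 + c y4) / (ε * (y1 - p) - ε * (y4 - p)) ^ 3 =
          (ε⁻¹) ^ 3 * (m * (c y1 / (y1 - p) ^ 3) + ((c y1 + c y2) / (y1 - y2) ^ 3 +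
            (c y1 + c y3) / (y1 - y3) ^ 3 + (c y1 + c y4) / (y1 - y4) ^ 3)) := by
        rw [show ε * (y1 - p) - ε * (y2 - p) = ε * (y1 - y2) by ring,
          show ε * (y1 - p) - ε * (y3 - p) = ε * (y1 - y3) by ring,
          show ε * (y1 - p) - ε * (y4 - p) = ε * (y1 - y4) by ring]
        simp only [mul_pow, div_eq_mul_inv, mul_inv, inv_pow]
        ring
      rw [e, hK1, mul_zero])
  intro a ha
  rcases hall a ha with rfl | rfl | rfl | rfl | rfl
  · exact hcp
  · exact key.1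
  · exact key.2.1
  · exact key.2.2.1
  · exact key.2.2.2

open Classical in
theorem extNd_all {R : Multiset ℝ} {p : ℝ}
    (h4 : (R.toFinset.erase p).card = 4) : ∀ a ∈ R, a = p ∨
      a = (R.toFinset.erase p).orderEmbOfFin h4 0 ∨ a = (R.toFinset.erase p).orderEmbOfFin h4 1 ∨
      a = (R.toFinset.erase p).orderEmbOfFin h4 2 ∨ a = (R.toFinset.erase p).orderEmbOfFin h4 3 := by
  intro a ha
  by_cases hap : a = p
  · exact Or.inl hap
  · right
    have h : a ∈ R.toFinset.erase p := Finset.mem_erase.2 ⟨hap, Multiset.mem_toFinset.2 ha⟩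
    rw [← Finset.map_orderEmbOfFin_univ (R.toFinset.erase p) h4, Finset.mem_map] at h
    obtain ⟨i, -, hi⟩ := h
    have hi' : (R.toFinset.erase p).orderEmbOfFin h4 i = a := hi
    fin_cases i
    · exact Or.inl hi'.symm
    · exact Or.inr (Or.inl hi'.symm)
    · exact Or.inr (Or.inr (Or.inl hi'.symm))
    · exact Or.inr (Or.inr (Or.inr hi'.symm))

open Classical in
theorem nonDegR_right {R : Multiset ℝ} {p : ℝ} (hp : 2 ≤ R.count p)
    (hs : ∀ a ∈ R, a ≠ p → R.count a = 1) (hR : ∀ a ∈ R, p ≤ a)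
    (h4 : (R.toFinset.erase p).card = 4) : NonDegR R := by
  have hpR : p ∈ R := Multiset.count_pos.1 (by omega)
  refine Or.inr ⟨fun h => ?_, fun c hc hK hG h0 => ?_⟩
  · have := Multiset.nodup_iff_count_le_one.1 h p
    omega
  set e := (R.toFinset.erase p).orderEmbOfFin h4 with he
  have hmem : ∀ i, e i ∈ R ∧ e i ≠ p := fun i => by
    have := Finset.orderEmbOfFin_mem (R.toFinset.erase p) h4 i
    rw [Finset.mem_erase, Multiset.mem_toFinset] at this
    exact ⟨this.2, this.1⟩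
  have hlt : ∀ i j : Fin 4, i < j → e i < e j := fun i j h => e.strictMono h
  refine extNd_aux (ε := 1) (m := R.count p) (y1 := e 0) (y2 := e 1) (y3 := e 2) (y4 := e 3)
    (by positivity) ?_ ?_ ?_ ?_ (extNd_sum hp hs h4) (extNd_all h4) c (hc p hpR hp) ?_
    (hG p hpR hp) h0
  · have := lt_of_le_of_ne (hR _ (hmem 0).1) (hmem 0).2.symm
    linarith
  · have := hlt 0 1 (by decide)
    linarith
  · have := hlt 1 2 (by decide)
    linarith
  · have := hlt 2 3 (by decide)
    linarith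
  · rintro a (rfl | rfl)
    · exact hK _ hpR
    · exact hK _ (hmem 0).1

open Classical in
theorem nonDegR_left {R : Multiset ℝ} {p : ℝ} (hp : 2 ≤ R.count p)
    (hs : ∀ a ∈ R, a ≠ p → R.count a = 1) (hR : ∀ a ∈ R, a ≤ p)
    (h4 : (R.toFinset.erase p).card = 4) : NonDegR R := by
  have hpR : p ∈ R := Multiset.count_pos.1 (by omega)
  refine Or.inr ⟨fun h => ?_, fun c hc hK hG h0 => ?_⟩
  · have := Multiset.nodup_iff_count_le_one.1 h p
    omega
  set e := (R.toFinset.erase p).orderEmbOfFin h4 with he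
  have hmem : ∀ i, e i ∈ R ∧ e i ≠ p := fun i => by
    have := Finset.orderEmbOfFin_mem (R.toFinset.erase p) h4 i
    rw [Finset.mem_erase, Multiset.mem_toFinset] at this
    exact ⟨this.2, this.1⟩
  have hlt : ∀ i j : Fin 4, i < j → e i < e j := fun i j h => e.strictMono h
  refine extNd_aux (ε := -1) (m := R.count p) (y1 := e 3) (y2 := e 2) (y3 := e 1) (y4 := e 0)
    (by positivity) ?_ ?_ ?_ ?_ (fun f => ?_) (fun a ha => ?_) c (hc p hpR hp) ?_
    (hG p hpR hp) h0
  · have := lt_of_le_of_ne (hR _ (hmem 3).1) (hmem 3).2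
    linarith
  · have := hlt 2 3 (by decide)
    linarith
  · have := hlt 1 2 (by decide)
    linarith
  · have := hlt 0 1 (by decide)
    linarith
  · rw [extNd_sum hp hs h4 f]
    ring
  · rcases extNd_all h4 a ha with h | h | h | h | h
    · exact Or.inl h
    · exact Or.inr (Or.inr (Or.inr (Or.inr h)))
    · exact Or.inr (Or.inr (Or.inr (Or.inl h)))
    · exact Or.inr (Or.inr (Or.inl h))
    · exact Or.inr (Or.inl h)
  · rintro a (rfl | rfl)
    · exact hK _ hpR
    · exact hK _ (hmem 3).1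

end Pool.Agent.QnS
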