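import Mathlib

/-!
# Gram-Schmidt with a smooth metric (helper50)

Induction on `k ≤ n`: there are smooth `e_0, …, e_{k-1}` on `V`, orthonormal for `g u`, `S e_j = λ_j e_j`, and
`y_0 u, …, y_{k-1} u` lie in the span of `e_0 u, …, e_{k-1} u` (equivalently the spans agree; the `e_j` are
combinations of the `y_i`, `i ≤ j`).  Step: `z = y_k - ∑_{i<k} g(y_k, e_i) e_i`, smooth, nonzero (`y_k` is not in
the span of `y_0, …, y_{k-1}`), orthogonal to `e_0, …, e_{k-1}`; `S z = λ_k z` because `g(y_k, e_i) = 0` unless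
`λ_i = λ_k` (`λ_k g(y_k, e_i) = g(S y_k, e_i) = g(y_k, S e_i) = λ_i g(y_k, e_i)`).
`e_k = (g(z, z))^(-1/2) z` (smooth: `g(z, z) > 0`, `Real.contDiffAt_sqrt`, `ContDiffOn.inv`).
-/

namespace Pool.Agent.QnS

open scoped BigOperators ContDiff

private theorem gram_aux {E : Type*} [NormedAddCommGroup E] [NormedSpace ℝ E]
    {V : Set E} {g : E → E →L[ℝ] E →L[ℝ] ℝ} {S : E → E →L[ℝ] E}
    (smg : ContDiffOn ℝ ∞ g V) (symm : ∀ u ∈ V, ∀ v w, g u v w = g u w v)
    (pos : ∀ u ∈ V, ∀ v, v ≠ 0 → 0 < g u v v) (sa : ∀ u ∈ V, ∀ v w, g u (S u v) w = g u v (S u w)) :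
    ∀ (n : ℕ) (lam : Fin n → ℝ) (y : Fin n → E → E) (_ : ∀ j, ContDiffOn ℝ ∞ (y j) V)
      (_ : ∀ u ∈ V, LinearIndependent ℝ (fun j => y j u))
      (_ : ∀ u ∈ V, ∀ j, S u (y j u) = lam j • y j u),
      ∃ e : Fin n → E → E, (∀ j, ContDiffOn ℝ ∞ (e j) V) ∧
        (∀ u ∈ V, ∀ i j, g u (e i u) (e j u) = if i = j then 1 else 0) ∧
        (∀ u ∈ V, ∀ j, S u (e j u) = lam j • e j u) ∧
        ∀ u ∈ V, ∀ j, e j u ∈ Submodule.span ℝ (Set.range (fun i => y i u)) := by
  intro n
  induction n with
  | zero =>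
    intro lam y _ _ _
    exact ⟨fun j => j.elim0, fun j => j.elim0, fun _ _ i => i.elim0, fun _ _ j => j.elim0,
      fun _ _ j => j.elim0⟩
  | succ n ih =>
    intro lam y smy hli heig
    have hli' : ∀ u ∈ V, LinearIndependent ℝ (fun j : Fin n => y j.castSucc u) := fun u hu =>
      (hli u hu).comp _ (Fin.castSucc_injective n)
    obtain ⟨e, sme, orth, eig, hspan⟩ := ih (fun j => lam j.castSucc) (fun j => y j.castSucc)
      (fun j => smy _) hli' (fun u hu j => heig u hu _)
    obtain ⟨z, hz⟩ : ∃ z : E → E, z = fun u => y (Fin.last n) u -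
        ∑ i : Fin n, g u (y (Fin.last n) u) (e i u) • e i u := ⟨_, rfl⟩
    have hzu : ∀ u, z u = y (Fin.last n) u -
        ∑ i : Fin n, g u (y (Fin.last n) u) (e i u) • e i u := fun u => by rw [hz]
    have smz : ContDiffOn ℝ ∞ z V := by
      rw [hz]
      refine (smy _).sub (ContDiffOn.sum fun i _ => ?_)
      exact ((smg.clm_apply (smy _)).clm_apply (sme i)).smul (sme i)
    have hz0 : ∀ u ∈ V, z u ≠ 0 := by
      intro u hu h0
      rw [hzu, sub_eq_zero] at h0
      have h1 : y (Fin.last n) u ∈
          Submodule.span ℝ (Set.range (fun i : Fin n => y i.castSucc u)) := by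
        rw [h0]
        exact Submodule.sum_mem _ fun i _ => Submodule.smul_mem _ _ (hspan u hu i)
      have h2 := (hli u hu).notMem_span_image (s := Set.range (Fin.castSucc : Fin n → Fin (n + 1)))
        (x := Fin.last n) (by
          rintro ⟨j, hj⟩
          exact absurd hj (Fin.castSucc_lt_last j).ne)
      apply h2
      rw [← Set.range_comp]
      exact h1
    have horth : ∀ u ∈ V, ∀ j, g u (z u) (e j u) = 0 := by
      intro u hu j
      rw [hzu, map_sub, map_sum, sub_apply, sum_apply]
      have h1 : ∀ i : Fin n, (g u (g u (y (Fin.last n) u) (e i u) • e i u)) (e j u) =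
          if i = j then g u (y (Fin.last n) u) (e j u) else 0 := by
        intro i
        rw [map_smul, smul_apply, orth u hu i j, smul_eq_mul]
        split_ifs with h
        · rw [h, mul_one]
        · rw [mul_zero]
      rw [Finset.sum_congr rfl fun i _ => h1 i, Finset.sum_ite_eq' Finset.univ j,
        if_pos (Finset.mem_univ _), sub_self]
    have hSz : ∀ u ∈ V, S u (z u) = lam (Fin.last n) • z u := by
      intro u hu
      rw [hzu, map_sub, map_sum, heig u hu, smul_sub, Finset.smul_sum]
      congr 1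
      refine Finset.sum_congr rfl fun i _ => ?_
      rw [map_smul, eig u hu, smul_smul, smul_smul]
      congr 1
      have h1 := sa u hu (y (Fin.last n) u) (e i u)
      rw [heig u hu, eig u hu, map_smul, smul_apply, map_smul, smul_eq_mul,
        smul_eq_mul] at h1
      rw [h1, mul_comm]
    have hgz : ∀ u ∈ V, 0 < g u (z u) (z u) := fun u hu => pos u hu _ (hz0 u hu)
    obtain ⟨c, hc⟩ : ∃ c : E → ℝ, c = fun u => (Real.sqrt (g u (z u) (z u)))⁻¹ := ⟨_, rfl⟩
    have smc : ContDiffOn ℝ ∞ c V := by
      rw [hc]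
      refine ContDiffOn.inv (ContDiffOn.sqrt ((smg.clm_apply smz).clm_apply smz)
        (fun u hu => (hgz u hu).ne')) (fun u hu => (Real.sqrt_pos.2 (hgz u hu)).ne')
    have hcc : ∀ u ∈ V, c u * (c u * g u (z u) (z u)) = 1 := by
      intro u hu
      have h1 := Real.sqrt_pos.2 (hgz u hu)
      have h2 := Real.mul_self_sqrt (hgz u hu).le
      rw [hc]
      show (Real.sqrt (g u (z u) (z u)))⁻¹ * ((Real.sqrt (g u (z u) (z u)))⁻¹ *
        g u (z u) (z u)) = 1
      generalize Real.sqrt (g u (z u) (z u)) = q at h1 h2 ⊢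
      rw [← h2]
      field_simp
    refine ⟨Fin.snoc (α := fun _ => E → E) e (fun u => c u • z u), ?_, ?_, ?_, ?_⟩
    · intro j
      induction j using Fin.lastCases with
      | last =>
        rw [Fin.snoc_last]
        exact smc.smul smz
      | cast j =>
        rw [Fin.snoc_castSucc]
        exact sme j
    · intro u hu i j
      induction i using Fin.lastCases with
      | last =>
        induction j using Fin.lastCases with
        | last =>
          rw [Fin.snoc_last, if_pos rfl]
          show g u (c u • z u) (c u • z u) = 1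
          rw [map_smul, map_smul, smul_apply, smul_eq_mul, smul_eq_mul]
          exact hcc u hu
        | cast j =>
          rw [Fin.snoc_last, Fin.snoc_castSucc, if_neg (Fin.castSucc_lt_last j).ne']
          show g u (c u • z u) (e j u) = 0
          rw [map_smul, smul_apply, horth u hu j, smul_zero]
      | cast i =>
        induction j using Fin.lastCases with
        | last =>
          rw [Fin.snoc_last, Fin.snoc_castSucc, if_neg (Fin.castSucc_lt_last i).ne]
          show g u (e i u) (c u • z u) = 0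
          rw [map_smul, symm u hu, horth u hu i, smul_zero]
        | cast j =>
          rw [Fin.snoc_castSucc, Fin.snoc_castSucc, orth u hu i j]
          simp only [Fin.castSucc_inj]
    · intro u hu j
      induction j using Fin.lastCases with
      | last =>
        rw [Fin.snoc_last]
        show S u (c u • z u) = lam (Fin.last n) • (c u • z u)
        rw [map_smul, hSz u hu, smul_comm]
      | cast j =>
        rw [Fin.snoc_castSucc]
        exact eig u hu j
    · intro u hu j
      have hmono : Submodule.span ℝ (Set.range (fun i : Fin n => y i.castSucc u)) ≤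
          Submodule.span ℝ (Set.range (fun i => y i u)) := by
        refine Submodule.span_mono ?_
        rintro _ ⟨i, rfl⟩
        exact ⟨i.castSucc, rfl⟩
      induction j using Fin.lastCases with
      | last =>
        rw [Fin.snoc_last]
        show c u • z u ∈ _
        refine Submodule.smul_mem _ _ ?_
        rw [hzu]
        refine Submodule.sub_mem _ (Submodule.subset_span ⟨Fin.last n, rfl⟩) ?_
        exact Submodule.sum_mem _ fun i _ => Submodule.smul_mem _ _ (hmono (hspan u hu i))
      | cast j =>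
        rw [Fin.snoc_castSucc]
        exact hmono (hspan u hu j)

theorem gram {E : Type*} [NormedAddCommGroup E] [NormedSpace ℝ E]
    {V : Set E} (hV : IsOpen V) {g : E → E →L[ℝ] E →L[ℝ] ℝ} {S : E → E →L[ℝ] E}
    (smg : ContDiffOn ℝ ∞ g V) (symm : ∀ u ∈ V, ∀ v w, g u v w = g u w v)
    (pos : ∀ u ∈ V, ∀ v, v ≠ 0 → 0 < g u v v) (sa : ∀ u ∈ V, ∀ v w, g u (S u v) w = g u v (S u w))
    {n : ℕ} (lam : Fin n → ℝ) (y : Fin n → E → E) (smy : ∀ j, ContDiffOn ℝ ∞ (y j) V)
    (hli : ∀ u ∈ V, LinearIndependent ℝ (fun j => y j u))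
    (heig : ∀ u ∈ V, ∀ j, S u (y j u) = lam j • y j u) :
    ∃ e : Fin n → E → E, (∀ j, ContDiffOn ℝ ∞ (e j) V) ∧
      (∀ u ∈ V, ∀ i j, g u (e i u) (e j u) = if i = j then 1 else 0) ∧
      ∀ u ∈ V, ∀ j, S u (e j u) = lam j • e j u := by
  obtain ⟨e, h1, h2, h3, _⟩ := gram_aux smg symm pos sa n lam y smy hli heig
  exact ⟨e, h1, h2, h3⟩

end Pool.Agent.QnS
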