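import Pool.Agent.QnS.Def
import Pool.Agent.QnS.Gram
import Pool.Agent.QnR.Spec

/-!
# Smooth orthonormal frames of eigenvectors (helper50)

Let `n = dim E`.  `exists_spec` (with `P`) gives smooth spectral projections `Pr a`, `a` a root of `P`.  At
`u₀` there is a basis `b_j` of eigenvectors of `S u₀` (spectral theorem: `spec_aux` in `QnR/Spec.lean`: the
eigenspaces span and are orthogonal; take bases of all eigenspaces), `S u₀ b_j = λ_j b_j`, `λ_j` a root of `P`.
`y_j u = Pr λ_j u b_j` is smooth, `S u (y_j u) = λ_j y_j u`, `y_j u₀ = b_j` (`Pr a u₀` is the identity on the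
eigenspace of `a`: `x = ∑ Pr b x`, and `Pr b x = 0` for `b ≠ a` since `a Pr b x = Pr b (S x) = b Pr b x`).  The `y_j u`
are linearly independent for `u` near `u₀` (nonvanishing of a determinant, or: the set of linearly
independent families is open).  `gram` gives `e`.  `span`: `n` orthonormal vectors form a basis; `x` and
`∑ g(x, e_j) e_j` have the same products with all `e_i`.
Roots: the matrix of `S u₀` in the basis `e_j u₀` is diagonal, so `P = ∏_j (X - λ_j)`
(`LinearMap.charpoly_toMatrix`, `Matrix.charpoly` of a diagonal matrix) and the multiset of roots is `λ`.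
-/

namespace Pool.Agent.QnS

open scoped BigOperators ContDiff
open Pool.Agent.QnR

/-- a basis of eigenvectors of an operator which is self-adjoint for a positive definite form -/
private theorem eig_basis {V : Type*} [AddCommGroup V] [Module ℝ V] [FiniteDimensional ℝ V]
    (B : V → V → ℝ) (badd : ∀ x y z, B (x + y) z = B x z + B y z)
    (bsmul : ∀ (r : ℝ) x y, B (r • x) y = r * B x y)
    (symm : ∀ v w, B v w = B w v) (pos : ∀ v, v ≠ 0 → 0 < B v v)
    (T : V →ₗ[ℝ] V) (sa : ∀ v w, B (T v) w = B v (T w)) :
    ∃ (b : Module.Basis (Fin (Module.finrank ℝ V)) ℝ V) (lam : Fin (Module.finrank ℝ V) → ℝ),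
      ∀ j, T (b j) = lam j • b j := by
  let core : InnerProductSpace.Core ℝ V :=
    { inner := fun v w => B v w
      conj_inner_symm := fun x y => by
        simp only [conj_trivial]
        exact symm y x
      re_inner_nonneg := fun x => by
        simp only [RCLike.re_to_real]
        by_cases hx : x = 0
        · rw [hx]
          have h0 : B (0 : V) 0 = 0 := by
            have := bsmul 0 0 0
            rw [zero_smul, zero_mul] at this
            exact this
          rw [h0]
        · exact (pos x hx).le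
      add_left := fun x y z => badd x y z
      smul_left := fun x y r => by
        simp only [conj_trivial]
        exact bsmul r x y
      definite := fun x hx => by
        by_contra hc
        exact (pos x hc).ne' hx }
  let _ : NormedAddCommGroup V := core.toNormedAddCommGroup
  let _ : InnerProductSpace ℝ V := InnerProductSpace.ofCore core.toCore
  have hT : T.IsSymmetric := fun v w => sa v w
  refine ⟨(hT.eigenvectorBasis rfl).toBasis, hT.eigenvalues rfl, fun j => ?_⟩
  rw [OrthonormalBasis.coe_toBasis]
  exact hT.apply_eigenvectorBasis rfl j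

/-- an operator with a basis of eigenvectors -/
private theorem eig_roots {V : Type*} [AddCommGroup V] [Module ℝ V] [FiniteDimensional ℝ V]
    (T : V →ₗ[ℝ] V) {n : ℕ} (b : Module.Basis (Fin n) ℝ V) (lam : Fin n → ℝ)
    (h : ∀ j, T (b j) = lam j • b j) :
    T.charpoly = ∏ j, (Polynomial.X - Polynomial.C (lam j)) := by
  rw [← LinearMap.charpoly_toMatrix T b, ← Matrix.charpoly_diagonal]
  congr 1
  ext i j
  rw [LinearMap.toMatrix_apply, h j, map_smul, Module.Basis.repr_self, Finsupp.smul_single,
    smul_eq_mul, mul_one, Matrix.diagonal_apply, Finsupp.single_apply]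
  by_cases hij : i = j
  · subst hij
    simp
  · rw [if_neg hij, if_neg (Ne.symm hij)]

theorem exists_fr {E : Type*} [NormedAddCommGroup E] [NormedSpace ℝ E] [FiniteDimensional ℝ E]
    {U : Set E} (hU : IsOpen U) {g : E → E →L[ℝ] E →L[ℝ] ℝ} {S : E → E →L[ℝ] E}
    (smg : ContDiffOn ℝ ∞ g U) (smS : ContDiffOn ℝ ∞ S U)
    (symm : ∀ u ∈ U, ∀ v w, g u v w = g u w v)
    (pos : ∀ u ∈ U, ∀ v, v ≠ 0 → 0 < g u v v) (sa : ∀ u ∈ U, ∀ v w, g u (S u v) w = g u v (S u w))
    (P : Polynomial ℝ) (hP : ∀ u ∈ U, LinearMap.charpoly ((S u : E →L[ℝ] E) : E →ₗ[ℝ] E) = P)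
    {u₀ : E} (hu₀ : u₀ ∈ U) :
    ∃ (V : Set E) (lam : Fin (Module.finrank ℝ E) → ℝ) (e : Fin (Module.finrank ℝ E) → E → E),
      u₀ ∈ V ∧ V ⊆ U ∧ Fr V g S lam e ∧ Multiset.map lam Finset.univ.val = P.roots := by
  classical
  obtain ⟨Pr, hSp⟩ := exists_spec smS symm pos sa P hP
  obtain ⟨b, lam, hb⟩ := eig_basis (fun v w => g u₀ v w) (by intro x y z; simp)
    (by intro r x y; simp) (symm u₀ hu₀) (pos u₀ hu₀) ((S u₀ : E →L[ℝ] E) : E →ₗ[ℝ] E) (sa u₀ hu₀)
  have hchar := eig_roots ((S u₀ : E →L[ℝ] E) : E →ₗ[ℝ] E) b lam hb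
  rw [hP u₀ hu₀] at hchar
  have hroots : Multiset.map lam Finset.univ.val = P.roots := by
    rw [hchar, ← Polynomial.roots_multiset_prod_X_sub_C (Multiset.map lam Finset.univ.val),
      Multiset.map_map]
    rfl
  have hmem : ∀ j, lam j ∈ P.roots.toFinset := by
    intro j
    rw [Multiset.mem_toFinset, ← hroots]
    exact Multiset.mem_map_of_mem lam (Finset.mem_univ_val j)
  set y : Fin (Module.finrank ℝ E) → E → E := fun j u => Pr (lam j) u (b j) with hy
  have smy : ∀ j, ContDiffOn ℝ ∞ (y j) U := fun j =>
    (hSp.sm (lam j) (hmem j)).clm_apply contDiffOn_const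
  have hy0 : ∀ j, y j u₀ = b j := by
    intro j
    have hbj : S u₀ (b j) = lam j • b j := hb j
    have h1 := hSp.sum u₀ hu₀ (b j)
    rw [Finset.sum_eq_single (lam j)] at h1
    · exact h1
    · intro a ha hne
      have h2 := hSp.comm u₀ hu₀ a ha (b j)
      rw [hbj, map_smul] at h2
      have h3 : (lam j - a) • Pr a u₀ (b j) = 0 := by rw [sub_smul, h2, sub_self]
      rcases smul_eq_zero.1 h3 with h4 | h4
      · exact absurd (sub_eq_zero.1 h4).symm hne
      · exact h4
    · intro h
      exact absurd (hmem j) h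
  have hcont : ContinuousOn (fun u => (fun j => y j u : Fin (Module.finrank ℝ E) → E)) U :=
    continuousOn_pi.2 fun j => (smy j).continuousOn
  have hop : IsOpen (U ∩ (fun u => (fun j => y j u : Fin (Module.finrank ℝ E) → E)) ⁻¹'
      {f : Fin (Module.finrank ℝ E) → E | LinearIndependent ℝ f}) :=
    hcont.isOpen_inter_preimage hU isOpen_setOfPred_linearIndependent
  set V := U ∩ (fun u => (fun j => y j u : Fin (Module.finrank ℝ E) → E)) ⁻¹'
      {f : Fin (Module.finrank ℝ E) → E | LinearIndependent ℝ f} with hV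
  have hVU : V ⊆ U := Set.inter_subset_left
  obtain ⟨e, sme, one, eige⟩ := gram hop (smg.mono hVU) (fun u hu => symm u (hVU hu))
    (fun u hu => pos u (hVU hu)) (fun u hu => sa u (hVU hu)) lam y (fun j => (smy j).mono hVU)
    (fun u hu => hu.2) (fun u hu j => hSp.eig u (hVU hu) (lam j) (hmem j) (b j))
  refine ⟨V, lam, e, ?_, hVU, ⟨hop, sme, one, eige, ?_⟩, hroots⟩
  · refine ⟨hu₀, ?_⟩
    change LinearIndependent ℝ (fun j => y j u₀)
    have h1 : (fun j => y j u₀) = b := funext hy0
    rw [h1]
    exact b.linearIndependent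
  · intro u hu x
    have hcoef : ∀ (c : Fin (Module.finrank ℝ E) → ℝ) (i : Fin (Module.finrank ℝ E)),
        g u (∑ j, c j • e j u) (e i u) = c i := by
      intro c i
      rw [map_sum, _root_.sum_apply]
      simp only [map_smul]
      rw [Finset.sum_eq_single i]
      · change c i • (g u (e i u)) (e i u) = c i
        rw [one u hu i i, if_pos rfl, smul_eq_mul, mul_one]
      · intro j _ hj
        change c j • (g u (e j u)) (e i u) = 0
        rw [one u hu j i, if_neg hj, smul_zero]
      · intro h
        exact absurd (Finset.mem_univ i) h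
    have hli : LinearIndependent ℝ (fun j => e j u) := by
      rw [Fintype.linearIndependent_iff]
      intro c hc i
      have h1 := hcoef c i
      rw [hc, map_zero] at h1
      exact h1.symm
    have hspan := hli.span_eq_top_of_card_eq_finrank' (Fintype.card_fin _)
    have hx : x ∈ Submodule.span ℝ (Set.range fun j => e j u) := by
      rw [hspan]
      exact Submodule.mem_top
    obtain ⟨c, hc⟩ := (Submodule.mem_span_range_iff_exists_fun ℝ).1 hx
    have h2 : ∀ j, g u x (e j u) = c j := by
      intro j
      rw [← hc]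
      exact hcoef c j
    simp only [h2]
    exact hc

end Pool.Agent.QnS
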