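import Mathlib

/-!
# Taylor sequences (helper50)

The sequence of the derivatives at `y0` of a function which is smooth near `y0`: `tay y0 f r = f^(r)(y0)`.
`sh` is the shift (derivative), `my y0` corresponds to the multiplication by the variable `y`:
`(y f)^(r)(y0) = y0 f^(r)(y0) + r f^(r-1)(y0)`; `on` is the sequence of the constant function 1.
* `sh_my`: `sh (my v) r = y0 v (r+1) + (r+1) v r`, `my (sh v) r = y0 v (r+1) + r v r` (for `r = 0` the last term is
  zero).
* `tay_rel`: the function `f = ∑_j (α_j X_j + β_j y X_j + ε_j X_j') + γ + δ y` vanishes on `(a, b)`, so all its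
  derivatives at `y0` vanish (`iteratedDeriv` only depends on the germ: `Filter.EventuallyEq.iteratedDeriv_eq`).
  On the other hand its `r`-th derivative is computed termwise (everything is smooth near `y0`):
  `iteratedDeriv r (deriv X) = iteratedDeriv (r+1) X` (`iteratedDeriv_succ'`), and the formula for `y X` by
  induction on `r` (on a neighbourhood of `y0`: for all `y` in `(a, b)`
  `(y X)^(r)(y) = y X^(r)(y) + r X^(r-1)(y)`), `iteratedDeriv r 1`.
* `pol_of`: `(sh^a) (p i) = 0` means `p i r = 0` for `r ≥ a`.  Put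
  `N i = ∑_{r < a} C (p i r / r!) (X - C y0)^r`; then `(derivative^[r] (N i)).eval y0 = p i r` for all `r`.
  A polynomial all of whose derivatives at `y0` vanish is zero (e.g. `Polynomial.taylor` coefficients
  `Polynomial.taylor_coeff`, `Polynomial.taylor_injective`, hasseDeriv), and the derivatives of
  `C α * N + C β * (X * N) + C ε * derivative N + C γ + C δ * X` are given by the same formulas.
-/

namespace Pool.Agent.QnS

open scoped BigOperators ContDiff
open Polynomial

/-- the shift. -/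
def sh : (ℕ → ℝ) →ₗ[ℝ] (ℕ → ℝ) where
  toFun v r := v (r + 1)
  map_add' _ _ := rfl
  map_smul' _ _ := rfl

/-- multiplication by the variable. -/
def my (y0 : ℝ) : (ℕ → ℝ) →ₗ[ℝ] (ℕ → ℝ) where
  toFun v r := y0 * v r + r * v (r - 1)
  map_add' v w := by
    funext r
    simp only [Pi.add_apply]
    ring
  map_smul' c v := by
    funext r
    simp only [Pi.smul_apply, smul_eq_mul, RingHom.id_apply]
    ring

/-- the Taylor sequence of the constant function 1. -/
def on : ℕ → ℝ := fun r => if r = 0 then 1 else 0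

/-- the Taylor sequence of `f` at `y0`. -/
noncomputable def tay (y0 : ℝ) (f : ℝ → ℝ) : ℕ → ℝ := fun r => iteratedDeriv r f y0

theorem sh_my (y0 : ℝ) (v : ℕ → ℝ) : sh (my y0 v) = my y0 (sh v) + v := by
  funext r
  show y0 * v (r + 1) + ((r + 1 : ℕ) : ℝ) * v (r + 1 - 1) =
    (y0 * v (r + 1) + (r : ℝ) * v (r - 1 + 1)) + v r
  rcases r with _ | r
  · simp
  · have h : r + 1 - 1 + 1 = r + 1 := by omega
    rw [h]
    simp only [Nat.add_sub_cancel]
    push_cast
    ring

theorem sh_on : sh on = 0 := by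
  funext r
  show on (r + 1) = 0
  simp [on]

/-- Taylor sequence of `y f`. -/
theorem tay_my {y0 : ℝ} {f : ℝ → ℝ} (hf : ContDiffAt ℝ ∞ f y0) :
    tay y0 (fun y => y * f y) = my y0 (tay y0 f) := by
  funext r
  show iteratedDeriv r (fun y => y * f y) y0 =
    y0 * iteratedDeriv r f y0 + (r : ℝ) * iteratedDeriv (r - 1) f y0
  have h1 : ContDiffAt ℝ r (fun y : ℝ => y) y0 := contDiffAt_id
  have h2 : ContDiffAt ℝ r f y0 := hf.of_le (by exact_mod_cast le_top)
  rw [iteratedDeriv_fun_mul h1 h2]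
  rcases r with _ | r
  · simp
  · rw [Finset.sum_range_succ', Finset.sum_range_succ']
    have h3 : ∑ i ∈ Finset.range r, ((r + 1).choose (i + 1 + 1) : ℝ) *
        iteratedDeriv (i + 1 + 1) (fun y : ℝ => y) y0 *
          iteratedDeriv (r + 1 - (i + 1 + 1)) f y0 = 0 := by
      refine Finset.sum_eq_zero fun i _ => ?_
      rw [iteratedDeriv_fun_id]
      simp
    rw [h3, iteratedDeriv_fun_id, iteratedDeriv_fun_id]
    simp
    ring

/-- Taylor sequence of `f'`. -/
theorem tay_sh (y0 : ℝ) (f : ℝ → ℝ) : tay y0 (deriv f) = sh (tay y0 f) := by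
  funext r
  show iteratedDeriv r (deriv f) y0 = iteratedDeriv (r + 1) f y0
  rw [iteratedDeriv_succ']

theorem tay_one (y0 : ℝ) : tay y0 (fun _ => (1 : ℝ)) = on := by
  funext r
  show iteratedDeriv r (fun _ => (1 : ℝ)) y0 = on r
  rw [iteratedDeriv_const]
  rfl

theorem tay_add {y0 : ℝ} {f g : ℝ → ℝ} (hf : ContDiffAt ℝ ∞ f y0) (hg : ContDiffAt ℝ ∞ g y0) :
    tay y0 (fun y => f y + g y) = tay y0 f + tay y0 g := by
  funext r
  show iteratedDeriv r (fun y => f y + g y) y0 = iteratedDeriv r f y0 + iteratedDeriv r g y0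
  exact iteratedDeriv_fun_add (hf.of_le (by exact_mod_cast le_top))
    (hg.of_le (by exact_mod_cast le_top))

theorem tay_smul (y0 c : ℝ) (f : ℝ → ℝ) : tay y0 (fun y => c * f y) = c • tay y0 f := by
  funext r
  show iteratedDeriv r (fun y => c * f y) y0 = c * iteratedDeriv r f y0
  exact iteratedDeriv_const_mul_field c f

theorem tay_sum {κ : Type*} [Fintype κ] {y0 : ℝ} {f : κ → ℝ → ℝ}
    (hf : ∀ i, ContDiffAt ℝ ∞ (f i) y0) :
    tay y0 (fun y => ∑ j, f j y) = ∑ j, tay y0 (f j) := by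
  funext r
  rw [Finset.sum_apply]
  show iteratedDeriv r (fun y => ∑ j, f j y) y0 = ∑ j, iteratedDeriv r (f j) y0
  exact iteratedDeriv_fun_sum fun i _ => (hf i).of_le (by exact_mod_cast le_top)

theorem tay_rel {κ : Type*} [Fintype κ] {a b y0 : ℝ} (hy : y0 ∈ Set.Ioo a b) (X : κ → ℝ → ℝ)
    (hX : ∀ i, ContDiffOn ℝ ∞ (X i) (Set.Ioo a b)) (α β ε : κ → ℝ) (γ δ : ℝ)
    (h : ∀ y ∈ Set.Ioo a b,
      ∑ j, (α j * X j y + β j * (y * X j y) + ε j * deriv (X j) y) + γ + δ * y = 0) :
    ∑ j, (α j • tay y0 (X j) + β j • my y0 (tay y0 (X j)) + ε j • sh (tay y0 (X j))) + γ • on +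
      δ • my y0 on = 0 := by
  have hn : Set.Ioo a b ∈ nhds y0 := isOpen_Ioo.mem_nhds hy
  have hXa : ∀ i, ContDiffAt ℝ ∞ (X i) y0 := fun i => (hX i).contDiffAt hn
  have hXd : ∀ i, ContDiffAt ℝ ∞ (deriv (X i)) y0 := fun i =>
    ((hX i).deriv_of_isOpen isOpen_Ioo (by simp)).contDiffAt hn
  have hid : ContDiffAt ℝ ∞ (fun y : ℝ => y) y0 := contDiffAt_id
  have hyX : ∀ i, ContDiffAt ℝ ∞ (fun y => y * X i y) y0 := fun i => hid.mul (hXa i)
  have hone : ContDiffAt ℝ ∞ (fun _ : ℝ => (1 : ℝ)) y0 := contDiffAt_const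
  have h0 : tay y0 (fun y => (∑ j, ((α j * X j y + β j * (y * X j y)) + ε j * deriv (X j) y) +
      γ * 1) + δ * (y * 1)) = 0 := by
    funext r
    show iteratedDeriv r _ y0 = 0
    have h1 : (fun y => (∑ j, ((α j * X j y + β j * (y * X j y)) + ε j * deriv (X j) y) +
      γ * 1) + δ * (y * 1)) =ᶠ[nhds y0] fun _ => 0 := by
      filter_upwards [hn] with y hy
      rw [← h y hy]
      ring
    rw [h1.iteratedDeriv_eq]
    simp
  have hc : ∀ (c : ℝ) {f : ℝ → ℝ}, ContDiffAt ℝ ∞ f y0 → ContDiffAt ℝ ∞ (fun y => c * f y) y0 :=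
    fun c f hf => contDiffAt_const.mul hf
  have hS : ∀ j, ContDiffAt ℝ ∞
      (fun y => (α j * X j y + β j * (y * X j y)) + ε j * deriv (X j) y) y0 := fun j =>
    ((hc _ (hXa j)).add (hc _ (hyX j))).add (hc _ (hXd j))
  have hSS : ContDiffAt ℝ ∞
      (fun y => ∑ j, ((α j * X j y + β j * (y * X j y)) + ε j * deriv (X j) y)) y0 :=
    ContDiffAt.sum fun j _ => hS j
  rw [tay_add (hSS.add (hc γ hone)) (hc δ (hid.mul hone)), tay_add hSS (hc γ hone), tay_sum hS,
    tay_smul, tay_smul, tay_my hone, tay_one] at h0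
  rw [← h0]
  congr 2
  refine Finset.sum_congr rfl fun j _ => ?_
  rw [tay_add ((hc _ (hXa j)).add (hc _ (hyX j))) (hc _ (hXd j)),
    tay_add (hc _ (hXa j)) (hc _ (hyX j)), tay_smul, tay_smul, tay_smul, tay_my (hXa j), tay_sh]

/-- the derivatives of a polynomial at `y0`. -/
noncomputable def pseq (y0 : ℝ) : ℝ[X] →ₗ[ℝ] (ℕ → ℝ) where
  toFun P r := (derivative^[r] P).eval y0
  map_add' P Q := by
    funext r
    simp
  map_smul' c P := by
    funext r
    simp [Polynomial.iterate_derivative_smul]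

theorem pseq_deriv (y0 : ℝ) (P : ℝ[X]) : pseq y0 (derivative P) = sh (pseq y0 P) := by
  funext r
  show (derivative^[r] (derivative P)).eval y0 = (derivative^[r + 1] P).eval y0
  rw [Function.iterate_succ_apply]

theorem pseq_X (y0 : ℝ) (P : ℝ[X]) : pseq y0 (X * P) = my y0 (pseq y0 P) := by
  funext r
  show (derivative^[r] (X * P)).eval y0 =
    y0 * (derivative^[r] P).eval y0 + (r : ℝ) * (derivative^[r - 1] P).eval y0
  rw [mul_comm, iterate_derivative_mul_X]
  simp
  ring

theorem pseq_one (y0 : ℝ) : pseq y0 1 = on := by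
  funext r
  show (derivative^[r] (1 : ℝ[X])).eval y0 = on r
  rcases r with _ | r
  · simp [on]
  · rw [Function.iterate_succ_apply]
    simp [on]

theorem pseq_eq (y0 : ℝ) (P : ℝ[X]) (r : ℕ) :
    pseq y0 P r = (Nat.factorial r : ℝ) * (taylor y0 P).coeff r := by
  show (derivative^[r] P).eval y0 = _
  rw [taylor_coeff, ← factorial_smul_hasseDeriv]
  simp

theorem pseq_inj (y0 : ℝ) {P : ℝ[X]} (h : pseq y0 P = 0) : P = 0 := by
  rw [← taylor_eq_zero y0]
  ext r
  have h1 := pseq_eq y0 P r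
  rw [h] at h1
  have h2 : (Nat.factorial r : ℝ) ≠ 0 := by exact_mod_cast Nat.factorial_ne_zero r
  simpa [h2] using h1.symm

theorem pseq_surj (y0 : ℝ) (a : ℕ) (v : ℕ → ℝ) (hv : ∀ r, a ≤ r → v r = 0) :
    ∃ P : ℝ[X], pseq y0 P = v := by
  refine ⟨taylor (-y0) (∑ r ∈ Finset.range a, monomial r (v r / Nat.factorial r)), ?_⟩
  funext r
  rw [pseq_eq, taylor_taylor, add_neg_cancel, taylor_zero, finsetSum_coeff]
  simp only [coeff_monomial]
  have h2 : (Nat.factorial r : ℝ) ≠ 0 := by exact_mod_cast Nat.factorial_ne_zero r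
  by_cases h : r < a
  · rw [Finset.sum_eq_single r]
    · simp
      field_simp
    · intro b _ hb
      simp [hb]
    · intro h'
      exact absurd (Finset.mem_range.2 h) h'
  · rw [Finset.sum_eq_zero, hv r (by omega), mul_zero]
    intro i hi
    have : i ≠ r := by
      have := Finset.mem_range.1 hi
      omega
    simp [this]

theorem sh_pow_apply (a : ℕ) (v : ℕ → ℝ) (r : ℕ) : (sh ^ a) v r = v (r + a) := by
  induction a generalizing v r with
  | zero => simp
  | succ a ih =>
    rw [pow_succ, Module.End.mul_apply, ih]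
    show v (r + a + 1) = _
    rw [Nat.add_assoc]

theorem pol_of {κ : Type*} [Fintype κ] (y0 : ℝ) (a : ℕ) (p : κ → ℕ → ℝ)
    (ha : ∀ i, (sh ^ a) (p i) = 0) : ∃ N : κ → ℝ[X], ∀ (α β ε : κ → ℝ) (γ δ : ℝ),
      ∑ j, (α j • p j + β j • my y0 (p j) + ε j • sh (p j)) + γ • on + δ • my y0 on = 0 →
      ∑ j, (C (α j) * N j + C (β j) * (X * N j) + C (ε j) * derivative (N j)) + C γ +
        C δ * X = 0 := by
  have hp : ∀ i, ∃ P : ℝ[X], pseq y0 P = p i := by
    intro i
    refine pseq_surj y0 a (p i) fun r hr => ?_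
    have h1 := congrFun (ha i) (r - a)
    rw [sh_pow_apply] at h1
    have h2 : r - a + a = r := by omega
    rw [h2] at h1
    simpa using h1
  choose N hN using hp
  refine ⟨N, fun α β ε γ δ h => ?_⟩
  apply pseq_inj y0
  have e1 : ∑ j, (C (α j) * N j + C (β j) * (X * N j) + C (ε j) * derivative (N j)) + C γ +
        C δ * X = ∑ j, (α j • N j + β j • (X * N j) + ε j • derivative (N j)) + γ • (1 : ℝ[X]) +
        δ • (X * 1) := by
    simp only [smul_eq_C_mul, mul_one]
  rw [e1, map_add, map_add, map_sum, map_smul, map_smul, pseq_X, pseq_one, ← h]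
  congr 2
  refine Finset.sum_congr rfl fun j _ => ?_
  rw [map_add, map_add, map_smul, map_smul, map_smul, pseq_X, pseq_deriv, hN]

end Pool.Agent.QnS
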