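import Pool.Agent.QnS.AlgSq

/-!
# A vector killed by both matrices is zero (helper50)

Let `GG c = 0` and `KK c = 0` (all multiplicities one).  By `sq_three`
`∑_l c_l²/(λ_i-λ_l)³ = -c_i ∑_l c_l/(λ_i-λ_l)³`, so
`∑_l (c_i + c_l)²/(λ_i-λ_l)³ = c_i² ∑_l 1/(λ_i-λ_l)³ + c_i ∑_l c_l/(λ_i-λ_l)³ = c_i KK c i = 0`
(the term `l = i` is zero, division by zero) for every `i`.  Multiply by `λ_i` and sum over `i`; exchanging
`i` and `l`: `0 = 2 ∑_i ∑_l λ_i (c_i+c_l)²/(λ_i-λ_l)³ = ∑_i ∑_l (λ_i-λ_l)(c_i+c_l)²/(λ_i-λ_l)³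
= ∑_i ∑_l (c_i+c_l)²/(λ_i-λ_l)²` (terms with `l = i` are zero), so `c_i + c_l = 0` for all `i ≠ l`.
Let `λ_i` be the largest eigenvalue: `0 = GG c i = -c_i ∑_{l ≠ i} 1/(λ_i-λ_l)`, so `c_i = 0` (there is an
`l ≠ i`), and all `c_l = -c_i = 0`.
-/

namespace Pool.Agent.QnS

open scoped BigOperators

variable {κ : Type*} [Fintype κ] [DecidableEq κ] {lam : κ → ℝ} {c : κ → ℝ}

theorem no_alt2 (hinj : Function.Injective lam) {m : κ → ℕ} (hm : ∀ i, m i = 1) [Nontrivial κ]
    (hG : ∀ l, GG lam c l = 0) (hK : ∀ l, KK lam m c l = 0) : ∀ l, c l = 0 := by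
  -- the sums of the squares
  have hS : ∀ i, ∑ l, (c i + c l) ^ 2 / (lam i - lam l) ^ 3 = 0 := by
    intro i
    have h := sq_three hinj i (hG i) (fun l _ => hG l)
    have h2 := hK i
    unfold KK at h2
    have h3 : ∑ l, (c i + c l) ^ 2 / (lam i - lam l) ^ 3 =
        c i * ∑ l, (m l : ℝ) * (c i + c l) / (lam i - lam l) ^ 3 +
        (c i * ∑ l, c l / (lam i - lam l) ^ 3 + ∑ l, c l ^ 2 / (lam i - lam l) ^ 3) := by
      rw [Finset.mul_sum, Finset.mul_sum, ← Finset.sum_add_distrib, ← Finset.sum_add_distrib]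
      refine Finset.sum_congr rfl fun l _ => ?_
      rw [hm l]
      push_cast
      ring
    rw [h3, h2, h]
    ring
  have h1 : ∑ i, ∑ l, lam i * ((c i + c l) ^ 2 / (lam i - lam l) ^ 3) = 0 := by
    refine Finset.sum_eq_zero fun i _ => ?_
    rw [← Finset.mul_sum, hS i, mul_zero]
  have h2 : ∑ i, ∑ l, lam l * ((c i + c l) ^ 2 / (lam l - lam i) ^ 3) = 0 := by
    rw [Finset.sum_comm]
    rw [← h1]
    refine Finset.sum_congr rfl fun i _ => Finset.sum_congr rfl fun l _ => ?_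
    rw [add_comm (c l) (c i)]
  have h3 : ∑ i, ∑ l, (c i + c l) ^ 2 / (lam i - lam l) ^ 2 = 0 := by
    rw [← add_zero (0 : ℝ)]
    nth_rewrite 1 [← h1]
    rw [← h2, ← Finset.sum_add_distrib]
    refine Finset.sum_congr rfl fun i _ => ?_
    rw [← Finset.sum_add_distrib]
    refine Finset.sum_congr rfl fun l _ => ?_
    by_cases hil : i = l
    · subst hil
      simp
    · have e1 : lam i - lam l ≠ 0 := sub_ne_zero.2 (hinj.ne hil)
      have e2 : lam l - lam i ≠ 0 := sub_ne_zero.2 (hinj.ne (Ne.symm hil))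
      have e3 : (lam l - lam i) ^ 3 = -(lam i - lam l) ^ 3 := by ring
      rw [e3]
      field_simp
      ring
  have h4 : ∀ i l, i ≠ l → c i + c l = 0 := by
    intro i l hil
    have h5 := (Finset.sum_eq_zero_iff_of_nonneg
      (fun i _ => Finset.sum_nonneg fun l _ => by positivity)).1 h3 i (Finset.mem_univ i)
    have h6 := (Finset.sum_eq_zero_iff_of_nonneg (fun l _ => by positivity)).1 h5 l
      (Finset.mem_univ l)
    have e1 : lam i - lam l ≠ 0 := sub_ne_zero.2 (hinj.ne hil)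
    rcases div_eq_zero_iff.1 h6 with h7 | h7
    · exact pow_eq_zero_iff two_ne_zero |>.1 h7
    · exact absurd (pow_eq_zero_iff two_ne_zero |>.1 h7) e1
  obtain ⟨i, _, hi⟩ := Finset.exists_max_image Finset.univ lam Finset.univ_nonempty
  have hpos : ∀ l, l ≠ i → 0 < lam i - lam l := by
    intro l hl
    exact sub_pos.2 (lt_of_le_of_ne (hi l (Finset.mem_univ l)) (hinj.ne hl))
  obtain ⟨l0, hl0⟩ := exists_ne i
  have h5 : GG lam c i = -c i * ∑ l, 1 / (lam i - lam l) := by
    unfold GG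
    rw [Finset.mul_sum]
    refine Finset.sum_congr rfl fun l _ => ?_
    by_cases hl : l = i
    · subst hl
      simp
    · have : c l = -c i := by linarith [h4 i l (Ne.symm hl)]
      rw [this]
      ring
  have h6 : 0 < ∑ l, 1 / (lam i - lam l) := by
    refine Finset.sum_pos' (fun l _ => ?_) ⟨l0, Finset.mem_univ _, ?_⟩
    · by_cases hl : l = i
      · subst hl
        simp
      · have := hpos l hl
        positivity
    · have := hpos l0 hl0
      positivity
  have hci : c i = 0 := by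
    rw [hG i] at h5
    rcases mul_eq_zero.1 h5.symm with h7 | h7
    · linarith
    · exact absurd h7 h6.ne'
  exact zero_of_mult hinj i hci hG

end Pool.Agent.QnS
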