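import Mathlib

/-!
# Polynomial parts of vectors annihilated by a polynomial of the derivative (helper50)

`V` a real vector space, `D`, `M` endomorphisms with `D M = M D + 1` (derivative, multiplication by the variable).
* `weyl_comm`: `T(D) M = M T(D) + T'(D)`; induction on `T` (monomials: `D^(n+1) M = M D^(n+1) + (n+1) D^n`).
* `exists_T`: write `Q = X^a χ` with `χ(0) ≠ 0` (`a` the root multiplicity of `0`,
  `Polynomial.exists_eq_pow_rootMultiplicity_mul_and_not_dvd`), so `X^(a+2)` and `χ²` are coprime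
  (`χ` and `X` are coprime since `X` is irreducible and does not divide `χ`):
  `u X^(a+2) + v χ² = 1`; put `T = v χ² = 1 - u X^(a+2)`.  `T' = v'χ² + 2vχχ'` is divisible by `χ`, and
  `T' = -(u X^(a+2))'` is divisible by `X^(a+1)`, so by `Q = X^a χ` (coprime factors).
  `X^a T` is divisible by `X^a χ = Q`; `T - 1 = -u X^(a+2)` is divisible by `X²`.
* `poly_part`: `p_i = T(D) x_i`.  `D^a p_i = (X^a T)(D) x_i = 0`.  Apply `T(D)` to a relation: it is linear,
  commutes with `D`, `T(D) M x_j = M T(D) x_j + T'(D) x_j = M p_j` (as `Q ∣ T'`), `T(D) one = one` and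
  `T(D) M one = M T(D) one + T'(D) one = M one` (as `X ∣ T - 1`, `X ∣ T'`, `D one = 0`).
* `exists_annih`: let `B = X·1 - C N` be the characteristic matrix of `N` over `ℝ[X]` (`Matrix.charmatrix`), `A` its
  adjugate, `A B = χ_N` (`Matrix.adjugate_mul`).  Then
  `χ_N(D) x_i = ∑_j A_ij(D) ∑_l B_jl(D) x_l = ∑_j A_ij(D) (D x_j - ∑_l N_jl x_l) = ∑_j A_ij(D) b_j`, and
  `Q = X² χ_N` works, `D² b_j = 0` (`χ_N` is monic).
-/

namespace Pool.Agent.QnS

open scoped BigOperators
open Polynomial

private theorem pow_comm_aux {V : Type*} [AddCommGroup V] [Module ℝ V] (D M : V →ₗ[ℝ] V)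
    (h : ∀ v, D (M v) = M (D v) + v) (n : ℕ) (v : V) :
    (D ^ n) (M v) = M ((D ^ n) v) + (n : ℝ) • (D ^ (n - 1)) v := by
  induction n with
  | zero => simp
  | succ n ih =>
    have e : ∀ w : V, (D ^ (n + 1)) w = D ((D ^ n) w) := by
      intro w
      rw [pow_succ', Module.End.mul_apply]
    rw [e, e, ih, map_add, h, map_smul, Nat.add_sub_cancel]
    rcases Nat.eq_zero_or_pos n with hn | hn
    · subst hn
      simp
    · have e1 : D ((D ^ (n - 1)) v) = (D ^ n) v := by
        rw [← Module.End.mul_apply, ← pow_succ']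
        congr 2
        omega
      rw [e1]
      push_cast
      module

theorem weyl_comm {V : Type*} [AddCommGroup V] [Module ℝ V] (D M : V →ₗ[ℝ] V)
    (h : ∀ v, D (M v) = M (D v) + v) (T : ℝ[X]) (v : V) :
    aeval D T (M v) = M (aeval D T v) + aeval D (derivative T) v := by
  induction T using Polynomial.induction_on' with
  | add p q hp hq =>
    rw [derivative_add]
    simp only [map_add, LinearMap.add_apply, hp, hq]
    abel
  | monomial n a =>
    rw [derivative_monomial, aeval_monomial, aeval_monomial]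
    simp only [Module.End.mul_apply, Module.algebraMap_end_apply]
    rw [pow_comm_aux D M h, smul_add, map_smul, smul_smul]

theorem exists_T (Q : ℝ[X]) (hQ : Q ≠ 0) :
    ∃ (a : ℕ) (T : ℝ[X]), X ^ 2 ∣ T - 1 ∧ Q ∣ derivative T ∧ Q ∣ X ^ a * T := by
  obtain ⟨χ, hχ, hnd⟩ := Polynomial.exists_eq_pow_rootMultiplicity_mul_and_not_dvd Q hQ 0
  rw [C_0, sub_zero] at hχ hnd
  set a := rootMultiplicity 0 Q with ha
  have hcop : IsCoprime (X : ℝ[X]) χ := (irreducible_X.coprime_iff_not_dvd).2 hnd
  obtain ⟨u, v, huv⟩ := (hcop.pow (m := a + 2) (n := 2))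
  refine ⟨a, v * χ ^ 2, ?_, ?_, ?_⟩
  · refine ⟨-(u * X ^ a), ?_⟩
    linear_combination huv
  · have hT : v * χ ^ 2 = 1 - u * X ^ (a + 2) := by linear_combination huv
    have h1 : X ^ a ∣ derivative (v * χ ^ 2) := by
      rw [hT, derivative_sub, derivative_one, derivative_mul, derivative_X_pow]
      refine ⟨-(derivative u * X ^ 2 + u * (C ((a + 2 : ℕ) : ℝ) * X)), ?_⟩
      have e : a + 2 - 1 = a + 1 := by omega
      rw [e]
      ring
    have h2 : χ ∣ derivative (v * χ ^ 2) := by
      rw [derivative_mul, derivative_pow]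
      refine ⟨derivative v * χ + v * (C ((2 : ℕ) : ℝ) * derivative χ), ?_⟩
      simp only [Nat.add_one_sub_one, pow_one]
      ring
    rw [hχ]
    exact (hcop.pow_left).mul_dvd h1 h2
  · rw [hχ]
    exact ⟨v * χ, by ring⟩

theorem poly_part {V : Type*} [AddCommGroup V] [Module ℝ V] (D M : V →ₗ[ℝ] V)
    (h : ∀ v, D (M v) = M (D v) + v) (one : V) (hone : D one = 0) {κ : Type*} [Fintype κ]
    (x : κ → V) (Q : ℝ[X]) (hQ : Q ≠ 0) (hx : ∀ i, aeval D Q (x i) = 0) :
    ∃ (a : ℕ) (p : κ → V), (∀ i, (D ^ a) (p i) = 0) ∧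
      ∀ (α β ε : κ → ℝ) (γ δ : ℝ),
        ∑ j, (α j • x j + β j • M (x j) + ε j • D (x j)) + γ • one + δ • M one = 0 →
        ∑ j, (α j • p j + β j • M (p j) + ε j • D (p j)) + γ • one + δ • M one = 0 := by
  obtain ⟨a, T, ⟨w, hw⟩, ⟨q', hq'⟩, ⟨c, hc⟩⟩ := exists_T Q hQ
  have hX : ∀ v, aeval D (X : ℝ[X]) v = D v := fun v => by rw [aeval_X]
  have hL1 : aeval D T one = one := by
    have e : T = 1 + w * X * X := by linear_combination hw
    rw [e, map_add, map_mul, map_mul, LinearMap.add_apply, Module.End.mul_apply,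
      Module.End.mul_apply, hX, hX, hone, map_zero, map_zero, map_one]
    simp
  have hd1 : aeval D (derivative T) one = 0 := by
    have e : T = 1 + X ^ 2 * w := by linear_combination hw
    have e' : derivative T = (2 * w + X * derivative w) * X := by
      rw [e, derivative_add, derivative_one, derivative_mul, derivative_X_pow]
      simp only [Nat.add_one_sub_one, pow_one]
      have : (C ((2 : ℕ) : ℝ)) = (2 : ℝ[X]) := by
        rw [Nat.cast_ofNat]
        exact map_ofNat C 2
      rw [this]
      ring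
    rw [e', map_mul, Module.End.mul_apply, hX, hone, map_zero]
  have hdx : ∀ i, aeval D (derivative T) (x i) = 0 := by
    intro i
    rw [hq', mul_comm, map_mul, Module.End.mul_apply, hx, map_zero]
  have hcomm : ∀ v, aeval D T (D v) = D (aeval D T v) := by
    intro v
    rw [← hX, ← hX, ← Module.End.mul_apply, ← Module.End.mul_apply, ← map_mul, ← map_mul, mul_comm]
  refine ⟨a, fun i => aeval D T (x i), ?_, ?_⟩
  · intro i
    have e : (D ^ a) (aeval D T (x i)) = aeval D (X ^ a * T) (x i) := by
      rw [map_mul, map_pow, aeval_X, Module.End.mul_apply]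
    rw [e, hc, mul_comm, map_mul, Module.End.mul_apply, hx, map_zero]
  · intro α β ε γ δ hrel
    have h0 := congrArg (aeval D T) hrel
    rw [map_zero, map_add, map_add, map_sum, map_smul, map_smul, hL1, weyl_comm D M h, hL1, hd1,
      add_zero] at h0
    rw [← h0]
    congr 2
    refine Finset.sum_congr rfl fun j _ => ?_
    rw [map_add, map_add, map_smul, map_smul, map_smul, weyl_comm D M h, hdx, add_zero, hcomm]

theorem exists_annih {V : Type*} [AddCommGroup V] [Module ℝ V] (D : V →ₗ[ℝ] V) {κ : Type*}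
    [Fintype κ] [DecidableEq κ] (x : κ → V) (N : κ → κ → ℝ) (b : κ → V)
    (hb : ∀ i, D (D (b i)) = 0) (h : ∀ i, D (x i) = ∑ j, N i j • x j + b i) :
    ∃ Q : ℝ[X], Q ≠ 0 ∧ ∀ i, aeval D Q (x i) = 0 := by
  let Nm : Matrix κ κ ℝ := Matrix.of N
  have hmul := Matrix.adjugate_mul (Matrix.charmatrix Nm)
  have hB : ∀ j, ∑ l, aeval D (Matrix.charmatrix Nm j l) (x l) = b j := by
    intro j
    have e : ∀ l, aeval D (Matrix.charmatrix Nm j l) (x l) =
        (if j = l then D (x l) else 0) - N j l • x l := by
      intro l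
      rw [Matrix.charmatrix_apply, map_sub, LinearMap.sub_apply, aeval_C, Module.algebraMap_end_apply]
      congr 1
      rw [Matrix.diagonal_apply]
      split_ifs
      · rw [aeval_X]
      · simp
    simp only [e, Finset.sum_sub_distrib, Finset.sum_ite_eq, Finset.mem_univ, if_true, h j]
    abel
  have key : ∀ i, aeval D (Matrix.charpoly Nm) (x i) =
      ∑ j, aeval D (Matrix.adjugate (Matrix.charmatrix Nm) i j) (b j) := by
    intro i
    have e1 : ∀ l, ∑ j, Matrix.adjugate (Matrix.charmatrix Nm) i j * Matrix.charmatrix Nm j l =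
        if i = l then Matrix.charpoly Nm else 0 := by
      intro l
      have := congrFun (congrFun hmul i) l
      rw [Matrix.mul_apply] at this
      rw [this, Matrix.smul_apply, Matrix.one_apply, Matrix.charpoly]
      split_ifs <;> simp
    calc aeval D (Matrix.charpoly Nm) (x i) =
        ∑ l, aeval D (∑ j, Matrix.adjugate (Matrix.charmatrix Nm) i j *
          Matrix.charmatrix Nm j l) (x l) := by
          simp only [e1]
          rw [Finset.sum_eq_single i]
          · simp
          · intro l _ hl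
            rw [if_neg (Ne.symm hl), map_zero, LinearMap.zero_apply]
          · simp
      _ = ∑ l, ∑ j, aeval D (Matrix.adjugate (Matrix.charmatrix Nm) i j)
          (aeval D (Matrix.charmatrix Nm j l) (x l)) := by
          refine Finset.sum_congr rfl fun l _ => ?_
          rw [map_sum, LinearMap.sum_apply]
          refine Finset.sum_congr rfl fun j _ => ?_
          rw [map_mul, Module.End.mul_apply]
      _ = ∑ j, aeval D (Matrix.adjugate (Matrix.charmatrix Nm) i j) (b j) := by
          rw [Finset.sum_comm]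
          refine Finset.sum_congr rfl fun j _ => ?_
          rw [← map_sum, hB]
  refine ⟨X * X * Matrix.charpoly Nm, ?_, ?_⟩
  · exact mul_ne_zero (mul_ne_zero X_ne_zero X_ne_zero) (Matrix.charpoly_monic Nm).ne_zero
  · intro i
    have hX : ∀ v, aeval D (X : ℝ[X]) v = D v := fun v => by rw [aeval_X]
    have hcomm : ∀ (T : ℝ[X]) (v : V), D (aeval D T v) = aeval D T (D v) := by
      intro T v
      rw [← hX, ← hX, ← Module.End.mul_apply, ← Module.End.mul_apply, ← map_mul, ← map_mul,
        mul_comm]
    rw [map_mul, map_mul, Module.End.mul_apply, Module.End.mul_apply, hX, hX, key, map_sum, map_sum]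
    refine Finset.sum_eq_zero fun j _ => ?_
    rw [hcomm, hcomm, hb, map_zero]

end Pool.Agent.QnS
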