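import Pool.Agent.QnS.AlgTwo
import Pool.Agent.QnS.AlgTop
import Pool.Agent.QnS.Theta
import Pool.Agent.QnS.Weyl
import Pool.Agent.QnS.Taylor

/-!
# No solutions which are functions of `y` (helper50)

`X_i(y)`, `y ∈ (a, b)`, smooth, satisfy the linear relations `Sol` and, for `m_i = 1`,
`(D) λ_i + k GG X i + λ_i X_i' = 0`.
1. `y0` the midpoint, `x_i = tay y0 (X i)`, `D = sh`, `M = my y0`, `one = on`.  By `tay_rel` every relation
   `∑ (α_j X_j + β_j y X_j + ε_j X_j') + γ + δ y = 0` holds for the sequences `x_j`.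
2. `exists_annih`: an `ODE` `D x_i = ∑ N_ij x_j + b_i` with `b_i` a multiple of `one`:
   `m_i ≥ 2`: `x_i = 0`, `N_i = 0`, `b_i = 0`.  `m_i = 1`, `λ_i ≠ 0`: by (D)
   `D x_i = -one - (k/λ_i) ∑_j x_j/(λ_i-λ_j)`.  `m_i = 1`, `λ_i = 0` (at most one such `i`, `lam` is injective): by
   (S) `x_i = one - M one - ∑_{j≠i} x_j`, so `D x_i = -one - ∑_{j≠i} D x_j` and insert the others
   (all `j ≠ i` are of the first two kinds).  So `Q`.
3. `poly_part` and `pol_of`: polynomials `N_j` satisfying the polynomial versions of all the linear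
   relations: (S) `∑ N_j = 1 - X`; (Z) `N_i = 0` for `m_i ≥ 2`; (G), (D), (C) (the relations of `Sol` are linear in
   `X_j`, `y X_j`, `y`, `1`: write out `QQ` with `(a-b)`-denominators as in the hypothesis `hC` of `top`).
4. `top` with `Δ = 1` gives `c ≠ 0` with `KK c = 0`, `GG c = 0`, `c_i = 0` if `m_i ≥ 2`.  If some `m_i ≥ 2`:
   `zero_of_mult` at `i`; otherwise all `m_i = 1`, `κ` has at least two elements (`∑ m_i ≥ 2`) and `no_alt2`
   gives `c = 0`: contradiction.
-/

namespace Pool.Agent.QnS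

open scoped BigOperators ContDiff
open Polynomial

private theorem ffz_sum {κ : Type*} [Fintype κ] [DecidableEq κ] (m : κ → ℕ) (f g : κ → ℝ)
    (x : κ → ℝ) (i : κ) :
    ∑ j, ((m j : ℝ) * f j + if j = i then ∑ l, (m l : ℝ) * g l else 0) * x j =
      ∑ j, (m j : ℝ) * (f j * x j + g j * x i) := by
  have h1 : ∀ j, ((m j : ℝ) * f j + if j = i then ∑ l, (m l : ℝ) * g l else 0) * x j =
      (m j : ℝ) * f j * x j + if j = i then (∑ l, (m l : ℝ) * g l) * x j else 0 := by
    intro j
    split_ifs <;> ring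
  rw [Finset.sum_congr rfl fun j _ => h1 j, Finset.sum_add_distrib, Finset.sum_ite_eq',
    if_pos (Finset.mem_univ i), Finset.sum_mul, ← Finset.sum_add_distrib]
  refine Finset.sum_congr rfl fun j _ => ?_
  ring

private theorem ffz_sumC {κ : Type*} [Fintype κ] [DecidableEq κ] (m : κ → ℕ) (f g : κ → ℝ)
    (x : κ → ℝ[X]) (i : κ) :
    ∑ j, C ((m j : ℝ) * f j + if j = i then ∑ l, (m l : ℝ) * g l else 0) * x j =
      ∑ j, C (m j : ℝ) * (C (f j) * x j + C (g j) * x i) := by
  have h1 : ∀ j, C ((m j : ℝ) * f j + if j = i then ∑ l, (m l : ℝ) * g l else 0) * x j =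
      C (m j : ℝ) * C (f j) * x j + if j = i then C (∑ l, (m l : ℝ) * g l) * x j else 0 := by
    intro j
    split_ifs
    · rw [C_add, C_mul]
      ring
    · rw [C_add, C_mul, C_0]
      ring
  rw [Finset.sum_congr rfl fun j _ => h1 j, Finset.sum_add_distrib, Finset.sum_ite_eq',
    if_pos (Finset.mem_univ i), map_sum, Finset.sum_mul, ← Finset.sum_add_distrib]
  refine Finset.sum_congr rfl fun j _ => ?_
  rw [C_mul]
  ring

private theorem ffz_term (a b k y xa xb mj : ℝ) :
    mj * QQ k y a b xa xb / (a - b) =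
      mj * ((a * b + k) / (a - b)) + mj * (k / (a - b)) * y +
      mj * (k * (2 * b - a) / (a - b) ^ 2 * xb + -(k * (2 * a - b) / (a - b) ^ 2) * xa) +
      mj * (2 * k ^ 2 / (a - b) ^ 3 * xb + 2 * k ^ 2 / (a - b) ^ 3 * xa) * y := by
  unfold QQ
  rcases eq_or_ne (a - b) 0 with h | h
  · simp [h]
  · field_simp
    ring

private theorem ffz_termC (a b k mj : ℝ) (xa xb : ℝ[X]) :
    C (mj / (a - b)) * (C (a * b + k) * 1 + C k * X * 1 -
        C (k * (2 * a - b) / (a - b)) * xa +
        C (k * (2 * b - a) / (a - b)) * xb +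
        C (2 * k ^ 2 / (a - b) ^ 2) * X * (xa + xb)) =
      C (mj * ((a * b + k) / (a - b))) + C (mj * (k / (a - b))) * X +
      C mj * (C (k * (2 * b - a) / (a - b) ^ 2) * xb + C (-(k * (2 * a - b) / (a - b) ^ 2)) * xa) +
      C mj * (C (2 * k ^ 2 / (a - b) ^ 3) * (X * xb) + C (2 * k ^ 2 / (a - b) ^ 3) * (X * xa)) := by
  have e1 : mj * ((a * b + k) / (a - b)) = mj / (a - b) * (a * b + k) := by ring
  have e2 : mj * (k / (a - b)) = mj / (a - b) * k := by ring
  have e3 : C mj * C (k * (2 * b - a) / (a - b) ^ 2) =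
      C (mj / (a - b)) * C (k * (2 * b - a) / (a - b)) := by
    rw [← C_mul, ← C_mul]
    congr 1
    have g : ∀ x : ℝ, mj * (k * (2 * b - a) / x ^ 2) = mj / x * (k * (2 * b - a) / x) := by
      intro x
      ring
    exact g _
  have e4 : C mj * C (-(k * (2 * a - b) / (a - b) ^ 2)) =
      -(C (mj / (a - b)) * C (k * (2 * a - b) / (a - b))) := by
    rw [← C_mul, ← C_mul, ← C_neg]
    congr 1
    have g : ∀ x : ℝ, mj * (-(k * (2 * a - b) / x ^ 2)) = -(mj / x * (k * (2 * a - b) / x)) := by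
      intro x
      ring
    exact g _
  have e5 : C mj * C (2 * k ^ 2 / (a - b) ^ 3) =
      C (mj / (a - b)) * C (2 * k ^ 2 / (a - b) ^ 2) := by
    rw [← C_mul, ← C_mul]
    congr 1
    have g : ∀ x : ℝ, mj * (2 * k ^ 2 / x ^ 3) = mj / x * (2 * k ^ 2 / x ^ 2) := by
      intro x
      ring
    exact g _
  rw [e1, e2, C_mul, C_mul (a := mj / (a - b)) (b := k)]
  have f1 : C mj * (C (k * (2 * b - a) / (a - b) ^ 2) * xb +
      C (-(k * (2 * a - b) / (a - b) ^ 2)) * xa) =
      C mj * C (k * (2 * b - a) / (a - b) ^ 2) * xb +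
      C mj * C (-(k * (2 * a - b) / (a - b) ^ 2)) * xa := by ring
  have f2 : C mj * (C (2 * k ^ 2 / (a - b) ^ 3) * (X * xb) +
      C (2 * k ^ 2 / (a - b) ^ 3) * (X * xa)) =
      C mj * C (2 * k ^ 2 / (a - b) ^ 3) * (X * xb + X * xa) := by ring
  rw [f1, f2, e3, e4, e5]
  ring

theorem fun_false {κ : Type*} [Fintype κ] [DecidableEq κ] {lam : κ → ℝ}
    (hinj : Function.Injective lam) {m : κ → ℕ} (hm : ∀ i, 1 ≤ m i) (hm2 : 2 ≤ ∑ i, m i)
    {k : ℝ} (hk : k ≠ 0) {a b : ℝ} (hab : a < b) (X : κ → ℝ → ℝ)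
    (hX : ∀ i, ContDiffOn ℝ ∞ (X i) (Set.Ioo a b))
    (hsol : ∀ y ∈ Set.Ioo a b, Sol lam m k y (fun i => X i y))
    (hD : ∀ y ∈ Set.Ioo a b, ∀ i, m i = 1 →
      lam i + k * GG lam (fun j => X j y) i + lam i * deriv (X i) y = 0) : False := by
  classical
  obtain ⟨y0, hy0⟩ : ∃ y0, y0 ∈ Set.Ioo a b := ⟨(a + b) / 2, by constructor <;> linarith⟩
  have hrel := fun (α β ε : κ → ℝ) (γ δ : ℝ) => tay_rel hy0 X hX α β ε γ δ
  -- the single relations as functions
  have fS : ∀ y ∈ Set.Ioo a b, ∑ j, ((fun _ => (1 : ℝ)) j * X j y + (fun _ => (0 : ℝ)) j * (y * X j y) +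
      (fun _ => (0 : ℝ)) j * deriv (X j) y) + (-1) + 1 * y = 0 := by
    intro y hy
    have h := (hsol y hy).2.2.2
    have h2 : ∑ j, ((fun _ => (1 : ℝ)) j * X j y + (fun _ => (0 : ℝ)) j * (y * X j y) +
      (fun _ => (0 : ℝ)) j * deriv (X j) y) = ∑ j, X j y :=
      Finset.sum_congr rfl fun j _ => by ring
    rw [h2, h]
    ring
  have fZ : ∀ i, 2 ≤ m i → ∀ y ∈ Set.Ioo a b,
      ∑ j, ((fun j => if j = i then (1 : ℝ) else 0) j * X j y + (fun _ => (0 : ℝ)) j * (y * X j y) +
      (fun _ => (0 : ℝ)) j * deriv (X j) y) + 0 + 0 * y = 0 := by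
    intro i hi y hy
    have h := (hsol y hy).2.2.1 i hi
    have h2 : ∑ j, ((fun j => if j = i then (1 : ℝ) else 0) j * X j y +
      (fun _ => (0 : ℝ)) j * (y * X j y) + (fun _ => (0 : ℝ)) j * deriv (X j) y) = X i y := by
      have h3 : ∀ j, ((fun j => if j = i then (1 : ℝ) else 0) j * X j y +
        (fun _ => (0 : ℝ)) j * (y * X j y) + (fun _ => (0 : ℝ)) j * deriv (X j) y) =
        if j = i then X j y else 0 := by
        intro j
        by_cases hj : j = i <;> simp [hj]
      rw [Finset.sum_congr rfl fun j _ => h3 j, Finset.sum_ite_eq', if_pos (Finset.mem_univ i)]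
    rw [h2]
    have h4 : X i y = 0 := h
    rw [h4]
    ring
  have fG : ∀ i, 2 ≤ m i → ∀ y ∈ Set.Ioo a b,
      ∑ j, ((fun j => k * (1 / (lam i - lam j))) j * X j y + (fun _ => (0 : ℝ)) j * (y * X j y) +
      (fun _ => (0 : ℝ)) j * deriv (X j) y) + lam i + 0 * y = 0 := by
    intro i hi y hy
    have h := (hsol y hy).2.1 i hi
    have h2 : ∑ j, ((fun j => k * (1 / (lam i - lam j))) j * X j y +
      (fun _ => (0 : ℝ)) j * (y * X j y) + (fun _ => (0 : ℝ)) j * deriv (X j) y) =
      k * GG lam (fun j => X j y) i := by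
      unfold GG
      rw [Finset.mul_sum]
      exact Finset.sum_congr rfl fun j _ => by ring
    rw [h2]
    linarith
  have fD : ∀ i, m i = 1 → ∀ y ∈ Set.Ioo a b,
      ∑ j, ((fun j => k * (1 / (lam i - lam j))) j * X j y + (fun _ => (0 : ℝ)) j * (y * X j y) +
      (fun j => if j = i then lam i else 0) j * deriv (X j) y) + lam i + 0 * y = 0 := by
    intro i hi y hy
    have h := hD y hy i hi
    have h2 : ∑ j, ((fun j => k * (1 / (lam i - lam j))) j * X j y +
      (fun _ => (0 : ℝ)) j * (y * X j y) + (fun j => if j = i then lam i else 0) j * deriv (X j) y) =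
      k * GG lam (fun j => X j y) i + lam i * deriv (X i) y := by
      have h3 : ∀ j, ((fun j => k * (1 / (lam i - lam j))) j * X j y +
        (fun _ => (0 : ℝ)) j * (y * X j y) +
        (fun j => if j = i then lam i else 0) j * deriv (X j) y) =
        k * (X j y / (lam i - lam j)) + if j = i then lam i * deriv (X j) y else 0 := by
        intro j
        by_cases hj : j = i
        · simp only [hj, if_true]
          ring
        · simp only [if_neg hj]
          ring
      rw [Finset.sum_congr rfl fun j _ => h3 j, Finset.sum_add_distrib, Finset.sum_ite_eq',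
        if_pos (Finset.mem_univ i), ← Finset.mul_sum]
      rfl
    rw [h2]
    linarith
  have fC : ∀ i, ∀ y ∈ Set.Ioo a b,
      ∑ j, ((fun j => (m j : ℝ) * (k * (2 * lam j - lam i) / (lam i - lam j) ^ 2) +
          if j = i then ∑ l, (m l : ℝ) * (-(k * (2 * lam i - lam l) / (lam i - lam l) ^ 2)) else 0) j *
            X j y +
        (fun j => (m j : ℝ) * (2 * k ^ 2 / (lam i - lam j) ^ 3) +
          if j = i then ∑ l, (m l : ℝ) * (2 * k ^ 2 / (lam i - lam l) ^ 3) else 0) j * (y * X j y) +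
        (fun _ => (0 : ℝ)) j * deriv (X j) y) +
        ∑ j, (m j : ℝ) * ((lam i * lam j + k) / (lam i - lam j)) +
        (∑ j, (m j : ℝ) * (k / (lam i - lam j))) * y = 0 := by
    intro i y hy
    have h := (hsol y hy).1 i
    rw [Finset.sum_congr rfl fun j _ => ffz_term (lam i) (lam j) k y (X i y) (X j y) (m j : ℝ)] at h
    simp only [Finset.sum_add_distrib, ← Finset.sum_mul] at h
    rw [Finset.sum_add_distrib, Finset.sum_add_distrib]
    have h1 := ffz_sum m (fun j => k * (2 * lam j - lam i) / (lam i - lam j) ^ 2)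
      (fun l => -(k * (2 * lam i - lam l) / (lam i - lam l) ^ 2)) (fun j => X j y) i
    have h2 := ffz_sum m (fun j => 2 * k ^ 2 / (lam i - lam j) ^ 3)
      (fun l => 2 * k ^ 2 / (lam i - lam l) ^ 3) (fun j => X j y) i
    have h3 : ∑ j, (fun j => (m j : ℝ) * (2 * k ^ 2 / (lam i - lam j) ^ 3) +
          if j = i then ∑ l, (m l : ℝ) * (2 * k ^ 2 / (lam i - lam l) ^ 3) else 0) j * (y * X j y) =
        (∑ j, (m j : ℝ) * (2 * k ^ 2 / (lam i - lam j) ^ 3 * X j y +
          2 * k ^ 2 / (lam i - lam j) ^ 3 * X i y)) * y := by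
      rw [← h2, Finset.sum_mul]
      exact Finset.sum_congr rfl fun j _ => by ring
    have h4 : ∑ j, (fun _ => (0 : ℝ)) j * deriv (X j) y = 0 :=
      Finset.sum_eq_zero fun j _ => by ring
    have h5 : ∑ j, (fun j => (m j : ℝ) * (k * (2 * lam j - lam i) / (lam i - lam j) ^ 2) +
          if j = i then ∑ l, (m l : ℝ) * (-(k * (2 * lam i - lam l) / (lam i - lam l) ^ 2)) else 0) j *
            X j y = ∑ j, (m j : ℝ) * (k * (2 * lam j - lam i) / (lam i - lam j) ^ 2 * X j y +
            -(k * (2 * lam i - lam j) / (lam i - lam j) ^ 2) * X i y) := h1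
    rw [h3, h4, h5]
    linarith
  -- Taylor sequences
  have hcom : ∀ v : ℕ → ℝ, sh (my y0 v) = my y0 (sh v) + v := sh_my y0
  have sS : ∑ j, tay y0 (X j) = on - my y0 on := by
    have h := hrel _ _ _ _ _ fS
    have h2 : ∑ j, ((fun _ => (1 : ℝ)) j • tay y0 (X j) + (fun _ => (0 : ℝ)) j •
      my y0 (tay y0 (X j)) + (fun _ => (0 : ℝ)) j • sh (tay y0 (X j))) = ∑ j, tay y0 (X j) := by
      refine Finset.sum_congr rfl fun j _ => ?_
      simp
    rw [h2] at h
    have h3 : ∑ j, tay y0 (X j) = (∑ j, tay y0 (X j) + (-1 : ℝ) • on + (1 : ℝ) • my y0 on) +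
        on - my y0 on := by
      rw [neg_one_smul, one_smul]
      abel
    rw [h3, h]
    abel
  have sZ : ∀ i, 2 ≤ m i → tay y0 (X i) = 0 := by
    intro i hi
    have h := hrel _ _ _ _ _ (fZ i hi)
    have h2 : ∑ j, ((fun j => if j = i then (1 : ℝ) else 0) j • tay y0 (X j) +
      (fun _ => (0 : ℝ)) j • my y0 (tay y0 (X j)) + (fun _ => (0 : ℝ)) j • sh (tay y0 (X j))) =
      tay y0 (X i) := by
      have h3 : ∀ j, ((fun j => if j = i then (1 : ℝ) else 0) j • tay y0 (X j) +
        (fun _ => (0 : ℝ)) j • my y0 (tay y0 (X j)) + (fun _ => (0 : ℝ)) j • sh (tay y0 (X j))) =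
        if j = i then tay y0 (X j) else 0 := by
        intro j
        by_cases hj : j = i <;> simp [hj]
      rw [Finset.sum_congr rfl fun j _ => h3 j, Finset.sum_ite_eq', if_pos (Finset.mem_univ i)]
    rw [h2] at h
    simpa using h
  have sD : ∀ i, m i = 1 → ∑ j, (k * (1 / (lam i - lam j))) • tay y0 (X j) +
      lam i • sh (tay y0 (X i)) + lam i • on = 0 := by
    intro i hi
    have h := hrel _ _ _ _ _ (fD i hi)
    have h2 : ∑ j, ((fun j => k * (1 / (lam i - lam j))) j • tay y0 (X j) +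
      (fun _ => (0 : ℝ)) j • my y0 (tay y0 (X j)) +
      (fun j => if j = i then lam i else 0) j • sh (tay y0 (X j))) =
      ∑ j, (k * (1 / (lam i - lam j))) • tay y0 (X j) + lam i • sh (tay y0 (X i)) := by
      have h3 : ∀ j, ((fun j => k * (1 / (lam i - lam j))) j • tay y0 (X j) +
        (fun _ => (0 : ℝ)) j • my y0 (tay y0 (X j)) +
        (fun j => if j = i then lam i else 0) j • sh (tay y0 (X j))) =
        (k * (1 / (lam i - lam j))) • tay y0 (X j) +
          if j = i then lam i • sh (tay y0 (X j)) else 0 := by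
        intro j
        by_cases hj : j = i
        · subst hj
          simp
        · simp [hj]
      rw [Finset.sum_congr rfl fun j _ => h3 j, Finset.sum_add_distrib, Finset.sum_ite_eq',
        if_pos (Finset.mem_univ i)]
    rw [h2] at h
    simpa using h
  -- the ordinary differential equation
  have hode1 : ∀ i, (2 ≤ m i ∨ lam i ≠ 0) → ∃ (n : κ → ℝ) (s : ℝ),
      sh (tay y0 (X i)) = ∑ j, n j • tay y0 (X j) + s • on := by
    intro i hi
    rcases (hm i).eq_or_lt with h1i | h2i
    · have hl : lam i ≠ 0 := by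
        rcases hi with h | h
        · omega
        · exact h
      refine ⟨fun j => -((lam i)⁻¹ * (k * (1 / (lam i - lam j)))), -1, ?_⟩
      have h := sD i h1i.symm
      have h3 : (lam i)⁻¹ • (∑ j, (k * (1 / (lam i - lam j))) • tay y0 (X j) +
        lam i • sh (tay y0 (X i)) + lam i • on) = 0 := by rw [h, smul_zero]
      rw [smul_add, smul_add, smul_smul, smul_smul, inv_mul_cancel₀ hl, one_smul, one_smul,
        Finset.smul_sum] at h3
      have h4 : ∑ j, (-((lam i)⁻¹ * (k * (1 / (lam i - lam j))))) • tay y0 (X j) =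
          -∑ j, (lam i)⁻¹ • (k * (1 / (lam i - lam j))) • tay y0 (X j) := by
        rw [← Finset.sum_neg_distrib]
        refine Finset.sum_congr rfl fun j _ => ?_
        rw [smul_smul, neg_smul]
      rw [h4]
      have h5 : sh (tay y0 (X i)) = (∑ j, (lam i)⁻¹ • (k * (1 / (lam i - lam j))) • tay y0 (X j) +
        sh (tay y0 (X i)) + on) - ∑ j, (lam i)⁻¹ • (k * (1 / (lam i - lam j))) • tay y0 (X j) -
          on := by abel
      rw [h5, h3, neg_one_smul]
      abel
    · refine ⟨fun _ => 0, 0, ?_⟩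
      rw [sZ i h2i]
      simp
  have hode : ∀ i, ∃ (n : κ → ℝ) (s : ℝ),
      sh (tay y0 (X i)) = ∑ j, n j • tay y0 (X j) + s • on := by
    intro i
    by_cases hi : 2 ≤ m i ∨ lam i ≠ 0
    · exact hode1 i hi
    · push Not at hi
      have hj : ∀ j, j ≠ i → ∃ (n : κ → ℝ) (s : ℝ),
          sh (tay y0 (X j)) = ∑ l, n l • tay y0 (X l) + s • on := by
        intro j hji
        refine hode1 j (Or.inr fun h => hji (hinj ?_))
        rw [h, hi.2]
      have hj2 : ∀ j, ∃ (n : κ → ℝ) (s : ℝ), j ≠ i →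
          sh (tay y0 (X j)) = ∑ l, n l • tay y0 (X l) + s • on := by
        intro j
        by_cases h : j = i
        · exact ⟨0, 0, fun h2 => absurd h h2⟩
        · obtain ⟨n, s, h3⟩ := hj j h
          exact ⟨n, s, fun _ => h3⟩
      choose n s hns using hj2
      have h0 : sh (∑ j, tay y0 (X j)) = -on := by
        rw [sS, map_sub, hcom, sh_on, map_zero]
        abel
      rw [map_sum, ← Finset.add_sum_erase _ _ (Finset.mem_univ i)] at h0
      have h1 : ∑ j ∈ Finset.univ.erase i, sh (tay y0 (X j)) =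
          ∑ j ∈ Finset.univ.erase i, (∑ l, n j l • tay y0 (X l) + s j • on) :=
        Finset.sum_congr rfl fun j hj => hns j (Finset.ne_of_mem_erase hj)
      rw [h1] at h0
      refine ⟨fun l => -∑ j ∈ Finset.univ.erase i, n j l,
        -1 - ∑ j ∈ Finset.univ.erase i, s j, ?_⟩
      have h2 : ∑ l, (-∑ j ∈ Finset.univ.erase i, n j l) • tay y0 (X l) =
          -∑ j ∈ Finset.univ.erase i, ∑ l, n j l • tay y0 (X l) := by
        rw [Finset.sum_comm, ← Finset.sum_neg_distrib]
        refine Finset.sum_congr rfl fun l _ => ?_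
        rw [neg_smul, Finset.sum_smul]
      have h3 : (-1 - ∑ j ∈ Finset.univ.erase i, s j) • on =
          -on - ∑ j ∈ Finset.univ.erase i, s j • on := by
        rw [sub_smul, neg_one_smul, Finset.sum_smul]
      rw [h2, h3]
      rw [Finset.sum_add_distrib] at h0
      have h4 : sh (tay y0 (X i)) = (sh (tay y0 (X i)) +
        (∑ j ∈ Finset.univ.erase i, ∑ l, n j l • tay y0 (X l) +
          ∑ j ∈ Finset.univ.erase i, s j • on)) -
        ∑ j ∈ Finset.univ.erase i, ∑ l, n j l • tay y0 (X l) -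
          ∑ j ∈ Finset.univ.erase i, s j • on := by abel
      rw [h4, h0]
      abel
  choose n s hns using hode
  obtain ⟨Q, hQ, hQx⟩ := exists_annih sh (fun i => tay y0 (X i)) n (fun i => s i • on)
    (fun i => by
      show sh (sh (s i • on)) = 0
      rw [map_smul, sh_on, smul_zero, map_zero]) hns
  obtain ⟨a', p, hp, hprel⟩ := poly_part sh (my y0) hcom on sh_on (fun i => tay y0 (X i)) Q hQ hQx
  obtain ⟨N, hN⟩ := pol_of y0 a' p hp
  have hpoly : ∀ (α β ε : κ → ℝ) (γ δ : ℝ), (∀ y ∈ Set.Ioo a b,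
      ∑ j, (α j * X j y + β j * (y * X j y) + ε j * deriv (X j) y) + γ + δ * y = 0) →
      ∑ j, (C (α j) * N j + C (β j) * (Polynomial.X * N j) + C (ε j) * derivative (N j)) + C γ +
        C δ * Polynomial.X = 0 :=
    fun α β ε γ δ h => hN α β ε γ δ (hprel α β ε γ δ (hrel α β ε γ δ h))
  have pS : ∑ i, N i = (1 - Polynomial.X) * 1 := by
    have h := hpoly _ _ _ _ _ fS
    have h2 : ∑ j, (C ((fun _ => (1 : ℝ)) j) * N j + C ((fun _ => (0 : ℝ)) j) *
        (Polynomial.X * N j) + C ((fun _ => (0 : ℝ)) j) * derivative (N j)) = ∑ j, N j := by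
      refine Finset.sum_congr rfl fun j _ => ?_
      simp
    rw [h2] at h
    have h3 : C (-1 : ℝ) = -1 := by simp
    rw [h3, C_1] at h
    linear_combination h
  have pZ : ∀ i, 2 ≤ m i → N i = 0 := by
    intro i hi
    have h := hpoly _ _ _ _ _ (fZ i hi)
    have h2 : ∑ j, (C ((fun j => if j = i then (1 : ℝ) else 0) j) * N j +
        C ((fun _ => (0 : ℝ)) j) * (Polynomial.X * N j) +
        C ((fun _ => (0 : ℝ)) j) * derivative (N j)) = N i := by
      have h3 : ∀ j, (C ((fun j => if j = i then (1 : ℝ) else 0) j) * N j +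
        C ((fun _ => (0 : ℝ)) j) * (Polynomial.X * N j) +
        C ((fun _ => (0 : ℝ)) j) * derivative (N j)) = if j = i then N j else 0 := by
        intro j
        by_cases hj : j = i <;> simp [hj]
      rw [Finset.sum_congr rfl fun j _ => h3 j, Finset.sum_ite_eq', if_pos (Finset.mem_univ i)]
    rw [h2] at h
    simpa using h
  have pGs : ∀ i, ∑ j, C (k * (1 / (lam i - lam j))) * N j =
      C k * ∑ j, C (1 / (lam i - lam j)) * N j := by
    intro i
    rw [Finset.mul_sum]
    refine Finset.sum_congr rfl fun j _ => ?_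
    rw [C_mul]
    ring
  have pG : ∀ i, 2 ≤ m i → C (lam i) * 1 + C k * ∑ j, C (1 / (lam i - lam j)) * N j = 0 := by
    intro i hi
    have h := hpoly _ _ _ _ _ (fG i hi)
    have h2 : ∑ j, (C ((fun j => k * (1 / (lam i - lam j))) j) * N j +
        C ((fun _ => (0 : ℝ)) j) * (Polynomial.X * N j) +
        C ((fun _ => (0 : ℝ)) j) * derivative (N j)) = ∑ j, C (k * (1 / (lam i - lam j))) * N j := by
      refine Finset.sum_congr rfl fun j _ => ?_
      simp
    rw [h2, pGs i, C_0] at h
    linear_combination h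
  have pD : ∀ i, m i = 1 →
      1 * (C (lam i) * 1 + C k * ∑ j, C (1 / (lam i - lam j)) * N j) -
        C (lam i) * derivative (1 : ℝ[X]) * N i + C (lam i) * 1 * derivative (N i) = 0 := by
    intro i hi
    have h := hpoly _ _ _ _ _ (fD i hi)
    have h2 : ∑ j, (C ((fun j => k * (1 / (lam i - lam j))) j) * N j +
        C ((fun _ => (0 : ℝ)) j) * (Polynomial.X * N j) +
        C ((fun j => if j = i then lam i else 0) j) * derivative (N j)) =
        ∑ j, C (k * (1 / (lam i - lam j))) * N j + C (lam i) * derivative (N i) := by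
      have h3 : ∀ j, (C ((fun j => k * (1 / (lam i - lam j))) j) * N j +
        C ((fun _ => (0 : ℝ)) j) * (Polynomial.X * N j) +
        C ((fun j => if j = i then lam i else 0) j) * derivative (N j)) =
        C (k * (1 / (lam i - lam j))) * N j +
          if j = i then C (lam i) * derivative (N j) else 0 := by
        intro j
        by_cases hj : j = i
        · subst hj
          simp
        · simp [hj]
      rw [Finset.sum_congr rfl fun j _ => h3 j, Finset.sum_add_distrib, Finset.sum_ite_eq',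
        if_pos (Finset.mem_univ i)]
    rw [h2, pGs i, C_0] at h
    rw [derivative_one]
    linear_combination h
  have pC : ∀ i, ∑ j, C ((m j : ℝ) / (lam i - lam j)) * (C (lam i * lam j + k) * 1 +
        C k * Polynomial.X * 1 -
        C (k * (2 * lam i - lam j) / (lam i - lam j)) * N i +
        C (k * (2 * lam j - lam i) / (lam i - lam j)) * N j +
        C (2 * k ^ 2 / (lam i - lam j) ^ 2) * Polynomial.X * (N i + N j)) = 0 := by
    intro i
    have h := hpoly _ _ _ _ _ (fC i)
    rw [Finset.sum_congr rfl fun j _ => ffz_termC (lam i) (lam j) k (m j : ℝ) (N i) (N j)]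
    rw [Finset.sum_add_distrib, Finset.sum_add_distrib, Finset.sum_add_distrib,
      ← Finset.sum_mul, ← map_sum, ← map_sum]
    have h1 := ffz_sumC m (fun j => k * (2 * lam j - lam i) / (lam i - lam j) ^ 2)
      (fun l => -(k * (2 * lam i - lam l) / (lam i - lam l) ^ 2)) N i
    have h2 := ffz_sumC m (fun j => 2 * k ^ 2 / (lam i - lam j) ^ 3)
      (fun l => 2 * k ^ 2 / (lam i - lam l) ^ 3) (fun j => Polynomial.X * N j) i
    have h3 : ∑ j, (C ((fun j => (m j : ℝ) * (k * (2 * lam j - lam i) / (lam i - lam j) ^ 2) +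
          if j = i then ∑ l, (m l : ℝ) * (-(k * (2 * lam i - lam l) / (lam i - lam l) ^ 2)) else 0) j) *
            N j +
        C ((fun j => (m j : ℝ) * (2 * k ^ 2 / (lam i - lam j) ^ 3) +
          if j = i then ∑ l, (m l : ℝ) * (2 * k ^ 2 / (lam i - lam l) ^ 3) else 0) j) *
            (Polynomial.X * N j) +
        C ((fun _ => (0 : ℝ)) j) * derivative (N j)) =
        ∑ j, C (m j : ℝ) * (C (k * (2 * lam j - lam i) / (lam i - lam j) ^ 2) * N j +
          C (-(k * (2 * lam i - lam j) / (lam i - lam j) ^ 2)) * N i) +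
        ∑ j, C (m j : ℝ) * (C (2 * k ^ 2 / (lam i - lam j) ^ 3) * (Polynomial.X * N j) +
          C (2 * k ^ 2 / (lam i - lam j) ^ 3) * (Polynomial.X * N i)) := by
      rw [← h1, ← h2, ← Finset.sum_add_distrib]
      refine Finset.sum_congr rfl fun j _ => ?_
      simp only [C_0, zero_mul, add_zero]
    rw [h3] at h
    linear_combination h
  obtain ⟨c, ⟨i0, hi0⟩, hcZ, hcK, hcG⟩ := top (m := m) hk N 1 one_ne_zero pS pZ pC pG pD hm
  by_cases hmul : ∃ i, 2 ≤ m i
  · obtain ⟨i, hi⟩ := hmul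
    exact hi0 (zero_of_mult hinj i (hcZ i hi) hcG i0)
  · push Not at hmul
    have hm1 : ∀ i, m i = 1 := fun i => by
      have h1 := hm i
      have h2 := hmul i
      omega
    have hcard : 2 ≤ Fintype.card κ := by
      have h1 : ∑ i, m i = Fintype.card κ := by
        rw [Finset.sum_congr rfl fun i _ => hm1 i]
        simp
      omega
    have : Nontrivial κ := Fintype.one_lt_card_iff_nontrivial.1 hcard
    exact hi0 (no_alt2 hinj hm1 hcG hcK i0)

end Pool.Agent.QnS
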