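import Pool.Agent.QnR.GeoC

/-!
# A smooth Christoffel operator (helper50)

`QnR/GeoC.lean` shows that for every `u ∈ U` there is `G` with `IsGam F X ξ S u G` (`gauss`), and `IsGam` gives
`g(G(v, w), z) = ip(D²X(v, w), A z)` (`gc_d2_ip`), so `G` is unique.  Smooth version: put
`b u : E →L E →L (E →L ℝ)`, `b u v w z = ip(D²X_u(v, w), dX_u z)`, smooth in `u` (sum over `i` of
`B_i(D²X_u(v, w)_i, dX_u z_i)`, compositions of smooth families of (bi)linear maps; `D²X = fderiv (fderiv X)` is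
smooth on `U`), and `Γ u v w = (g u)⁻¹ (b u v w)`, i.e. `Γ u = (compL (inverse (g u))).comp (b u)` with
`ContinuousLinearMap.compL`; `inverse (g u)` is smooth (`geoA_inv` in `QnR/GeoA.lean` is private: copy it).
Then `g(Γ u v w, z) = b u v w z = g(G v w, z)`, so `Γ u v w = G v w` on `U`, and `IsGam` follows from `gauss`.
-/

namespace Pool.Agent.QnS

open scoped BigOperators ContDiff
open Pool.Agent.CPC Pool.Agent.QnR

section form

variable {ι : Type*} [Fintype ι] {W : ι → Type*} [∀ i, NormedAddCommGroup (W i)]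
  [∀ i, NormedSpace ℝ (W i)] {E : Type*} [NormedAddCommGroup E] [NormedSpace ℝ E]

/-- `ip(D² X(v, w), dX z)` as a bilinear form in `w`, `z`. -/
private noncomputable def bv (F : ∀ i, SF (W i)) (X : E → ∀ i, W i) (v u : E) :
    E →L[ℝ] E →L[ℝ] ℝ :=
  ∑ i, (F i).B.bilinearComp (cmp (fderiv ℝ (fderiv ℝ X) u v) i) (cmp (fderiv ℝ X u) i)

private theorem bv_apply (F : ∀ i, SF (W i)) (X : E → ∀ i, W i) (v u w z : E) :
    bv F X v u w z = ip F (fderiv ℝ (fderiv ℝ X) u v w) (fderiv ℝ X u z) := by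
  unfold bv ip
  rw [sum_apply, sum_apply]
  exact Finset.sum_congr rfl fun i _ => rfl

private theorem bv_sm {F : ∀ i, SF (W i)} {U : Set E} {X : E → ∀ i, W i} (hU : IsOpen U)
    (hX : ContDiffOn ℝ ∞ X U) (v : E) : ContDiffOn ℝ ∞ (bv F X v) U := by
  unfold bv
  refine ContDiffOn.sum fun i _ => bil_sm (F i).B ?_ (cmp_sm hU hX i)
  exact contDiffOn_const.clm_comp
    ((fderiv_sm hU (fderiv_sm hU hX)).clm_apply contDiffOn_const)

end form

theorem exists_gam_smooth {ι : Type*} [Fintype ι] {W : ι → Type*} [∀ i, NormedAddCommGroup (W i)]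
    [∀ i, NormedSpace ℝ (W i)] {E : Type*} [NormedAddCommGroup E] [NormedSpace ℝ E]
    [FiniteDimensional ℝ E] {F : ∀ i, SF (W i)} {U : Set E} {X ξ : E → ∀ i, W i}
    (h : IsHyp F U X ξ) {S : E → E →L[ℝ] E}
    (hS : ∀ u ∈ U, ∀ v w, gm F X u (S u v) w = -bm F X ξ u v w) :
    ∃ Γ : E → E →L[ℝ] E →L[ℝ] E, ContDiffOn ℝ ∞ Γ U ∧ ∀ u ∈ U, IsGam F X ξ S u (Γ u) := by
  classical
  have hex : ∀ u, ∃ G : E →L[ℝ] E →L[ℝ] E, u ∈ U → IsGam F X ξ S u G := by
    intro u
    by_cases hu : u ∈ U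
    · obtain ⟨G, hG⟩ := gauss h hS hu
      exact ⟨G, fun _ => hG⟩
    · exact ⟨0, fun hu' => absurd hu' hu⟩
  choose Γ hΓ using hex
  refine ⟨Γ, ?_, hΓ⟩
  rw [contDiffOn_clm_apply]
  intro v
  obtain ⟨T, hT, hT2⟩ := solve_op h.op (gm_sm h) (fun u hu v hv => gm_pos h hu hv)
    (bv F X v) (bv_sm h.op h.smX v)
  refine hT.congr fun u hu => ?_
  ext w
  by_contra hne
  have hne' : Γ u v w - T u w ≠ 0 := sub_ne_zero.2 hne
  have h1 := gm_pos h hu hne'
  have h2 : ∀ z, gm F X u (Γ u v w - T u w) z = 0 := by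
    intro z
    have e1 := hT2 u hu w z
    have e2 := gc_d2_ip h hu (hΓ u hu) v w z
    rw [bv_apply] at e1
    rw [map_sub]
    show gm F X u (Γ u v w) z - gm F X u (T u w) z = 0
    rw [e1, ← e2, sub_self]
  rw [h2] at h1
  exact lt_irrefl _ h1

end Pool.Agent.QnS
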