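import Pool.Agent.QnR.GeoC

/-!
# The Gauss equation (helper50)

`A = dX_u`, `N = dξ_u`, `D²X(w, z) = fderiv (fderiv X) u w z`.  Near `u` (`IsGam`):
`D²X(w, z)_i = (A Γ(w, z))_i + g(S w, z) ξ_i - k_i B_i(A w, A z) X_i` (`w, z` fixed vectors).  Differentiate in
the direction `v` and take the product with `A t`, summed over `i`:
`ip(D³X(v, w, z), A t) = ip(D²X(v, Γ(w, z)), A t) + g((∂_v Γ)(w, z), t) + g(S w, z) ip(N v, A t)
   - ∑ k_i B_i(A w, A z) B_i(A v, A t)`
(`ip(ξ, A t) = 0`: `h.orth`, `k B(X, A t) = 0`: `A_tan`), with `ip(D²X(v, Γ(w, z)), A t) = g(Γ(v, Γ(w, z)), t)`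
(`gc_d2_ip`) and `ip(N v, A t) = bm u v t = -g(S v, t)` (`hS`).  The left side is symmetric in `v, w`
(`D³X(v, w, z)` is the second derivative of `u' ↦ dX_{u'} z` in the directions `v, w`: `gc_snd_symm` for the map
`u' ↦ fderiv X u' z`, which is smooth on `U`).  Subtract the same with `v, w` exchanged.
-/

set_option linter.all false

namespace Pool.Agent.QnS

open scoped BigOperators ContDiff
open Pool.Agent.CPC Pool.Agent.QnR

private theorem ge_diff {V : Type*} [NormedAddCommGroup V] [NormedSpace ℝ V] {E : Type*}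
    [NormedAddCommGroup E] [NormedSpace ℝ E] {f : E → V} {u : E} (hf : ContDiffAt ℝ ∞ f u) :
    ContDiffAt ℝ ∞ (fderiv ℝ f) u :=
  hf.fderiv_right (m := ∞) (by
    show ((∞ : WithTop ℕ∞) + 1) ≤ ∞
    exact le_of_eq rfl)

private theorem ge_symm {V : Type*} [NormedAddCommGroup V] [NormedSpace ℝ V] {E : Type*}
    [NormedAddCommGroup E] [NormedSpace ℝ E] {f : E → V} {u : E} (hf : ContDiffAt ℝ ∞ f u)
    (v w : E) : fderiv ℝ (fderiv ℝ f) u v w = fderiv ℝ (fderiv ℝ f) u w v := by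
  have h1 : IsSymmSndFDerivAt ℝ f u := hf.isSymmSndFDerivAt (by
    rw [minSmoothness_of_isRCLikeNormedField]
    show ((2 : ℕ∞) : WithTop ℕ∞) ≤ _
    exact WithTop.coe_le_coe.2 le_top)
  exact h1.eq v w

private theorem ge_d3 {ι : Type*} [Fintype ι] {W : ι → Type*} [∀ i, NormedAddCommGroup (W i)]
    [∀ i, NormedSpace ℝ (W i)] {E : Type*} [NormedAddCommGroup E] [NormedSpace ℝ E]
    [FiniteDimensional ℝ E] {F : ∀ i, SF (W i)} {U : Set E} {X ξ : E → ∀ i, W i}
    (h : IsHyp F U X ξ) {S : E → E →L[ℝ] E} (smS : ContDiffOn ℝ ∞ S U)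
    {Γ : E → E →L[ℝ] E →L[ℝ] E} (smΓ : ContDiffOn ℝ ∞ Γ U)
    (hΓ : ∀ u ∈ U, IsGam F X ξ S u (Γ u)) {u : E} (hu : u ∈ U) (v w z : E) :
    ∃ (c' : ℝ) (b' : ι → ℝ), ∀ i,
      fderiv ℝ (fderiv ℝ (fderiv ℝ X)) u v w z i =
        (fderiv ℝ X u (fderiv ℝ Γ u v w z) i + fderiv ℝ (fderiv ℝ X) u v (Γ u w z) i) +
        (gm F X u (S u w) z • fderiv ℝ ξ u v i + c' • ξ u i) -
        (((F i).k * (F i).B (fderiv ℝ X u w i) (fderiv ℝ X u z i)) • fderiv ℝ X u v i +
          ((F i).k * b' i) • X u i) := by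
  have hU : U ∈ nhds u := h.op.mem_nhds hu
  have hX := h.smX.contDiffAt hU
  have hN := h.smN.contDiffAt hU
  have hXd : DifferentiableAt ℝ X u := hX.differentiableAt (by simp)
  have hNd : DifferentiableAt ℝ ξ u := hN.differentiableAt (by simp)
  have hSd : DifferentiableAt ℝ S u := (smS.contDiffAt hU).differentiableAt (by simp)
  have hΓd : DifferentiableAt ℝ Γ u := (smΓ.contDiffAt hU).differentiableAt (by simp)
  have hgd : DifferentiableAt ℝ (gm F X) u :=
    ((gm_sm h).contDiffAt hU).differentiableAt (by simp)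
  have hX2 : DifferentiableAt ℝ (fderiv ℝ (fderiv ℝ X)) u :=
    (ge_diff (ge_diff hX)).differentiableAt (by simp)
  -- the scalar function c
  have hc : DifferentiableAt ℝ (fun u' => gm F X u' (S u' w) z) u :=
    ((hgd.clm_apply (hSd.clm_apply (differentiableAt_const w))).clm_apply
      (differentiableAt_const z))
  refine ⟨fderiv ℝ (fun u' => gm F X u' (S u' w) z) u v,
    fun i => fderiv ℝ (fun u' => (F i).B (fderiv ℝ X u' w i) (fderiv ℝ X u' z i)) u v,
    fun i => ?_⟩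
  have hb : HasFDerivAt (fun u' => (F i).B (fderiv ℝ X u' w i) (fderiv ℝ X u' z i))
      (fderiv ℝ (fun u' => (F i).B (fderiv ℝ X u' w i) (fderiv ℝ X u' z i)) u) u :=
    ((F i).B.hasFDerivAt_of_bilinear (gc_hasFD hX w i)
      (gc_hasFD hX z i)).differentiableAt.hasFDerivAt
  -- left hand side
  have a2 := (hX2.hasFDerivAt.clm_apply (hasFDerivAt_const w u)).clm_apply (hasFDerivAt_const z u)
  have a3 : HasFDerivAt (fun u' => fderiv ℝ (fderiv ℝ X) u' w z i) _ u :=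
    (ContinuousLinearMap.proj (R := ℝ) (φ := W) i).hasFDerivAt.comp u a2
  -- right hand side
  have b1 := (hΓd.hasFDerivAt.clm_apply (hasFDerivAt_const w u)).clm_apply (hasFDerivAt_const z u)
  have b2 := (gc_diff hX).hasFDerivAt.clm_apply b1
  have b3 := (ContinuousLinearMap.proj (R := ℝ) (φ := W) i).hasFDerivAt.comp u b2
  have b4 := hc.hasFDerivAt.smul (hyp_comp hNd i)
  have b5 := (hb.const_mul (F i).k).smul (hyp_comp hXd i)
  have b6 := (b3.add b4).sub b5
  have c2 : (fun u' => fderiv ℝ (fderiv ℝ X) u' w z i) =ᶠ[nhds u]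
      (((⇑(ContinuousLinearMap.proj (R := ℝ) (φ := W) i) ∘ fun y => (fderiv ℝ X y) (((Γ y) w) z)) +
        (fun u' => ((gm F X u') ((S u') w)) z) • fun u' => ξ u' i) -
      (fun y => (F i).k * ((F i).B ((fderiv ℝ X y) w i)) ((fderiv ℝ X y) z i)) •
        fun u' => X u' i) := by
    filter_upwards [hU] with u' hu'
    exact (hΓ u' hu').2 w z i
  have c3 := b6.congr_of_eventuallyEq c2
  have c4 := a3.unique c3
  have c5 := congrArg (fun T : E →L[ℝ] W i => T v) c4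
  simp only [ContinuousLinearMap.add_apply, ContinuousLinearMap.sub_apply,
    ContinuousLinearMap.neg_apply, ContinuousLinearMap.smul_apply,
    ContinuousLinearMap.smulRight_apply, ContinuousLinearMap.flip_apply,
    ContinuousLinearMap.zero_apply, map_zero, zero_add, Pi.zero_apply,
    ContinuousLinearMap.comp_apply, Pi.add_apply,
    ContinuousLinearMap.proj_apply, ContinuousLinearMap.apply_apply, smul_eq_mul] at c5
  exact c5

private theorem ge_ip {ι : Type*} [Fintype ι] {W : ι → Type*} [∀ i, NormedAddCommGroup (W i)]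
    [∀ i, NormedSpace ℝ (W i)] {E : Type*} [NormedAddCommGroup E] [NormedSpace ℝ E]
    [FiniteDimensional ℝ E] {F : ∀ i, SF (W i)} {U : Set E} {X ξ : E → ∀ i, W i}
    (h : IsHyp F U X ξ) {S : E → E →L[ℝ] E} (smS : ContDiffOn ℝ ∞ S U)
    (hS : ∀ u ∈ U, ∀ v w, gm F X u (S u v) w = -bm F X ξ u v w)
    {Γ : E → E →L[ℝ] E →L[ℝ] E} (smΓ : ContDiffOn ℝ ∞ Γ U)
    (hΓ : ∀ u ∈ U, IsGam F X ξ S u (Γ u)) {u : E} (hu : u ∈ U) (v w z t : E) :
    ip F (fderiv ℝ (fderiv ℝ (fderiv ℝ X)) u v w z) (fderiv ℝ X u t) =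
      gm F X u (fderiv ℝ Γ u v w z) t + gm F X u (Γ u v (Γ u w z)) t -
        gm F X u (S u w) z * gm F X u (S u v) t -
        ∑ i, (F i).k * ((F i).B (fderiv ℝ X u w i) (fderiv ℝ X u z i) *
          (F i).B (fderiv ℝ X u v i) (fderiv ℝ X u t i)) := by
  obtain ⟨c', b', hd⟩ := ge_d3 h smS smΓ hΓ hu v w z
  have h4 : ∀ i, (F i).B (fderiv ℝ (fderiv ℝ (fderiv ℝ X)) u v w z i) (fderiv ℝ X u t i) =
      (F i).B (fderiv ℝ X u (fderiv ℝ Γ u v w z) i) (fderiv ℝ X u t i) +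
        (F i).B (fderiv ℝ (fderiv ℝ X) u v (Γ u w z) i) (fderiv ℝ X u t i) +
        gm F X u (S u w) z * (F i).B (fderiv ℝ ξ u v i) (fderiv ℝ X u t i) +
        c' * (F i).B (ξ u i) (fderiv ℝ X u t i) -
        (F i).k * ((F i).B (fderiv ℝ X u w i) (fderiv ℝ X u z i) *
          (F i).B (fderiv ℝ X u v i) (fderiv ℝ X u t i)) := by
    intro i
    have h5 := A_tan h hu t i
    rw [hd i]
    simp only [map_add, map_sub, map_neg, map_smul, smul_eq_mul, ContinuousLinearMap.add_apply,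
      ContinuousLinearMap.sub_apply, ContinuousLinearMap.neg_apply,
      ContinuousLinearMap.smul_apply]
    linear_combination -(b' i) * h5
  have h6 := h.orth u hu t
  have h7 := hS u hu v t
  rw [bm_apply] at h7
  rw [← gc_d2_ip h hu (hΓ u hu) v (Γ u w z) t, gm_apply u (fderiv ℝ Γ u v w z) t, h7]
  unfold ip at h6 ⊢
  simp only [h4, Finset.sum_sub_distrib, Finset.sum_neg_distrib, Finset.sum_add_distrib,
    ← Finset.mul_sum]
  rw [h6]
  ring

theorem gauss_eq {ι : Type*} [Fintype ι] {W : ι → Type*} [∀ i, NormedAddCommGroup (W i)]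
    [∀ i, NormedSpace ℝ (W i)] {E : Type*} [NormedAddCommGroup E] [NormedSpace ℝ E]
    [FiniteDimensional ℝ E] {F : ∀ i, SF (W i)} {U : Set E} {X ξ : E → ∀ i, W i}
    (h : IsHyp F U X ξ) {S : E → E →L[ℝ] E} (smS : ContDiffOn ℝ ∞ S U)
    (hS : ∀ u ∈ U, ∀ v w, gm F X u (S u v) w = -bm F X ξ u v w)
    {Γ : E → E →L[ℝ] E →L[ℝ] E} (smΓ : ContDiffOn ℝ ∞ Γ U)
    (hΓ : ∀ u ∈ U, IsGam F X ξ S u (Γ u)) {u : E} (hu : u ∈ U) (v w z t : E) :
    gm F X u (fderiv ℝ Γ u v w z - fderiv ℝ Γ u w v z + Γ u v (Γ u w z) - Γ u w (Γ u v z)) t =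
      gm F X u (S u w) z * gm F X u (S u v) t - gm F X u (S u v) z * gm F X u (S u w) t +
      ∑ i, (F i).k * ((F i).B (fderiv ℝ X u w i) (fderiv ℝ X u z i) *
          (F i).B (fderiv ℝ X u v i) (fderiv ℝ X u t i) -
        (F i).B (fderiv ℝ X u v i) (fderiv ℝ X u z i) *
          (F i).B (fderiv ℝ X u w i) (fderiv ℝ X u t i)) := by
  have hU : U ∈ nhds u := h.op.mem_nhds hu
  have h1 := ge_ip h smS hS smΓ hΓ hu v w z t
  have h2 := ge_ip h smS hS smΓ hΓ hu w v z t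
  rw [ge_symm (ge_diff (h.smX.contDiffAt hU)) w v] at h2
  have h3 : ∑ i, (F i).k * ((F i).B (fderiv ℝ X u w i) (fderiv ℝ X u z i) *
          (F i).B (fderiv ℝ X u v i) (fderiv ℝ X u t i) -
        (F i).B (fderiv ℝ X u v i) (fderiv ℝ X u z i) *
          (F i).B (fderiv ℝ X u w i) (fderiv ℝ X u t i)) =
      ∑ i, (F i).k * ((F i).B (fderiv ℝ X u w i) (fderiv ℝ X u z i) *
          (F i).B (fderiv ℝ X u v i) (fderiv ℝ X u t i)) -
      ∑ i, (F i).k * ((F i).B (fderiv ℝ X u v i) (fderiv ℝ X u z i) *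
          (F i).B (fderiv ℝ X u w i) (fderiv ℝ X u t i)) := by
    rw [← Finset.sum_sub_distrib]
    exact Finset.sum_congr rfl fun i _ => by ring
  rw [h3]
  simp only [map_sub, map_add, ContinuousLinearMap.add_apply, ContinuousLinearMap.sub_apply]
  linarith

end Pool.Agent.QnS
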