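import Pool.Agent.QnS.GeoOf2

/-!
# The intrinsic data of a hypersurface of `Q × ℝ`, with the relation to `X` (helper50)

Copy the proof of `exists_geo2` with two more outputs: `g = gm F X` is the induced metric (`gm_apply`), and
`ν T` is the tangential part of `(0, ξ_{i1})`: `hT1`, `hTT` in that proof give
`dX T = (0, e) - ν ξ`, and `ν e = ξ_{i1}` (`hxi`), so `ν dX T = (0, ξ_{i1}) - ν² ξ`.
-/

namespace Pool.Agent.QnS

open scoped BigOperators ContDiff
open Pool.Agent.CPC Pool.Agent.QnR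

open Classical in
theorem exists_geo3 {ι : Type*} [Fintype ι] {W : ι → Type*} [∀ i, NormedAddCommGroup (W i)]
    [∀ i, NormedSpace ℝ (W i)] [∀ i, FiniteDimensional ℝ (W i)] {E : Type*}
    [NormedAddCommGroup E] [NormedSpace ℝ E] [FiniteDimensional ℝ E]
    {F : ∀ i, SF (W i)} {U : Set E} {X ξ : E → ∀ i, W i} (h : IsHyp F U X ξ)
    {i0 i1 : ι} (hne : i0 ≠ i1) (hι : ∀ i, i = i0 ∨ i = i1) (hk1 : (F i1).k = 0)
    (hd : Module.finrank ℝ (W i1) = 1) :
    ∃ (g : E → E →L[ℝ] E →L[ℝ] ℝ) (S : E → E →L[ℝ] E) (T : E → E) (ν : E → ℝ)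
      (Γ : E → E →L[ℝ] E →L[ℝ] E), Geo2 U (F i0).k g S T ν Γ ∧
      (∀ u ∈ U, CPC.IsShape F X ξ u ((S u : E →L[ℝ] E) : E →ₗ[ℝ] E)) ∧
      (∀ u ∈ U, (F i1).B (ξ u i1) (ξ u i1) = ν u ^ 2) ∧
      (∀ u ∈ U, ∀ v w, g u v w = ip F (fderiv ℝ X u v) (fderiv ℝ X u w)) ∧
      (∀ u ∈ U, ∀ i, ν u • fderiv ℝ X u (T u) i =
        (if i = i1 then ξ u i else 0) - (ν u ^ 2) • ξ u i) := by
  obtain ⟨S, smS, hS, hsh, hsa⟩ := shape_sm h
  obtain ⟨Γ, smΓ, hΓ⟩ := exists_gam_smooth h hS
  obtain ⟨e, he, hz⟩ := geo_unit (F i1) hk1 hd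
  have smg := gm_sm h
  have pos : ∀ u ∈ U, ∀ v, v ≠ 0 → 0 < gm F X u v v := fun u hu v hv => gm_pos h hu hv
  have smfd : ContDiffOn ℝ ∞ (fderiv ℝ X) U := h.smX.fderiv_of_isOpen h.op (by simp)
  set L1 : (∀ i, W i) →L[ℝ] ℝ :=
    ((F i1).B e).comp (ContinuousLinearMap.proj (R := ℝ) (φ := W) i1) with hL1
  have hL1a : ∀ x : ∀ i, W i, L1 x = (F i1).B e (x i1) := fun x => rfl
  obtain ⟨T, smT, hT⟩ := solve_fun h.op smg pos (fun u => L1.comp (fderiv ℝ X u))
    (contDiffOn_const.clm_comp smfd)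
  have hT' : ∀ u ∈ U, ∀ w, gm F X u (T u) w = (F i1).B e (fderiv ℝ X u w i1) := fun u hu w =>
    hT u hu w
  have smν : ContDiffOn ℝ ∞ (fun u => L1 (ξ u)) U := L1.contDiff.comp_contDiffOn h.smN
  have hν : ∀ u, L1 (ξ u) = (F i1).B e (ξ u i1) := fun u => rfl
  have hsum : ∀ a b : ∀ i, W i, ip F a b = (F i0).B (a i0) (b i0) + (F i1).B (a i1) (b i1) := by
    intro a b
    unfold ip
    refine Fintype.sum_eq_add i0 i1 hne (fun i hi => ?_)
    rcases hι i with h1 | h1
    · exact absurd h1 hi.1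
    · exact absurd h1 hi.2
  have hxi : ∀ u, ξ u i1 = L1 (ξ u) • e := fun u => hz _
  have hnhds : ∀ u ∈ U, U ∈ nhds u := fun u hu => h.op.mem_nhds hu
  have hTX : ∀ u ∈ U, fderiv ℝ X u (T u) = Pi.single i1 e - L1 (ξ u) • ξ u := by
    intro u hu
    have htan : IsTan F (X u) (Pi.single i1 e - L1 (ξ u) • ξ u) := by
      intro i
      have h1 := h.tan u hu i
      have h2 : (F i).k * (F i).B (X u i) ((Pi.single i1 e : ∀ i, W i) i) = 0 := by
        by_cases hi : i = i1
        · subst hi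
          rw [hk1, zero_mul]
        · rw [Pi.single_eq_of_ne hi, map_zero, mul_zero]
      rw [Pi.sub_apply, Pi.smul_apply, map_sub, map_smul, smul_eq_mul, mul_sub, h2]
      linear_combination (-(L1 (ξ u))) * h1
    have hs1 : (Pi.single i1 e : ∀ i, W i) i1 = e := Pi.single_eq_same _ _
    have hs0 : (Pi.single i1 e : ∀ i, W i) i0 = 0 := Pi.single_eq_of_ne hne _
    have horth : ip F (ξ u) (Pi.single i1 e - L1 (ξ u) • ξ u) = 0 := by
      have hu1 := h.unit u hu
      rw [hsum] at hu1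
      rw [hsum, Pi.sub_apply, Pi.sub_apply, Pi.smul_apply, Pi.smul_apply, hs1, hs0, map_sub,
        map_sub, map_smul, map_smul, map_zero, (F i1).symm (ξ u i1) e, ← hν, smul_eq_mul,
        smul_eq_mul]
      linear_combination (-(L1 (ξ u))) * hu1
    obtain ⟨T', hT1⟩ := h.codim u hu _ htan horth
    have hTT : T' = T u := by
      apply geo_nondeg (pos u hu)
      intro w
      rw [hT' u hu, gm_apply, hT1]
      have ho := h.orth u hu w
      rw [hsum] at ho
      rw [hsum, Pi.sub_apply, Pi.sub_apply, Pi.smul_apply, Pi.smul_apply, hs1, hs0, map_sub,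
        map_sub, map_smul, map_smul, map_zero, ContinuousLinearMap.sub_apply,
        ContinuousLinearMap.sub_apply, ContinuousLinearMap.smul_apply,
        ContinuousLinearMap.smul_apply, ContinuousLinearMap.zero_apply, smul_eq_mul, smul_eq_mul]
      linear_combination (-(L1 (ξ u))) * ho
    rw [← hTT, hT1]
  refine ⟨gm F X, S, T, fun u => L1 (ξ u), Γ,
    { op := h.op
      smg := smg
      smS := smS
      smT := smT
      smν := smν
      symm := fun u _ v w => gm_symm u v w
      pos := pos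
      gam := fun u hu v w => (hΓ u hu).1 v w
      dg := fun u hu v w z => dgm h hu (hΓ u hu) v w z
      sa := fun u hu v w => hsa u hu v w
      dT := ?_
      dν := ?_
      TT := ?_
      cod := ?_
      smΓ := smΓ
      gauss := ?_ }, hsh, ?_, fun u _ v w => gm_apply u v w, ?_⟩
  · intro u hu v
    apply geo_nondeg (pos u hu)
    intro w
    have dg : HasFDerivAt (gm F X) (fderiv ℝ (gm F X) u) u :=
      ((smg.differentiableOn (by simp)).differentiableAt (hnhds u hu)).hasFDerivAt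
    have dT : HasFDerivAt T (fderiv ℝ T u) u :=
      ((smT.differentiableOn (by simp)).differentiableAt (hnhds u hu)).hasFDerivAt
    have dX : HasFDerivAt (fderiv ℝ X) (fderiv ℝ (fderiv ℝ X) u) u :=
      ((smfd.differentiableOn (by simp)).differentiableAt (hnhds u hu)).hasFDerivAt
    have h1 := (dg.clm_apply dT).clm_apply (hasFDerivAt_const w u)
    have h2 := L1.hasFDerivAt.comp u (dX.clm_apply (hasFDerivAt_const w u))
    have heq : (fun x => gm F X x (T x) w) =ᶠ[nhds u] fun x => L1 (fderiv ℝ X x w) := by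
      filter_upwards [hnhds u hu] with x hx
      exact hT x hx w
    have h3 := (h2.congr_of_eventuallyEq heq).unique h1
    have h4 := congrArg (fun M => M v) h3
    simp only [ContinuousLinearMap.comp_apply, ContinuousLinearMap.add_apply,
      ContinuousLinearMap.flip_apply, ContinuousLinearMap.zero_apply, map_zero, zero_add] at h4
    have h5 : L1 (fderiv ℝ (fderiv ℝ X) u v w) =
        gm F X u (T u) (Γ u v w) + gm F X u (S u v) w * L1 (ξ u) := by
      rw [hL1a, (hΓ u hu).2 v w i1, hk1, zero_mul, zero_smul, sub_zero, map_add, map_smul,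
        ← hT' u hu, smul_eq_mul, hν]
    have h6 := dgm h hu (hΓ u hu) v (T u) w
    have h7 : gm F X u (fderiv ℝ T u v + Γ u v (T u)) w =
        gm F X u (fderiv ℝ T u v) w + gm F X u (Γ u v (T u)) w := by
      rw [map_add, ContinuousLinearMap.add_apply]
    have h8 : gm F X u (L1 (ξ u) • S u v) w = L1 (ξ u) * gm F X u (S u v) w := by
      rw [map_smul, ContinuousLinearMap.smul_apply, smul_eq_mul]
    rw [h7, h8]
    linarith
  · intro u hu v
    have dξ : HasFDerivAt ξ (fderiv ℝ ξ u) u :=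
      ((h.smN.differentiableOn (by simp)).differentiableAt (hnhds u hu)).hasFDerivAt
    have h1 := (L1.hasFDerivAt.comp u dξ).fderiv
    have h2 : fderiv ℝ (fun u => L1 (ξ u)) u v = L1 (fderiv ℝ ξ u v) := by
      have : (fun u => L1 (ξ u)) = L1 ∘ ξ := rfl
      rw [this, h1]
      rfl
    rw [h2, hT' u hu, hL1a]
    have h3 := hsh u hu v i1
    rw [hk1, zero_mul, zero_smul, add_zero] at h3
    have h4 : fderiv ℝ X u (S u v) i1 = -fderiv ℝ ξ u v i1 := h3
    rw [h4, map_neg, neg_neg]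
  · intro u hu
    have hs1 : (Pi.single i1 e : ∀ i, W i) i1 = e := Pi.single_eq_same _ _
    rw [hT' u hu, hTX u hu, Pi.sub_apply, Pi.smul_apply, hs1, map_sub, map_smul, he, ← hν,
      smul_eq_mul]
    ring
  · intro u hu v w
    apply geo_nondeg (pos u hu)
    intro z
    rw [codazzi h smS hsh hΓ hu v w z]
    have e1 : ∀ a b, (F i0).B (fderiv ℝ X u a i0) (fderiv ℝ X u b i0) =
        gm F X u a b - gm F X u (T u) a * gm F X u (T u) b := by
      intro a b
      rw [gm_apply, hsum, hT' u hu, hT' u hu]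
      have h1 := hz (fderiv ℝ X u a i1)
      have h2 : (F i1).B (fderiv ℝ X u a i1) (fderiv ℝ X u b i1) =
          (F i1).B e (fderiv ℝ X u a i1) * (F i1).B e (fderiv ℝ X u b i1) := by
        nth_rewrite 1 [h1]
        rw [map_smul, ContinuousLinearMap.smul_apply, smul_eq_mul]
      rw [h2]
      ring
    have e2 : ∀ a, (F i0).B (ξ u i0) (fderiv ℝ X u a i0) = -(L1 (ξ u) * gm F X u (T u) a) := by
      intro a
      have ho := h.orth u hu a
      rw [hsum] at ho
      have h2 : (F i1).B (ξ u i1) (fderiv ℝ X u a i1) = L1 (ξ u) * gm F X u (T u) a := by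
        nth_rewrite 1 [hxi u]
        rw [map_smul, ContinuousLinearMap.smul_apply, smul_eq_mul, hT' u hu]
      linarith
    have e3 : ∑ i, (F i).k * ((F i).B (ξ u i) (fderiv ℝ X u w i) *
          (F i).B (fderiv ℝ X u v i) (fderiv ℝ X u z i) -
        (F i).B (ξ u i) (fderiv ℝ X u v i) *
          (F i).B (fderiv ℝ X u w i) (fderiv ℝ X u z i)) =
        (F i0).k * ((F i0).B (ξ u i0) (fderiv ℝ X u w i0) *
          (F i0).B (fderiv ℝ X u v i0) (fderiv ℝ X u z i0) -
        (F i0).B (ξ u i0) (fderiv ℝ X u v i0) *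
          (F i0).B (fderiv ℝ X u w i0) (fderiv ℝ X u z i0)) := by
      refine Fintype.sum_eq_single i0 (fun i hi => ?_)
      rcases hι i with h1 | h1
      · exact absurd h1 hi
      · subst h1
        rw [hk1, zero_mul]
    rw [e3, e1, e1, e2, e2]
    simp only [map_smul, map_sub, ContinuousLinearMap.smul_apply, ContinuousLinearMap.sub_apply,
      smul_eq_mul]
    ring
  · intro u hu v w z t
    rw [gauss_eq h smS hS smΓ hΓ hu v w z t]
    have e1 : ∀ a b, (F i0).B (fderiv ℝ X u a i0) (fderiv ℝ X u b i0) =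
        gm F X u a b - gm F X u (T u) a * gm F X u (T u) b := by
      intro a b
      rw [gm_apply, hsum, hT' u hu, hT' u hu]
      have h1 := hz (fderiv ℝ X u a i1)
      have h2 : (F i1).B (fderiv ℝ X u a i1) (fderiv ℝ X u b i1) =
          (F i1).B e (fderiv ℝ X u a i1) * (F i1).B e (fderiv ℝ X u b i1) := by
        nth_rewrite 1 [h1]
        rw [map_smul, ContinuousLinearMap.smul_apply, smul_eq_mul]
      rw [h2]
      ring
    have e3 : ∑ i, (F i).k * ((F i).B (fderiv ℝ X u w i) (fderiv ℝ X u z i) *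
          (F i).B (fderiv ℝ X u v i) (fderiv ℝ X u t i) -
        (F i).B (fderiv ℝ X u v i) (fderiv ℝ X u z i) *
          (F i).B (fderiv ℝ X u w i) (fderiv ℝ X u t i)) =
        (F i0).k * ((F i0).B (fderiv ℝ X u w i0) (fderiv ℝ X u z i0) *
          (F i0).B (fderiv ℝ X u v i0) (fderiv ℝ X u t i0) -
        (F i0).B (fderiv ℝ X u v i0) (fderiv ℝ X u z i0) *
          (F i0).B (fderiv ℝ X u w i0) (fderiv ℝ X u t i0)) := by
      refine Fintype.sum_eq_single i0 (fun i hi => ?_)
      rcases hι i with h1 | h1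
      · exact absurd h1 hi
      · subst h1
        rw [hk1, zero_mul]
    rw [e3, e1, e1, e1, e1]
  · intro u hu
    have h1 : (F i1).B (ξ u i1) (ξ u i1) = L1 (ξ u) * (L1 (ξ u) * 1) := by
      have h2 : (F i1).B (L1 (ξ u) • e) (L1 (ξ u) • e) = L1 (ξ u) * (L1 (ξ u) * 1) := by
        rw [map_smul, map_smul, ContinuousLinearMap.smul_apply, smul_eq_mul, smul_eq_mul, he]
      rw [← h2, ← hxi u]
    rw [h1]
    ring
  · intro u hu i
    have hs1 : (Pi.single i1 e : ∀ i, W i) i1 = e := Pi.single_eq_same _ _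
    rw [hTX u hu, Pi.sub_apply, Pi.smul_apply, smul_sub, smul_smul, ← pow_two]
    congr 1
    by_cases hi : i = i1
    · subst hi
      rw [if_pos rfl, hs1, hxi u]
    · rw [if_neg hi, Pi.single_eq_of_ne hi, smul_zero]

end Pool.Agent.QnS
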