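import Pool.Agent.QnS.AlgSq
import Pool.Agent.QnS.AlgTop
import Pool.Agent.QnS.AlgTwo

/-!
# No solutions (helper50)

`solve_mult` or `solve_simple` give `Δ ≠ 0`, `N` with `Δ(y) x_j = N_j(y)` at all `ω`.  The hypotheses of `top`
are polynomial identities which hold at the infinitely many values `y ω` (multiply the conditions `Sol` by
`Δ(y)`, and `hD` by `Δ(y)`), so they hold (`Polynomial.eq_of_infinite_eval_eq`).  `top` gives `c ≠ 0` with
`KK c = 0`, `GG c = 0`, contradicting `zero_of_mult` (if some `m_i ≥ 2`: `c_i = 0`) or `no_alt`.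
-/

namespace Pool.Agent.QnS

open scoped BigOperators
open Polynomial

theorem no_sol {κ : Type*} [Fintype κ] [DecidableEq κ] {lam : κ → ℝ}
    (hinj : Function.Injective lam) {m : κ → ℕ} (hm : ∀ i, 1 ≤ m i) (hm2 : 2 ≤ ∑ i, m i)
    {k : ℝ} (hk : k ≠ 0) (hnd : NonDeg lam m) {Ω : Type*} (y : Ω → ℝ) (x : Ω → κ → ℝ)
    (hinf : (Set.range y).Infinite) (hsol : ∀ ω, Sol lam m k (y ω) (x ω))
    (hD : ∀ (N : κ → ℝ[X]) (Δ : ℝ[X]), (∀ ω i, Δ.eval (y ω) * x ω i = (N i).eval (y ω)) →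
      ∀ ω i, m i = 1 → Δ.eval (y ω) * (lam i + k * GG lam (x ω) i) -
        lam i * (derivative Δ).eval (y ω) * x ω i + lam i * (derivative (N i)).eval (y ω) = 0) :
    False := by
  classical
  obtain ⟨Δ, hΔ, N, hN⟩ : ∃ Δ : ℝ[X], Δ ≠ 0 ∧ ∃ N : κ → ℝ[X], ∀ (y : ℝ) (x : κ → ℝ),
      Sol lam m k y x → ∀ j, Δ.eval y * x j = (N j).eval y := by
    rcases hnd with ⟨h1, h2⟩ | ⟨h1, h2⟩
    · refine solve_simple hinj hk h1 h2 (hinf.mono ?_)
      rintro _ ⟨ω, rfl⟩
      exact ⟨x ω, hsol ω⟩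
    · exact solve_mult hinj hk h2
  have hNω : ∀ ω i, Δ.eval (y ω) * x ω i = (N i).eval (y ω) := fun ω i => hN _ _ (hsol ω) i
  have hpoly : ∀ P : ℝ[X], (∀ ω, P.eval (y ω) = 0) → P = 0 := by
    intro P hP
    refine Polynomial.eq_zero_of_infinite_isRoot P (hinf.mono ?_)
    rintro _ ⟨ω, rfl⟩
    exact hP ω
  have hS : ∑ i, N i = (1 - X) * Δ := by
    rw [← sub_eq_zero]
    apply hpoly
    intro ω
    rw [eval_sub, eval_finset_sum, eval_mul, eval_sub, eval_one, eval_X,
      Finset.sum_congr rfl fun i _ => (hNω ω i).symm, ← Finset.mul_sum, (hsol ω).2.2.2]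
    ring
  have hZ : ∀ i, 2 ≤ m i → N i = 0 := by
    intro i hi
    apply hpoly
    intro ω
    rw [← hNω ω i, (hsol ω).2.2.1 i hi, mul_zero]
  have hGG : ∀ ω i, (∑ j, C (1 / (lam i - lam j)) * N j).eval (y ω) =
      Δ.eval (y ω) * GG lam (x ω) i := by
    intro ω i
    rw [eval_finset_sum]
    unfold GG
    rw [Finset.mul_sum]
    refine Finset.sum_congr rfl fun j _ => ?_
    rw [eval_mul, eval_C, ← hNω ω j]
    ring
  have hC : ∀ i, ∑ j, C ((m j : ℝ) / (lam i - lam j)) * (C (lam i * lam j + k) * Δ + C k * X * Δ -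
        C (k * (2 * lam i - lam j) / (lam i - lam j)) * N i +
        C (k * (2 * lam j - lam i) / (lam i - lam j)) * N j +
        C (2 * k ^ 2 / (lam i - lam j) ^ 2) * X * (N i + N j)) = 0 := by
    intro i
    apply hpoly
    intro ω
    rw [eval_finset_sum]
    have h : ∀ j, (C ((m j : ℝ) / (lam i - lam j)) * (C (lam i * lam j + k) * Δ + C k * X * Δ -
        C (k * (2 * lam i - lam j) / (lam i - lam j)) * N i +
        C (k * (2 * lam j - lam i) / (lam i - lam j)) * N j +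
        C (2 * k ^ 2 / (lam i - lam j) ^ 2) * X * (N i + N j))).eval (y ω) =
        Δ.eval (y ω) * ((m j : ℝ) * QQ k (y ω) (lam i) (lam j) (x ω i) (x ω j) /
          (lam i - lam j)) := by
      intro j
      simp only [eval_mul, eval_add, eval_sub, eval_C, eval_X, ← hNω ω]
      unfold QQ
      ring
    rw [Finset.sum_congr rfl fun j _ => h j, ← Finset.mul_sum, (hsol ω).1 i, mul_zero]
  have hG : ∀ i, 2 ≤ m i → C (lam i) * Δ + C k * ∑ j, C (1 / (lam i - lam j)) * N j = 0 := by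
    intro i hi
    apply hpoly
    intro ω
    rw [eval_add, eval_mul, eval_mul, eval_C, eval_C, hGG]
    linear_combination Δ.eval (y ω) * (hsol ω).2.1 i hi
  have hD' : ∀ i, m i = 1 → Δ * (C (lam i) * Δ + C k * ∑ j, C (1 / (lam i - lam j)) * N j) -
        C (lam i) * derivative Δ * N i + C (lam i) * Δ * derivative (N i) = 0 := by
    intro i hi
    apply hpoly
    intro ω
    have h := hD N Δ hNω ω i hi
    rw [eval_add, eval_sub, eval_mul, eval_add, eval_mul, eval_mul, eval_mul, eval_mul, eval_mul,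
      eval_mul, eval_C, eval_C, hGG, ← hNω ω i]
    linear_combination Δ.eval (y ω) * h
  obtain ⟨c, ⟨i1, hi1⟩, hc, hK, hGc⟩ := top hk N Δ hΔ hS hZ hC hG hD' hm
  rcases hnd with ⟨h1, h2⟩ | ⟨⟨i, hi⟩, _⟩
  · haveI : Nontrivial κ := by
      rw [← Fintype.one_lt_card_iff_nontrivial]
      have h3 : ∑ i, m i = Fintype.card κ := by
        rw [Finset.sum_congr rfl fun i _ => h1 i, Finset.sum_const, smul_eq_mul, mul_one,
          Finset.card_univ]
      omega
    exact hi1 (no_alt hinj h1 h2 hGc hK i1)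
  · exact hi1 (zero_of_mult hinj i (hc i hi) hGc i1)

end Pool.Agent.QnS
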