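import Pool.Agent.QnS.Cart
import Pool.Agent.QnS.NoSol

/-!
# Local contradiction (helper50)

`κ` = the set of eigenvalues (image of `lam`), with `lam a = a`, `m a` = number of `j` with `λ_j = a`.
For `u ∈ V` put `y u = ν²`, `x u a = ∑_{j, λ_j = a} t_j²`.  For every `j`: `t_j² = x u λ_j`, because if `m (λ_j) ≥ 2` all
`t_j` with this eigenvalue vanish (`t_zero`).  `∑_j F(λ_j) = ∑_{a : κ} m a * F a`; and `m b * x u b = x u b`.
Apply `no_sol` with `Ω = V`:
* `hinf`: if `ν²` had finitely many values on `V`, it would be constant near a point (continuous on a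
  ball, which is connected), so its derivative `2 ν dν` would vanish there.
* `hsol`: (C) `cartan`; (G) `m a ≥ 2`: `t_j = 0` on `V` for `λ_j = a`, so `phi` gives `0 = ν (a + k ∑ …)`;
  (Z) `t_zero`; (S) `sum_tt`.
* `hD`, `m a = 1`, `a = λ_j`: differentiate `Δ(y) t_j² = N(y)` (on `V`, `N = N a`) in the direction `e_j`:
  `Δ'(y) (-2 ν λ_j t_j) t_j² + Δ(y) 2 t_j ν φ_j = N'(y) (-2 ν λ_j t_j)`; if `t_j ≠ 0` on `V` divide by `2 ν t_j`.
  If `t_j = 0` on `V`: `N(y) = 0` for infinitely many `y`, so `N = 0`, and `φ_j = 0` (`phi`).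
-/

namespace Pool.Agent.QnS

open scoped BigOperators ContDiff
open Pool.Agent.QnR

private theorem loc_mem {n : ℕ} (lam : Fin n → ℝ) (j : Fin n) : lam j ∈ evs lam := by
  simp [evs]

private theorem loc_ex {n : ℕ} {lam : Fin n → ℝ} {a : ℝ} (ha : a ∈ evs lam) : ∃ i, lam i = a := by
  simpa [evs] using ha

private theorem loc_fib {n : ℕ} (lam : Fin n → ℝ) (G : Fin n → ℝ) (F : ℝ → ℝ) :
    ∑ a : {a // a ∈ evs lam}, (∑ j, if lam j = a.1 then G j else 0) * F a.1 =
      ∑ j, G j * F (lam j) := by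
  rw [Finset.sum_coe_sort (evs lam) (fun a => (∑ j, if lam j = a then G j else 0) * F a)]
  simp_rw [Finset.sum_mul]
  rw [Finset.sum_comm]
  refine Finset.sum_congr rfl fun j _ => ?_
  rw [Finset.sum_eq_single (lam j)]
  · simp
  · intro b _ hb
    rw [if_neg (Ne.symm hb), zero_mul]
  · intro h
    exact absurd (loc_mem lam j) h

private theorem loc_mul {n : ℕ} (lam : Fin n → ℝ) (a : ℝ) :
    (mul lam a : ℝ) = ∑ j, if lam j = a then (1 : ℝ) else 0 := by
  simp [mul]

private theorem loc_fib1 {n : ℕ} (lam : Fin n → ℝ) (F : ℝ → ℝ) :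
    ∑ a : {a // a ∈ evs lam}, (mul lam a.1 : ℝ) * F a.1 = ∑ j, F (lam j) := by
  have h := loc_fib lam (fun _ => 1) F
  simp only [← loc_mul, one_mul] at h
  exact h

private theorem loc_pos {n : ℕ} {lam : Fin n → ℝ} {a : ℝ} (ha : a ∈ evs lam) :
    1 ≤ mul lam a := by
  obtain ⟨i, hi⟩ := loc_ex ha
  have : i ∈ Finset.univ.filter (fun j => lam j = a) := by simp [hi]
  exact Finset.card_pos.2 ⟨i, by simpa using hi⟩

private theorem loc_two {n : ℕ} {lam : Fin n → ℝ} {a : ℝ} (h : 2 ≤ mul lam a) {i : Fin n}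
    (hi : lam i = a) : ∃ j, i ≠ j ∧ lam i = lam j := by
  obtain ⟨j, hj, hne⟩ := Finset.exists_mem_ne (show 1 < _ from h) i
  refine ⟨j, Ne.symm hne, ?_⟩
  have hj' : lam j = a := by simpa using hj
  rw [hi, hj']

private theorem loc_sum {n : ℕ} (lam : Fin n → ℝ) :
    ∑ a : {a // a ∈ evs lam}, mul lam a.1 = n := by
  have h := loc_fib1 lam (fun _ => 1)
  simp only [mul_one] at h
  have h2 : ((∑ a : {a // a ∈ evs lam}, mul lam a.1 : ℕ) : ℝ) = (n : ℝ) := by
    rw [Nat.cast_sum, h]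
    simp
  exact_mod_cast h2

/-- a function with finitely many values on an open set is constant near each point -/
private theorem loc_inf {E : Type*} [NormedAddCommGroup E] [NormedSpace ℝ E] {V : Set E}
    (hV : IsOpen V) {f : E → ℝ} (hf : ContinuousOn f V) {u0 : E} (hu0 : u0 ∈ V)
    (hfin : (Set.range (fun u : {u // u ∈ V} => f u.1)).Finite) :
    f =ᶠ[nhds u0] fun _ => f u0 := by
  obtain ⟨r, hr, hB⟩ := Metric.isOpen_iff.1 hV u0 hu0
  have hpre : IsPreconnected (Metric.ball u0 r) := (convex_ball u0 r).isPreconnected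
  have hmaps : Set.MapsTo f (Metric.ball u0 r) (Set.range (fun u : {u // u ∈ V} => f u.1)) := by
    intro v hv
    exact ⟨⟨v, hB hv⟩, rfl⟩
  obtain ⟨y, hy, heq⟩ := hpre.eqOn_const_of_mapsTo hfin.isDiscrete (hf.mono hB) hmaps
    ⟨f u0, ⟨⟨u0, hu0⟩, rfl⟩⟩
  have h0 : f u0 = y := heq (Metric.mem_ball_self hr)
  filter_upwards [Metric.ball_mem_nhds u0 hr] with v hv
  rw [h0]
  exact heq hv

theorem loc_false {E : Type*} [NormedAddCommGroup E] [NormedSpace ℝ E] [FiniteDimensional ℝ E]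
    {U V : Set E} {k : ℝ} {g : E → E →L[ℝ] E →L[ℝ] ℝ} {S : E → E →L[ℝ] E} {T : E → E}
    {ν : E → ℝ} {Γ : E → E →L[ℝ] E →L[ℝ] E} {n : ℕ} {lam : Fin n → ℝ} {e : Fin n → E → E}
    (h : Geo2 U k g S T ν Γ) (hf : Fr V g S lam e) (hV : V ⊆ U) (hne : V.Nonempty) (hk : k ≠ 0)
    (hν : ∀ u ∈ V, ν u ≠ 0) (hd : ∀ u ∈ V, fderiv ℝ ν u ≠ 0)
    (hgen : ∀ j, (∀ u ∈ V, tt g T e j u ≠ 0) ∨ (∀ u ∈ V, tt g T e j u = 0)) (hn : 2 ≤ n)
    (hnd : NonDeg (κ := {a // a ∈ evs lam}) (fun a => a.1) (fun a => mul lam a.1)) : False := by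
  obtain ⟨u0, hu0⟩ := hne
  have hX : ∀ u ∈ V, ∀ j, (∑ i, if lam i = lam j then tt g T e i u ^ 2 else 0) =
      tt g T e j u ^ 2 := by
    intro u hu j
    rw [Finset.sum_eq_single j]
    · simp
    · intro i _ hij
      by_cases hl : lam i = lam j
      · rw [if_pos hl, t_zero h hf hV hu hk (hν u hu) hij hl]
        norm_num
      · rw [if_neg hl]
    · intro hj
      exact absurd (Finset.mem_univ j) hj
  have hGG : ∀ u ∈ V, ∀ i : Fin n, ∀ a : {a // a ∈ evs lam}, lam i = a.1 →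
      GG (κ := {a // a ∈ evs lam}) (fun a => a.1)
        (fun b => ∑ i, if lam i = b.1 then tt g T e i u ^ 2 else 0) a =
        ∑ l, tt g T e l u ^ 2 / (lam i - lam l) := by
    intro u hu i a hi
    unfold GG
    have h1 := loc_fib lam (fun j => tt g T e j u ^ 2) (fun b => 1 / (a.1 - b))
    simp only [mul_one_div] at h1
    rw [h1, hi]
  have hz : ∀ j, (∀ u ∈ V, tt g T e j u = 0) → ∀ u ∈ V,
      lam j + k * ∑ l, tt g T e l u ^ 2 / (lam j - lam l) = 0 := by
    intro j hj u hu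
    have h1 := phi h hf hV hk hu (hν u hu) j
    have h2 : tt g T e j =ᶠ[nhds u] fun _ => (0 : ℝ) := by
      filter_upwards [hf.op.mem_nhds hu] with v hv using hj v hv
    rw [h2.fderiv_eq, fderiv_const_apply] at h1
    have h3 : (0 : ℝ) = ν u * (lam j + k * ∑ l, tt g T e l u ^ 2 / (lam j - lam l)) := h1
    rcases mul_eq_zero.1 h3.symm with h4 | h4
    · exact absurd h4 (hν u hu)
    · exact h4
  have hdν : ∀ u ∈ V, DifferentiableAt ℝ ν u := fun u hu =>
    (h.smν.contDiffAt (h.op.mem_nhds (hV hu))).differentiableAt (by simp)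
  have hdt : ∀ j, ∀ u ∈ V, DifferentiableAt ℝ (tt g T e j) u := fun j u hu =>
    ((tt_sm h hf hV j).contDiffAt (hf.op.mem_nhds hu)).differentiableAt (by simp)
  have hinf : (Set.range (fun u : {u // u ∈ V} => ν u.1 ^ 2)).Infinite := by
    intro hfin
    have hc : ContinuousOn (fun u => ν u ^ 2) V := fun u hu =>
      ((hdν u hu).continuousAt.pow 2).continuousWithinAt
    have h1 := loc_inf hf.op hc hu0 hfin
    have h2 : fderiv ℝ (fun u => ν u ^ 2) u0 = 0 := by
      rw [h1.fderiv_eq, fderiv_const_apply]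
    have h3 : HasFDerivAt (fun u => ν u ^ 2) ((2 * ν u0) • fderiv ℝ ν u0) u0 := by
      have h4 := (hdν u0 hu0).hasFDerivAt.pow 2
      simpa using h4
    rw [h3.fderiv] at h2
    rcases smul_eq_zero.1 h2 with h4 | h4
    · exact hν u0 hu0 (by linarith)
    · exact hd u0 hu0 h4
  refine no_sol (κ := {a // a ∈ evs lam}) (lam := fun a => a.1) (m := fun a => mul lam a.1)
    (fun a b hab => Subtype.ext hab) (fun a => loc_pos a.2) (by rw [loc_sum]; exact hn) hk hnd
    (Ω := {u // u ∈ V}) (fun u => ν u.1 ^ 2)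
    (fun u a => ∑ i, if lam i = a.1 then tt g T e i u.1 ^ 2 else 0) hinf ?_ ?_
  · rintro ⟨u, hu⟩
    refine ⟨?_, ?_, ?_, ?_⟩
    · intro a
      obtain ⟨i, hi⟩ := loc_ex a.2
      have h1 := cartan h hf hV hk hu (hν u hu) i
      have h2 := loc_fib1 lam (fun b => QQ k (ν u ^ 2) (lam i) b (tt g T e i u ^ 2)
        (∑ j, if lam j = b then tt g T e j u ^ 2 else 0) / (lam i - b))
      have h3 : ∀ j, QQ k (ν u ^ 2) (lam i) (lam j) (tt g T e i u ^ 2)
          (∑ l, if lam l = lam j then tt g T e l u ^ 2 else 0) / (lam i - lam j) =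
          QQ k (ν u ^ 2) (lam i) (lam j) (tt g T e i u ^ 2) (tt g T e j u ^ 2) /
            (lam i - lam j) := by
        intro j
        rw [hX u hu j]
      simp only [h3] at h2
      rw [h1] at h2
      refine Eq.trans (Finset.sum_congr rfl fun b _ => ?_) h2
      dsimp only
      rw [← hi, hX u hu i, mul_div_assoc]
    · intro a ha
      obtain ⟨i, hi⟩ := loc_ex a.2
      have hzi : ∀ v ∈ V, tt g T e i v = 0 := by
        obtain ⟨j, hij, hl⟩ := loc_two ha hi
        exact fun v hv => t_zero h hf hV hv hk (hν v hv) hij hl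
      dsimp only
      rw [hGG u hu i a hi, ← hi]
      exact hz i hzi u hu
    · intro a ha
      obtain ⟨i, hi⟩ := loc_ex a.2
      obtain ⟨j, hij, hl⟩ := loc_two ha hi
      dsimp only
      rw [← hi, hX u hu i, t_zero h hf hV hu hk (hν u hu) hij hl]
      norm_num
    · have h1 := loc_fib lam (fun j => tt g T e j u ^ 2) (fun _ => 1)
      simp only [mul_one] at h1
      rw [sum_tt h hf hV hu] at h1
      exact h1
  · rintro N Δ hN ⟨u, hu⟩ a ha
    obtain ⟨i, hi⟩ := loc_ex a.2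
    have hNi : ∀ v ∈ V, Δ.eval (ν v ^ 2) * tt g T e i v ^ 2 = (N a).eval (ν v ^ 2) := by
      intro v hv
      have h1 := hN ⟨v, hv⟩ a
      dsimp only at h1
      rw [← hi, hX v hv i] at h1
      exact h1
    dsimp only
    rw [hGG u hu i a hi, ← hi, hX u hu i]
    rcases hgen i with hti | hti
    · -- differentiate
      have e1 : HasFDerivAt (fun v => ν v ^ 2) ((2 * ν u) • fderiv ℝ ν u) u := by
        have h4 := (hdν u hu).hasFDerivAt.pow 2
        simpa using h4
      have e2 : HasFDerivAt (fun v => tt g T e i v ^ 2)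
          ((2 * tt g T e i u) • fderiv ℝ (tt g T e i) u) u := by
        have h4 := (hdt i u hu).hasFDerivAt.pow 2
        simpa using h4
      have e3 : HasFDerivAt (fun v => Δ.eval (ν v ^ 2))
          ((Polynomial.derivative Δ).eval (ν u ^ 2) • ((2 * ν u) • fderiv ℝ ν u)) u := by
        have h5 := HasDerivAt.comp_hasFDerivAt (f := fun v => ν v ^ 2) u
          (Polynomial.hasDerivAt Δ (ν u ^ 2)) e1
        exact h5
      have e4 : HasFDerivAt (fun v => (N a).eval (ν v ^ 2))
          ((Polynomial.derivative (N a)).eval (ν u ^ 2) • ((2 * ν u) • fderiv ℝ ν u)) u := by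
        have h5 := HasDerivAt.comp_hasFDerivAt (f := fun v => ν v ^ 2) u
          (Polynomial.hasDerivAt (N a) (ν u ^ 2)) e1
        exact h5
      have e5 := (e3.mul e2).sub e4
      have e6 : (fun v => Δ.eval (ν v ^ 2) * tt g T e i v ^ 2 - (N a).eval (ν v ^ 2)) =ᶠ[nhds u]
          fun _ => (0 : ℝ) := by
        filter_upwards [hf.op.mem_nhds hu] with v hv
        rw [hNi v hv, sub_self]
      have e7 := e5.fderiv
      have e8 : fderiv ℝ (fun v => Δ.eval (ν v ^ 2) * tt g T e i v ^ 2 - (N a).eval (ν v ^ 2)) u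
          = 0 := by
        rw [e6.fderiv_eq, fderiv_const_apply]
      have e9 := congrArg (fun L : E →L[ℝ] ℝ => L (e i u)) (e8.symm.trans e7)
      simp only [zero_apply, sub_apply, add_apply, smul_apply, smul_eq_mul,
        phi h hf hV hk hu (hν u hu) i, dnu h hf hV hu i] at e9
      have hne : 2 * ν u * tt g T e i u ≠ 0 :=
        mul_ne_zero (mul_ne_zero two_ne_zero (hν u hu)) (hti u hu)
      refine mul_left_cancel₀ hne ?_
      rw [mul_zero]
      linear_combination -e9
    · have hN0 : N a = 0 := by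
        refine Polynomial.eq_zero_of_infinite_isRoot _ (hinf.mono ?_)
        rintro _ ⟨⟨v, hv⟩, rfl⟩
        have h1 := hNi v hv
        rw [hti v hv] at h1
        show (N a).eval (ν v ^ 2) = 0
        rw [← h1]
        norm_num
      rw [hN0, hti u hu, hz i hti u hu]
      simp

end Pool.Agent.QnS
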