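import Pool.Agent.QnS.Cart
import Pool.Agent.QnS.FunFalse

/-!
# Local contradiction if the components of `T` are functions of the angle (helper50)

As `loc_false` (copy its proof), with `fun_false` instead of `no_sol`.  `κ = {a // a ∈ evs lam}`,
`x u a = ∑_{j, λ_j = a} t_j(u)²`, `y u = ν(u)²`.
1. `x · a` is a function of `y` on `V`: `mom` says that the moments `g(S^q T, T) = ∑_j λ_j^q t_j² =
   ∑_a a^q x u a` (`eig`, `span`: `T = ∑ t_j e_j`, `S^q T = ∑ λ_j^q t_j e_j`) are functions of `y`; by linearity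
   `∑_a F(a) x u a` is a function of `y` for every polynomial `F`, and with a Lagrange polynomial
   (`Lagrange.basis` or `Polynomial` interpolation on the finset `evs lam`) `x u a` itself.
2. Let `u₀ ∈ V`, `v` with `fderiv ν u₀ v ≠ 0`, `ℓ t = u₀ + t v`, `φ t = y (ℓ t)`, smooth near `0`,
   `φ'(0) = 2 ν dν(v) ≠ 0`.  By the inverse function theorem
   (`ContDiffAt.toOpenPartialHomeomorph` / `ContDiffAt.localInverse`, `HasStrictDerivAt`; `∞`-smooth inverse
   `ContDiffAt.to_localInverse`) there are an interval `I = (a, b) ∋ y u₀` and `ψ : ℝ → ℝ` smooth on `I` with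
   `ℓ (ψ s) ∈ V`, `φ (ψ s) = s` for `s ∈ I`.  Put `X_a s = x (ℓ (ψ s)) a`, smooth on `I`; for all `u ∈ V` with
   `y u ∈ I`: `x u a = X_a (y u)` (step 1, as `y u = y (ℓ (ψ (y u)))`).
3. For `s ∈ I` put `u = ℓ (ψ s) ∈ V`, `y u = s`: the relations `Sol` hold at `u` as in `loc_false`.
   (D): `m a = 1`, `a = λ_j`.  If `t_j ≠ 0` on `V`: differentiate `t_j² = X_a (y)` (valid near `u`) in the
   direction `e_j`: `2 t_j ν (λ_j + k GG) = X_a'(s) (-2 ν λ_j t_j)` (`phi`, `dnu`), divide by `2 ν t_j`.  If `t_j = 0`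
   on `V`: `X_a = 0` on `I` so `X_a' = 0`, and `λ_j + k GG = 0` (`hz` in `loc_false`).
-/

namespace Pool.Agent.QnS

open scoped BigOperators ContDiff
open Pool.Agent.QnR

private theorem lf_mem {n : ℕ} (lam : Fin n → ℝ) (j : Fin n) : lam j ∈ evs lam := by
  simp [evs]

private theorem lf_ex {n : ℕ} {lam : Fin n → ℝ} {a : ℝ} (ha : a ∈ evs lam) : ∃ i, lam i = a := by
  simpa [evs] using ha

private theorem lf_fib {n : ℕ} (lam : Fin n → ℝ) (G : Fin n → ℝ) (F : ℝ → ℝ) :
    ∑ a : {a // a ∈ evs lam}, (∑ j, if lam j = a.1 then G j else 0) * F a.1 =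
      ∑ j, G j * F (lam j) := by
  rw [Finset.sum_coe_sort (evs lam) (fun a => (∑ j, if lam j = a then G j else 0) * F a)]
  simp_rw [Finset.sum_mul]
  rw [Finset.sum_comm]
  refine Finset.sum_congr rfl fun j _ => ?_
  rw [Finset.sum_eq_single (lam j)]
  · simp
  · intro b _ hb
    rw [if_neg (Ne.symm hb), zero_mul]
  · intro h
    exact absurd (lf_mem lam j) h

private theorem lf_mul {n : ℕ} (lam : Fin n → ℝ) (a : ℝ) :
    (mul lam a : ℝ) = ∑ j, if lam j = a then (1 : ℝ) else 0 := by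
  simp [mul]

private theorem lf_fib1 {n : ℕ} (lam : Fin n → ℝ) (F : ℝ → ℝ) :
    ∑ a : {a // a ∈ evs lam}, (mul lam a.1 : ℝ) * F a.1 = ∑ j, F (lam j) := by
  have h := lf_fib lam (fun _ => 1) F
  simp only [← lf_mul, one_mul] at h
  exact h

private theorem lf_pos {n : ℕ} {lam : Fin n → ℝ} {a : ℝ} (ha : a ∈ evs lam) :
    1 ≤ mul lam a := by
  obtain ⟨i, hi⟩ := lf_ex ha
  have : i ∈ Finset.univ.filter (fun j => lam j = a) := by simp [hi]
  exact Finset.card_pos.2 ⟨i, by simpa using hi⟩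

private theorem lf_two {n : ℕ} {lam : Fin n → ℝ} {a : ℝ} (h : 2 ≤ mul lam a) {i : Fin n}
    (hi : lam i = a) : ∃ j, i ≠ j ∧ lam i = lam j := by
  obtain ⟨j, hj, hne⟩ := Finset.exists_mem_ne (show 1 < _ from h) i
  refine ⟨j, Ne.symm hne, ?_⟩
  have hj' : lam j = a := by simpa using hj
  rw [hi, hj']

private theorem lf_sum {n : ℕ} (lam : Fin n → ℝ) :
    ∑ a : {a // a ∈ evs lam}, mul lam a.1 = n := by
  have h := lf_fib1 lam (fun _ => 1)
  simp only [mul_one] at h
  have h2 : ((∑ a : {a // a ∈ evs lam}, mul lam a.1 : ℕ) : ℝ) = (n : ℝ) := by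
    rw [Nat.cast_sum, h]
    simp
  exact_mod_cast h2

/-- smooth local inverse on an interval -/
private theorem lf_inv {φ : ℝ → ℝ} {W : Set ℝ} (hW : IsOpen W) (h0 : (0 : ℝ) ∈ W)
    (hφ : ContDiffOn ℝ ∞ φ W) (hd : deriv φ 0 ≠ 0) : ∃ a b : ℝ, a < b ∧ ∃ ψ : ℝ → ℝ,
      ContDiffOn ℝ ∞ ψ (Set.Ioo a b) ∧ ∀ s ∈ Set.Ioo a b, ψ s ∈ W ∧ φ (ψ s) = s := by
  have hs : HasStrictDerivAt φ (deriv φ 0) 0 :=
    (hφ.contDiffAt (hW.mem_nhds h0)).hasStrictDerivAt (by simp)
  have hs' := hs.hasStrictFDerivAt_equiv hd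
  set R : OpenPartialHomeomorph ℝ ℝ := hs'.toOpenPartialHomeomorph φ with hR
  have hRc : (R : ℝ → ℝ) = φ := hs'.toOpenPartialHomeomorph_coe
  have hsrc : (0 : ℝ) ∈ R.source := hs'.mem_toOpenPartialHomeomorph_source
  have htgt : φ 0 ∈ R.target := hs'.image_mem_toOpenPartialHomeomorph_target
  have hW' : IsOpen (W ∩ deriv φ ⁻¹' {0}ᶜ) :=
    (hφ.continuousOn_deriv_of_isOpen hW (by simp)).isOpen_inter_preimage hW
      isOpen_compl_singleton
  have hop : IsOpen (R.symm.source ∩ R.symm ⁻¹' (W ∩ deriv φ ⁻¹' {0}ᶜ)) :=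
    R.symm.isOpen_inter_preimage hW'
  have hinv0 : R.symm (φ 0) = 0 := by
    have h1 := R.left_inv hsrc
    rwa [hRc] at h1
  have hmem : φ 0 ∈ R.symm.source ∩ R.symm ⁻¹' (W ∩ deriv φ ⁻¹' {0}ᶜ) := by
    refine ⟨htgt, ?_⟩
    rw [Set.mem_preimage, hinv0]
    exact ⟨h0, hd⟩
  obtain ⟨ε, hε, hball⟩ := Metric.isOpen_iff.1 hop _ hmem
  rw [Real.ball_eq_Ioo] at hball
  refine ⟨φ 0 - ε, φ 0 + ε, by linarith, R.symm, ?_, ?_⟩
  · intro s hs1
    obtain ⟨h1, h2, h3⟩ := hball hs1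
    have h3' : deriv φ (R.symm s) ≠ 0 := h3
    have h4 : ContDiffAt ℝ ∞ φ (R.symm s) := hφ.contDiffAt (hW.mem_nhds h2)
    refine (R.contDiffAt_symm_deriv h3' h1 ?_ ?_).contDiffWithinAt
    · rw [hRc]
      exact (h4.differentiableAt (by simp)).hasDerivAt
    · rw [hRc]
      exact h4
  · intro s hs1
    obtain ⟨h1, h2, h3⟩ := hball hs1
    refine ⟨h2, ?_⟩
    have h4 := R.right_inv h1
    rwa [hRc] at h4

private theorem lf_pow {E : Type*} [NormedAddCommGroup E] [NormedSpace ℝ E] (A : E →L[ℝ] E)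
    {x : E} {c : ℝ} (hx : A x = c • x) (q : ℕ) : (A ^ q) x = c ^ q • x := by
  induction q with
  | zero => simp
  | succ q ih =>
    rw [pow_succ, ContinuousLinearMap.mul_apply, hx, map_smul, ih, smul_smul, pow_succ,
      mul_comm]

private theorem lf_mom {E : Type*} [NormedAddCommGroup E] [NormedSpace ℝ E]
    [FiniteDimensional ℝ E]
    {U V : Set E} {k : ℝ} {g : E → E →L[ℝ] E →L[ℝ] ℝ} {S : E → E →L[ℝ] E} {T : E → E}
    {ν : E → ℝ} {Γ : E → E →L[ℝ] E →L[ℝ] E} {n : ℕ} {lam : Fin n → ℝ} {e : Fin n → E → E}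
    (h : Geo2 U k g S T ν Γ) (hf : Fr V g S lam e) (hV : V ⊆ U) {u : E} (hu : u ∈ V) (q : ℕ) :
    g u (((S u) ^ q) (T u)) (T u) = ∑ j, lam j ^ q * tt g T e j u ^ 2 := by
  have h1 : ((S u) ^ q) (T u) = ∑ l, tt g T e l u • (lam l ^ q • e l u) := by
    conv_lhs => rw [T_exp h hf hV hu]
    rw [map_sum]
    refine Finset.sum_congr rfl fun l _ => ?_
    rw [map_smul, lf_pow (S u) (hf.eig u hu l) q]
  rw [h1, map_sum, ContinuousLinearMap.sum_apply]
  refine Finset.sum_congr rfl fun l _ => ?_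
  rw [map_smul, map_smul, ContinuousLinearMap.smul_apply, ContinuousLinearMap.smul_apply,
    h.symm u (hV hu) (e l u) (T u), smul_eq_mul, smul_eq_mul]
  have h2 : g u (T u) (e l u) = tt g T e l u := rfl
  rw [h2]
  ring

theorem loc_fun_false {E : Type*} [NormedAddCommGroup E] [NormedSpace ℝ E] [FiniteDimensional ℝ E]
    {U V : Set E} {k : ℝ} {g : E → E →L[ℝ] E →L[ℝ] ℝ} {S : E → E →L[ℝ] E} {T : E → E}
    {ν : E → ℝ} {Γ : E → E →L[ℝ] E →L[ℝ] E} {n : ℕ} {lam : Fin n → ℝ} {e : Fin n → E → E}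
    (h : Geo2 U k g S T ν Γ) (hf : Fr V g S lam e) (hV : V ⊆ U) (hne : V.Nonempty) (hk : k ≠ 0)
    (hν : ∀ u ∈ V, ν u ≠ 0) (hd : ∀ u ∈ V, fderiv ℝ ν u ≠ 0)
    (hgen : ∀ j, (∀ u ∈ V, tt g T e j u ≠ 0) ∨ (∀ u ∈ V, tt g T e j u = 0)) (hn : 2 ≤ n)
    (mom : ∀ u ∈ V, ∀ u' ∈ V, ν u ^ 2 = ν u' ^ 2 → ∀ q : ℕ,
      g u (((S u) ^ q) (T u)) (T u) = g u' (((S u') ^ q) (T u')) (T u')) : False := by
  classical
  obtain ⟨u0, hu0⟩ := hne
  have hX : ∀ u ∈ V, ∀ j, (∑ i, if lam i = lam j then tt g T e i u ^ 2 else 0) =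
      tt g T e j u ^ 2 := by
    intro u hu j
    rw [Finset.sum_eq_single j]
    · simp
    · intro i _ hij
      by_cases hl : lam i = lam j
      · rw [if_pos hl, t_zero h hf hV hu hk (hν u hu) hij hl]
        norm_num
      · rw [if_neg hl]
    · intro hj
      exact absurd (Finset.mem_univ j) hj
  have hGG : ∀ u ∈ V, ∀ i : Fin n, ∀ a : {a // a ∈ evs lam}, lam i = a.1 →
      GG (κ := {a // a ∈ evs lam}) (fun a => a.1)
        (fun b => ∑ i, if lam i = b.1 then tt g T e i u ^ 2 else 0) a =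
        ∑ l, tt g T e l u ^ 2 / (lam i - lam l) := by
    intro u hu i a hi
    unfold GG
    have h1 := lf_fib lam (fun j => tt g T e j u ^ 2) (fun b => 1 / (a.1 - b))
    simp only [mul_one_div] at h1
    rw [h1, hi]
  have hz : ∀ j, (∀ u ∈ V, tt g T e j u = 0) → ∀ u ∈ V,
      lam j + k * ∑ l, tt g T e l u ^ 2 / (lam j - lam l) = 0 := by
    intro j hj u hu
    have h1 := phi h hf hV hk hu (hν u hu) j
    have h2 : tt g T e j =ᶠ[nhds u] fun _ => (0 : ℝ) := by
      filter_upwards [hf.op.mem_nhds hu] with v hv using hj v hv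
    rw [h2.fderiv_eq, fderiv_const_apply] at h1
    have h3 : (0 : ℝ) = ν u * (lam j + k * ∑ l, tt g T e l u ^ 2 / (lam j - lam l)) := h1
    rcases mul_eq_zero.1 h3.symm with h4 | h4
    · exact absurd h4 (hν u hu)
    · exact h4
  have hdν : ∀ u ∈ V, DifferentiableAt ℝ ν u := fun u hu =>
    (h.smν.contDiffAt (h.op.mem_nhds (hV hu))).differentiableAt (by simp)
  have hdt : ∀ j, ∀ u ∈ V, DifferentiableAt ℝ (tt g T e j) u := fun j u hu =>
    ((tt_sm h hf hV j).contDiffAt (hf.op.mem_nhds hu)).differentiableAt (by simp)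
  -- step 1
  have hpoly : ∀ u ∈ V, ∀ u' ∈ V, ν u ^ 2 = ν u' ^ 2 → ∀ F : Polynomial ℝ,
      ∑ j, tt g T e j u ^ 2 * F.eval (lam j) = ∑ j, tt g T e j u' ^ 2 * F.eval (lam j) := by
    intro u hu u' hu' huu F
    have h1 : ∀ w : E, ∑ j, tt g T e j w ^ 2 * F.eval (lam j) =
        ∑ q ∈ Finset.range (F.natDegree + 1), F.coeff q * ∑ j, lam j ^ q * tt g T e j w ^ 2 := by
      intro w
      simp_rw [Polynomial.eval_eq_sum_range, Finset.mul_sum]
      rw [Finset.sum_comm]
      refine Finset.sum_congr rfl fun q _ => Finset.sum_congr rfl fun j _ => ?_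
      ring
    rw [h1 u, h1 u']
    refine Finset.sum_congr rfl fun q _ => ?_
    rw [← lf_mom h hf hV hu q, ← lf_mom h hf hV hu' q, mom u hu u' hu' huu q]
  have hfun : ∀ u ∈ V, ∀ u' ∈ V, ν u ^ 2 = ν u' ^ 2 → ∀ a ∈ evs lam,
      (∑ i, if lam i = a then tt g T e i u ^ 2 else 0) =
        ∑ i, if lam i = a then tt g T e i u' ^ 2 else 0 := by
    intro u hu u' hu' huu a ha
    have h1 : ∀ w : E, (∑ i, if lam i = a then tt g T e i w ^ 2 else 0) =
        ∑ j, tt g T e j w ^ 2 * (Lagrange.basis (evs lam) id a).eval (lam j) := by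
      intro w
      refine Finset.sum_congr rfl fun j _ => ?_
      by_cases hj : lam j = a
      · rw [if_pos hj, hj]
        have h2 := Lagrange.eval_basis_self (s := evs lam) (v := id) (i := a)
          (Set.injOn_id _) ha
        rw [id] at h2
        rw [h2, mul_one]
      · rw [if_neg hj]
        have h2 := Lagrange.eval_basis_of_ne (s := evs lam) (v := id) (i := a) (j := lam j)
          (Ne.symm hj) (lf_mem lam j)
        rw [id] at h2
        rw [h2, mul_zero]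
    rw [h1 u, h1 u']
    exact hpoly u hu u' hu' huu _
  -- step 2
  obtain ⟨v, hv⟩ : ∃ v, fderiv ℝ ν u0 v ≠ 0 := by
    by_contra hcon
    push Not at hcon
    exact hd u0 hu0 (ContinuousLinearMap.ext hcon)
  have hℓ : ContDiff ℝ ∞ (fun t : ℝ => u0 + t • v) :=
    contDiff_const.add (contDiff_id.smul contDiff_const)
  have hWo : IsOpen ((fun t : ℝ => u0 + t • v) ⁻¹' V) := hf.op.preimage hℓ.continuous
  have hW0 : (0 : ℝ) ∈ (fun t : ℝ => u0 + t • v) ⁻¹' V := by
    show u0 + (0 : ℝ) • v ∈ V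
    rw [zero_smul, add_zero]
    exact hu0
  have hsmφ : ContDiffOn ℝ ∞ (fun t : ℝ => ν (u0 + t • v) ^ 2)
      ((fun t : ℝ => u0 + t • v) ⁻¹' V) :=
    ((h.smν.mono hV).comp hℓ.contDiffOn (fun t ht => ht)).pow 2
  have hφ0 : deriv (fun t : ℝ => ν (u0 + t • v) ^ 2) 0 ≠ 0 := by
    have h1 : HasDerivAt (fun t : ℝ => u0 + t • v) v 0 := by
      have h2 := ((hasDerivAt_id (0 : ℝ)).smul_const v).const_add u0
      simpa using h2
    have h3 : HasFDerivAt ν (fderiv ℝ ν u0) ((fun t : ℝ => u0 + t • v) 0) := by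
      have h4 : (fun t : ℝ => u0 + t • v) 0 = u0 := by simp
      rw [h4]
      exact (hdν u0 hu0).hasFDerivAt
    have h5 : HasDerivAt (fun t : ℝ => ν (u0 + t • v)) (fderiv ℝ ν u0 v) 0 :=
      h3.comp_hasDerivAt (0 : ℝ) h1
    have h6 := h5.fun_pow 2
    have h7 : HasDerivAt (fun t : ℝ => ν (u0 + t • v) ^ 2) (2 * ν u0 * fderiv ℝ ν u0 v) 0 := by
      simpa using h6
    rw [h7.deriv]
    exact mul_ne_zero (mul_ne_zero two_ne_zero (hν u0 hu0)) hv
  obtain ⟨a, b, hab, ψ, hψ, hψs⟩ := lf_inv hWo hW0 hsmφ hφ0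
  have hmemV : ∀ s ∈ Set.Ioo a b, u0 + ψ s • v ∈ V := fun s hs => (hψs s hs).1
  have hval : ∀ s ∈ Set.Ioo a b, ν (u0 + ψ s • v) ^ 2 = s := fun s hs => (hψs s hs).2
  have hℓψ : ContDiffOn ℝ ∞ (fun s => u0 + ψ s • v) (Set.Ioo a b) :=
    contDiffOn_const.add (hψ.smul contDiffOn_const)
  set X : {a // a ∈ evs lam} → ℝ → ℝ := fun c s =>
    ∑ i, if lam i = c.1 then tt g T e i (u0 + ψ s • v) ^ 2 else 0 with hXdef
  have hXsm : ∀ c, ContDiffOn ℝ ∞ (X c) (Set.Ioo a b) := by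
    intro c
    refine ContDiffOn.sum fun i _ => ?_
    by_cases hi : lam i = c.1
    · simp only [if_pos hi]
      exact ((tt_sm h hf hV i).comp hℓψ hmemV).pow 2
    · simp only [if_neg hi]
      exact contDiffOn_const
  refine fun_false (κ := {a // a ∈ evs lam}) (lam := fun a => a.1) (m := fun a => mul lam a.1)
    (fun a b hab => Subtype.ext hab) (fun a => lf_pos a.2) (by rw [lf_sum]; exact hn) hk hab
    X hXsm ?_ ?_
  · intro s hs
    have hu := hmemV s hs
    have hyu := hval s hs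
    simp only [hXdef]
    generalize u0 + ψ s • v = u at hu hyu
    rw [← hyu]
    refine ⟨?_, ?_, ?_, ?_⟩
    · intro a
      obtain ⟨i, hi⟩ := lf_ex a.2
      have h1 := cartan h hf hV hk hu (hν u hu) i
      have h2 := lf_fib1 lam (fun b => QQ k (ν u ^ 2) (lam i) b (tt g T e i u ^ 2)
        (∑ j, if lam j = b then tt g T e j u ^ 2 else 0) / (lam i - b))
      have h3 : ∀ j, QQ k (ν u ^ 2) (lam i) (lam j) (tt g T e i u ^ 2)
          (∑ l, if lam l = lam j then tt g T e l u ^ 2 else 0) / (lam i - lam j) =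
          QQ k (ν u ^ 2) (lam i) (lam j) (tt g T e i u ^ 2) (tt g T e j u ^ 2) /
            (lam i - lam j) := by
        intro j
        rw [hX u hu j]
      simp only [h3] at h2
      rw [h1] at h2
      refine Eq.trans (Finset.sum_congr rfl fun b _ => ?_) h2
      dsimp only
      rw [← hi, hX u hu i, mul_div_assoc]
    · intro a ha
      obtain ⟨i, hi⟩ := lf_ex a.2
      have hzi : ∀ v ∈ V, tt g T e i v = 0 := by
        obtain ⟨j, hij, hl⟩ := lf_two ha hi
        exact fun v hv => t_zero h hf hV hv hk (hν v hv) hij hl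
      dsimp only
      rw [hGG u hu i a hi, ← hi]
      exact hz i hzi u hu
    · intro a ha
      obtain ⟨i, hi⟩ := lf_ex a.2
      obtain ⟨j, hij, hl⟩ := lf_two ha hi
      dsimp only
      rw [← hi, hX u hu i, t_zero h hf hV hu hk (hν u hu) hij hl]
      norm_num
    · have h1 := lf_fib lam (fun j => tt g T e j u ^ 2) (fun _ => 1)
      simp only [mul_one] at h1
      rw [sum_tt h hf hV hu] at h1
      exact h1
  · intro s hs c hc
    obtain ⟨i, hi⟩ := lf_ex c.2
    have hu := hmemV s hs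
    have hyu := hval s hs
    have hgg : GG (κ := {a // a ∈ evs lam}) (fun a => a.1) (fun j => X j s) c =
        ∑ l, tt g T e l (u0 + ψ s • v) ^ 2 / (lam i - lam l) := hGG _ hu i c hi
    rw [hgg, ← hi]
    rcases hgen i with hti | hti
    · -- differentiate
      have hXd : HasDerivAt (X c) (deriv (X c) s) s :=
        (((hXsm c).contDiffAt (Ioo_mem_nhds hs.1 hs.2)).differentiableAt (by simp)).hasDerivAt
      have hXeq : ∀ w ∈ V, ν w ^ 2 ∈ Set.Ioo a b → tt g T e i w ^ 2 = X c (ν w ^ 2) := by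
        intro w hw hw'
        have h1 := hfun w hw _ (hmemV _ hw') (hval _ hw').symm c.1 c.2
        rw [← hi, hX w hw i] at h1
        simp only [hXdef]
        rw [← hi]
        exact h1
      generalize u0 + ψ s • v = u at hu hyu
      have e1 : HasFDerivAt (fun v => ν v ^ 2) ((2 * ν u) • fderiv ℝ ν u) u := by
        have h4 := (hdν u hu).hasFDerivAt.pow 2
        simpa using h4
      have e2 : HasFDerivAt (fun v => tt g T e i v ^ 2)
          ((2 * tt g T e i u) • fderiv ℝ (tt g T e i) u) u := by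
        have h4 := (hdt i u hu).hasFDerivAt.pow 2
        simpa using h4
      have e3 : HasFDerivAt (fun v => X c (ν v ^ 2))
          (deriv (X c) s • ((2 * ν u) • fderiv ℝ ν u)) u := by
        have h5 := HasDerivAt.comp_hasFDerivAt (f := fun v => ν v ^ 2) (h₂ := X c) u
          (by rw [hyu]; exact hXd) e1
        exact h5
      have e5 := e2.sub e3
      have e6 : (fun v => tt g T e i v ^ 2 - X c (ν v ^ 2)) =ᶠ[nhds u]
          fun _ => (0 : ℝ) := by
        have h6 : ContinuousAt (fun v => ν v ^ 2) u := e1.continuousAt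
        have h7 : ∀ᶠ w in nhds u, ν w ^ 2 ∈ Set.Ioo a b := by
          refine h6.eventually ?_
          simp only [hyu]
          exact Ioo_mem_nhds hs.1 hs.2
        filter_upwards [hf.op.mem_nhds hu, h7] with w hw hw'
        rw [hXeq w hw hw', sub_self]
      have e7 := e5.fderiv
      have e8 : fderiv ℝ (fun v => tt g T e i v ^ 2 - X c (ν v ^ 2)) u = 0 := by
        rw [e6.fderiv_eq, fderiv_const_apply]
      have e9 := congrArg (fun L : E →L[ℝ] ℝ => L (e i u)) (e8.symm.trans e7)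
      simp only [zero_apply, sub_apply, smul_apply, smul_eq_mul,
        phi h hf hV hk hu (hν u hu) i, dnu h hf hV hu i] at e9
      have hne : 2 * ν u * tt g T e i u ≠ 0 :=
        mul_ne_zero (mul_ne_zero two_ne_zero (hν u hu)) (hti u hu)
      refine mul_left_cancel₀ hne ?_
      rw [mul_zero]
      linear_combination -e9
    · have h0 : X c =ᶠ[nhds s] fun _ => (0 : ℝ) := by
        filter_upwards [Ioo_mem_nhds hs.1 hs.2] with s' hs'
        simp only [hXdef]
        rw [← hi, hX _ (hmemV s' hs') i, hti _ (hmemV s' hs')]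
        norm_num
      rw [h0.deriv_eq, hz i hti _ hu]
      simp

end Pool.Agent.QnS
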