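import Pool.Agent.QnS.GeoOf2
import Pool.Agent.QnS.FrEx
import Pool.Agent.QnS.Loc
import Pool.Agent.QnS.Conv
import Pool.Agent.QnR.Main

/-!
# Hypersurfaces of `Q × ℝ` with constant principal curvatures, second theorem (helper50)

`U` empty: `Isoparametric` is trivial.  Otherwise: `exists_geo2`; the charpoly of `S u` is `P` (as in
`QnR.main`), `exists_fr` gives `P.roots = map lam` of cardinality `n = dim E = natDegree P` (`charpoly` has degree
`finrank`).
* `nu_const2`: `const_of_dense` for `ν²`: suppose `d(ν²) ≠ 0` on all of a nonempty open `V ⊆ U`; then `ν ≠ 0`,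
  `dν ≠ 0` on `V`.  Frame near a point of `V` (`exists_fr` for the open set `V`), then `dense_pts` applied to the
  functions `t_j` (index them by reals, e.g. `f a = tt g T e j` for `a = j` cast to `ℝ`, `Λ` = image of
  `Fin n`), so that on a smaller nonempty open set every `t_j` is nonzero everywhere or zero
  everywhere.  `loc_false`.
* `main2`: `P.natDegree ≤ 5`: if `P.roots` has no multiple elements `nonDegR_five`, otherwise `few` and `QnR.main`.
  Then as in `QnR.main` (`CPC.main`).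
-/

namespace Pool.Agent.QnS

open scoped BigOperators ContDiff
open Pool.Agent.QnR

theorem nu_const2 {E : Type*} [NormedAddCommGroup E] [NormedSpace ℝ E] [FiniteDimensional ℝ E]
    {U : Set E} {k : ℝ} {g : E → E →L[ℝ] E →L[ℝ] ℝ} {S : E → E →L[ℝ] E} {T : E → E}
    {ν : E → ℝ} {Γ : E → E →L[ℝ] E →L[ℝ] E} (h : Geo2 U k g S T ν Γ) (hk : k ≠ 0)
    (P : Polynomial ℝ) (hP : ∀ u ∈ U, LinearMap.charpoly ((S u : E →L[ℝ] E) : E →ₗ[ℝ] E) = P)
    (hn : 2 ≤ P.natDegree) (hnd : NonDegR P.roots) (hc : IsPreconnected U) :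
    ∀ u ∈ U, ∀ u' ∈ U, ν u ^ 2 = ν u' ^ 2 := by
  classical
  refine const_of_dense h.op hc (h.smν.pow 2) ?_
  intro V hV hVne hVU
  by_contra hcon
  push Not at hcon
  have hdν : ∀ u ∈ V, DifferentiableAt ℝ ν u := fun u hu =>
    (h.smν.contDiffAt (h.op.mem_nhds (hVU hu))).differentiableAt (by simp)
  have hsq : ∀ u ∈ V, fderiv ℝ (fun u => ν u ^ 2) u = (2 * ν u) • fderiv ℝ ν u := by
    intro u hu
    have h1 := ((hdν u hu).hasFDerivAt.pow 2).fderiv
    rw [h1]
    simp
  have hν : ∀ u ∈ V, ν u ≠ 0 := by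
    intro u hu h0
    apply hcon u hu
    rw [hsq u hu, h0]
    simp
  have hd : ∀ u ∈ V, fderiv ℝ ν u ≠ 0 := by
    intro u hu h0
    apply hcon u hu
    rw [hsq u hu, h0]
    simp
  obtain ⟨u₀, hu₀⟩ := hVne
  obtain ⟨V', lam, e, hu₀', hV'V, hfr, hroots⟩ := exists_fr hV (h.smg.mono hVU) (h.smS.mono hVU)
    (fun u hu => h.symm u (hVU hu)) (fun u hu => h.pos u (hVU hu))
    (fun u hu => h.sa u (hVU hu)) P (fun u hu => hP u (hVU hu)) hu₀
  have htt : ∀ j, ContinuousOn (tt g T e j) V' := fun j =>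
    (((h.smg.clm_apply h.smT).mono (hV'V.trans hVU)).clm_apply (hfr.sm j)).continuousOn
  obtain ⟨O, hO, hOne, hOV', J, hJ, hx, hx0⟩ := dense_pts hfr.op ⟨u₀, hu₀'⟩
    (Finset.univ.image (fun j : Fin (Module.finrank ℝ E) => ((j : ℕ) : ℝ)))
    (fun a u => ∑ j : Fin (Module.finrank ℝ E), if ((j : ℕ) : ℝ) = a then tt g T e j u else 0)
    (by
      intro a _
      refine continuousOn_finsetSum _ fun j _ => ?_
      by_cases hj : ((j : ℕ) : ℝ) = a
      · simp only [hj, if_true]
        exact htt j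
      · simp only [hj, if_false]
        exact continuousOn_const)
  have hval : ∀ (j : Fin (Module.finrank ℝ E)) (u : E),
      (∑ i : Fin (Module.finrank ℝ E), if ((i : ℕ) : ℝ) = ((j : ℕ) : ℝ) then tt g T e i u else 0)
        = tt g T e j u := by
    intro j u
    rw [Finset.sum_eq_single j]
    · simp
    · intro i _ hij
      rw [if_neg]
      intro hh
      exact hij (Fin.ext (by exact_mod_cast hh))
    · intro hj
      exact absurd (Finset.mem_univ j) hj
  have hOU : O ⊆ U := hOV'.trans (hV'V.trans hVU)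
  have hfrO : Fr O g S lam e :=
    { op := hO
      sm := fun j => (hfr.sm j).mono hOV'
      on := fun u hu => hfr.on u (hOV' hu)
      eig := fun u hu => hfr.eig u (hOV' hu)
      span := fun u hu => hfr.span u (hOV' hu) }
  have hn' : 2 ≤ Module.finrank ℝ E := by
    rw [← hP u₀ (hVU hu₀), LinearMap.charpoly_natDegree] at hn
    exact hn
  refine loc_false h hfrO hOU hOne hk (fun u hu => hν u (hV'V (hOV' hu)))
    (fun u hu => hd u (hV'V (hOV' hu))) ?_ hn' (nonDeg_of lam (by rw [hroots]; exact hnd))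
  intro j
  by_cases hj : ((j : ℕ) : ℝ) ∈ J
  · left
    intro u hu
    have h1 := hx u hu _ hj
    simp only [hval] at h1
    exact h1
  · right
    intro u hu
    have h1 := hx0 u hu _ (Finset.mem_image_of_mem _ (Finset.mem_univ j)) hj
    simp only [hval] at h1
    exact h1

open Pool.Agent.CPC

theorem main2 {ι : Type*} [Fintype ι] {W : ι → Type*} [∀ i, NormedAddCommGroup (W i)]
    [∀ i, NormedSpace ℝ (W i)] [∀ i, FiniteDimensional ℝ (W i)] {E : Type*}
    [NormedAddCommGroup E] [NormedSpace ℝ E] [FiniteDimensional ℝ E]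
    {F : ∀ i, SF (W i)} {U : Set E} (hU : IsPreconnected U) {X ξ : E → ∀ i, W i}
    (h : IsHyp F U X ξ) {i0 i1 : ι} (hne : i0 ≠ i1) (hι : ∀ i, i = i0 ∨ i = i1)
    (hk0 : (F i0).k ≠ 0) (hk1 : (F i1).k = 0) (hd : Module.finrank ℝ (W i1) = 1)
    (P : Polynomial ℝ)
    (hP : ∀ u ∈ U, ∃ S : E →ₗ[ℝ] E, IsShape F X ξ u S ∧ S.charpoly = P)
    (hn : 2 ≤ P.natDegree) (hcond : P.natDegree ≤ 5 ∨ NonDegR P.roots) :
    Isoparametric F U X ξ := by
  classical
  have key : NonDegR P.roots → Isoparametric F U X ξ := by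
    intro hnd
    obtain ⟨g, S, T, ν, Γ, hg, hS, hν⟩ := exists_geo2 h hne hι hk1 hd
    have hSP : ∀ u ∈ U, LinearMap.charpoly ((S u : E →L[ℝ] E) : E →ₗ[ℝ] E) = P := by
      intro u hu
      obtain ⟨S', hS', hP'⟩ := hP u hu
      have : ((S u : E →L[ℝ] E) : E →ₗ[ℝ] E) = S' := by
        ext v
        apply h.inj u hu
        funext i
        rw [hS u hu v i, hS' v i]
      rw [this, hP']
    have hc := nu_const2 hg hk0 P hSP hn hnd hU
    refine CPC.main h ⟨P, hP⟩ ?_
    intro i u hu u' hu'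
    have h1 : (F i1).B (ξ u i1) (ξ u i1) = (F i1).B (ξ u' i1) (ξ u' i1) := by
      rw [hν u hu, hν u' hu', hc u hu u' hu']
    have hsplit : ∀ w : ∀ i, W i, ip F w w =
        (F i0).B (w i0) (w i0) + (F i1).B (w i1) (w i1) := by
      intro w
      unfold ip
      have h2 : (Finset.univ : Finset ι) = {i0, i1} := by
        ext i
        simp [hι i]
      rw [h2, Finset.sum_pair hne]
    rcases hι i with rfl | rfl
    · have h3 := h.unit u hu
      have h4 := h.unit u' hu'
      rw [hsplit] at h3 h4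
      linarith
    · exact h1
  rcases hcond with h5 | hnd
  · have hcard : Multiset.card P.roots ≤ 5 := (P.card_roots').trans h5
    by_cases hR : P.roots.Nodup
    · exact key (nonDegR_five _ hR hcard)
    · exact QnR.main hU h hne hι hk0 hk1 hd P hP (Or.inl (few P hR hcard))
  · exact key hnd

end Pool.Agent.QnS
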