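import Pool.Agent.QnS.MultNd
import Pool.Agent.QnS.ExtNd

/-!
# Multisets of cardinality at most seven (helper50)

`sim R`: the elements of count one.  If `R.Nodup`: `nonDegR_seven`.  Otherwise some `p` has
`count p ≥ 2`.  If at most three elements are simple, second alternative (`p` is not simple).  Otherwise
there are at least four simple elements; `card R = ∑_{a ∈ R.toFinset} count a` (`Multiset.toFinset_sum_count_eq`)
`≥ #simple + 2 #multiple`, so (`card R ≤ 7`) `p` is the only multiple element, and `#simple ∈ {4, 5}`, where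
5 is only possible if `card R = 7`, which is excluded.  So there are exactly four simple elements
`R.toFinset.erase p`; if at most three of them are on each side of `p` use `nonDegR_mult`, otherwise
all four are on one side: `nonDegR_right`, `nonDegR_left`.
-/

namespace Pool.Agent.QnS

open scoped BigOperators

open Classical in
theorem pat {R : Multiset ℝ} (h : Multiset.card R ≤ 6 ∨
      (Multiset.card R = 7 ∧ (R.toFinset.filter (fun a => R.count a = 1)).card ≠ 5)) :
    NonDegR R ∨ ((R.toFinset.filter (fun a => R.count a = 1)).card ≤ 3 ∧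
      R.toFinset.filter (fun a => R.count a = 1) ≠ R.toFinset) := by
  by_cases hn : R.Nodup
  · left
    exact nonDegR_seven R hn (by omega)
  obtain ⟨p, hp⟩ : ∃ p, 2 ≤ R.count p := by
    by_contra hcon
    push Not at hcon
    exact hn (Multiset.nodup_iff_count_le_one.mpr fun a => by have := hcon a; omega)
  have hpR : p ∈ R.toFinset := Multiset.mem_toFinset.mpr (Multiset.count_pos.mp (by omega))
  obtain ⟨S, hS⟩ : ∃ S, S = R.toFinset.filter (fun a => R.count a = 1) := ⟨_, rfl⟩
  rw [← hS] at h ⊢
  by_cases h3 : S.card ≤ 3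
  · right
    refine ⟨h3, fun he => ?_⟩
    rw [← he, hS, Finset.mem_filter] at hpR
    omega
  left
  obtain ⟨T, hT⟩ : ∃ T, T = R.toFinset.filter (fun a => ¬ R.count a = 1) := ⟨_, rfl⟩
  have hcard : Multiset.card R = ∑ a ∈ R.toFinset, R.count a :=
    (Multiset.toFinset_sum_count_eq R).symm
  have hsplit : ∑ a ∈ R.toFinset, R.count a = ∑ a ∈ S, R.count a + ∑ a ∈ T, R.count a := by
    rw [hS, hT]
    exact (Finset.sum_filter_add_sum_filter_not _ _ _).symm
  have hS1 : ∑ a ∈ S, R.count a = S.card := by
    rw [Finset.card_eq_sum_ones]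
    refine Finset.sum_congr rfl (fun a ha => ?_)
    rw [hS] at ha
    exact (Finset.mem_filter.mp ha).2
  have hT2 : T.card * 2 ≤ ∑ a ∈ T, R.count a := by
    rw [← smul_eq_mul, ← Finset.sum_const]
    apply Finset.sum_le_sum
    intro a ha
    rw [hT] at ha
    have h1 := Finset.mem_filter.mp ha
    have h2 := Multiset.count_pos.mpr (Multiset.mem_toFinset.mp h1.1)
    have h3 := h1.2
    omega
  have hpT : p ∈ T := by
    rw [hT, Finset.mem_filter]
    exact ⟨hpR, by omega⟩
  have hTpos : 0 < T.card := Finset.card_pos.mpr ⟨p, hpT⟩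
  have hT1 : T.card = 1 := by omega
  have hTp : ∀ a ∈ T, a = p := fun a ha => Finset.card_le_one.mp hT1.le a ha p hpT
  have hs : ∀ a ∈ R, a ≠ p → R.count a = 1 := by
    intro a ha hap
    by_contra hc
    exact hap (hTp a (by rw [hT, Finset.mem_filter]; exact ⟨Multiset.mem_toFinset.mpr ha, hc⟩))
  have hS4 : S.card = 4 := by omega
  have hSe : S = R.toFinset.erase p := by
    ext a
    rw [hS, Finset.mem_filter, Finset.mem_erase]
    constructor
    · rintro ⟨h1, h2⟩
      refine ⟨?_, h1⟩
      rintro rfl
      omega
    · rintro ⟨h1, h2⟩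
      exact ⟨h2, hs a (Multiset.mem_toFinset.mp h2) h1⟩
  have h4 : (R.toFinset.erase p).card = 4 := by rw [← hSe]; exact hS4
  by_cases hR : (R.toFinset.filter (fun a => p < a)).card ≤ 3
  · by_cases hL : (R.toFinset.filter (fun a => a < p)).card ≤ 3
    · exact nonDegR_mult hp hs hR hL
    · refine nonDegR_left hp hs ?_ h4
      have hsub : R.toFinset.filter (fun a => a < p) ⊆ R.toFinset.erase p := by
        intro a ha
        rw [Finset.mem_filter] at ha
        rw [Finset.mem_erase]
        exact ⟨ha.2.ne, ha.1⟩
      have heq := Finset.eq_of_subset_of_card_le hsub (by omega)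
      intro a ha
      by_cases hap : a = p
      · exact hap.le
      · have : a ∈ R.toFinset.erase p := Finset.mem_erase.mpr ⟨hap, Multiset.mem_toFinset.mpr ha⟩
        rw [← heq, Finset.mem_filter] at this
        exact this.2.le
  · refine nonDegR_right hp hs ?_ h4
    have hsub : R.toFinset.filter (fun a => p < a) ⊆ R.toFinset.erase p := by
      intro a ha
      rw [Finset.mem_filter] at ha
      rw [Finset.mem_erase]
      exact ⟨ha.2.ne', ha.1⟩
    have heq := Finset.eq_of_subset_of_card_le hsub (by omega)
    intro a ha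
    by_cases hap : a = p
    · exact hap.ge
    · have : a ∈ R.toFinset.erase p := Finset.mem_erase.mpr ⟨hap, Multiset.mem_toFinset.mpr ha⟩
      rw [← heq, Finset.mem_filter] at this
      exact this.2.le

end Pool.Agent.QnS
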