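import Pool.Agent.QnS.Main
import Pool.Agent.QnS.Pat

/-!
# Hypersurfaces of `Q × ℝ` with constant principal curvatures, final form (helper50)
-/

namespace Pool.Agent.QnS

open scoped BigOperators ContDiff
open Pool.Agent.QnR Pool.Agent.CPC

open Classical in
theorem main3 {ι : Type*} [Fintype ι] {W : ι → Type*} [∀ i, NormedAddCommGroup (W i)]
    [∀ i, NormedSpace ℝ (W i)] [∀ i, FiniteDimensional ℝ (W i)] {E : Type*}
    [NormedAddCommGroup E] [NormedSpace ℝ E] [FiniteDimensional ℝ E]
    {F : ∀ i, SF (W i)} {U : Set E} (hU : IsPreconnected U) {X ξ : E → ∀ i, W i}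
    (h : IsHyp F U X ξ) {i0 i1 : ι} (hne : i0 ≠ i1) (hι : ∀ i, i = i0 ∨ i = i1)
    (hk0 : (F i0).k ≠ 0) (hk1 : (F i1).k = 0) (hd : Module.finrank ℝ (W i1) = 1)
    (P : Polynomial ℝ)
    (hP : ∀ u ∈ U, ∃ S : E →ₗ[ℝ] E, IsShape F X ξ u S ∧ S.charpoly = P)
    (hn : 2 ≤ P.natDegree)
    (hcond : P.natDegree ≤ 6 ∨ (P.natDegree = 7 ∧
      (P.roots.toFinset.filter (fun a => P.rootMultiplicity a = 1)).card ≠ 5) ∨ NonDegR P.roots) :
    Isoparametric F U X ξ := by
  have hcount : ∀ a, P.roots.count a = P.rootMultiplicity a := fun a => Polynomial.count_roots P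
  have hcard : Multiset.card P.roots ≤ P.natDegree := Polynomial.card_roots' P
  have key : (Multiset.card P.roots ≤ 6 ∨ (Multiset.card P.roots = 7 ∧
      (P.roots.toFinset.filter (fun a => P.roots.count a = 1)).card ≠ 5)) ∨ NonDegR P.roots := by
    rcases hcond with h1 | ⟨h1, h2⟩ | h3
    · left; left; omega
    · left
      rw [h1] at hcard
      rcases Nat.lt_or_ge (Multiset.card P.roots) 7 with h4 | h4
      · left; omega
      · right
        refine ⟨le_antisymm hcard h4, ?_⟩
        simpa only [hcount] using h2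
    · right; exact h3
  rcases key with h1 | h1
  · rcases pat h1 with h2 | h2
    · exact main2 hU h hne hι hk0 hk1 hd P hP hn (Or.inr h2)
    · simp only [hcount] at h2
      exact Pool.Agent.QnR.main hU h hne hι hk0 hk1 hd P hP (Or.inl h2)
  · exact main2 hU h hne hι hk0 hk1 hd P hP hn (Or.inr h1)

end Pool.Agent.QnS
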