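import Pool.Agent.QnS.Main3
import Pool.Agent.QnS.Def4
import Pool.Agent.QnS.GeoOf3
import Pool.Agent.QnS.LocFun

/-!
# Hypersurfaces of `Q × ℝ` with constant principal curvatures, final form (helper50)

* `nu_const4`: as `nu_const2` (`Main.lean`, copy the proof), with `loc_fun_false` instead of `loc_false`.  Suppose
  `V ⊆ U` is open, nonempty and `d(ν²) ≠ 0` on `V`.  `hdet` gives `V' ⊆ V` open, nonempty, on which either `ν²` is
  constant (then `d(ν²) = 0` at its points, contradiction) or the moments are functions of `ν²`.  Take the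
  frame and the generic open subset inside `V'` and apply `loc_fun_false`.
* `main4`: the last alternative: `exists_geo3`; the shape operator at `u ∈ U` is `S u` (unique, `h.inj`); the
  vector `v = ν(u) T(u)` satisfies `IsT`; so for `u, u' ∈ V'` with `ν(u)² = ν(u')²`, `AngleDet` says
  `ν(u)² g(S^q T, T) = ν(u')² g(S^q T, T)` (`g = ip ∘ dX`).  In `nu_const4` the functions `ν` do not vanish
  on `V`, so the moments `g(S^q T, T)` agree.  `ConstAngle F V' ξ` at `i1` says that `ν²` is constant on `V'`.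
  Conclude as in `main2` (`CPC.main`).
-/

namespace Pool.Agent.QnS

open scoped BigOperators ContDiff
open Pool.Agent.QnR

theorem nu_const4 {E : Type*} [NormedAddCommGroup E] [NormedSpace ℝ E] [FiniteDimensional ℝ E]
    {U : Set E} {k : ℝ} {g : E → E →L[ℝ] E →L[ℝ] ℝ} {S : E → E →L[ℝ] E} {T : E → E}
    {ν : E → ℝ} {Γ : E → E →L[ℝ] E →L[ℝ] E} (h : Geo2 U k g S T ν Γ) (hk : k ≠ 0)
    (P : Polynomial ℝ) (hP : ∀ u ∈ U, LinearMap.charpoly ((S u : E →L[ℝ] E) : E →ₗ[ℝ] E) = P)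
    (hn : 2 ≤ P.natDegree) (hc : IsPreconnected U)
    (hdet : ∀ V ⊆ U, IsOpen V → V.Nonempty → ∃ V' ⊆ V, IsOpen V' ∧ V'.Nonempty ∧
      ((∀ u ∈ V', ∀ u' ∈ V', ν u ^ 2 = ν u' ^ 2) ∨
      ∀ u ∈ V', ∀ u' ∈ V', ν u ^ 2 = ν u' ^ 2 → ν u ≠ 0 → ∀ q : ℕ,
        g u (((S u) ^ q) (T u)) (T u) = g u' (((S u') ^ q) (T u')) (T u'))) :
    ∀ u ∈ U, ∀ u' ∈ U, ν u ^ 2 = ν u' ^ 2 := by
  classical
  refine const_of_dense h.op hc (h.smν.pow 2) ?_
  intro V0 hV0 hV0ne hV0U
  by_contra hcon0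
  push Not at hcon0
  obtain ⟨V, hVV0, hV, hVne, halt⟩ := hdet V0 hV0U hV0 hV0ne
  have hVU : V ⊆ U := hVV0.trans hV0U
  have hcon : ∀ u ∈ V, fderiv ℝ (fun u => ν u ^ 2) u ≠ 0 := fun u hu => hcon0 u (hVV0 hu)
  rcases halt with halt | mom
  · obtain ⟨u, hu⟩ := hVne
    apply hcon u hu
    have h1 : (fun u => ν u ^ 2) =ᶠ[nhds u] fun _ => ν u ^ 2 := by
      filter_upwards [hV.mem_nhds hu] with u' hu'
      exact halt u' hu' u hu
    rw [h1.fderiv_eq, fderiv_fun_const]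
    rfl
  have hdν : ∀ u ∈ V, DifferentiableAt ℝ ν u := fun u hu =>
    (h.smν.contDiffAt (h.op.mem_nhds (hVU hu))).differentiableAt (by simp)
  have hsq : ∀ u ∈ V, fderiv ℝ (fun u => ν u ^ 2) u = (2 * ν u) • fderiv ℝ ν u := by
    intro u hu
    have h1 := ((hdν u hu).hasFDerivAt.pow 2).fderiv
    rw [h1]
    simp
  have hν : ∀ u ∈ V, ν u ≠ 0 := by
    intro u hu h0
    apply hcon u hu
    rw [hsq u hu, h0]
    simp
  have hd : ∀ u ∈ V, fderiv ℝ ν u ≠ 0 := by
    intro u hu h0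
    apply hcon u hu
    rw [hsq u hu, h0]
    simp
  obtain ⟨u₀, hu₀⟩ := hVne
  obtain ⟨V', lam, e, hu₀', hV'V, hfr, hroots⟩ := exists_fr hV (h.smg.mono hVU) (h.smS.mono hVU)
    (fun u hu => h.symm u (hVU hu)) (fun u hu => h.pos u (hVU hu))
    (fun u hu => h.sa u (hVU hu)) P (fun u hu => hP u (hVU hu)) hu₀
  have htt : ∀ j, ContinuousOn (tt g T e j) V' := fun j =>
    (((h.smg.clm_apply h.smT).mono (hV'V.trans hVU)).clm_apply (hfr.sm j)).continuousOn
  obtain ⟨O, hO, hOne, hOV', J, hJ, hx, hx0⟩ := dense_pts hfr.op ⟨u₀, hu₀'⟩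
    (Finset.univ.image (fun j : Fin (Module.finrank ℝ E) => ((j : ℕ) : ℝ)))
    (fun a u => ∑ j : Fin (Module.finrank ℝ E), if ((j : ℕ) : ℝ) = a then tt g T e j u else 0)
    (by
      intro a _
      refine continuousOn_finsetSum _ fun j _ => ?_
      by_cases hj : ((j : ℕ) : ℝ) = a
      · simp only [hj, if_true]
        exact htt j
      · simp only [hj, if_false]
        exact continuousOn_const)
  have hval : ∀ (j : Fin (Module.finrank ℝ E)) (u : E),
      (∑ i : Fin (Module.finrank ℝ E), if ((i : ℕ) : ℝ) = ((j : ℕ) : ℝ) then tt g T e i u else 0)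
        = tt g T e j u := by
    intro j u
    rw [Finset.sum_eq_single j]
    · simp
    · intro i _ hij
      rw [if_neg]
      intro hh
      exact hij (Fin.ext (by exact_mod_cast hh))
    · intro hj
      exact absurd (Finset.mem_univ j) hj
  have hOU : O ⊆ U := hOV'.trans (hV'V.trans hVU)
  have hOV : O ⊆ V := hOV'.trans hV'V
  have hfrO : Fr O g S lam e :=
    { op := hO
      sm := fun j => (hfr.sm j).mono hOV'
      on := fun u hu => hfr.on u (hOV' hu)
      eig := fun u hu => hfr.eig u (hOV' hu)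
      span := fun u hu => hfr.span u (hOV' hu) }
  have hn' : 2 ≤ Module.finrank ℝ E := by
    rw [← hP u₀ (hVU hu₀), LinearMap.charpoly_natDegree] at hn
    exact hn
  refine loc_fun_false h hfrO hOU hOne hk (fun u hu => hν u (hOV hu))
    (fun u hu => hd u (hOV hu)) ?_ hn' (fun u hu u' hu' hy q => mom u (hOV hu) u' (hOV hu') hy (hν u (hOV hu)) q)
  intro j
  by_cases hj : ((j : ℕ) : ℝ) ∈ J
  · left
    intro u hu
    have h1 := hx u hu _ hj
    simp only [hval] at h1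
    exact h1
  · right
    intro u hu
    have h1 := hx0 u hu _ (Finset.mem_image_of_mem _ (Finset.mem_univ j)) hj
    simp only [hval] at h1
    exact h1

open Pool.Agent.CPC

theorem main4_det {ι : Type*} [Fintype ι] {W : ι → Type*} [∀ i, NormedAddCommGroup (W i)]
    [∀ i, NormedSpace ℝ (W i)] [∀ i, FiniteDimensional ℝ (W i)] {E : Type*}
    [NormedAddCommGroup E] [NormedSpace ℝ E] [FiniteDimensional ℝ E]
    {F : ∀ i, SF (W i)} {U : Set E} (hU : IsPreconnected U) {X ξ : E → ∀ i, W i}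
    (h : IsHyp F U X ξ) {i0 i1 : ι} (hne : i0 ≠ i1) (hι : ∀ i, i = i0 ∨ i = i1)
    (hk0 : (F i0).k ≠ 0) (hk1 : (F i1).k = 0) (hd : Module.finrank ℝ (W i1) = 1)
    (P : Polynomial ℝ)
    (hP : ∀ u ∈ U, ∃ S : E →ₗ[ℝ] E, IsShape F X ξ u S ∧ S.charpoly = P)
    (hn : 2 ≤ P.natDegree) (hdet : LocAngleDet F i1 U X ξ) : Isoparametric F U X ξ := by
  classical
  obtain ⟨g, S, T, ν, Γ, hg, hS, hν, hgm, hTn⟩ := exists_geo3 h hne hι hk1 hd
  have hSP : ∀ u ∈ U, LinearMap.charpoly ((S u : E →L[ℝ] E) : E →ₗ[ℝ] E) = P := by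
    intro u hu
    obtain ⟨S', hS', hP'⟩ := hP u hu
    have : ((S u : E →L[ℝ] E) : E →ₗ[ℝ] E) = S' := by
      ext v
      apply h.inj u hu
      funext i
      rw [hS u hu v i, hS' v i]
    rw [this, hP']
  have hIT : ∀ u ∈ U, IsT F i1 X ξ u (ν u • T u) := by
    intro u hu i
    rw [map_smul, Pi.smul_apply, hTn u hu i, hν u hu]
  have hdet' : ∀ V ⊆ U, IsOpen V → V.Nonempty → ∃ V' ⊆ V, IsOpen V' ∧ V'.Nonempty ∧
      ((∀ u ∈ V', ∀ u' ∈ V', ν u ^ 2 = ν u' ^ 2) ∨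
      ∀ u ∈ V', ∀ u' ∈ V', ν u ^ 2 = ν u' ^ 2 → ν u ≠ 0 → ∀ q : ℕ,
        g u (((S u) ^ q) (T u)) (T u) = g u' (((S u') ^ q) (T u')) (T u')) := by
    intro V hVU hVo hVne
    obtain ⟨V', hV'V, hV'o, hV'ne, halt⟩ := hdet V hVU hVo hVne
    refine ⟨V', hV'V, hV'o, hV'ne, ?_⟩
    rcases halt with halt | halt
    · left
      intro u hu u' hu'
      have h1 := halt i1 u hu u' hu'
      rwa [hν u (hVU (hV'V hu)), hν u' (hVU (hV'V hu'))] at h1
    · right
      intro u hu u' hu' hy hne0 q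
      have huU := hVU (hV'V hu)
      have huU' := hVU (hV'V hu')
      have h1 := halt u hu u' hu' (by rw [hν u huU, hν u' huU', hy]) _ _ _ _ (hS u huU) (hS u' huU')
        (hIT u huU) (hIT u' huU') q
      have h2 : ∀ w : E, (((S w : E →L[ℝ] E) : E →ₗ[ℝ] E) ^ q) (ν w • T w) = ν w • ((S w) ^ q) (T w) := by
        intro w
        rw [map_smul, ← ContinuousLinearMap.toLinearMap_pow]
        rfl
      rw [h2, h2, ← hgm u huU, ← hgm u' huU'] at h1
      simp only [map_smul, ContinuousLinearMap.smul_apply, smul_eq_mul] at h1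
      have h3 : ν u ^ 2 * g u (((S u) ^ q) (T u)) (T u) = ν u ^ 2 * g u' (((S u') ^ q) (T u')) (T u') := by
        rw [show ν u ^ 2 * g u' (((S u') ^ q) (T u')) (T u') = ν u' ^ 2 * g u' (((S u') ^ q) (T u')) (T u') by rw [hy]]
        linarith
      exact mul_left_cancel₀ (pow_ne_zero 2 hne0) h3
  have hc := nu_const4 hg hk0 P hSP hn hU hdet'
  refine CPC.main h ⟨P, hP⟩ ?_
  intro i u hu u' hu'
  have h1 : (F i1).B (ξ u i1) (ξ u i1) = (F i1).B (ξ u' i1) (ξ u' i1) := by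
    rw [hν u hu, hν u' hu', hc u hu u' hu']
  have hsplit : ∀ w : ∀ i, W i, ip F w w =
      (F i0).B (w i0) (w i0) + (F i1).B (w i1) (w i1) := by
    intro w
    unfold ip
    have h2 : (Finset.univ : Finset ι) = {i0, i1} := by
      ext i
      simp [hι i]
    rw [h2, Finset.sum_pair hne]
  rcases hι i with rfl | rfl
  · have h3 := h.unit u hu
    have h4 := h.unit u' hu'
    rw [hsplit] at h3 h4
    linarith
  · exact h1

open Classical in
theorem main4 {ι : Type*} [Fintype ι] {W : ι → Type*} [∀ i, NormedAddCommGroup (W i)]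
    [∀ i, NormedSpace ℝ (W i)] [∀ i, FiniteDimensional ℝ (W i)] {E : Type*}
    [NormedAddCommGroup E] [NormedSpace ℝ E] [FiniteDimensional ℝ E]
    {F : ∀ i, SF (W i)} {U : Set E} (hU : IsPreconnected U) {X ξ : E → ∀ i, W i}
    (h : IsHyp F U X ξ) {i0 i1 : ι} (hne : i0 ≠ i1) (hι : ∀ i, i = i0 ∨ i = i1)
    (hk0 : (F i0).k ≠ 0) (hk1 : (F i1).k = 0) (hd : Module.finrank ℝ (W i1) = 1)
    (P : Polynomial ℝ)
    (hP : ∀ u ∈ U, ∃ S : E →ₗ[ℝ] E, IsShape F X ξ u S ∧ S.charpoly = P)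
    (hn : 2 ≤ P.natDegree)
    (hcond : P.natDegree ≤ 6 ∨ (P.natDegree = 7 ∧
      (P.roots.toFinset.filter (fun a => P.rootMultiplicity a = 1)).card ≠ 5) ∨
      NonDegR P.roots ∨ LocAngleDet F i1 U X ξ) :
    Isoparametric F U X ξ := by
  rcases hcond with h1 | h1 | h1 | h1
  · exact main3 hU h hne hι hk0 hk1 hd P hP hn (Or.inl h1)
  · exact main3 hU h hne hι hk0 hk1 hd P hP hn (Or.inr (Or.inl h1))
  · exact main3 hU h hne hι hk0 hk1 hd P hP hn (Or.inr (Or.inr h1))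
  · exact main4_det hU h hne hι hk0 hk1 hd P hP hn h1

end Pool.Agent.QnS
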