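import Pool.Agent.QnS.Five
import Pool.Agent.QnS.BlkThree

/-!
# At most three points on each side of a root (helper50)

`κ` indexes points `z i` of the line (not necessarily different), `w i` values; the value is zero at all
points with `z i = p` (there is at least one, `i0`), all other points are simple, at most three of them on
each side of `p`, and the equations `∑_j (w i - w j)/(z i - z j)³ = 0` hold at all points different
from `p` (the term `j = i` is `0/0 = 0`).

* `side`: if `|w j| ≤ M` for all `j` with `z j ≤ p`, `M > 0`, then `|w i| < M` for all `i` with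
  `p < z i`.  Cases: the finset `{i | p < z i}` has 0 (nothing to do), 1, 2 or 3 elements (`Finset.card_eq_two`,
  `Finset.card_eq_three`); the positions of its elements are different (`hinj`); in each case, after
  ordering the elements, the sum over `κ` splits into the sum over `O = {j // z j ≤ p}` and the terms of
  the cluster (`Fintype.sum_subtype_add_sum_subtype` or `Finset.sum_filter_add_sum_filter_not`); apply
  `blk_one`, `blk_two`, `blk_three` with `r = i0`.
* `side_left`: the same on the left, by applying `side` to `-z`, `-p` (the equations change sign).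
* `root_three`: let `m_R`, `m_L` be the maxima of `|w|` over the right and left points (0 if there are none);
  for every `ε > 0`: `m_R < max m_L ε` (or no right points) and `m_L < max m_R ε`.  If `m_R > 0` or `m_L > 0`, say
  `m_L ≤ m_R`, `m_R > 0`, take `ε = m_R`: `m_R < m_R`, contradiction.  (Alternatively: suppose some `w i ≠ 0`;
  choose `i` with `|w i|` maximal; it is not at `p`; if it is on the right use `side` with `M = |w i|`; if it
  is on the left use `side_left`.)
* `seven`: choose `r` with at most three `λ_j` below and at most three above (at most seven different numbers: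
  e.g. by induction, or `Finset.orderEmbOfFin` of the image, or: among all `i` with at most three
  elements below take the one with the largest `λ_i`; it has exactly `min 3 (card - 1)` elements below, so
  at most three above).  Apply `root_three` with `z = λ`, `p = λ_r`, `i0 = r` and `w - w r`.
-/

namespace Pool.Agent.QnS

open scoped BigOperators

open Classical in
private theorem split_sum {κ : Type*} [Fintype κ] (z : κ → ℝ) (p : ℝ) (F : κ → ℝ) :
    ∑ j, F j = (∑ o : {j // z j ≤ p}, F o) +
      ∑ j ∈ Finset.univ.filter (fun i => p < z i), F j := by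
  have h1 := Finset.sum_filter_add_sum_filter_not Finset.univ (fun j => z j ≤ p) F
  have h2 : ∑ j ∈ Finset.univ.filter (fun j => z j ≤ p), F j = ∑ o : {j // z j ≤ p}, F o :=
    Finset.sum_subtype _ (by intro x; simp) F
  have h3 : Finset.univ.filter (fun j => ¬ z j ≤ p) = Finset.univ.filter (fun i => p < z i) := by
    ext j
    simp
  rw [← h1, h2, h3]

open Classical in
private theorem two_sorted {κ : Type*} (z : κ → ℝ) (T : Finset κ) (hT : T.card = 2)
    (hinj : ∀ i ∈ T, ∀ j ∈ T, z i = z j → i = j) :
    ∃ a b, T = {a, b} ∧ z a < z b := by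
  obtain ⟨a, b, hab, e⟩ := Finset.card_eq_two.1 hT
  have ha : a ∈ T := by rw [e]; simp
  have hb : b ∈ T := by rw [e]; simp
  have hne : z a ≠ z b := fun h => hab (hinj a ha b hb h)
  rcases lt_or_gt_of_ne hne with h | h
  · exact ⟨a, b, e, h⟩
  · exact ⟨b, a, by rw [e, Finset.pair_comm], h⟩

open Classical in
private theorem three_sorted {κ : Type*} (z : κ → ℝ) (S : Finset κ) (hS : S.card = 3)
    (hinj : ∀ i ∈ S, ∀ j ∈ S, z i = z j → i = j) :
    ∃ a b c, S = {a, b, c} ∧ z a < z b ∧ z b < z c := by
  have hne : S.Nonempty := by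
    rw [← Finset.card_pos, hS]
    norm_num
  obtain ⟨x, hx, hmax⟩ := Finset.exists_max_image S z hne
  have hc : (S.erase x).card = 2 := by
    rw [Finset.card_erase_of_mem hx, hS]
  obtain ⟨a, b, e, hab⟩ := two_sorted z (S.erase x) hc
    (fun i hi j hj h => hinj i (Finset.mem_of_mem_erase hi) j (Finset.mem_of_mem_erase hj) h)
  have hb : b ∈ S.erase x := by rw [e]; simp
  have hbS : b ∈ S := Finset.mem_of_mem_erase hb
  have hbx : b ≠ x := Finset.ne_of_mem_erase hb
  refine ⟨a, b, x, ?_, hab, ?_⟩
  · rw [← Finset.insert_erase hx, e]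
    ext j
    simp only [Finset.mem_insert, Finset.mem_singleton]
    tauto
  · exact lt_of_le_of_ne (hmax b hbS) (fun h => hbx (hinj b hbS x hx h))

open Classical in
theorem side {κ : Type*} [Fintype κ] (z w : κ → ℝ) (p : ℝ) (i0 : κ) (hi0 : z i0 = p)
    (hp : ∀ i, z i = p → w i = 0)
    (hinj : ∀ i j, z i = z j → z i ≠ p → i = j)
    (hR : (Finset.univ.filter (fun i => p < z i)).card ≤ 3)
    (h : ∀ i, z i ≠ p → ∑ j, (w i - w j) / (z i - z j) ^ 3 = 0) {M : ℝ} (hM : 0 < M)
    (hw : ∀ j, z j ≤ p → |w j| ≤ M) : ∀ i, p < z i → |w i| < M := by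
  intro i hi
  have h0 : w i0 = 0 := hp i0 hi0
  have hiS : i ∈ Finset.univ.filter (fun i => p < z i) := by simp [hi]
  have hSinj : ∀ i ∈ Finset.univ.filter (fun i => p < z i),
      ∀ j ∈ Finset.univ.filter (fun i => p < z i), z i = z j → i = j := by
    intro a ha b _ e
    have ha' : p < z a := by simpa using ha
    exact hinj a b e (ne_of_gt ha')
  have hpos : 0 < (Finset.univ.filter (fun i => p < z i)).card := Finset.card_pos.2 ⟨i, hiS⟩
  have hO : ∀ a, p < z a → ∀ o : {j // z j ≤ p}, z o < z a := fun a ha o =>
    lt_of_le_of_lt o.2 ha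
  have hwO : ∀ o : {j // z j ≤ p}, |w o| ≤ M := fun o => hw o o.2
  have hr : w ((⟨i0, le_of_eq hi0⟩ : {j // z j ≤ p}) : κ) = 0 := h0
  have hcases : (Finset.univ.filter (fun i => p < z i)).card = 1 ∨
      (Finset.univ.filter (fun i => p < z i)).card = 2 ∨
      (Finset.univ.filter (fun i => p < z i)).card = 3 := by omega
  rcases hcases with hc | hc | hc
  · obtain ⟨a, e⟩ := Finset.card_eq_one.1 hc
    have hia : i = a := by
      rw [e] at hiS
      exact Finset.mem_singleton.1 hiS
    subst hia
    have h1 := h i (ne_of_gt hi)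
    rw [split_sum z p, e, Finset.sum_singleton, sub_self, zero_div, add_zero] at h1
    exact blk_one (fun o : {j // z j ≤ p} => z o) (fun o => w o) ⟨i0, le_of_eq hi0⟩ hr hM
      (hO i hi) hwO h1
  · obtain ⟨a, b, e, hab⟩ := two_sorted z _ hc hSinj
    have ha : p < z a := by
      have : a ∈ Finset.univ.filter (fun i => p < z i) := by rw [e]; simp
      simpa using this
    have hb : p < z b := ha.trans hab
    have hne : a ≠ b := fun h => (ne_of_lt hab) (by rw [h])
    have h1 := h a (ne_of_gt ha)
    have h2 := h b (ne_of_gt hb)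
    rw [split_sum z p, e, Finset.sum_pair hne, sub_self, zero_div, zero_add] at h1
    rw [split_sum z p, e, Finset.sum_pair hne, sub_self, zero_div, add_zero] at h2
    have h3 := blk_two (wc := w a) (wd := w b) (fun o : {j // z j ≤ p} => z o) (fun o => w o) ⟨i0, le_of_eq hi0⟩ hr hM
      (hO a ha) hab hwO (by linear_combination h2) (by linear_combination h1)
    rw [e] at hiS
    rcases Finset.mem_insert.1 hiS with h4 | h4
    · rw [h4]
      exact h3.1
    · rw [Finset.mem_singleton.1 h4]
      exact h3.2
  · obtain ⟨a, b, c, e, hab, hbc⟩ := three_sorted z _ hc hSinj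
    have ha : p < z a := by
      have : a ∈ Finset.univ.filter (fun i => p < z i) := by rw [e]; simp
      simpa using this
    have hb : p < z b := ha.trans hab
    have hcp : p < z c := hb.trans hbc
    have hne1 : a ≠ b := fun h => (ne_of_lt hab) (by rw [h])
    have hne2 : b ≠ c := fun h => (ne_of_lt hbc) (by rw [h])
    have hne3 : a ≠ c := fun h => (ne_of_lt (hab.trans hbc)) (by rw [h])
    have hn : a ∉ ({b, c} : Finset κ) := by simp [hne1, hne3]
    have h1 := h a (ne_of_gt ha)
    have h2 := h b (ne_of_gt hb)
    have h3 := h c (ne_of_gt hcp)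
    rw [split_sum z p, e, Finset.sum_insert hn, Finset.sum_pair hne2, sub_self, zero_div] at h1
    rw [split_sum z p, e, Finset.sum_insert hn, Finset.sum_pair hne2, sub_self, zero_div] at h2
    rw [split_sum z p, e, Finset.sum_insert hn, Finset.sum_pair hne2, sub_self, zero_div] at h3
    have h4 := blk_three (wc := w a) (wd := w b) (we := w c) (fun o : {j // z j ≤ p} => z o) (fun o => w o) ⟨i0, le_of_eq hi0⟩ hr hM
      (hO a ha) hab hbc hwO (by linear_combination h3) (by linear_combination h2)
      (by linear_combination h1)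
    rw [e] at hiS
    rcases Finset.mem_insert.1 hiS with h5 | h5
    · rw [h5]
      exact h4.1
    · rcases Finset.mem_insert.1 h5 with h6 | h6
      · rw [h6]
        exact h4.2.1
      · rw [Finset.mem_singleton.1 h6]
        exact h4.2.2

open Classical in
private theorem side_left {κ : Type*} [Fintype κ] (z w : κ → ℝ) (p : ℝ) (i0 : κ) (hi0 : z i0 = p)
    (hp : ∀ i, z i = p → w i = 0)
    (hinj : ∀ i j, z i = z j → z i ≠ p → i = j)
    (hL : (Finset.univ.filter (fun i => z i < p)).card ≤ 3)
    (h : ∀ i, z i ≠ p → ∑ j, (w i - w j) / (z i - z j) ^ 3 = 0) {M : ℝ} (hM : 0 < M)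
    (hw : ∀ j, p ≤ z j → |w j| ≤ M) : ∀ i, z i < p → |w i| < M := by
  intro i hi
  refine side (fun i => -z i) w (-p) i0 (by rw [hi0]) (fun i e => hp i (neg_injective e))
    (fun i j e e' => hinj i j (neg_injective e) (fun h => e' (by rw [h]))) ?_ ?_ hM
    (fun j hj => hw j (neg_le_neg_iff.1 hj)) i (neg_lt_neg hi)
  · have e : Finset.univ.filter (fun i => -p < -z i) = Finset.univ.filter (fun i => z i < p) := by
      ext j
      simp
    rw [e]
    exact hL
  · intro i hi'
    have h1 := h i (fun e => hi' (by rw [e]))
    have h2 : ∀ j, (w i - w j) / (-z i - -z j) ^ 3 = -((w i - w j) / (z i - z j) ^ 3) := by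
      intro j
      have e : (-z i - -z j) ^ 3 = -((z i - z j) ^ 3) := by ring
      rw [e, div_neg]
    rw [Finset.sum_congr rfl (fun j _ => h2 j), Finset.sum_neg_distrib, h1, neg_zero]

open Classical in
theorem root_three {κ : Type*} [Fintype κ] (z w : κ → ℝ) (p : ℝ) (i0 : κ) (hi0 : z i0 = p)
    (hp : ∀ i, z i = p → w i = 0)
    (hinj : ∀ i j, z i = z j → z i ≠ p → i = j)
    (hR : (Finset.univ.filter (fun i => p < z i)).card ≤ 3)
    (hL : (Finset.univ.filter (fun i => z i < p)).card ≤ 3)
    (h : ∀ i, z i ≠ p → ∑ j, (w i - w j) / (z i - z j) ^ 3 = 0) : ∀ i, w i = 0 := by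
  by_contra hcon
  push Not at hcon
  obtain ⟨k, hk⟩ := hcon
  obtain ⟨i, -, hi⟩ := Finset.exists_max_image Finset.univ (fun i => |w i|) ⟨i0, Finset.mem_univ _⟩
  have hM : 0 < |w i| := lt_of_lt_of_le (abs_pos.2 hk) (hi k (Finset.mem_univ _))
  have hw : ∀ j, |w j| ≤ |w i| := fun j => hi j (Finset.mem_univ _)
  rcases lt_trichotomy (z i) p with h1 | h1 | h1
  · exact lt_irrefl _ (side_left z w p i0 hi0 hp hinj hL h hM (fun j _ => hw j) i h1)
  · rw [hp i h1, abs_zero] at hM
    exact lt_irrefl _ hM
  · exact lt_irrefl _ (side z w p i0 hi0 hp hinj hR h hM (fun j _ => hw j) i h1)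

open Classical in
private theorem mid_exists {κ : Type*} [Fintype κ] (lam : κ → ℝ) (hinj : Function.Injective lam)
    (hcard : Fintype.card κ ≤ 7) (k : κ) :
    ∃ r, (Finset.univ.filter (fun i => lam i < lam r)).card ≤ 3 ∧
      (Finset.univ.filter (fun i => lam r < lam i)).card ≤ 3 := by
  obtain ⟨m, -, hm⟩ := Finset.exists_min_image Finset.univ lam ⟨k, Finset.mem_univ _⟩
  have hG : (Finset.univ.filter (fun r =>
      (Finset.univ.filter (fun i => lam i < lam r)).card ≤ 3)).Nonempty := by
    refine ⟨m, ?_⟩
    rw [Finset.mem_filter]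
    refine ⟨Finset.mem_univ _, ?_⟩
    have e : Finset.univ.filter (fun i => lam i < lam m) = ∅ := by
      ext j
      simp only [Finset.mem_filter, Finset.mem_univ, true_and, Finset.notMem_empty, iff_false,
        not_lt]
      exact hm j (Finset.mem_univ _)
    rw [e]
    simp
  obtain ⟨r, hrG, hr⟩ := Finset.exists_max_image _ lam hG
  have hr3 : (Finset.univ.filter (fun i => lam i < lam r)).card ≤ 3 := (Finset.mem_filter.1 hrG).2
  refine ⟨r, hr3, ?_⟩
  have htot : (Finset.univ.filter (fun i => lam i < lam r)).card +
      (Finset.univ.filter (fun i => lam r < lam i)).card + 1 ≤ 7 := by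
    have h1 : insert r (Finset.univ.filter (fun i => lam i < lam r) ∪
        Finset.univ.filter (fun i => lam r < lam i)) ⊆ Finset.univ := Finset.subset_univ _
    have h2 := Finset.card_le_card h1
    rw [Finset.card_insert_of_notMem (by simp), Finset.card_union_of_disjoint, Finset.card_univ]
      at h2
    · exact h2.trans hcard
    · rw [Finset.disjoint_left]
      intro j hj hj'
      simp only [Finset.mem_filter, Finset.mem_univ, true_and] at hj hj'
      exact lt_asymm hj hj'
  by_cases hA : (Finset.univ.filter (fun i => lam r < lam i)).Nonempty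
  · obtain ⟨s, hs, hsmin⟩ := Finset.exists_min_image _ lam hA
    have hrs : lam r < lam s := (Finset.mem_filter.1 hs).2
    have e : Finset.univ.filter (fun i => lam i < lam s) =
        insert r (Finset.univ.filter (fun i => lam i < lam r)) := by
      ext j
      simp only [Finset.mem_filter, Finset.mem_univ, true_and, Finset.mem_insert]
      constructor
      · intro hj
        rcases lt_trichotomy (lam j) (lam r) with h1 | h1 | h1
        · exact Or.inr h1
        · exact Or.inl (hinj h1)
        · exact absurd (hsmin j (by simp [h1])) (not_le.2 hj)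
      · rintro (h1 | h1)
        · rw [h1]
          exact hrs
        · exact h1.trans hrs
    have e2 : (Finset.univ.filter (fun i => lam i < lam s)).card =
        (Finset.univ.filter (fun i => lam i < lam r)).card + 1 := by
      rw [e, Finset.card_insert_of_notMem (by simp)]
    by_contra hcon
    have h3 : (Finset.univ.filter (fun i => lam i < lam s)).card ≤ 3 := by omega
    exact absurd (hr s (by rw [Finset.mem_filter]; exact ⟨Finset.mem_univ _, h3⟩)) (not_le.2 hrs)
  · rw [Finset.not_nonempty_iff_eq_empty] at hA
    rw [hA]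
    simp

theorem seven {κ : Type*} [Fintype κ] (lam : κ → ℝ) (hinj : Function.Injective lam)
    (hcard : Fintype.card κ ≤ 7) (w : κ → ℝ)
    (h : ∀ i, ∑ j, (w i - w j) / (lam i - lam j) ^ 3 = 0) : ∀ i j, w i = w j := by
  classical
  intro k l
  obtain ⟨r, h1, h2⟩ := mid_exists lam hinj hcard k
  have h3 := root_three lam (fun i => w i - w r) (lam r) r rfl
    (fun i hi => by rw [hinj hi, sub_self]) (fun i j e _ => hinj e) (by convert h2)
    (by convert h1) (fun i _ => by
      have h4 := h i
      have e : ∀ j, (w i - w r - (w j - w r)) / (lam i - lam j) ^ 3 =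
          (w i - w j) / (lam i - lam j) ^ 3 := by
        intro j
        congr 1
        ring
      rw [Finset.sum_congr rfl (fun j _ => e j)]
      exact h4)
  have h4 := h3 k
  have h5 := h3 l
  linarith

end Pool.Agent.QnS
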