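import Pool.Agent.QnS.Def
import Pool.Agent.QnS.Root

/-!
# Nondegenerate multisets: simple ones of cardinality at most seven; one multiple element (helper50)

* `nonDegR_seven`: as `nonDegR_five` in `Conv.lean`, with `seven` instead of `five`.
* `nonDegR_mult`: `R` is not `Nodup` (`count p ≥ 2`): right alternative.  Let `c` with `c p = 0` and
  `∑_{b ∈ R} (c a + c b)/(a - b)³ = 0` for all `a ∈ R`.  Let `s = R.toFinset.erase p` (simple elements),
  `K` the `s × s` matrix with entries `K a b = 1/(a-b)³` (`a ≠ b`), `K a a = ∑_{b ∈ R} 1/(a-b)³` (the sum over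
  the multiset, `p` counted `m = R.count p` times).  Sums over `R`:
  `(R.map f).sum = ∑_{a ∈ s} f a + m f p` (`Finset.sum_multiset_map_count`).
  `K.mulVec c = 0` on `s` is the hypothesis (as `c p = 0`).  `Kᵀ` is injective: if `Kᵀ w = 0`, i.e.
  `w_a K a a + ∑_{b ≠ a} w_b/(b-a)³ = 0`, i.e. `∑_{b ∈ s} (w_a - w_b)/(a-b)³ + m w_a/(a-p)³ = 0`, then apply
  `root_three` to `κ = s ⊕ Fin m`, `z = Sum.elim (coe) (fun _ => p)`, `w = Sum.elim w 0`: `w = 0`.
  So `det K = det Kᵀ ≠ 0` (`Matrix.exists_mulVec_eq_zero_iff`) and `c = 0` on `s`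
  (`Matrix.eq_zero_of_mulVec_eq_zero`).
-/

namespace Pool.Agent.QnS

open scoped BigOperators

theorem nonDegR_seven (R : Multiset ℝ) (hR : R.Nodup) (hc : Multiset.card R ≤ 7) : NonDegR R := by
  classical
  left
  refine ⟨hR, ?_⟩
  intro w hw a ha b hb
  have hsum : ∀ F : ℝ → ℝ, ∑ j : {a // a ∈ R.toFinset}, F j.1 = (R.map F).sum := by
    intro F
    rw [Finset.sum_coe_sort R.toFinset F]
    change (Multiset.map F R.toFinset.val).sum = _
    rw [Multiset.toFinset_val, Multiset.dedup_eq_self.2 hR]
  have h := seven (κ := {a // a ∈ R.toFinset}) (fun a => a.1) Subtype.val_injective ?_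
    (fun a => w a.1) ?_ ⟨a, Multiset.mem_toFinset.2 ha⟩ ⟨b, Multiset.mem_toFinset.2 hb⟩
  · exact h
  · rw [Fintype.card_coe]
    exact (Multiset.toFinset_card_le R).trans hc
  · intro i
    have h1 := hw i.1 (Multiset.mem_toFinset.1 i.2)
    rw [← hsum] at h1
    exact h1

open Classical in
/-- sum over the multiset: simple elements and `p`. -/
private theorem mn_sum {R : Multiset ℝ} {p : ℝ} (hp : p ∈ R)
    (hs : ∀ a ∈ R, a ≠ p → R.count a = 1) (F : ℝ → ℝ) :
    (R.map F).sum = ∑ a : {a // a ∈ R.toFinset.erase p}, F a.1 + (R.count p : ℝ) * F p := by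
  rw [Finset.sum_multiset_map_count, Finset.sum_coe_sort (R.toFinset.erase p) F,
    ← Finset.sum_erase_add _ _ (Multiset.mem_toFinset.2 hp), nsmul_eq_mul]
  congr 1
  refine Finset.sum_congr rfl fun a ha => ?_
  obtain ⟨h1, h2⟩ := Finset.mem_erase.1 ha
  rw [hs a (Multiset.mem_toFinset.1 h2) h1, one_smul]

open Classical in
theorem nonDegR_mult {R : Multiset ℝ} {p : ℝ} (hp : 2 ≤ R.count p)
    (hs : ∀ a ∈ R, a ≠ p → R.count a = 1)
    (hR : (R.toFinset.filter (fun a => p < a)).card ≤ 3)
    (hL : (R.toFinset.filter (fun a => a < p)).card ≤ 3) : NonDegR R := by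
  have hpR : p ∈ R := Multiset.count_pos.1 (by omega)
  right
  refine ⟨?_, ?_⟩
  · rw [Multiset.nodup_iff_count_le_one]
    intro h
    have := h p
    omega
  intro c hc1 hc2 _ _
  have hcp : c p = 0 := hc1 p hpR hp
  set S : Type := {a // a ∈ R.toFinset.erase p} with hS
  have hSp : ∀ a : S, a.1 ≠ p := fun a => (Finset.mem_erase.1 a.2).1
  have hSR : ∀ a : S, a.1 ∈ R := fun a => Multiset.mem_toFinset.1 (Finset.mem_erase.1 a.2).2
  set T : S → ℝ := fun a => ∑ b : S, 1 / (a.1 - b.1) ^ 3 + (R.count p : ℝ) * (1 / (a.1 - p) ^ 3)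
    with hT
  set K : Matrix S S ℝ := fun a b => 1 / (a.1 - b.1) ^ 3 + if a = b then T a else 0 with hK
  -- the transpose is injective
  have hdet : K.det ≠ 0 := by
    intro hd
    obtain ⟨v, hv0, hv⟩ := Matrix.exists_vecMul_eq_zero_iff.2 hd
    apply hv0
    have hv' : ∀ a : S, ∑ b : S, (v a - v b) / (a.1 - b.1) ^ 3 +
        (R.count p : ℝ) * (v a / (a.1 - p) ^ 3) = 0 := by
      intro a
      have h1 : ∑ b : S, v b * K b a = 0 := congrFun hv a
      have h2 : ∀ b : S, v b * K b a = -(v b / (a.1 - b.1) ^ 3) + if b = a then v a * T a else 0 := by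
        intro b
        have h3 : (b.1 - a.1) ^ 3 = -(a.1 - b.1) ^ 3 := by ring
        simp only [hK]
        by_cases hba : b = a
        · rw [if_pos hba, if_pos hba, hba]
          simp
        · rw [if_neg hba, if_neg hba, h3, add_zero, add_zero, div_neg]
          ring
      rw [Finset.sum_congr rfl fun b _ => h2 b, Finset.sum_add_distrib, Finset.sum_ite_eq',
        if_pos (Finset.mem_univ a)] at h1
      simp only [hT] at h1
      rw [mul_add, Finset.mul_sum] at h1
      have h4 : ∑ b : S, (v a - v b) / (a.1 - b.1) ^ 3 =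
          ∑ b : S, v a * (1 / (a.1 - b.1) ^ 3) + ∑ b : S, -(v b / (a.1 - b.1) ^ 3) := by
        rw [← Finset.sum_add_distrib]
        refine Finset.sum_congr rfl fun b _ => ?_
        ring
      rw [h4]
      linear_combination h1
    have h5 := root_three (κ := S ⊕ Fin (R.count p)) (Sum.elim (fun a => a.1) (fun _ => p))
      (Sum.elim v (fun _ => 0)) p (Sum.inr ⟨0, by omega⟩) rfl ?_ ?_ ?_ ?_ ?_
    · funext a
      exact h5 (Sum.inl a)
    · rintro (a | a) ha
      · exact absurd ha (hSp a)
      · rfl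
    · rintro (a | a) (b | b) hab hap
      · exact congrArg Sum.inl (Subtype.ext hab)
      · exact absurd hab (hSp a)
      · exact absurd rfl hap
      · exact absurd rfl hap
    · refine (Finset.card_le_card_of_injOn (Sum.elim (fun a => a.1) (fun _ => p)) ?_ ?_).trans hR
      · rintro (a | a) ha
        · have ha' := (Finset.mem_filter.1 (Finset.mem_coe.1 ha)).2
          exact Finset.mem_coe.2 (Finset.mem_filter.2
            ⟨(Finset.mem_erase.1 a.2).2, ha'⟩)
        · have ha' := (Finset.mem_filter.1 (Finset.mem_coe.1 ha)).2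
          exact absurd ha' (lt_irrefl p)
      · rintro (a | a) ha (b | b) hb hab
        · exact congrArg Sum.inl (Subtype.ext hab)
        · exact absurd hab (hSp a)
        · exact absurd hab.symm (hSp b)
        · have ha' := (Finset.mem_filter.1 (Finset.mem_coe.1 ha)).2
          exact absurd ha' (lt_irrefl p)
    · refine (Finset.card_le_card_of_injOn (Sum.elim (fun a => a.1) (fun _ => p)) ?_ ?_).trans hL
      · rintro (a | a) ha
        · have ha' := (Finset.mem_filter.1 (Finset.mem_coe.1 ha)).2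
          exact Finset.mem_coe.2 (Finset.mem_filter.2
            ⟨(Finset.mem_erase.1 a.2).2, ha'⟩)
        · have ha' := (Finset.mem_filter.1 (Finset.mem_coe.1 ha)).2
          exact absurd ha' (lt_irrefl p)
      · rintro (a | a) ha (b | b) hb hab
        · exact congrArg Sum.inl (Subtype.ext hab)
        · exact absurd hab (hSp a)
        · exact absurd hab.symm (hSp b)
        · have ha' := (Finset.mem_filter.1 (Finset.mem_coe.1 ha)).2
          exact absurd ha' (lt_irrefl p)
    · rintro (a | a) ha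
      · rw [Fintype.sum_sum_type]
        simp only [Sum.elim_inl, Sum.elim_inr, sub_zero, Finset.sum_const, Finset.card_univ,
          Fintype.card_fin, nsmul_eq_mul]
        exact hv' a
      · exact absurd rfl ha
  have hKc : Matrix.mulVec K (fun a => c a.1) = 0 := by
    funext a
    have h1 := hc2 a.1 (hSR a)
    rw [mn_sum hpR hs, hcp, add_zero] at h1
    show ∑ b : S, K a b * c b.1 = 0
    have h2 : ∀ b : S, K a b * c b.1 = c b.1 / (a.1 - b.1) ^ 3 + if a = b then T a * c b.1 else 0 := by
      intro b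
      simp only [hK]
      by_cases hba : a = b
      · rw [if_pos hba, if_pos hba]
        ring
      · rw [if_neg hba, if_neg hba]
        ring
    rw [Finset.sum_congr rfl fun b _ => h2 b, Finset.sum_add_distrib, Finset.sum_ite_eq,
      if_pos (Finset.mem_univ a)]
    simp only [hT]
    rw [add_mul, Finset.sum_mul]
    have h4 : ∑ b : S, (c a.1 + c b.1) / (a.1 - b.1) ^ 3 =
        ∑ b : S, c b.1 / (a.1 - b.1) ^ 3 + ∑ b : S, 1 / (a.1 - b.1) ^ 3 * c a.1 := by
      rw [← Finset.sum_add_distrib]
      refine Finset.sum_congr rfl fun b _ => ?_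
      ring
    rw [h4] at h1
    linear_combination h1
  have hc0 := Matrix.eq_zero_of_mulVec_eq_zero hdet hKc
  intro a ha
  by_cases hap : a = p
  · rw [hap, hcp]
  · exact congrFun hc0 ⟨a, Finset.mem_erase.2 ⟨hap, Multiset.mem_toFinset.2 ha⟩⟩

end Pool.Agent.QnS
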