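import Pool.Agent.QnS.Def

/-!
# Connection coefficients of an eigenframe, first order identities (helper50)

`V ⊆ U`, `e` an orthonormal eigenframe on `V`, `u ∈ V`.  `ω_ijl = om i j l u = g(∇_{e_i} e_j, e_l)`, `t_j = tt j u`.
* `dg_nab`: product rule with `dg`: `∂_v g(Y, Z) = g(∇_v Y, Z) + g(Y, ∇_v Z)`.
* `om_skew`: differentiate `g(e_j, e_l) = const`.
* `nab_exp`, `T_exp`, `sum_tt`: expansion in the orthonormal frame (`span`), `g(T, T) = 1 - ν²`.
* `om_sm`, `tt_sm`: smoothness (`smΓ`, `smg`, `Fr.sm`, `fderiv` of a smooth map on an open set).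
* `cod_om`: `DS S Γ u v (e_j u) = λ_j ∇_v e_j - S (∇_v e_j)`: differentiate `S (e_j) = λ_j e_j` in the direction
  `v`: `(∂_v S) e_j + S (∂_v e_j) = λ_j ∂_v e_j`.  With `sa` its product with `e_l` is `(λ_j - λ_l) g(∇_v e_j, e_l)`.
  Insert in the Codazzi equation `cod` for `v = e_i`, `w = e_j` and take the product with `e_l`.
* `dtt`: `t_j = g(T, e_j)`, `∇_v T = ν S v` (`dT`); `g(ν S e_i, e_j) = ν λ_i δ_ij`, `g(T, ∇_{e_i} e_j) = ∑ t_l ω_ijl`.
* `dnu`: `dν(e_i) = -g(T, S e_i)`.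
* `t_zero`: `i ≠ j`, `λ_i = λ_j`: `cod_om` with `(i, j, l) := (j, i, j)`: `(λ_i - λ_j) ω_jij - (λ_j - λ_j) ω_ijj = k ν t_i`
  (`δ_jj = 1`), so `k ν t_i = 0`.
* `om_iji`: `cod_om` with `l = i ≠ j`: `(λ_j - λ_i) ω_iji - 0 = k ν t_j`.  `om_iil`: `om_skew`.
* `sig_symm`, `sig_zero`: for pairwise different `i, j, l` put `σ_ijl = (λ_j - λ_l) ω_ijl`; `σ_ijl = σ_jil` (`cod_om`),
  `σ_ijl = σ_ilj` (`om_skew`), so `σ` is totally symmetric; it is zero if two of the three eigenvalues agree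
  (move the two equal ones to the last two places).
-/

namespace Pool.Agent.QnS

open scoped BigOperators ContDiff
open Pool.Agent.QnR

variable {E : Type*} [NormedAddCommGroup E] [NormedSpace ℝ E] [FiniteDimensional ℝ E]
  {U V : Set E} {k : ℝ} {g : E → E →L[ℝ] E →L[ℝ] ℝ} {S : E → E →L[ℝ] E} {T : E → E}
  {ν : E → ℝ} {Γ : E → E →L[ℝ] E →L[ℝ] E} {J : Type*} [Fintype J] [DecidableEq J] {lam : J → ℝ}
  {e : J → E → E}

omit [FiniteDimensional ℝ E] in
private theorem om_diff {F : Type*} [NormedAddCommGroup F] [NormedSpace ℝ F] {W : Set E} {f : E → F}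
    (hW : IsOpen W) (hf : ContDiffOn ℝ ∞ f W) {u : E} (hu : u ∈ W) : DifferentiableAt ℝ f u :=
  (hf.contDiffAt (hW.mem_nhds hu)).differentiableAt (by simp)

theorem dg_nab (h : Geo2 U k g S T ν Γ) {u : E} (hu : u ∈ U) {Y Z : E → E}
    (hY : DifferentiableAt ℝ Y u) (hZ : DifferentiableAt ℝ Z u) (v : E) :
    fderiv ℝ (fun x => g x (Y x) (Z x)) u v = g u (nab Γ Y u v) (Z u) + g u (Y u) (nab Γ Z u v) := by
  have hg : DifferentiableAt ℝ g u := om_diff h.op h.smg hu
  have h1 := (hg.hasFDerivAt.clm_apply hY.hasFDerivAt).clm_apply hZ.hasFDerivAt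
  rw [h1.fderiv]
  simp only [ContinuousLinearMap.add_apply, ContinuousLinearMap.comp_apply,
    ContinuousLinearMap.flip_apply]
  rw [h.dg u hu]
  unfold nab
  rw [map_add, map_add, ContinuousLinearMap.add_apply]
  ring

theorem om_skew (h : Geo2 U k g S T ν Γ) (hf : Fr V g S lam e) (hV : V ⊆ U) {u : E} (hu : u ∈ V)
    (i j l : J) : om g Γ e i j l u = -om g Γ e i l j u := by
  have hU : u ∈ U := hV hu
  have hc : (fun x => g x (e j x) (e l x)) =ᶠ[nhds u] fun _ => if j = l then (1 : ℝ) else 0 := by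
    filter_upwards [hf.op.mem_nhds hu] with x hx
    exact hf.on x hx j l
  have h0 : fderiv ℝ (fun x => g x (e j x) (e l x)) u = 0 := by
    rw [hc.fderiv_eq, fderiv_const_apply]
  have h1 := dg_nab h hU (om_diff hf.op (hf.sm j) hu) (om_diff hf.op (hf.sm l) hu) (e i u)
  rw [h0, ContinuousLinearMap.zero_apply, h.symm u hU (e j u)] at h1
  unfold om
  linarith

theorem nab_exp (h : Geo2 U k g S T ν Γ) (hf : Fr V g S lam e) (hV : V ⊆ U) {u : E} (hu : u ∈ V)
    (i j : J) : nab Γ (e j) u (e i u) = ∑ l, om g Γ e i j l u • e l u := by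
  exact (hf.span u hu (nab Γ (e j) u (e i u))).symm

theorem T_exp (h : Geo2 U k g S T ν Γ) (hf : Fr V g S lam e) (hV : V ⊆ U) {u : E} (hu : u ∈ V) :
    T u = ∑ l, tt g T e l u • e l u := by
  exact (hf.span u hu (T u)).symm

theorem sum_tt (h : Geo2 U k g S T ν Γ) (hf : Fr V g S lam e) (hV : V ⊆ U) {u : E} (hu : u ∈ V) :
    ∑ l, tt g T e l u ^ 2 = 1 - ν u ^ 2 := by
  have h1 := h.TT u (hV hu)
  have h2 : g u (T u) (T u) = ∑ l, tt g T e l u ^ 2 := by
    have h3 := T_exp h hf hV hu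
    have h4 : g u (T u) (T u) = g u (T u) (∑ l, tt g T e l u • e l u) := by rw [← h3]
    rw [h4, map_sum]
    refine Finset.sum_congr rfl fun l _ => ?_
    rw [map_smul, smul_eq_mul, sq]
    rfl
  rw [← h2, h1]

theorem om_sm (h : Geo2 U k g S T ν Γ) (hf : Fr V g S lam e) (hV : V ⊆ U) (i j l : J) :
    ContDiffOn ℝ ∞ (om g Γ e i j l) V := by
  have h1 : ContDiffOn ℝ ∞ (fun u => nab Γ (e j) u (e i u)) V := by
    have h2 : ContDiffOn ℝ ∞ (fderiv ℝ (e j)) V := (hf.sm j).fderiv_of_isOpen hf.op (by simp)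
    exact (h2.clm_apply (hf.sm i)).add (((h.smΓ.mono hV).clm_apply (hf.sm i)).clm_apply (hf.sm j))
  exact ((h.smg.mono hV).clm_apply h1).clm_apply (hf.sm l)

theorem tt_sm (h : Geo2 U k g S T ν Γ) (hf : Fr V g S lam e) (hV : V ⊆ U) (j : J) :
    ContDiffOn ℝ ∞ (tt g T e j) V := by
  exact ((h.smg.mono hV).clm_apply (h.smT.mono hV)).clm_apply (hf.sm j)

private theorem om_DS (h : Geo2 U k g S T ν Γ) (hf : Fr V g S lam e) (hV : V ⊆ U) {u : E} (hu : u ∈ V)
    (i j l : J) : g u (DS S Γ u (e i u) (e j u)) (e l u) = (lam j - lam l) * om g Γ e i j l u := by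
  have hU : u ∈ U := hV hu
  have hS : DifferentiableAt ℝ S u := om_diff h.op h.smS hU
  have he : DifferentiableAt ℝ (e j) u := om_diff hf.op (hf.sm j) hu
  have hc : (fun x => S x (e j x)) =ᶠ[nhds u] fun x => lam j • e j x := by
    filter_upwards [hf.op.mem_nhds hu] with x hx
    exact hf.eig x hx j
  have h1 : fderiv ℝ (fun x => S x (e j x)) u (e i u) = lam j • fderiv ℝ (e j) u (e i u) := by
    rw [hc.fderiv_eq]
    have h2 := he.hasFDerivAt.const_smul (lam j)
    have h3 : fderiv ℝ (fun x => lam j • e j x) u = lam j • fderiv ℝ (e j) u := h2.fderiv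
    rw [h3]
    rfl
  have h4 := hS.hasFDerivAt.clm_apply he.hasFDerivAt
  rw [h4.fderiv] at h1
  simp only [ContinuousLinearMap.add_apply, ContinuousLinearMap.comp_apply,
    ContinuousLinearMap.flip_apply] at h1
  have h5 : DS S Γ u (e i u) (e j u) = lam j • nab Γ (e j) u (e i u) - S u (nab Γ (e j) u (e i u)) := by
    unfold DS nab
    rw [hf.eig u hu j, map_smul, map_add, smul_add, ← h1]
    abel
  rw [h5, map_sub, map_smul, ContinuousLinearMap.sub_apply, ContinuousLinearMap.smul_apply,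
    h.sa u hU, hf.eig u hu l, map_smul, smul_eq_mul, smul_eq_mul]
  unfold om
  ring

theorem cod_om (h : Geo2 U k g S T ν Γ) (hf : Fr V g S lam e) (hV : V ⊆ U) {u : E} (hu : u ∈ V)
    (i j l : J) :
    (lam j - lam l) * om g Γ e i j l u - (lam i - lam l) * om g Γ e j i l u =
      k * ν u * (tt g T e j u * (if i = l then 1 else 0) - tt g T e i u * (if j = l then 1 else 0)) := by
  have hU : u ∈ U := hV hu
  have h1 := h.cod u hU (e i u) (e j u)
  have h2 : g u (DS S Γ u (e i u) (e j u) - DS S Γ u (e j u) (e i u)) (e l u) =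
      g u ((k * ν u) • (g u (T u) (e j u) • e i u - g u (T u) (e i u) • e j u)) (e l u) := by
    rw [h1]
  rw [map_sub, ContinuousLinearMap.sub_apply, om_DS h hf hV hu, om_DS h hf hV hu, map_smul,
    ContinuousLinearMap.smul_apply, map_sub, ContinuousLinearMap.sub_apply, map_smul, map_smul,
    ContinuousLinearMap.smul_apply, ContinuousLinearMap.smul_apply, hf.on u hu i l,
    hf.on u hu j l] at h2
  simp only [smul_eq_mul] at h2
  exact h2

theorem dtt (h : Geo2 U k g S T ν Γ) (hf : Fr V g S lam e) (hV : V ⊆ U) {u : E} (hu : u ∈ V)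
    (i j : J) : fderiv ℝ (tt g T e j) u (e i u) =
      ν u * lam j * (if i = j then 1 else 0) + ∑ l, tt g T e l u * om g Γ e i j l u := by
  have hU : u ∈ U := hV hu
  have h1 := dg_nab h hU (om_diff h.op h.smT hU) (om_diff hf.op (hf.sm j) hu) (e i u)
  have h2 : nab Γ T u (e i u) = ν u • (lam i • e i u) := by
    unfold nab
    rw [h.dT u hU, hf.eig u hu i]
  have h3 : g u (T u) (nab Γ (e j) u (e i u)) = ∑ l, tt g T e l u * om g Γ e i j l u := by
    rw [nab_exp h hf hV hu i j, map_sum]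
    refine Finset.sum_congr rfl fun l _ => ?_
    rw [map_smul, smul_eq_mul, mul_comm]
    rfl
  have h4 : fderiv ℝ (tt g T e j) u (e i u) = fderiv ℝ (fun x => g x (T x) (e j x)) u (e i u) := rfl
  rw [h4, h1, h2, h3, map_smul, map_smul, ContinuousLinearMap.smul_apply,
    ContinuousLinearMap.smul_apply, hf.on u hu i j, smul_eq_mul, smul_eq_mul]
  congr 1
  by_cases hij : i = j
  · rw [hij]
    ring
  · rw [if_neg hij]
    ring

theorem dnu (h : Geo2 U k g S T ν Γ) (hf : Fr V g S lam e) (hV : V ⊆ U) {u : E} (hu : u ∈ V)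
    (i : J) : fderiv ℝ ν u (e i u) = -(lam i * tt g T e i u) := by
  rw [h.dν u (hV hu), hf.eig u hu i, map_smul, smul_eq_mul]
  rfl

theorem t_zero (h : Geo2 U k g S T ν Γ) (hf : Fr V g S lam e) (hV : V ⊆ U) {u : E} (hu : u ∈ V)
    (hk : k ≠ 0) (hν : ν u ≠ 0) {i j : J} (hij : i ≠ j) (hl : lam i = lam j) :
    tt g T e i u = 0 := by
  have h1 := cod_om h hf hV hu j i j
  rw [if_pos rfl, if_neg hij, hl] at h1
  have h2 : k * ν u * tt g T e i u = 0 := by linarith
  exact (mul_eq_zero.1 h2).resolve_left (mul_ne_zero hk hν)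

theorem om_iji (h : Geo2 U k g S T ν Γ) (hf : Fr V g S lam e) (hV : V ⊆ U) {u : E} (hu : u ∈ V)
    {i j : J} (hl : lam i ≠ lam j) :
    om g Γ e i j i u = -(k * ν u * tt g T e j u / (lam i - lam j)) := by
  have hij : i ≠ j := fun hc => hl (by rw [hc])
  have h1 := cod_om h hf hV hu i j i
  rw [if_pos rfl, if_neg hij.symm] at h1
  have h2 : lam i - lam j ≠ 0 := sub_ne_zero.2 hl
  rw [eq_neg_iff_add_eq_zero, ← mul_right_inj' h2, mul_add, mul_zero, mul_div_cancel₀ _ h2]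
  linarith

theorem om_iij (h : Geo2 U k g S T ν Γ) (hf : Fr V g S lam e) (hV : V ⊆ U) {u : E} (hu : u ∈ V)
    {i j : J} (hl : lam i ≠ lam j) :
    om g Γ e i i j u = k * ν u * tt g T e j u / (lam i - lam j) := by
  rw [om_skew h hf hV hu, om_iji h hf hV hu hl, neg_neg]

/-- `σ_ijl` -/
noncomputable def sig (g : E → E →L[ℝ] E →L[ℝ] ℝ) (Γ : E → E →L[ℝ] E →L[ℝ] E) (lam : J → ℝ)
    (e : J → E → E) (i j l : J) (u : E) : ℝ := (lam j - lam l) * om g Γ e i j l u

theorem sig_symm (h : Geo2 U k g S T ν Γ) (hf : Fr V g S lam e) (hV : V ⊆ U) {u : E} (hu : u ∈ V)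
    {i j l : J} (hij : i ≠ j) (hil : i ≠ l) (hjl : j ≠ l) :
    sig g Γ lam e i j l u = sig g Γ lam e j i l u ∧ sig g Γ lam e i j l u = sig g Γ lam e i l j u := by
  have h1 := cod_om h hf hV hu i j l
  rw [if_neg hil, if_neg hjl] at h1
  have h2 := om_skew h hf hV hu i j l
  unfold sig
  refine ⟨by linarith, ?_⟩
  rw [h2]
  ring

theorem sig_zero (h : Geo2 U k g S T ν Γ) (hf : Fr V g S lam e) (hV : V ⊆ U) {u : E} (hu : u ∈ V)
    {i j l : J} (hij : i ≠ j) (hil : i ≠ l) (hjl : j ≠ l)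
    (hl : lam i = lam j ∨ lam i = lam l ∨ lam j = lam l) : sig g Γ lam e i j l u = 0 := by
  obtain ⟨h1, h2⟩ := sig_symm h hf hV hu hij hil hjl
  rcases hl with hl | hl | hl
  · have h3 := (sig_symm h hf hV hu hil hij hjl.symm).1
    rw [h2, h3]
    unfold sig
    rw [hl, sub_self, zero_mul]
  · rw [h1]
    unfold sig
    rw [hl, sub_self, zero_mul]
  · unfold sig
    rw [hl, sub_self, zero_mul]

end Pool.Agent.QnS
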